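import Pool.Agent.H.MP_ee9c6f_al.E2.Upper

/-!
MP_ee9c6f_al, genus 2 (helper40). The type of the first letter in an amalgamated product.
-/

set_option autoImplicit false

namespace Pool.Agent.H.MP_ee9c6f_al.E2

open Monoid PushoutI NormalWord

section First

variable {ι : Type*} {G : ι → Type*} {H : Type*} [∀ i, Group (G i)] [Group H]
  {φ : ∀ i, H →* G i} (d : Transversal φ)

/-- The index of the first letter of the normal form. -/
noncomputable def fst (g : PushoutI φ) : Option ι := by
  classical exact (g • (NormalWord.empty : NormalWord d)).fstIdx

theorem fst_prod (w : NormalWord d) : fst d w.prod = w.fstIdx := by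
  classical
  unfold fst
  congr 2
  convert prod_smul_empty w

theorem exists_word (g : PushoutI φ) : ∃ w : NormalWord d, w.prod = g := by
  classical
  exact ⟨NormalWord.equiv g, NormalWord.equiv.symm_apply_apply g⟩

theorem fst_one : fst d (1 : PushoutI φ) = none := by
  have := fst_prod d (NormalWord.empty : NormalWord d)
  rw [prod_empty] at this
  rw [this]
  rfl

theorem fst_base_mul (h : H) (g : PushoutI φ) : fst d (base φ h * g) = fst d g := by
  obtain ⟨w, rfl⟩ := exists_word d g
  rw [← prod_base_smul, fst_prod, fst_prod]
  rfl

theorem fst_base (h : H) : fst d (base φ h) = none := by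
  rw [← mul_one (base φ h), fst_base_mul, fst_one]

theorem fst_of_mul {i : ι} {a : G i} (ha : a ∉ (φ i).range) {g : PushoutI φ}
    (hg : fst d g ≠ some i) : fst d (PushoutI.of i a * g) = some i := by
  obtain ⟨w, rfl⟩ := exists_word d g
  rw [fst_prod] at hg
  rw [← prod_cons a w hg ha, fst_prod]
  rfl

theorem fst_of {i : ι} {a : G i} (ha : a ∉ (φ i).range) :
    fst d (PushoutI.of i a : PushoutI φ) = some i := by
  rw [← mul_one (PushoutI.of i a : PushoutI φ)]
  apply fst_of_mul d ha
  rw [fst_one]
  exact Option.some_ne_none i |>.symm

theorem fst_of_ne {i j : ι} (hij : j ≠ i) (a : G i) :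
    fst d (PushoutI.of i a : PushoutI φ) ≠ some j := by
  by_cases ha : a ∈ (φ i).range
  · obtain ⟨h, rfl⟩ := ha
    rw [of_apply_eq_base, fst_base]
    simp
  · rw [fst_of d ha]
    intro h
    exact hij (Option.some_injective _ h).symm

theorem base_of_fst {g : PushoutI φ} (hg : fst d g = none) : ∃ h, g = base φ h := by
  obtain ⟨w, rfl⟩ := exists_word d g
  rw [fst_prod] at hg
  refine ⟨w.head, ?_⟩
  have h1 : w.toWord = CoprodI.Word.empty := by
    apply CoprodI.Word.ext
    simpa [CoprodI.Word.fstIdx] using hg
  rw [NormalWord.prod, h1]
  simp

theorem fst_mul_of (g : PushoutI φ) : ∀ (i j : ι), j ≠ i → ∀ s : G i,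
    (fst d (g * PushoutI.of i s) = some j ↔ fst d g = some j) := by
  classical
  obtain ⟨w, rfl⟩ := exists_word d g
  induction w using NormalWord.consRecOn with
  | empty =>
    intro i j hij s
    rw [prod_empty, one_mul, fst_one]
    have := fst_of_ne d hij s
    constructor
    · intro h
      exact absurd h this
    · intro h
      exact absurd h.symm (Option.some_ne_none j)
  | base h w _ ih =>
    intro i j hij s
    have e : (base φ h • w).prod = base φ h * w.prod := prod_smul _ _
    rw [e, mul_assoc, fst_base_mul, fst_base_mul]
    exact ih i j hij s
  | cons k a w hk _ ha _ ih =>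
    intro i j hij s
    rw [prod_cons, mul_assoc]
    have hk' : fst d w.prod ≠ some k := by rwa [fst_prod]
    rw [fst_of_mul d ha hk']
    by_cases hkj : k = j
    · subst hkj
      have h1 : fst d (w.prod * PushoutI.of i s) ≠ some k := by
        rw [ne_eq, ih i k hij s]
        exact hk'
      rw [fst_of_mul d ha h1]
    · have hne : (some k = some j) = False := by
        simp [hkj]
      rw [hne, iff_false]
      by_cases h2 : fst d (w.prod * PushoutI.of i s) = some k
      · by_cases hki : k = i
        · subst hki
          -- then `w.prod` is in the base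
          rcases hw : fst d w.prod with _ | l
          · obtain ⟨c, hc⟩ := base_of_fst d hw
            rw [hc, ← of_apply_eq_base φ k, ← map_mul, ← map_mul]
            exact fst_of_ne d (Ne.symm hkj) _
          · have hlk : l ≠ k := by
              rintro rfl
              exact hk' hw
            have h3 := (ih k l hlk s).mpr hw
            rw [h2] at h3
            exact absurd (Option.some_injective _ h3).symm hlk
        · exact absurd ((ih i k hki s).mp h2) hk'
      · rw [fst_of_mul d ha h2]
        simpa using hkj

/-- If the type of the first letter changes from `i` under right multiplication by an element of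
`G i`, then the product is in the base. -/
theorem base_of_change {g : PushoutI φ} {i : ι} {s : G i} (hg : fst d g = some i)
    (hgs : fst d (g * PushoutI.of i s) ≠ some i) :
    ∃ h, g * PushoutI.of i s = base φ h := by
  rcases h : fst d (g * PushoutI.of i s) with _ | j
  · exact base_of_fst d h
  · have hji : j ≠ i := by
      rintro rfl
      exact hgs h
    have := (fst_mul_of d g i j hji s).mp h
    rw [hg] at this
    exact absurd (Option.some_injective _ this).symm hji

end First

end Pool.Agent.H.MP_ee9c6f_al.E2
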