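import Pool.Agent.H.MP_ee9c6f_al.E2.Ends

/-!
MP_ee9c6f_al, genus 2 (helper40). Virtual surjections with finitely generated kernel.
-/

set_option autoImplicit false

namespace Pool.Agent.H.MP_ee9c6f_al.E2

open Pointwise

/-! ### Finite generation -/

theorem fg_of_map {A B : Type*} [Group A] [Group B] (φ : A →* B) {K : Subgroup A}
    (h1 : φ.ker ≤ K) (h2 : φ.ker.FG) (h3 : (K.map φ).FG) : K.FG := by
  classical
  obtain ⟨T, hT⟩ := h3
  have hlift : ∀ t : T, ∃ k ∈ K, φ k = t := by
    intro t
    have : (t : B) ∈ K.map φ := by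
      rw [← hT]
      exact Subgroup.subset_closure t.2
    obtain ⟨k, hk, hk'⟩ := this
    exact ⟨k, hk, hk'⟩
  choose r hr hr' using hlift
  have h4 : (φ.ker ⊔ Subgroup.closure (Set.range r)).FG :=
    h2.sup ((Subgroup.fg_iff _).mpr ⟨_, rfl, Set.finite_range r⟩)
  have h5 : φ.ker ⊔ Subgroup.closure (Set.range r) = K := by
    apply le_antisymm
    · refine sup_le h1 ((Subgroup.closure_le _).mpr ?_)
      rintro _ ⟨t, rfl⟩
      exact hr t
    · have h6 : K.map φ ≤ (φ.ker ⊔ Subgroup.closure (Set.range r)).map φ := by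
        rw [← hT, Subgroup.closure_le]
        intro t ht
        exact ⟨r ⟨t, ht⟩, Subgroup.mem_sup_right (Subgroup.subset_closure ⟨_, rfl⟩), hr' ⟨t, ht⟩⟩
      rw [Subgroup.map_le_map_iff] at h6
      refine h6.trans (sup_le le_rfl le_sup_left)
  rwa [h5] at h4

theorem FG.map {A B : Type*} [Group A] [Group B] (φ : A →* B) {K : Subgroup A} (h : K.FG) :
    (K.map φ).FG := by
  classical
  obtain ⟨S, rfl⟩ := h
  refine ⟨S.image φ, ?_⟩
  rw [MonoidHom.map_closure, Finset.coe_image]

theorem FG.comap_of_surjective {A B : Type*} [Group A] [Group B] {φ : A →* B}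
    (hφ : Function.Surjective φ) (h2 : φ.ker.FG) {P : Subgroup B} (h : P.FG) :
    (P.comap φ).FG := by
  apply fg_of_map φ _ h2
  · rwa [Subgroup.map_comap_eq_self_of_surjective hφ]
  · intro x hx
    rw [Subgroup.mem_comap, MonoidHom.mem_ker.mp hx]
    exact P.one_mem

theorem FG.of_map_injective {A B : Type*} [Group A] [Group B] {φ : A →* B}
    (hφ : Function.Injective φ) {P : Subgroup A} (h : (P.map φ).FG) : P.FG := by
  apply fg_of_map φ _ _ h
  · rw [(MonoidHom.ker_eq_bot_iff φ).mpr hφ]
    exact bot_le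
  · rw [(MonoidHom.ker_eq_bot_iff φ).mpr hφ]
    exact Subgroup.FG.bot

/-! ### Invariance of the number of ends -/

section Iso

variable {G Q X Y : Type*} [Group G] [Group Q] [MulAction G X] [MulAction Q Y]

theorem HasEnds.of_equiv {f : G →* Q} (hf : Function.Surjective f) (e : X ≃ Y)
    (he : ∀ (g : G) (x : X), e (g • x) = f g • e x) {n : ℕ} :
    HasEnds G X n ↔ HasEnds Q Y n := by
  constructor
  · rintro ⟨U, h1, h2⟩
    refine ⟨fun i => e '' U i, fun i j hij => ?_, fun i => ⟨?_, ?_⟩⟩
    · exact Set.disjoint_image_of_injective e.injective (h1 i j hij)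
    · exact (h2 i).1.image e.injective.injOn
    · intro q
      obtain ⟨g, rfl⟩ := hf q
      have h3 : f g • (e '' U i) = e '' (g • U i) := by
        ext y
        constructor
        · rintro ⟨_, ⟨x, hx, rfl⟩, rfl⟩
          exact ⟨g • x, ⟨x, hx, rfl⟩, he g x⟩
        · rintro ⟨_, ⟨x, hx, rfl⟩, rfl⟩
          exact ⟨e x, ⟨x, hx, rfl⟩, (he g x).symm⟩
      unfold AE
      rw [h3, ← Set.image_symmDiff e.injective]
      exact ((h2 i).2 g).image e
  · rintro ⟨U, h1, h2⟩
    refine ⟨fun i => e ⁻¹' U i, fun i j hij => ?_, fun i => ⟨?_, ?_⟩⟩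
    · exact (h1 i j hij).preimage e
    · intro hfin
      apply (h2 i).1
      have := hfin.image e
      rwa [Set.image_preimage_eq _ e.surjective] at this
    · intro g
      have h3 : g • (e ⁻¹' U i) = e ⁻¹' (f g • U i) := by
        ext x
        rw [Set.mem_smul_set_iff_inv_smul_mem, Set.mem_preimage, Set.mem_preimage, he,
          Set.mem_smul_set_iff_inv_smul_mem, map_inv]
      unfold AE
      rw [h3, ← Set.preimage_symmDiff]
      exact ((h2 i).2 (f g)).preimage e.injective.injOn

end Iso

section Index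

variable {M G : Type*} [Group M] [Group G]

/-- The map of coset spaces induced by a homomorphism. -/
def cosetMap (i : M →* G) (H : Subgroup M) : M ⧸ H → G ⧸ H.map i :=
  Quotient.map' i (by
    intro a b hab
    rw [QuotientGroup.leftRel_apply] at hab ⊢
    exact ⟨a⁻¹ * b, hab, by simp⟩)

theorem cosetMap_mk (i : M →* G) (H : Subgroup M) (a : M) :
    cosetMap i H (a : M ⧸ H) = ((i a : G) : G ⧸ H.map i) := rfl

theorem cosetMap_smul (i : M →* G) (H : Subgroup M) (a : M) (x : M ⧸ H) :
    cosetMap i H (a • x) = i a • cosetMap i H x := by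
  induction x using QuotientGroup.induction_on with
  | H b =>
    change cosetMap i H ((a * b : M) : M ⧸ H) = _
    rw [cosetMap_mk, cosetMap_mk, map_mul]
    rfl

theorem cosetMap_injective {i : M →* G} (hi : Function.Injective i) (H : Subgroup M) :
    Function.Injective (cosetMap i H) := by
  intro x y hxy
  induction x using QuotientGroup.induction_on with
  | H a =>
  induction y using QuotientGroup.induction_on with
  | H b =>
  rw [cosetMap_mk, cosetMap_mk, QuotientGroup.eq] at hxy
  obtain ⟨c, hc, hc'⟩ := hxy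
  rw [← map_inv, ← map_mul] at hc'
  rw [QuotientGroup.eq, ← hi hc']
  exact hc

theorem cosetMap_image_smul (i : M →* G) (H : Subgroup M) (a : M) (V : Set (M ⧸ H)) :
    i a • (cosetMap i H '' V) = cosetMap i H '' (a • V) := by
  ext y
  constructor
  · rintro ⟨_, ⟨x, hx, rfl⟩, rfl⟩
    exact ⟨a • x, ⟨x, hx, rfl⟩, cosetMap_smul i H a x⟩
  · rintro ⟨_, ⟨x, hx, rfl⟩, rfl⟩
    exact ⟨cosetMap i H x, ⟨x, hx, rfl⟩, (cosetMap_smul i H a x).symm⟩

theorem cosetMap_preimage_smul (i : M →* G) (H : Subgroup M) (a : M) (W : Set (G ⧸ H.map i)) :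
    a • (cosetMap i H ⁻¹' W) = cosetMap i H ⁻¹' (i a • W) := by
  ext x
  rw [Set.mem_smul_set_iff_inv_smul_mem, Set.mem_preimage, Set.mem_preimage, cosetMap_smul,
    Set.mem_smul_set_iff_inv_smul_mem, map_inv]

theorem hasEnds_index {i : M →* G} (hi : Function.Injective i) (hfin : i.range.FiniteIndex)
    (H : Subgroup M) {n : ℕ} : HasEnds G (G ⧸ H.map i) n ↔ HasEnds M (M ⧸ H) n := by
  classical
  have hQ : Finite (G ⧸ i.range) := Subgroup.finite_quotient_of_finiteIndex
  set j := cosetMap i H with hj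
  have hji := cosetMap_injective hi H
  -- every point is `out q • j x`
  have hcov : ∀ y : G ⧸ H.map i, ∃ (q : G ⧸ i.range) (x : M ⧸ H), y = q.out • j x := by
    intro y
    induction y using QuotientGroup.induction_on with
    | H g =>
    have h1 : (g : G ⧸ i.range) = ((g : G ⧸ i.range).out : G ⧸ i.range) :=
      (QuotientGroup.out_eq' _).symm
    rw [eq_comm, QuotientGroup.eq] at h1
    obtain ⟨a, ha⟩ := h1
    refine ⟨(g : G ⧸ i.range), (a : M ⧸ H), ?_⟩
    rw [hj, cosetMap_mk, ha]
    change _ = (((g : G ⧸ i.range).out * ((g : G ⧸ i.range).out⁻¹ * g) : G) : G ⧸ H.map i)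
    rw [mul_inv_cancel_left]
  have hsep : ∀ (q q' : G ⧸ i.range) (x x' : M ⧸ H), q.out • j x = q'.out • j x' → q = q' := by
    intro q q' x x' h
    induction x using QuotientGroup.induction_on with
    | H a =>
    induction x' using QuotientGroup.induction_on with
    | H a' =>
    rw [hj, cosetMap_mk, cosetMap_mk] at h
    change ((q.out * i a : G) : G ⧸ H.map i) = ((q'.out * i a' : G) : G ⧸ H.map i) at h
    rw [QuotientGroup.eq] at h
    obtain ⟨c, -, hc⟩ := h
    rw [← q.out_eq', ← q'.out_eq']
    rw [QuotientGroup.eq]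
    refine ⟨a * c * a'⁻¹, ?_⟩
    rw [map_mul, map_mul, hc, map_inv]
    group
  constructor
  · rintro ⟨U, h1, h2⟩
    refine ⟨fun k => j ⁻¹' U k, fun k l hkl => (h1 k l hkl).preimage j, fun k => ⟨?_, ?_⟩⟩
    · intro hf
      apply (h2 k).1
      have h3 : (⋃ q : G ⧸ i.range, (q.out • (j '' (j ⁻¹' U k)) ∪ (U k \ q.out • U k))).Finite :=
        Set.finite_iUnion fun q => ((hf.image j).smul_set).union ((h2 k).2 q.out).finite_diff'
      refine h3.subset ?_
      intro y hy
      obtain ⟨q, x, rfl⟩ := hcov y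
      refine Set.mem_iUnion.mpr ⟨q, ?_⟩
      by_cases h4 : q.out • j x ∈ q.out • U k
      · left
        rw [Set.smul_mem_smul_set_iff] at h4 ⊢
        exact ⟨x, h4, rfl⟩
      · exact Or.inr ⟨hy, h4⟩
    · intro a
      unfold AE
      rw [hj, cosetMap_preimage_smul, ← Set.preimage_symmDiff]
      exact ((h2 k).2 (i a)).preimage hji.injOn
  · rintro ⟨V, h1, h2⟩
    refine ⟨fun k => ⋃ q : G ⧸ i.range, q.out • (j '' V k), fun k l hkl => ?_, fun k => ⟨?_, ?_⟩⟩
    · rw [Set.disjoint_left]
      intro y hy hy'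
      obtain ⟨q, hq⟩ := Set.mem_iUnion.mp hy
      obtain ⟨q', hq'⟩ := Set.mem_iUnion.mp hy'
      obtain ⟨_, ⟨x, hx, rfl⟩, rfl⟩ := hq
      obtain ⟨_, ⟨x', hx', rfl⟩, h3⟩ := hq'
      change q'.out • j x' = q.out • j x at h3
      have h4 := hsep q' q x' x h3
      subst h4
      have h5 := hji (smul_left_cancel _ h3)
      subst h5
      exact Set.disjoint_left.mp (h1 k l hkl) hx hx'
    · intro hf
      apply (h2 k).1
      have h3 : (((1 : G) : G ⧸ i.range).out • (j '' V k)).Finite :=
        hf.subset (Set.subset_iUnion (fun q : G ⧸ i.range => q.out • (j '' V k)) _)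
      rw [Set.finite_smul_set] at h3
      exact h3.of_finite_image hji.injOn
    · intro g
      have hstep : ∀ q : G ⧸ i.range, ∃ a : M, g * q.out = (g • q).out * i a := by
        intro q
        have h3 : ((g * q.out : G) : G ⧸ i.range) = (((g • q).out : G) : G ⧸ i.range) := by
          rw [QuotientGroup.out_eq']
          conv_rhs => rw [← q.out_eq']
          rfl
        rw [eq_comm, QuotientGroup.eq] at h3
        obtain ⟨a, ha⟩ := h3
        refine ⟨a, ?_⟩
        rw [ha, mul_inv_cancel_left]
      choose a ha using hstep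
      have h3 : (⋃ q : G ⧸ i.range,
          symmDiff ((g • q).out • (j '' (a q • V k))) ((g • q).out • (j '' V k))).Finite :=
        Set.finite_iUnion fun q => by
          rw [← Set.smul_set_symmDiff, ← Set.image_symmDiff hji]
          exact (((h2 k).2 (a q)).image j).smul_set
      refine h3.subset ?_
      have e1 : ∀ q : G ⧸ i.range, g • q.out • (j '' V k) = (g • q).out • (j '' (a q • V k)) := by
        intro q
        rw [← mul_smul, ha, mul_smul, hj, cosetMap_image_smul]
      rintro y (⟨hy, hy'⟩ | ⟨hy, hy'⟩)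
      · rw [Set.smul_set_iUnion] at hy
        obtain ⟨q, hq⟩ := Set.mem_iUnion.mp hy
        rw [e1] at hq
        refine Set.mem_iUnion.mpr ⟨q, Or.inl ⟨hq, fun h4 => hy' ?_⟩⟩
        exact Set.mem_iUnion.mpr ⟨g • q, h4⟩
      · obtain ⟨q, hq⟩ := Set.mem_iUnion.mp hy
        refine Set.mem_iUnion.mpr ⟨g⁻¹ • q, Or.inr ⟨?_, fun h4 => hy' ?_⟩⟩
        · rw [smul_inv_smul]
          exact hq
        · rw [← e1] at h4
          rw [Set.smul_set_iUnion]
          exact Set.mem_iUnion.mpr ⟨g⁻¹ • q, h4⟩

end Index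

/-! ### Arrows -/

/-- A subgroup of finite index of `G` maps onto `Q` with finitely generated kernel. -/
def Arrow (G Q : Type) [Group G] [Group Q] : Prop :=
  ∃ (M : Type) (_ : Group M) (i : M →* G) (f : M →* Q), Function.Injective i ∧
    i.range.FiniteIndex ∧ Function.Surjective f ∧ f.ker.FG

theorem Arrow.trans {G Q R : Type} [Group G] [Group Q] [Group R] (h1 : Arrow G Q)
    (h2 : Arrow Q R) : Arrow G R := by
  obtain ⟨M, _, i, f, hi, hfi, hf, hker⟩ := h1
  obtain ⟨N, _, j, h, hj, hfj, hh, hker'⟩ := h2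
  let L : Subgroup M := j.range.comap f
  let e : N ≃* j.range := MonoidHom.ofInjective hj
  let f' : L →* R := h.comp ((e.symm : j.range →* N).comp (f.subgroupComap j.range))
  have hL : L.FiniteIndex := by
    have := Subgroup.index_comap_of_surjective j.range hf
    rw [Subgroup.finiteIndex_iff] at hfj ⊢
    rwa [this]
  have hf' : Function.Surjective f' := by
    refine hh.comp (e.symm.surjective.comp ?_)
    exact MonoidHom.subgroupComap_surjective_of_surjective f j.range hf
  refine ⟨L, inferInstance, i.comp L.subtype, f', hi.comp L.subtype_injective, ?_, hf', ?_⟩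
  · rw [MonoidHom.range_comp, Subgroup.range_subtype, Subgroup.finiteIndex_iff,
      Subgroup.index_map_of_injective _ hi]
    exact mul_ne_zero hL.index_ne_zero hfi.index_ne_zero
  · apply FG.of_map_injective L.subtype_injective
    have h3 : f'.ker.map L.subtype = (h.ker.map j).comap f := by
      ext x
      constructor
      · rintro ⟨⟨y, hy⟩, hy', rfl⟩
        change f y ∈ h.ker.map j
        refine ⟨e.symm ⟨f y, hy⟩, ?_, ?_⟩
        · exact hy'
        · change ((e (e.symm ⟨f y, hy⟩) : j.range) : Q) = f y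
          rw [MulEquiv.apply_symm_apply]
      · rintro ⟨z, hz, hz'⟩
        have hx : x ∈ L := ⟨z, hz'⟩
        refine ⟨⟨x, hx⟩, ?_, rfl⟩
        change h (e.symm ⟨f x, _⟩) = 1
        have h4 : e.symm ⟨f x, hx⟩ = z := by
          rw [MulEquiv.symm_apply_eq]
          exact Subtype.ext hz'.symm
        rw [h4]
        exact hz
    rw [h3]
    exact FG.comap_of_surjective hf hker (FG.map j hker')

theorem Arrow.refl (G : Type) [Group G] : Arrow G G :=
  ⟨G, inferInstance, MonoidHom.id G, MonoidHom.id G, fun _ _ h => h, by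
    rw [MonoidHom.range_eq_top.mpr (fun x => ⟨x, rfl⟩)]
    infer_instance, fun x => ⟨x, rfl⟩, by
    rw [(MonoidHom.ker_eq_bot_iff _).mpr (fun _ _ h => h)]
    exact Subgroup.FG.bot⟩

/-- The map of coset spaces induced by a homomorphism. -/
def pullMap {M R : Type*} [Group M] [Group R] (f : M →* R) (P : Subgroup R) :
    M ⧸ P.comap f → R ⧸ P :=
  Quotient.map' f (by
    intro a b hab
    rw [QuotientGroup.leftRel_apply] at hab ⊢
    simpa using hab)

theorem pullMap_mk {M R : Type*} [Group M] [Group R] (f : M →* R) (P : Subgroup R) (a : M) :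
    pullMap f P (a : M ⧸ P.comap f) = ((f a : R) : R ⧸ P) := rfl

theorem pullMap_bijective {M R : Type*} [Group M] [Group R] {f : M →* R}
    (hf : Function.Surjective f) (P : Subgroup R) : Function.Bijective (pullMap f P) := by
  constructor
  · intro x y hxy
    induction x using QuotientGroup.induction_on with
    | H a =>
    induction y using QuotientGroup.induction_on with
    | H b =>
    rw [pullMap_mk, pullMap_mk] at hxy
    rw [QuotientGroup.eq] at hxy ⊢
    rw [Subgroup.mem_comap]
    simpa using hxy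
  · intro y
    induction y using QuotientGroup.induction_on with
    | H b =>
    obtain ⟨a, rfl⟩ := hf b
    exact ⟨(a : M ⧸ P.comap f), rfl⟩

theorem pullMap_smul {M R : Type*} [Group M] [Group R] (f : M →* R) (P : Subgroup R) (g : M)
    (x : M ⧸ P.comap f) : pullMap f P (g • x) = f g • pullMap f P x := by
  induction x using QuotientGroup.induction_on with
  | H a =>
    change ((f (g * a) : R) : R ⧸ P) = ((f g * f a : R) : R ⧸ P)
    rw [map_mul]

/-- The numbers of ends of pairs pull back along arrows. -/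
theorem Arrow.ends {G R : Type} [Group G] [Group R] (h : Arrow G R) {P : Subgroup R}
    (hP : P.FG) : ∃ H : Subgroup G, H.FG ∧ ∀ n, HasEnds G (G ⧸ H) n ↔ HasEnds R (R ⧸ P) n := by
  obtain ⟨M, _, i, f, hi, hfi, hf, hker⟩ := h
  refine ⟨(P.comap f).map i, FG.map i (FG.comap_of_surjective hf hker hP), fun n => ?_⟩
  rw [hasEnds_index hi hfi]
  exact HasEnds.of_equiv hf (Equiv.ofBijective _ (pullMap_bijective hf P)) (pullMap_smul f P)

end Pool.Agent.H.MP_ee9c6f_al.E2
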