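import Pool.Agent.H.MP_ee9c6f_al.E2.DataC

/-!
MP_ee9c6f_al, genus 2 (helper40). The arrow from `Mod_{0,5}` to the triangle group `(2, 5, 10)`.
-/

set_option autoImplicit false

namespace Pool.Agent.H.MP_ee9c6f_al.E2.Chk

/-- An element which conjugates `N` into `N` and has a power in `N` normalises `N`. -/
theorem norm_of_pow {G : Type*} [Group G] (N : Subgroup G) (v : G)
    (h : ∀ t ∈ N, v * t * v⁻¹ ∈ N) (k : ℕ) (hk : v ^ (k + 1) ∈ N) :
    v ∈ Subgroup.normalizer (N : Set G) := by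
  have h1 : ∀ j : ℕ, ∀ t ∈ N, v ^ j * t * (v ^ j)⁻¹ ∈ N := by
    intro j
    induction j with
    | zero => intro t ht; simpa using ht
    | succ j ih =>
      intro t ht
      have := h _ (ih t ht)
      have e : v ^ (j + 1) * t * (v ^ (j + 1))⁻¹ = v * (v ^ j * t * (v ^ j)⁻¹) * v⁻¹ := by
        rw [pow_succ']
        group
      rw [e]
      exact this
  rw [Subgroup.mem_normalizer_iff]
  intro t
  constructor
  · exact h t
  · intro ht
    have h2 := h1 k _ ht
    have h3 := N.mul_mem (N.mul_mem (N.inv_mem hk) h2) hk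
    have e : (v ^ (k + 1))⁻¹ * (v ^ k * (v * t * v⁻¹) * (v ^ k)⁻¹) * v ^ (k + 1) = t := by
      rw [pow_succ]
      group
    rwa [e] at h3

theorem normC (N : Subgroup (PG 4 relP))
    (hV : ∀ i < datC.V.length, ∀ t ∈ N, ev (pg 4 relP) (datC.Y.getD (datC.V.getD i 0) []) * t *
        (ev (pg 4 relP) (datC.Y.getD (datC.V.getD i 0) []))⁻¹ ∈ N)
    (hR : ∀ r ∈ relQ, ev (fun i => ev (pg 4 relP) (datC.Y.getD i [])) r ∈ N) :
    ∀ a < 4, ev (pg 4 relP) (datC.Y.getD a []) ∈
      Subgroup.normalizer (N : Set (PG 4 relP)) := by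
  set f : ℕ → PG 4 relP := fun i => ev (pg 4 relP) (datC.Y.getD i []) with hf
  have hA : ∀ t ∈ N, f 0 * t * (f 0)⁻¹ ∈ N := hV 0 (by decide)
  have hC : ∀ t ∈ N, f 2 * t * (f 2)⁻¹ ∈ N := hV 1 (by decide)
  have r1 : f 0 ^ (1 + 1) ∈ N := by
    have := hR [0, 0] (by decide)
    have e : ev f [0, 0] = f 0 ^ (1 + 1) := by
      simp [ev, val, pow_succ]
    rwa [e] at this
  have r3 : f 3 ^ (4 + 1) ∈ N := by
    have := hR [6, 6, 6, 6, 6] (by decide)
    have e : ev f [6, 6, 6, 6, 6] = f 3 ^ (4 + 1) := by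
      simp [ev, val, pow_succ, mul_assoc]
    rwa [e] at this
  have r4 : f 0 * f 1 * (f 2)⁻¹ ∈ N := by
    have := hR [0, 2, 5] (by decide)
    have e : ev f [0, 2, 5] = f 0 * f 1 * (f 2)⁻¹ := by
      simp [ev, val, mul_assoc]
    rwa [e] at this
  have r5 : f 2 * f 2 * (f 3)⁻¹ ∈ N := by
    have := hR [4, 4, 7] (by decide)
    have e : ev f [4, 4, 7] = f 2 * f 2 * (f 3)⁻¹ := by
      simp [ev, val, mul_assoc]
    rwa [e] at this
  have n0 := norm_of_pow N (f 0) hA 1 r1
  have hD : ∀ t ∈ N, f 3 * t * (f 3)⁻¹ ∈ N := by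
    intro t ht
    have h1 := hC _ (hC t ht)
    have h2 := N.mul_mem (N.mul_mem (N.inv_mem r5) h1) r5
    have e : (f 2 * f 2 * (f 3)⁻¹)⁻¹ * (f 2 * (f 2 * t * (f 2)⁻¹) * (f 2)⁻¹) *
        (f 2 * f 2 * (f 3)⁻¹) = f 3 * t * (f 3)⁻¹ := by group
    rwa [e] at h2
  have n3 := norm_of_pow N (f 3) hD 4 r3
  have hNn : ∀ t ∈ N, t ∈ Subgroup.normalizer (N : Set (PG 4 relP)) := fun t ht =>
    Subgroup.le_normalizer ht
  have n22 : f 2 * f 2 ∈ Subgroup.normalizer (N : Set (PG 4 relP)) := by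
    have := mul_mem (hNn _ r5) n3
    have e : f 2 * f 2 * (f 3)⁻¹ * f 3 = f 2 * f 2 := by group
    rwa [e] at this
  have n2 : f 2 ∈ Subgroup.normalizer (N : Set (PG 4 relP)) := by
    rw [Subgroup.mem_normalizer_iff]
    intro t
    constructor
    · exact hC t
    · intro ht
      have h1 := hC _ ht
      have e : f 2 * (f 2 * t * (f 2)⁻¹) * (f 2)⁻¹ = (f 2 * f 2) * t * (f 2 * f 2)⁻¹ := by group
      rw [e] at h1
      exact (Subgroup.mem_normalizer_iff.mp n22 t).mpr h1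
  have n1 : f 1 ∈ Subgroup.normalizer (N : Set (PG 4 relP)) := by
    have := mul_mem (mul_mem (inv_mem n0) (hNn _ r4)) n2
    have e : (f 0)⁻¹ * (f 0 * f 1 * (f 2)⁻¹) * f 2 = f 1 := by group
    rwa [e] at this
  intro a ha
  interval_cases a
  · exact n0
  · exact n1
  · exact n2
  · exact n3

theorem c1 : chkSmall2 4 4 150 relP relQ datC = true := by decide +kernel

theorem c2 : chkRel2' relP relQ 150 datC = true := by decide +kernel

theorem c3 : chkY2 relQ 4 datC = true := by decide +kernel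

theorem c4 : chkT2 relQ datC = true := by decide +kernel

theorem c5 : chkA relP datC = true := by decide +kernel

theorem c6 : chkConj2 relP datC = true := by decide +kernel

theorem c7 : chkRelT relP relQ datC = true := by decide +kernel

theorem c8 : chkLog relP 4 150 datC = true := by decide +kernel

/-- The arrow from `Mod_{0,5}` to the triangle group. -/
theorem arrowC : Arrow (PG 4 relP) (PG 4 relQ) :=
  arrow_of_dat2 (d := 150) datC c1 c2 c3 c4 c5 c6 c7 c8 normC

end Pool.Agent.H.MP_ee9c6f_al.E2.Chk
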