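import Pool.Agent.H.MP_ee9c6f_al.E2.Lower

/-!
MP_ee9c6f_al, genus 2 (helper40). The triangle group `(2, 5, 10)` contains the surface group of
genus 2 with index 10.
-/

set_option autoImplicit false

namespace Pool.Agent.H.MP_ee9c6f_al.E2

open Wr

/-- The relations of the triangle group `(2, 5, 10)`. -/
def triRels : Set (FreeGroup (Fin 2)) :=
  {FreeGroup.of 0 ^ 2, FreeGroup.of 1 ^ 5, (FreeGroup.of 0 * FreeGroup.of 1) ^ 10}

/-- The triangle group `(2, 5, 10)`. -/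
abbrev Tri : Type := PresentedGroup triRels

namespace Tri

/-- The generator of order 2. -/
def a : Tri := PresentedGroup.of 0

/-- The generator of order 5. -/
def b : Tri := PresentedGroup.of 1

theorem a_sq : a ^ 2 = 1 := PresentedGroup.one_of_mem (rels := triRels) (Or.inl rfl)

theorem b_pow : b ^ 5 = 1 := PresentedGroup.one_of_mem (rels := triRels) (Or.inr (Or.inl rfl))

theorem ab_pow : (a * b) ^ 10 = 1 :=
  PresentedGroup.one_of_mem (rels := triRels) (Or.inr (Or.inr rfl))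

theorem closure_ab : Subgroup.closure ({a, b} : Set Tri) = ⊤ := by
  have : ({a, b} : Set Tri) = Set.range (PresentedGroup.of (rels := triRels)) := by
    ext g
    constructor
    · rintro (rfl | rfl)
      · exact ⟨0, rfl⟩
      · exact ⟨1, rfl⟩
    · rintro ⟨i, rfl⟩
      fin_cases i
      · exact Or.inl rfl
      · exact Or.inr rfl
  rw [this, PresentedGroup.closure_range_of]

end Tri

/-! ### The side pairings of the octagon -/

namespace Su

/-- The side pairing `d`. -/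
def od : Su := w⁻¹ * z⁻¹ * y
/-- The side pairing `a`. -/
def oa : Su := od⁻¹ * z⁻¹ * od
/-- The side pairing `b`. -/
def ob : Su := od⁻¹ * w⁻¹ * od
/-- The side pairing `c`. -/
def oc : Su := ob⁻¹ * oa⁻¹ * x

theorem oct_aux {G : Type*} [Group G] (x y z w : G) :
    let d := w⁻¹ * z⁻¹ * y
    let a := d⁻¹ * z⁻¹ * d
    let b := d⁻¹ * w⁻¹ * d
    let c := b⁻¹ * a⁻¹ * x
    a * b * c * d * (d * c * b * a)⁻¹ = x * y * x⁻¹ * y⁻¹ * (z * w * z⁻¹ * w⁻¹) := by
  intro d a b c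
  simp only [a, b, c, d]
  group

theorem oct : oa * ob * oc * od = od * oc * ob * oa := by
  have h := oct_aux x y z w
  simp only at h
  have h2 : oa * ob * oc * od * (od * oc * ob * oa)⁻¹ = 1 := h.trans rel
  rwa [mul_inv_eq_one] at h2

/-- The labels. -/
def tl : Fin 5 → Su := ![1, od, oc⁻¹, ob, oa⁻¹]

end Su

open Su

/-- The permutation of the generator `a`. -/
def pa : Equiv.Perm (Bool × Fin 5) where
  toFun p := (!p.1, p.2)
  invFun p := (!p.1, p.2)
  left_inv p := by simp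
  right_inv p := by simp

/-- The permutation of the generator `b`. -/
def pb : Equiv.Perm (Bool × Fin 5) where
  toFun p := (p.1, p.2 + 1)
  invFun p := (p.1, p.2 - 1)
  left_inv p := by simp
  right_inv p := by simp

/-- The image of the generator `a`. -/
def wa : Wr Su (Bool × Fin 5) := ⟨pa, fun p => if p.1 then (tl p.2)⁻¹ else tl p.2⟩

/-- The image of the generator `b`. -/
def wb : Wr Su (Bool × Fin 5) := ⟨pb, fun _ => 1⟩

theorem wa_sq : wa ^ 2 = 1 := by
  rw [pow_two]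
  apply Wr.ext_iff'
  rintro ⟨e, k⟩
  constructor
  · cases e <;> rfl
  · cases e
    · change (tl k)⁻¹ * tl k = 1
      exact inv_mul_cancel _
    · change tl k * (tl k)⁻¹ = 1
      exact mul_inv_cancel _

theorem wb_pow : wb ^ 5 = 1 := by
  apply Wr.ext_iff'
  rintro ⟨e, k⟩
  constructor
  · fin_cases k <;> cases e <;> rfl
  · simp only [pow_succ, pow_zero, one_mul, mul_lab, one_lab]
    change (1 : Su) * 1 * 1 * 1 * 1 = 1
    simp

theorem lab_pow_orbit {Q X : Type*} [Group Q] (g : Wr Q X) (n : ℕ) (hp : (g ^ n).perm = 1)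
    (x : X) (h : (g ^ n).lab x = 1) (i : ℕ) : (g ^ n).lab ((g ^ i).perm x) = 1 := by
  induction i with
  | zero => exact h
  | succ i ih =>
    have e1 : ((g ^ n) * g).lab ((g ^ i).perm x) = (g * (g ^ n)).lab ((g ^ i).perm x) := by
      rw [← pow_succ, ← pow_succ']
    rw [mul_lab, mul_lab, hp, ih, Equiv.Perm.one_apply, mul_one] at e1
    rw [pow_succ' g i, mul_perm, Equiv.Perm.mul_apply]
    exact mul_eq_right.mp e1

theorem wab_perm : ((wa * wb) ^ 10).perm = 1 := by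
  apply Equiv.ext
  rintro ⟨e, k⟩
  fin_cases k <;> cases e <;> rfl

theorem oct_expr {G : Type*} [Group G] (a b c d : G) (h : a * b * c * d = d * c * b * a) :
    a⁻¹ * b⁻¹ * c⁻¹ * d⁻¹ * (a * b * c * d) = 1 := by
  rw [h]
  group

theorem wab_lab : ((wa * wb) ^ 10).lab (false, 0) = 1 := by
  have e : ((wa * wb) ^ 10).lab (false, 0) =
      (tl 0)⁻¹ * 1 * (tl 4 * 1) * ((tl 3)⁻¹ * 1) * (tl 2 * 1) * ((tl 1)⁻¹ * 1) * (tl 0 * 1) *
        ((tl 4)⁻¹ * 1) * (tl 3 * 1) * ((tl 2)⁻¹ * 1) * (tl 1 * 1) := by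
    rfl
  rw [e]
  have t0 : tl 0 = 1 := rfl
  have t1 : tl 1 = od := rfl
  have t2 : tl 2 = oc⁻¹ := rfl
  have t3 : tl 3 = ob := rfl
  have t4 : tl 4 = oa⁻¹ := rfl
  rw [t0, t1, t2, t3, t4]
  have h := oct_expr oa ob oc od oct
  simp only [inv_one, mul_one, one_mul, inv_inv]
  simpa only [mul_assoc] using h

theorem wab_pow : (wa * wb) ^ 10 = 1 := by
  apply Wr.ext
  · exact wab_perm
  · funext x
    obtain ⟨i, hi⟩ : ∃ i : ℕ, ((wa * wb) ^ i).perm (false, 0) = x := by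
      obtain ⟨e, k⟩ := x
      fin_cases k <;> cases e
      · exact ⟨0, rfl⟩
      · exact ⟨5, rfl⟩
      · exact ⟨6, rfl⟩
      · exact ⟨1, rfl⟩
      · exact ⟨2, rfl⟩
      · exact ⟨7, rfl⟩
      · exact ⟨8, rfl⟩
      · exact ⟨3, rfl⟩
      · exact ⟨4, rfl⟩
      · exact ⟨9, rfl⟩
    rw [← hi]
    exact lab_pow_orbit _ _ wab_perm _ wab_lab i

/-- The homomorphism from the triangle group to the wreath product. -/
def triHom : Tri →* Wr Su (Bool × Fin 5) :=
  PresentedGroup.toGroup (f := ![wa, wb]) (by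
    rintro r (rfl | rfl | rfl)
    · rw [map_pow, FreeGroup.lift_apply_of]
      exact wa_sq
    · rw [map_pow, FreeGroup.lift_apply_of]
      exact wb_pow
    · rw [map_pow, map_mul, FreeGroup.lift_apply_of, FreeGroup.lift_apply_of]
      exact wab_pow)

theorem triHom_a : triHom Tri.a = wa := PresentedGroup.toGroup.of _

theorem triHom_b : triHom Tri.b = wb := PresentedGroup.toGroup.of _

namespace Tri

/-- The element `a b⁻ᵏ a bᵏ`. -/
def tt (k : ℕ) : Tri := a * (b ^ k)⁻¹ * a * b ^ k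

theorem a_mul_a : a * a = 1 := by
  rw [← pow_two]
  exact a_sq

theorem a_inv : a⁻¹ = a := by
  rw [inv_eq_iff_mul_eq_one, a_mul_a]

/-- The lift of `d`. -/
def ld : Tri := tt 1
/-- The lift of `c`. -/
def lc : Tri := (tt 2)⁻¹
/-- The lift of `b`. -/
def lb : Tri := tt 3
/-- The lift of `a`. -/
def la' : Tri := (tt 4)⁻¹

/-- The lifts of the generators of the surface group. -/
def ly : Fin 4 → Tri :=
  ![la' * lb * lc, ld * la'⁻¹ * lb⁻¹, ld * la'⁻¹ * ld⁻¹, ld * lb⁻¹ * ld⁻¹]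

end Tri

open Tri

theorem wb_pow_lab (n : ℕ) (x : Bool × Fin 5) : (wb ^ n).lab x = 1 := by
  induction n generalizing x with
  | zero => rfl
  | succ n ih =>
    rw [pow_succ, mul_lab, ih]
    exact mul_one 1

theorem wb_inv_lab (n : ℕ) (x : Bool × Fin 5) : ((wb ^ n)⁻¹).lab x = 1 := by
  rw [inv_lab, wb_pow_lab, inv_one]

theorem tt_perm (k : Fin 5) : (triHom (tt k)).perm (false, 0) = (false, 0) ∧
    (triHom (tt k)).lab (false, 0) = tl k := by
  have e : triHom (tt k) = wa * (wb ^ (k : ℕ))⁻¹ * wa * wb ^ (k : ℕ) := by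
    rw [tt]
    simp only [map_mul, map_inv, map_pow, triHom_a, triHom_b]
  have h1 : (wb ^ (k : ℕ)).perm (false, 0) = (false, k) := by fin_cases k <;> rfl
  have h2 : wa.perm (false, k) = (true, k) := rfl
  have h3 : ((wb ^ (k : ℕ))⁻¹).perm (true, k) = (true, 0) := by fin_cases k <;> rfl
  have h4 : wa.perm (true, 0) = (false, 0) := rfl
  rw [e]
  constructor
  · simp only [mul_perm, Equiv.Perm.mul_apply]
    rw [h1, h2, h3, h4]
  · simp only [mul_lab]
    rw [wb_pow_lab, wb_inv_lab, h1, h2, h3]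
    change (tl 0)⁻¹ * 1 * tl k * 1 = tl k
    have t0 : tl 0 = 1 := rfl
    rw [t0]
    simp

/-- The elements of the stabiliser with a given label. -/
def Lf (g : Tri) (s : Su) : Prop :=
  (triHom g).perm (false, 0) = (false, 0) ∧ (triHom g).lab (false, 0) = s

theorem Lf.mul {g h : Tri} {s t : Su} (h1 : Lf g s) (h2 : Lf h t) : Lf (g * h) (s * t) := by
  refine ⟨?_, ?_⟩
  · rw [map_mul, mul_perm, Equiv.Perm.mul_apply, h2.1, h1.1]
  · rw [map_mul, mul_lab, h2.1, h1.2, h2.2]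

theorem Lf.inv {g : Tri} {s : Su} (h1 : Lf g s) : Lf g⁻¹ s⁻¹ := by
  have h2 : ((triHom g).perm)⁻¹ (false, 0) = (false, 0) := by
    rw [Equiv.Perm.inv_eq_iff_eq]
    exact h1.1.symm
  refine ⟨?_, ?_⟩
  · rw [map_inv, inv_perm, h2]
  · rw [map_inv, inv_lab, h2, h1.2]

theorem lf_d : Lf ld od := tt_perm 1

theorem lf_c : Lf lc oc := by
  have := (show Lf (tt 2) oc⁻¹ from tt_perm 2).inv
  rwa [inv_inv] at this

theorem lf_b : Lf lb ob := tt_perm 3

theorem lf_a : Lf la' oa := by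
  have := (show Lf (tt 4) oa⁻¹ from tt_perm 4).inv
  rwa [inv_inv] at this

theorem lf_ly (i : Fin 4) : Lf (ly i) (Su.gen i) := by
  have ex : Su.gen 0 = oa * ob * oc := by
    change x = oa * ob * (ob⁻¹ * oa⁻¹ * x)
    group
  have ez : Su.gen 2 = od * oa⁻¹ * od⁻¹ := by
    change z = od * (od⁻¹ * z⁻¹ * od)⁻¹ * od⁻¹
    group
  have ew : Su.gen 3 = od * ob⁻¹ * od⁻¹ := by
    change w = od * (od⁻¹ * w⁻¹ * od)⁻¹ * od⁻¹
    group
  have ey : Su.gen 1 = od * oa⁻¹ * ob⁻¹ := by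
    change y = od * (od⁻¹ * z⁻¹ * od)⁻¹ * (od⁻¹ * w⁻¹ * od)⁻¹
    have h : y = z * w * od := by
      change y = z * w * (w⁻¹ * z⁻¹ * y)
      group
    conv_lhs => rw [h]
    group
  fin_cases i
  · change Lf (la' * lb * lc) (Su.gen 0)
    rw [ex]
    exact (lf_a.mul lf_b).mul lf_c
  · change Lf (ld * la'⁻¹ * lb⁻¹) (Su.gen 1)
    rw [ey]
    exact (lf_d.mul lf_a.inv).mul lf_b.inv
  · change Lf (ld * la'⁻¹ * ld⁻¹) (Su.gen 2)
    rw [ez]
    exact (lf_d.mul lf_a.inv).mul lf_d.inv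
  · change Lf (ld * lb⁻¹ * ld⁻¹) (Su.gen 3)
    rw [ew]
    exact (lf_d.mul lf_b.inv).mul lf_d.inv

/-- The representatives. -/
def rT (p : Bool × Fin 5) : Tri := if p.1 then a * (b ^ (p.2 : ℕ))⁻¹ else (b ^ (p.2 : ℕ))⁻¹

theorem tt_mem (k : Fin 5) : tt k ∈ Subgroup.closure (Set.range ly) := by
  have hy : ∀ i, ly i ∈ Subgroup.closure (Set.range ly) := fun i =>
    Subgroup.subset_closure ⟨i, rfl⟩
  have h0 : la' * lb * lc ∈ Subgroup.closure (Set.range ly) := hy 0
  have h1 : ld * la'⁻¹ * lb⁻¹ ∈ Subgroup.closure (Set.range ly) := hy 1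
  have h2 : ld * la'⁻¹ * ld⁻¹ ∈ Subgroup.closure (Set.range ly) := hy 2
  have h3 : ld * lb⁻¹ * ld⁻¹ ∈ Subgroup.closure (Set.range ly) := hy 3
  have hd : ld ∈ Subgroup.closure (Set.range ly) := by
    have e : ld = (ld * lb⁻¹ * ld⁻¹)⁻¹ * (ld * la'⁻¹ * ld⁻¹)⁻¹ * (ld * la'⁻¹ * lb⁻¹) := by
      group
    rw [e]
    exact mul_mem (mul_mem (inv_mem h3) (inv_mem h2)) h1
  have ha : la' ∈ Subgroup.closure (Set.range ly) := by
    have e : la' = ld⁻¹ * (ld * la'⁻¹ * ld⁻¹)⁻¹ * ld := by group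
    rw [e]
    exact mul_mem (mul_mem (inv_mem hd) (inv_mem h2)) hd
  have hb : lb ∈ Subgroup.closure (Set.range ly) := by
    have e : lb = ld⁻¹ * (ld * lb⁻¹ * ld⁻¹)⁻¹ * ld := by group
    rw [e]
    exact mul_mem (mul_mem (inv_mem hd) (inv_mem h3)) hd
  have hc : lc ∈ Subgroup.closure (Set.range ly) := by
    have e : lc = lb⁻¹ * la'⁻¹ * (la' * lb * lc) := by group
    rw [e]
    exact mul_mem (mul_mem (inv_mem hb) (inv_mem ha)) h0
  fin_cases k
  · change a * (b ^ 0)⁻¹ * a * b ^ 0 ∈ _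
    rw [pow_zero, inv_one, mul_one, mul_one, a_mul_a]
    exact one_mem _
  · exact hd
  · have := inv_mem hc
    rwa [lc, inv_inv] at this
  · exact hb
  · have := inv_mem ha
    rwa [la', inv_inv] at this

theorem tri_rel : ly 0 * ly 1 * (ly 0)⁻¹ * (ly 1)⁻¹ * (ly 2 * ly 3 * (ly 2)⁻¹ * (ly 3)⁻¹) = 1 := by
  have e1 : ly 0 * ly 1 * (ly 0)⁻¹ * (ly 1)⁻¹ * (ly 2 * ly 3 * (ly 2)⁻¹ * (ly 3)⁻¹) =
      la' * lb * lc * ld * (ld * lc * lb * la')⁻¹ := by
    change (la' * lb * lc) * (ld * la'⁻¹ * lb⁻¹) * (la' * lb * lc)⁻¹ * (ld * la'⁻¹ * lb⁻¹)⁻¹ *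
      ((ld * la'⁻¹ * ld⁻¹) * (ld * lb⁻¹ * ld⁻¹) * (ld * la'⁻¹ * ld⁻¹)⁻¹ *
        (ld * lb⁻¹ * ld⁻¹)⁻¹) = _
    group
  rw [e1]
  -- everything is a power of `b * a`
  have hb4 : (b ^ 4)⁻¹ = b := by
    rw [inv_eq_iff_mul_eq_one, ← pow_succ, b_pow]
  have hb3 : (b ^ 3)⁻¹ = b ^ 2 := by
    rw [inv_eq_iff_mul_eq_one, ← pow_add, b_pow]
  have hb2 : (b ^ 2)⁻¹ = b ^ 3 := by
    rw [inv_eq_iff_mul_eq_one, ← pow_add, b_pow]
  have hb1 : b⁻¹ = b ^ 4 := by
    rw [inv_eq_iff_mul_eq_one, ← pow_succ', b_pow]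
  have hba : (b * a) ^ 10 = 1 := by
    have e : b * a = a⁻¹ * (a * b) * a := by group
    rw [e]
    have : (a⁻¹ * (a * b) * a) ^ 10 = a⁻¹ * (a * b) ^ 10 * a := by
      have := conj_pow (i := 10) (a := a⁻¹) (b := a * b)
      rwa [inv_inv] at this
    rw [this, ab_pow]
    group
  have a2 : ∀ g : Tri, a * (a * g) = g := fun g => by rw [← mul_assoc, a_mul_a, one_mul]
  have b5 : ∀ g : Tri, b * (b * (b * (b * (b * g)))) = g := fun g => by
    have : b * (b * (b * (b * (b * g)))) = b ^ 5 * g := by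
      simp only [pow_succ, pow_zero, one_mul, mul_assoc]
    rw [this, b_pow, one_mul]
  have f4 : la' = b * (a * (b * (b * (b * (b * a))))) := by
    rw [la', tt, mul_inv_rev, mul_inv_rev, mul_inv_rev, a_inv, inv_inv, hb4]
    simp only [pow_succ, pow_zero, one_mul, mul_assoc]
  have f3 : lb = a * (b * (b * (a * (b * (b * b))))) := by
    rw [lb, tt, hb3]
    simp only [pow_succ, pow_zero, one_mul, mul_assoc]
  have f2 : lc = b * (b * (b * (a * (b * (b * a))))) := by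
    rw [lc, tt, mul_inv_rev, mul_inv_rev, mul_inv_rev, a_inv, inv_inv, hb2]
    simp only [pow_succ, pow_zero, one_mul, mul_assoc]
  have f1 : ld = a * (b * (b * (b * (b * (a * b))))) := by
    rw [ld, tt, pow_one, hb1]
    simp only [pow_succ, pow_zero, one_mul, mul_assoc]
  have p1 : la' * lb * lc * ld = b * (a * (b * (a * (b * (a * (b * (a * b))))))) := by
    rw [f1, f2, f3, f4]
    simp only [mul_assoc, a2, b5]
  have p2 : ld * lc * lb * la' = a * (b * (b * (b * (b * (a * (b * (b * (b * (b * (a * (b * (b *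
      (b * (b * (a * (b * (b * (b * (b * (a * (b * (b * (b * (b * a)))))))))))))))))))))))) := by
    rw [f1, f2, f3, f4]
    simp only [mul_assoc, a2, b5]
  have b6 : ∀ g : Tri, (b * (b * (b * (b * g))))⁻¹ = g⁻¹ * b := fun g => by
    have : b * (b * (b * (b * g))) = b ^ 4 * g := by
      simp only [pow_succ, pow_zero, one_mul, mul_assoc]
    rw [this, mul_inv_rev, hb4]
  have p3 : (ld * lc * lb * la')⁻¹ = a * b * a * b * a * b * a * b * a * b * a := by
    rw [p2, mul_inv_rev, b6, mul_inv_rev, b6, mul_inv_rev, b6, mul_inv_rev, b6, mul_inv_rev, b6,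
      a_inv]
  rw [p1, p3, ← hba]
  simp only [pow_succ, pow_zero, one_mul, mul_assoc]

/-- A subgroup of index 10 of the triangle group is the surface group of genus 2. -/
theorem arrow_tri : Arrow Tri Su := by
  apply arrow_of_wr triHom (false, 0) closure_ab ly ∅ Set.finite_empty rT
  · change (b ^ 0)⁻¹ = 1
    rw [pow_zero, inv_one]
  · exact fun i => (lf_ly i).1
  · exact fun i => (lf_ly i).2
  · exact fun t ht => absurd ht (Set.notMem_empty t)
  · exact fun t ht => absurd ht (Set.notMem_empty t)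
  · exact fun _ t ht => absurd ht (Set.notMem_empty t)
  · rintro r hr
    rw [Set.mem_singleton_iff] at hr
    subst hr
    unfold sRel
    simp only [map_mul, map_inv, FreeGroup.lift_apply_of]
    rw [tri_rel]
    exact one_mem _
  · rw [Set.union_empty]
    rintro s (rfl | rfl) ⟨e, k⟩
    · rw [triHom_a]
      cases e
      · change a * (b ^ (k : ℕ))⁻¹ * a * ((b ^ (k : ℕ))⁻¹)⁻¹ ∈ _
        rw [inv_inv]
        exact tt_mem k
      · change (b ^ (k : ℕ))⁻¹ * a * (a * (b ^ (k : ℕ))⁻¹)⁻¹ ∈ _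
        have h := inv_mem (tt_mem k)
        have e : (tt k)⁻¹ = (b ^ (k : ℕ))⁻¹ * a * (a * (b ^ (k : ℕ))⁻¹)⁻¹ := by
          rw [tt]
          simp only [mul_inv_rev, a_inv, inv_inv]
          simp only [mul_assoc]
        rwa [e] at h
    · rw [triHom_b]
      have hb : ∀ k : Fin 5, (b ^ (((k + 1 : Fin 5)) : ℕ))⁻¹ * b * b ^ (k : ℕ) = 1 := by
        intro k
        rw [mul_assoc, ← pow_succ']
        fin_cases k
        · change (b ^ 1)⁻¹ * b ^ 1 = 1
          exact inv_mul_cancel _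
        · change (b ^ 2)⁻¹ * b ^ 2 = 1
          exact inv_mul_cancel _
        · change (b ^ 3)⁻¹ * b ^ 3 = 1
          exact inv_mul_cancel _
        · change (b ^ 4)⁻¹ * b ^ 4 = 1
          exact inv_mul_cancel _
        · change (b ^ 0)⁻¹ * b ^ 5 = 1
          rw [b_pow, pow_zero, inv_one, one_mul]
      cases e
      · change (b ^ (((k + 1 : Fin 5)) : ℕ))⁻¹ * b * ((b ^ (k : ℕ))⁻¹)⁻¹ ∈ _
        rw [inv_inv, hb]
        exact one_mem _
      · change a * (b ^ (((k + 1 : Fin 5)) : ℕ))⁻¹ * b * (a * (b ^ (k : ℕ))⁻¹)⁻¹ ∈ _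
        have e : a * (b ^ (((k + 1 : Fin 5)) : ℕ))⁻¹ * b * (a * (b ^ (k : ℕ))⁻¹)⁻¹ =
            a * ((b ^ (((k + 1 : Fin 5)) : ℕ))⁻¹ * b * b ^ (k : ℕ)) * a⁻¹ := by group
        rw [e, hb, mul_one, mul_inv_cancel]
        exact one_mem _

end Pool.Agent.H.MP_ee9c6f_al.E2
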