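import Pool.Agent.H.MP_ee9c6f_al.E2.ArrowC
import Pool.Agent.H.MP_ee9c6f_al.E2.Tri

/-!
MP_ee9c6f_al, genus 2 (helper40). The chain of arrows from `Mod_2` to the surface group of genus 2.
-/

set_option autoImplicit false

namespace Pool.Agent.H.MP_ee9c6f_al.E2

open Chk

theorem arrow_of_equiv {G Q : Type} [Group G] [Group Q] (e : G ≃* Q) : Arrow G Q := by
  refine ⟨G, inferInstance, MonoidHom.id G, e.toMonoidHom, fun _ _ h => h, ?_, e.surjective, ?_⟩
  · rw [MonoidHom.range_eq_top.mpr Function.surjective_id]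
    infer_instance
  · have : e.toMonoidHom.ker = ⊥ := (MonoidHom.ker_eq_bot_iff _).mpr e.injective
    rw [this]
    exact Subgroup.FG.bot

/-- The images of the generators. -/
def qf (i : ℕ) : Tri :=
  if i = 0 then Tri.a else if i = 1 then Tri.b else if i = 2 then Tri.a * Tri.b else
    (Tri.a * Tri.b) ^ 2

theorem qf_rel : ∀ r ∈ relQ, ev (fun i => if i < 4 then qf i else 1) r = 1 := by
  intro r hr
  have h1 := Tri.a_sq
  have h2 := Tri.b_pow
  have h3 := Tri.ab_pow
  fin_cases hr
  · simp [ev, val, qf]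
    rw [← pow_two, h1]
  · simp [ev, val, qf]
    rw [← h2]
    simp [pow_succ, mul_assoc]
  · simp [ev, val, qf]
    rw [← h3]
    simp [pow_succ, mul_assoc]
  · simp [ev, val, qf]
  · simp [ev, val, qf, mul_assoc, pow_succ]

/-- The triangle group with two generators and with four. -/
def qEquiv : PG 4 relQ ≃* Tri :=
  let φ : PG 4 relQ →* Tri := homPG qf qf_rel
  have hR := pg_rel 4 relQ
  have e1 : pg 4 relQ 0 * pg 4 relQ 0 = 1 := by
    have := hR [0, 0] (by decide)
    simpa [ev, val] using this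
  have e2 : pg 4 relQ 1 ^ 5 = 1 := by
    have := hR [2, 2, 2, 2, 2] (by decide)
    simpa [ev, val, pow_succ, mul_assoc] using this
  have e3 : pg 4 relQ 3 ^ 5 = 1 := by
    have := hR [6, 6, 6, 6, 6] (by decide)
    simpa [ev, val, pow_succ, mul_assoc] using this
  have e4 : pg 4 relQ 0 * pg 4 relQ 1 = pg 4 relQ 2 := by
    have := hR [0, 2, 5] (by decide)
    simp only [ev, val] at this
    norm_num at this
    rw [← mul_assoc, mul_inv_eq_one] at this
    exact this
  have e5 : pg 4 relQ 2 ^ 2 = pg 4 relQ 3 := by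
    have := hR [4, 4, 7] (by decide)
    simp only [ev, val] at this
    norm_num at this
    rw [← mul_assoc, mul_inv_eq_one] at this
    rw [pow_two]
    exact this
  let ψ : Tri →* PG 4 relQ := PresentedGroup.toGroup (rels := triRels)
    (f := fun i : Fin 2 => if i = 0 then pg 4 relQ 0 else pg 4 relQ 1) (by
      rintro r (rfl | rfl | rfl)
      · simp [pow_two, e1]
      · simp [e2]
      · simp only [map_pow, map_mul, FreeGroup.lift_apply_of]
        rw [if_pos trivial, if_neg (by decide), e4, show (10 : ℕ) = 2 * 5 from rfl, pow_mul, e5,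
          e3])
  have hψa : ψ Tri.a = pg 4 relQ 0 := PresentedGroup.toGroup.of _
  have hψb : ψ Tri.b = pg 4 relQ 1 := PresentedGroup.toGroup.of _
  have hφ : ∀ i, φ (pg 4 relQ i) = if i < 4 then qf i else 1 := fun i => homPG_pg qf qf_rel i
  MonoidHom.toMulEquiv φ ψ (by
    apply PresentedGroup.ext
    intro i
    have h1 : (PresentedGroup.of i : PG 4 relQ) = pg 4 relQ i := by
      unfold pg
      rw [dif_pos i.2]
    rw [h1, MonoidHom.comp_apply, hφ, MonoidHom.id_apply]
    fin_cases i
    · exact hψa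
    · exact hψb
    · change ψ (Tri.a * Tri.b) = _
      rw [map_mul, hψa, hψb]
      exact e4
    · change ψ ((Tri.a * Tri.b) ^ 2) = _
      rw [map_pow, map_mul, hψa, hψb, e4]
      exact e5) (by
    apply PresentedGroup.ext
    intro i
    rw [MonoidHom.comp_apply, MonoidHom.id_apply]
    fin_cases i
    · change φ (ψ Tri.a) = Tri.a
      rw [hψa, hφ]
      rfl
    · change φ (ψ Tri.b) = Tri.b
      rw [hψb, hφ]
      rfl)

theorem arrow_M2_Su : Arrow (PG 5 relM) Su :=
  ((arrowA.trans arrowC).trans (arrow_of_equiv qEquiv)).trans arrow_tri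

end Pool.Agent.H.MP_ee9c6f_al.E2
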