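import Pool.Agent.H.MP_ee9c6f_al.E2.Wr

/-!
MP_ee9c6f_al, genus 2 (helper40). Verified checker for derivations in presented groups and for
arrows between presented groups.

A letter is a natural number: `2 i` is the generator `i`, and `2 i + 1` is its inverse.
-/

set_option autoImplicit false

namespace Pool.Agent.H.MP_ee9c6f_al.E2.Chk

/-! ### Words -/

/-- The inverse letter. -/
def flip (a : ℕ) : ℕ := if a % 2 = 0 then a + 1 else a - 1

/-- The inverse word. -/
def winv (w : List ℕ) : List ℕ := (w.map flip).reverse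

section Ev

variable {G : Type*} [Group G] (f : ℕ → G)

/-- The value of a letter. -/
def val (a : ℕ) : G := if a % 2 = 0 then f (a / 2) else (f (a / 2))⁻¹

/-- The value of a word. -/
def ev : List ℕ → G
  | [] => 1
  | a :: t => val f a * ev t

theorem ev_nil : ev f [] = 1 := rfl

theorem ev_cons (a : ℕ) (t : List ℕ) : ev f (a :: t) = val f a * ev f t := rfl

theorem ev_append (u v : List ℕ) : ev f (u ++ v) = ev f u * ev f v := by
  induction u with
  | nil => simp [ev]
  | cons a t ih => rw [List.cons_append, ev_cons, ev_cons, ih, mul_assoc]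

theorem val_flip (a : ℕ) : val f (flip a) = (val f a)⁻¹ := by
  unfold val flip
  by_cases h : a % 2 = 0
  · have h1 : (a + 1) % 2 = 1 := by omega
    have h2 : (a + 1) / 2 = a / 2 := by omega
    simp [h, h1, h2]
  · have h1 : (a - 1) % 2 = 0 := by omega
    have h2 : (a - 1) / 2 = a / 2 := by omega
    simp [h, h1, h2]

theorem ev_winv (w : List ℕ) : ev f (winv w) = (ev f w)⁻¹ := by
  unfold winv
  induction w with
  | nil => simp [ev]
  | cons a t ih =>
    rw [List.map_cons, List.reverse_cons, ev_append, ih, ev_cons, ev_cons, ev_nil, val_flip,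
      mul_one, mul_inv_rev]

theorem flip_flip (a : ℕ) : flip (flip a) = a := by
  unfold flip
  by_cases h : a % 2 = 0
  · have h1 : (a + 1) % 2 ≠ 0 := by omega
    simp [h, h1]
  · have h1 : (a - 1) % 2 = 0 := by omega
    rw [if_neg h, if_pos h1]
    omega

/-- Put a letter in front, with cancellation. -/
def push (a : ℕ) (w : List ℕ) : List ℕ :=
  match w with
  | [] => [a]
  | b :: t => if flip a = b then t else a :: b :: t

theorem ev_push (a : ℕ) (w : List ℕ) : ev f (push a w) = val f a * ev f w := by
  unfold push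
  cases w with
  | nil => rfl
  | cons b t =>
    simp only
    split_ifs with h
    · rw [ev_cons, ← h, val_flip, mul_inv_cancel_left]
    · rfl

/-- Multiply with cancellation. -/
def mulr (u w : List ℕ) : List ℕ := u.foldr push w

theorem ev_mulr (u w : List ℕ) : ev f (mulr u w) = ev f u * ev f w := by
  unfold mulr
  induction u with
  | nil => simp [ev]
  | cons a t ih => rw [List.foldr_cons, ev_push, ih, ev_cons, mul_assoc]

/-- Insert the `k`-th rotation of the relator number `i` (or of its inverse) at the place `p`. -/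
def stp (R : List (List ℕ)) (w : List ℕ) (s : ℕ × ℕ × ℕ) : List ℕ :=
  let r := R.getD (s.2.1 / 2) []
  let r := if s.2.1 % 2 = 0 then r else winv r
  mulr (w.take s.1) (mulr (r.rotate s.2.2) (w.drop s.1))

/-- Apply a derivation. -/
def run (R : List (List ℕ)) (w : List ℕ) (c : List (ℕ × ℕ × ℕ)) : List ℕ :=
  c.foldl (stp R) (mulr w [])

theorem ev_rotate {r : List ℕ} (h : ev f r = 1) (k : ℕ) : ev f (r.rotate k) = 1 := by
  induction k with
  | zero => simpa using h
  | succ k ih =>
    rw [← List.rotate_rotate]
    rcases hr : r.rotate k with _ | ⟨a, t⟩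
    · rfl
    · rw [hr] at ih
      rw [List.rotate_cons_succ, List.rotate_zero, ev_append, ev_cons, ev_nil, mul_one]
      rw [ev_cons, mul_eq_one_iff_eq_inv] at ih
      rw [ih, mul_inv_cancel]

theorem ev_stp {R : List (List ℕ)} (hR : ∀ r ∈ R, ev f r = 1) (w : List ℕ) (s : ℕ × ℕ × ℕ) :
    ev f (stp R w s) = ev f w := by
  unfold stp
  have h1 : ev f (R.getD (s.2.1 / 2) []) = 1 := by
    rw [List.getD_eq_getElem?_getD]
    rcases h : R[s.2.1 / 2]? with _ | r
    · rfl
    · exact hR r (List.mem_of_getElem? h)
  have h2 : ev f (if s.2.1 % 2 = 0 then R.getD (s.2.1 / 2) [] else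
      winv (R.getD (s.2.1 / 2) [])) = 1 := by
    split_ifs
    · exact h1
    · rw [ev_winv, h1, inv_one]
  simp only
  rw [ev_mulr, ev_mulr, ev_rotate f h2, one_mul, ← ev_append, List.take_append_drop]

theorem ev_run {R : List (List ℕ)} (hR : ∀ r ∈ R, ev f r = 1) (w : List ℕ)
    (c : List (ℕ × ℕ × ℕ)) : ev f (run R w c) = ev f w := by
  unfold run
  have h : ∀ (c : List (ℕ × ℕ × ℕ)) (v : List ℕ), ev f (c.foldl (stp R) v) = ev f v := by
    intro c
    induction c with
    | nil => intro v; rfl
    | cons s t ih => intro v; rw [List.foldl_cons, ih, ev_stp f hR]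
  rw [h, ev_mulr, ev_nil, mul_one]

/-- The word is trivial, by the derivation. -/
def triv (R : List (List ℕ)) (w : List ℕ) (c : List (ℕ × ℕ × ℕ)) : Bool := (run R w c).isEmpty

theorem triv_sound {R : List (List ℕ)} (hR : ∀ r ∈ R, ev f r = 1) {w : List ℕ}
    {c : List (ℕ × ℕ × ℕ)} (h : triv R w c = true) : ev f w = 1 := by
  unfold triv at h
  rw [List.isEmpty_iff] at h
  rw [← ev_run f hR w c, h, ev_nil]

end Ev

/-! ### Presented groups -/

/-- The generators of the free group, as a function on the natural numbers. -/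
def fg (n : ℕ) (i : ℕ) : FreeGroup (Fin n) :=
  if h : i < n then FreeGroup.of ⟨i, h⟩ else 1

/-- The set of relators. -/
def relSet (n : ℕ) (R : List (List ℕ)) : Set (FreeGroup (Fin n)) :=
  {w | ∃ r ∈ R, w = ev (fg n) r}

/-- The group given by a list of relators. -/
abbrev PG (n : ℕ) (R : List (List ℕ)) : Type := PresentedGroup (relSet n R)

/-- The generators of the presented group. -/
def pg (n : ℕ) (R : List (List ℕ)) (i : ℕ) : PG n R :=
  if h : i < n then PresentedGroup.of ⟨i, h⟩ else 1

theorem map_ev {G H : Type*} [Group G] [Group H] (φ : G →* H) (f : ℕ → G) (g : ℕ → H)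
    (h : ∀ i, φ (f i) = g i) (w : List ℕ) : φ (ev f w) = ev g w := by
  induction w with
  | nil => exact map_one φ
  | cons a t ih =>
    rw [ev_cons, ev_cons, map_mul, ih]
    congr 1
    unfold val
    split_ifs
    · exact h _
    · rw [map_inv, h]

theorem pg_rel (n : ℕ) (R : List (List ℕ)) : ∀ r ∈ R, ev (pg n R) r = 1 := by
  intro r hr
  have h1 : (PresentedGroup.mk (relSet n R)) (ev (fg n) r) = ev (pg n R) r := by
    apply map_ev
    intro i
    unfold fg pg
    split_ifs
    · rfl
    · exact map_one _
  rw [← h1]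
  exact PresentedGroup.one_of_mem (rels := relSet n R) ⟨r, hr, rfl⟩

theorem closure_pg (n : ℕ) (R : List (List ℕ)) :
    Subgroup.closure {g | ∃ i < n, g = pg n R i} = ⊤ := by
  have : {g | ∃ i < n, g = pg n R i} = Set.range (PresentedGroup.of (rels := relSet n R)) := by
    ext g
    constructor
    · rintro ⟨i, hi, rfl⟩
      exact ⟨⟨i, hi⟩, by simp [pg, hi]⟩
    · rintro ⟨i, rfl⟩
      exact ⟨i, i.2, by simp [pg]⟩
  rw [this, PresentedGroup.closure_range_of]

/-- Homomorphisms from presented groups. -/
def homPG {n : ℕ} {R : List (List ℕ)} {G : Type*} [Group G] (f : ℕ → G)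
    (h : ∀ r ∈ R, ev (fun i => if i < n then f i else 1) r = 1) : PG n R →* G :=
  PresentedGroup.toGroup (f := fun i : Fin n => f i) (by
    rintro _ ⟨r, hr, rfl⟩
    rw [← h r hr]
    apply map_ev
    intro i
    unfold fg
    split_ifs with hi
    · rw [FreeGroup.lift_apply_of]
    · exact map_one _)

theorem homPG_pg {n : ℕ} {R : List (List ℕ)} {G : Type*} [Group G] (f : ℕ → G)
    (h : ∀ r ∈ R, ev (fun i => if i < n then f i else 1) r = 1) (i : ℕ) :
    homPG f h (pg n R i) = if i < n then f i else 1 := by
  unfold homPG pg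
  split_ifs with hi
  · exact PresentedGroup.toGroup.of _
  · exact map_one _

/-! ### Tables -/

/-- A generator as a permutation table, an inverse table, and a table of labels. -/
structure Tab where
  /-- the permutation -/
  p : List ℕ
  /-- the inverse permutation -/
  q : List ℕ
  /-- the labels -/
  l : List (List ℕ)

/-- The action of a letter. -/
def act1 (tabs : List Tab) (a : ℕ) (x : ℕ) : ℕ × List ℕ :=
  match tabs[a / 2]? with
  | none => (x, [])
  | some t =>
    if a % 2 = 0 then (t.p.getD x 0, t.l.getD x []) else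
      let y := t.q.getD x 0
      (y, winv (t.l.getD y []))

/-- The action of a word, the last letter acts first. -/
def actw (tabs : List Tab) : List ℕ → ℕ → ℕ × List ℕ
  | [], x => (x, [])
  | a :: t, x =>
    let u := actw tabs t x
    let v := act1 tabs a u.1
    (v.1, v.2 ++ u.2)

/-- The tables describe permutations of `0, …, d - 1`. -/
def okTab (d : ℕ) (t : Tab) : Bool :=
  (List.range d).all fun x => decide (t.p.getD x 0 < d) && decide (t.q.getD x 0 < d) &&
    decide (t.q.getD (t.p.getD x 0) 0 = x) && decide (t.p.getD (t.q.getD x 0) 0 = x)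

theorem okTab_iff {d : ℕ} {t : Tab} (h : okTab d t = true) {x : ℕ} (hx : x < d) :
    t.p.getD x 0 < d ∧ t.q.getD x 0 < d ∧ t.q.getD (t.p.getD x 0) 0 = x ∧
      t.p.getD (t.q.getD x 0) 0 = x := by
  unfold okTab at h
  rw [List.all_eq_true] at h
  have := h x (List.mem_range.mpr hx)
  simp only [Bool.and_eq_true, decide_eq_true_eq] at this
  tauto

section TabWr

variable {Q : Type*} [Group Q] (q : ℕ → Q) (d : ℕ)

/-- The element of the wreath product. -/
def tabWr (t : Tab) (h : okTab d t = true) : Wr Q (Fin d) where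
  perm :=
    { toFun := fun x => ⟨t.p.getD x 0, (okTab_iff h x.2).1⟩
      invFun := fun x => ⟨t.q.getD x 0, (okTab_iff h x.2).2.1⟩
      left_inv := fun x => Fin.ext (okTab_iff h x.2).2.2.1
      right_inv := fun x => Fin.ext (okTab_iff h x.2).2.2.2 }
  lab := fun x => ev q (t.l.getD x [])

/-- The function to the wreath product. -/
def tabsWr (tabs : List Tab) (h : ∀ t ∈ tabs, okTab d t = true) (i : ℕ) : Wr Q (Fin d) :=
  if hi : i < tabs.length then tabWr q d tabs[i] (h _ (List.getElem_mem hi)) else 1

theorem act1_sound (tabs : List Tab) (h : ∀ t ∈ tabs, okTab d t = true) (a : ℕ) (x : Fin d) :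
    ((((val (tabsWr q d tabs h) a).perm x : Fin d) : ℕ) = (act1 tabs a x).1) ∧
      (val (tabsWr q d tabs h) a).lab x = ev q (act1 tabs a x).2 := by
  unfold act1
  by_cases hi : a / 2 < tabs.length
  · have h1 : tabs[a / 2]? = some tabs[a / 2] := List.getElem?_eq_getElem hi
    rw [h1]
    have h2 : tabsWr q d tabs h (a / 2) = tabWr q d tabs[a / 2] (h _ (List.getElem_mem hi)) := by
      unfold tabsWr
      rw [dif_pos hi]
    unfold val
    by_cases ha : a % 2 = 0
    · simp only [ha, if_true]
      rw [h2]
      exact ⟨rfl, rfl⟩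
    · simp only [ha, if_false]
      rw [h2]
      refine ⟨rfl, ?_⟩
      rw [Wr.inv_lab, ev_winv]
      rfl
  · have h1 : tabs[a / 2]? = none := List.getElem?_eq_none (not_lt.mp hi)
    rw [h1]
    have h2 : tabsWr q d tabs h (a / 2) = 1 := by
      unfold tabsWr
      rw [dif_neg hi]
    have h3 : val (tabsWr q d tabs h) a = 1 := by
      unfold val
      rw [h2]
      simp
    rw [h3]
    exact ⟨rfl, rfl⟩

theorem actw_sound (tabs : List Tab) (h : ∀ t ∈ tabs, okTab d t = true) (w : List ℕ)
    (x : Fin d) :
    ((((ev (tabsWr q d tabs h) w).perm x : Fin d) : ℕ) = (actw tabs w x).1) ∧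
      (ev (tabsWr q d tabs h) w).lab x = ev q (actw tabs w x).2 := by
  induction w with
  | nil => exact ⟨rfl, rfl⟩
  | cons a t ih =>
    rw [ev_cons, Wr.mul_perm, Wr.mul_lab, Equiv.Perm.mul_apply]
    have h1 := act1_sound q d tabs h a ((ev (tabsWr q d tabs h) t).perm x)
    change _ = (act1 tabs a (actw tabs t x).1).1 ∧
      _ = ev q ((act1 tabs a (actw tabs t x).1).2 ++ (actw tabs t x).2)
    rw [ev_append]
    rw [h1.1, h1.2, ih.1, ih.2]
    exact ⟨rfl, rfl⟩

end TabWr

/-! ### Substitution -/

/-- Substitute the words of the list for the letters. -/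
def subst (Y : List (List ℕ)) : List ℕ → List ℕ
  | [] => []
  | a :: t =>
    (if a % 2 = 0 then Y.getD (a / 2) [] else winv (Y.getD (a / 2) [])) ++ subst Y t

theorem ev_subst {G : Type*} [Group G] (f : ℕ → G) (Y : List (List ℕ)) (w : List ℕ) :
    ev f (subst Y w) = ev (fun i => ev f (Y.getD i [])) w := by
  induction w with
  | nil => rfl
  | cons a t ih =>
    unfold subst
    rw [ev_append, ih, ev_cons]
    congr 1
    unfold val
    split_ifs
    · rfl
    · rw [ev_winv]

/-! ### The certificate of an arrow -/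

/-- The data of an arrow from `PG n R` to `PG m R'`. -/
structure Dat where
  /-- the tables of the generators -/
  tabs : List Tab
  /-- the base point -/
  x0 : ℕ
  /-- for every relator and every point: the derivation of the label -/
  relC : List (List (List (ℕ × ℕ × ℕ)))
  /-- the lifts of the generators -/
  Y : List (List ℕ)
  /-- the derivations for the labels of the lifts -/
  YC : List (List (ℕ × ℕ × ℕ))
  /-- the generators of the kernel -/
  T : List (List ℕ)
  /-- the derivations for the labels of the generators of the kernel -/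
  TC : List (List (ℕ × ℕ × ℕ))
  /-- the representatives -/
  r : List (List ℕ)
  /-- the conjugates of the generators of the kernel: word in `T` and derivation -/
  conjC : List (List ((List ℕ × List (ℕ × ℕ × ℕ)) × (List ℕ × List (ℕ × ℕ × ℕ))))
  /-- the relators: word in `T` and derivation -/
  rel2C : List (List ℕ × List (ℕ × ℕ × ℕ))
  /-- the coset table: word in `Y ++ T` and derivation -/
  cosC : List (List (List ℕ × List (ℕ × ℕ × ℕ)))

/-- The relators are mapped to the identity. -/
def chkRel (R R' : List (List ℕ)) (d : ℕ) (D : Dat) : Bool :=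
  (List.range R.length).all fun i => (List.range d).all fun x =>
    let u := actw D.tabs (R.getD i []) x
    decide (u.1 = x) && triv R' u.2 ((D.relC.getD i []).getD x [])

/-- The labels of the lifts. -/
def chkY (R' : List (List ℕ)) (m : ℕ) (D : Dat) : Bool :=
  (List.range m).all fun a =>
    let u := actw D.tabs (D.Y.getD a []) D.x0
    decide (u.1 = D.x0) && triv R' (u.2 ++ [2 * a + 1]) (D.YC.getD a [])

/-- The labels of the generators of the kernel. -/
def chkT (R' : List (List ℕ)) (D : Dat) : Bool :=
  (List.range D.T.length).all fun a =>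
    let u := actw D.tabs (D.T.getD a []) D.x0
    decide (u.1 = D.x0) && triv R' u.2 (D.TC.getD a [])

/-- The conjugates. -/
def chkConj (R : List (List ℕ)) (m : ℕ) (D : Dat) : Bool :=
  (List.range m).all fun a => (List.range D.T.length).all fun t =>
    let c := (D.conjC.getD a []).getD t (([], []), ([], []))
    triv R (D.Y.getD a [] ++ D.T.getD t [] ++ winv (D.Y.getD a []) ++
        winv (subst D.T c.1.1)) c.1.2 &&
      triv R (winv (D.Y.getD a []) ++ D.T.getD t [] ++ D.Y.getD a [] ++
        winv (subst D.T c.2.1)) c.2.2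

/-- The relators of the target. -/
def chkRel2 (R R' : List (List ℕ)) (D : Dat) : Bool :=
  (List.range R'.length).all fun i =>
    let c := D.rel2C.getD i ([], [])
    triv R (subst D.Y (R'.getD i []) ++ winv (subst D.T c.1)) c.2

/-- The coset table. -/
def chkCos (R : List (List ℕ)) (n d : ℕ) (D : Dat) : Bool :=
  (List.range n).all fun s => (List.range d).all fun x =>
    let c := (D.cosC.getD s []).getD x ([], [])
    triv R (D.r.getD ((act1 D.tabs (2 * s) x).1) [] ++ [2 * s] ++ winv (D.r.getD x []) ++
      winv (subst (D.Y ++ D.T) c.1)) c.2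

/-- The small conditions. -/
def chkSmall (n m d : ℕ) (R R' : List (List ℕ)) (D : Dat) : Bool :=
  decide (D.tabs.length = n) && decide (D.x0 < d) && decide (D.Y.length = m) &&
    (D.tabs.all (okTab d)) && (D.r.getD D.x0 []).isEmpty &&
    (R.all fun r => r.all fun a => decide (a / 2 < n)) &&
    (R'.all fun r => r.all fun a => decide (a / 2 < m))

theorem all_range {n : ℕ} {P : ℕ → Bool} (h : (List.range n).all P = true) {i : ℕ} (hi : i < n) :
    P i = true := by
  rw [List.all_eq_true] at h
  exact h i (List.mem_range.mpr hi)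

theorem ev_congr {G : Type*} [Group G] {f g : ℕ → G} {n : ℕ} (h : ∀ i < n, f i = g i)
    {w : List ℕ} (hw : ∀ a ∈ w, a / 2 < n) : ev f w = ev g w := by
  induction w with
  | nil => rfl
  | cons a t ih =>
    rw [ev_cons, ev_cons, ih fun b hb => hw b (List.mem_cons_of_mem a hb)]
    congr 1
    unfold val
    rw [h _ (hw a List.mem_cons_self)]

theorem ev_mem {G : Type*} [Group G] (f : ℕ → G) (K : Subgroup G) (h : ∀ i, f i ∈ K)
    (w : List ℕ) : ev f w ∈ K := by
  induction w with
  | nil => exact K.one_mem
  | cons a t ih =>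
    rw [ev_cons]
    refine K.mul_mem ?_ ih
    unfold val
    split_ifs
    · exact h _
    · exact K.inv_mem (h _)

theorem getD_mem_or {α : Type*} (l : List (List α)) (i : ℕ) : l.getD i [] ∈ l ∨ l.getD i [] = [] := by
  rw [List.getD_eq_getElem?_getD]
  rcases h : l[i]? with _ | r
  · exact Or.inr rfl
  · exact Or.inl (List.mem_of_getElem? h)

/-- The checker is sound. -/
theorem arrow_of_dat {n m d : ℕ} {R R' : List (List ℕ)} (D : Dat)
    (hs : chkSmall n m d R R' D = true) (hrel : chkRel R R' d D = true)
    (hY : chkY R' m D = true) (hT : chkT R' D = true) (hconj : chkConj R m D = true)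
    (hrel2 : chkRel2 R R' D = true) (hcos : chkCos R n d D = true) :
    Arrow (PG n R) (PG m R') := by
  classical
  unfold chkSmall at hs
  simp only [Bool.and_eq_true, decide_eq_true_eq, List.all_eq_true] at hs
  obtain ⟨⟨⟨⟨⟨⟨hn, hx0⟩, hYl⟩, htab⟩, hr0⟩, hRn⟩, hR'm⟩ := hs
  rw [List.isEmpty_iff] at hr0
  set q := pg m R' with hq
  set g := pg n R with hg
  have hqR := pg_rel m R'
  have hgR := pg_rel n R
  set F := tabsWr q d D.tabs htab with hF
  have hF1 : ∀ i, ¬ i < n → F i = 1 := by
    intro i hi
    rw [hF]
    unfold tabsWr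
    rw [dif_neg (by rwa [hn])]
  have hFF : (fun i => if i < n then F i else 1) = F := by
    funext i
    split_ifs with hi
    · rfl
    · exact (hF1 i hi).symm
  -- the homomorphism
  have hrels : ∀ r ∈ R, ev (fun i => if i < n then F i else 1) r = 1 := by
    intro r hr
    rw [hFF]
    obtain ⟨i, hi, rfl⟩ := List.getElem_of_mem hr
    apply Wr.ext_iff'
    intro x
    have h1 := all_range (all_range hrel hi) x.2
    simp only [Bool.and_eq_true, decide_eq_true_eq] at h1
    have h2 : R.getD i [] = R[i] := by
      rw [List.getD_eq_getElem?_getD, List.getElem?_eq_getElem hi]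
      rfl
    rw [h2] at h1
    have h3 := actw_sound q d D.tabs htab R[i] x
    refine ⟨Fin.ext ?_, ?_⟩
    · rw [h3.1, h1.1]
      rfl
    · rw [h3.2, triv_sound q hqR h1.2]
      rfl
  let Φ : PG n R →* Wr (PG m R') (Fin d) := homPG F hrels
  have hΦ : ∀ i, Φ (g i) = F i := by
    intro i
    have := homPG_pg F hrels i
    rw [this]
    exact congrFun hFF i
  have hΦw : ∀ w, Φ (ev g w) = ev F w := fun w => map_ev Φ g F hΦ w
  -- the kernel generators
  let Tset : Set (PG n R) := {t | ∃ a < D.T.length, t = ev g (D.T.getD a [])}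
  have hTfin : Tset.Finite := by
    have : Tset = (fun a => ev g (D.T.getD a [])) '' (Set.Iio D.T.length) := by
      ext t
      constructor
      · rintro ⟨a, ha, rfl⟩
        exact ⟨a, ha, rfl⟩
      · rintro ⟨a, ha, rfl⟩
        exact ⟨a, ha, rfl⟩
    rw [this]
    exact (Set.finite_Iio _).image _
  let y : Fin m → PG n R := fun a => ev g (D.Y.getD a [])
  have hTmem : ∀ w, ev g (subst D.T w) ∈ Subgroup.closure Tset := by
    intro w
    rw [ev_subst]
    apply ev_mem
    intro i
    by_cases hi : i < D.T.length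
    · exact Subgroup.subset_closure ⟨i, hi, rfl⟩
    · have : D.T.getD i [] = [] := by
        rw [List.getD_eq_getElem?_getD, List.getElem?_eq_none (not_lt.mp hi)]
        rfl
      rw [this]
      exact one_mem _
  refine arrow_of_wr Φ (⟨D.x0, hx0⟩ : Fin d) (closure_pg n R) y Tset hTfin
    (fun x => ev g (D.r.getD x [])) ?_ ?_ ?_ ?_ ?_ ?_ ?_ ?_
  · change ev g (D.r.getD D.x0 []) = 1
    rw [hr0]
    rfl
  · intro a
    have h1 := all_range hY a.2
    simp only [Bool.and_eq_true, decide_eq_true_eq] at h1
    have h3 := actw_sound q d D.tabs htab (D.Y.getD a []) ⟨D.x0, hx0⟩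
    rw [hΦw]
    apply Fin.ext
    rw [h3.1, h1.1]
  · intro a
    have h1 := all_range hY a.2
    simp only [Bool.and_eq_true, decide_eq_true_eq] at h1
    have h3 := actw_sound q d D.tabs htab (D.Y.getD a []) ⟨D.x0, hx0⟩
    rw [hΦw, h3.2]
    have h4 := triv_sound q hqR h1.2
    rw [ev_append, mul_eq_one_iff_eq_inv] at h4
    rw [h4, ev_cons, ev_nil, mul_one]
    have h5 : val q (2 * (a : ℕ) + 1) = (q a)⁻¹ := by
      unfold val
      have e1 : (2 * (a : ℕ) + 1) % 2 ≠ 0 := by omega
      have e2 : (2 * (a : ℕ) + 1) / 2 = a := by omega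
      rw [if_neg e1, e2]
    rw [h5, inv_inv, hq]
    unfold pg
    rw [dif_pos a.2]
  · rintro t ⟨a, ha, rfl⟩
    have h1 := all_range hT ha
    simp only [Bool.and_eq_true, decide_eq_true_eq] at h1
    have h3 := actw_sound q d D.tabs htab (D.T.getD a []) ⟨D.x0, hx0⟩
    rw [hΦw]
    apply Fin.ext
    rw [h3.1, h1.1]
  · rintro t ⟨a, ha, rfl⟩
    have h1 := all_range hT ha
    simp only [Bool.and_eq_true, decide_eq_true_eq] at h1
    have h3 := actw_sound q d D.tabs htab (D.T.getD a []) ⟨D.x0, hx0⟩
    rw [hΦw, h3.2, triv_sound q hqR h1.2]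
  · rintro a t ⟨b, hb, rfl⟩
    have h1 := all_range (all_range hconj a.2) hb
    simp only [Bool.and_eq_true] at h1
    constructor
    · have h4 := triv_sound g hgR h1.1
      simp only [ev_append, ev_winv] at h4
      rw [mul_inv_eq_one] at h4
      change ev g (D.Y.getD a []) * ev g (D.T.getD b []) * (ev g (D.Y.getD a []))⁻¹ ∈ _
      rw [h4]
      exact hTmem _
    · have h4 := triv_sound g hgR h1.2
      simp only [ev_append, ev_winv] at h4
      rw [mul_inv_eq_one] at h4
      change (ev g (D.Y.getD a []))⁻¹ * ev g (D.T.getD b []) * (ev g (D.Y.getD a [])) ∈ _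
      rw [h4]
      exact hTmem _
  · rintro _ ⟨r, hr, rfl⟩
    obtain ⟨i, hi, rfl⟩ := List.getElem_of_mem hr
    have h1 := all_range hrel2 hi
    have h2 : R'.getD i [] = R'[i] := by
      rw [List.getD_eq_getElem?_getD, List.getElem?_eq_getElem hi]
      rfl
    simp only [h2] at h1
    have h4 := triv_sound g hgR h1
    rw [ev_append, ev_winv, mul_inv_eq_one] at h4
    have h5 : FreeGroup.lift y (ev (fg m) R'[i]) = ev g (subst D.Y R'[i]) := by
      rw [ev_subst]
      rw [map_ev (FreeGroup.lift y) (fg m) (fun i => if h : i < m then y ⟨i, h⟩ else 1)]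
      · apply ev_congr (n := m)
        · intro j hj
          rw [dif_pos hj]
        · intro a ha
          exact hR'm _ hr a ha
      · intro j
        unfold fg
        split_ifs with hj
        · rw [FreeGroup.lift_apply_of]
        · exact map_one _
    rw [h5, h4]
    exact hTmem _
  · rintro s ⟨i, hi, rfl⟩ x
    have h1 := all_range (all_range hcos hi) x.2
    have h4 := triv_sound g hgR h1
    simp only [ev_append, ev_winv] at h4
    rw [mul_inv_eq_one] at h4
    have h5 := act1_sound q d D.tabs htab (2 * i) x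
    have h6 : val (tabsWr q d D.tabs htab) (2 * i) = Φ (g i) := by
      rw [hΦ]
      unfold val
      have e1 : (2 * i) % 2 = 0 := by omega
      have e2 : (2 * i) / 2 = i := by omega
      rw [if_pos e1, e2]
    rw [h6] at h5
    have h7 : ev g [2 * i] = g i := by
      rw [ev_cons, ev_nil, mul_one]
      unfold val
      have e1 : (2 * i) % 2 = 0 := by omega
      have e2 : (2 * i) / 2 = i := by omega
      rw [if_pos e1, e2]
    rw [h7, ← h5.1] at h4
    change ev g (D.r.getD ((Φ (g i)).perm x) []) * g i * (ev g (D.r.getD x []))⁻¹ ∈ _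
    rw [h4, ev_subst]
    apply ev_mem
    intro j
    by_cases hj : j < D.Y.length
    · apply Subgroup.subset_closure
      left
      refine ⟨⟨j, by rwa [hYl] at hj⟩, ?_⟩
      change ev g (D.Y.getD j []) = _
      rw [List.getD_eq_getElem?_getD, List.getD_eq_getElem?_getD, List.getElem?_append_left hj]
    · rw [not_lt] at hj
      have e1 : (D.Y ++ D.T).getD j [] = D.T.getD (j - D.Y.length) [] := by
        rw [List.getD_eq_getElem?_getD, List.getD_eq_getElem?_getD, List.getElem?_append_right hj]
      rw [e1]
      by_cases hk : j - D.Y.length < D.T.length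
      · exact Subgroup.subset_closure (Or.inr ⟨_, hk, rfl⟩)
      · have : D.T.getD (j - D.Y.length) [] = [] := by
          rw [List.getD_eq_getElem?_getD, List.getElem?_eq_none (not_lt.mp hk)]
          rfl
        rw [this]
        exact one_mem _

end Pool.Agent.H.MP_ee9c6f_al.E2.Chk
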