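import Pool.Agent.H.MP_ee9c6f_al.E2.DataAB

/-!
MP_ee9c6f_al, genus 2 (helper70). A second checker for arrows: the kernel is normalised because of
identities in one direction only; the coset table is verified by a list of deductions; words in
`Mod_{0,5}` are checked by rewriting to the stabiliser of a point (`datB`).
-/

set_option autoImplicit false

namespace Pool.Agent.H.MP_ee9c6f_al.E2

open Wr

/-- A subgroup is normalised by an element of finite order modulo it, if it is mapped into itself. -/
theorem normalizer_of_pow {G : Type*} [Group G] (L : Subgroup G) (z : G)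
    (h1 : ∀ x ∈ L, z * x * z⁻¹ ∈ L) (k : ℕ) (hk : z ^ (k + 1) ∈ L) :
    z ∈ Subgroup.normalizer (L : Set G) := by
  have hit : ∀ (j : ℕ) (x : G), x ∈ L → z ^ j * x * (z ^ j)⁻¹ ∈ L := by
    intro j
    induction j with
    | zero => intro x hx; simpa using hx
    | succ j ih =>
      intro x hx
      have h2 := h1 _ (ih x hx)
      have e : z ^ (j + 1) * x * (z ^ (j + 1))⁻¹ = z * (z ^ j * x * (z ^ j)⁻¹) * z⁻¹ := by
        rw [pow_succ']
        group
      rw [e]
      exact h2
  rw [Subgroup.mem_normalizer_iff]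
  intro x
  constructor
  · exact h1 x
  · intro hx
    have h2 : (z ^ (k + 1))⁻¹ * (z * x * z⁻¹) * z ^ (k + 1) ∈ L :=
      L.mul_mem (L.mul_mem (L.inv_mem hk) hx) hk
    have h3 := hit k _ h2
    have e : z ^ k * ((z ^ (k + 1))⁻¹ * (z * x * z⁻¹) * z ^ (k + 1)) * (z ^ k)⁻¹ = x := by
      rw [pow_succ']
      group
    rwa [e] at h3

/-- A criterion for an arrow, second form. -/
theorem arrow_of_wr2 {G X : Type} [Group G] [Finite X] {α ι : Type} {rels : Set (FreeGroup α)}
    (Φ : G →* Wr (PresentedGroup rels) X) (x₀ : X) {S : Set G} (hS : Subgroup.closure S = ⊤)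
    (y : α → G) (T : Set G) (hT : T.Finite) (r : X → G) (hr : r x₀ = 1)
    (hy1 : ∀ a, (Φ (y a)).perm x₀ = x₀) (hy2 : ∀ a, (Φ (y a)).lab x₀ = PresentedGroup.of a)
    (hT1 : ∀ t ∈ T, (Φ t).perm x₀ = x₀) (hT2 : ∀ t ∈ T, (Φ t).lab x₀ = 1)
    (z : ι → G) (hz1 : ∀ i, ∀ t ∈ T, z i * t * (z i)⁻¹ ∈ Subgroup.closure T)
    (hz2 : ∀ i, ∃ k : ℕ, z i ^ (k + 1) ∈ Subgroup.closure T)
    (hyz : ∀ a, y a ∈ Subgroup.closure (Set.range z ∪ T))
    (hrel : ∀ w ∈ rels, FreeGroup.lift y w ∈ Subgroup.closure T)
    (hcos : ∀ s ∈ S, ∀ x, r ((Φ s).perm x) * s * (r x)⁻¹ ∈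
      Subgroup.closure (Set.range y ∪ T)) :
    Arrow G (PresentedGroup rels) := by
  have hz3 : ∀ i, z i ∈ Subgroup.normalizer (Subgroup.closure T : Set G) := by
    intro i
    obtain ⟨k, hk⟩ := hz2 i
    refine normalizer_of_pow _ _ ?_ k hk
    intro x hx
    have h1 : Subgroup.closure T ≤ (Subgroup.closure T).comap (MulAut.conj (z i)).toMonoidHom := by
      rw [Subgroup.closure_le]
      intro t ht
      exact hz1 i t ht
    exact h1 hx
  have hle : Subgroup.closure (Set.range z ∪ T) ≤
      Subgroup.normalizer (Subgroup.closure T : Set G) := by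
    rw [Subgroup.closure_le]
    rintro g (⟨i, rfl⟩ | hg)
    · exact hz3 i
    · exact Subgroup.le_normalizer (Subgroup.subset_closure hg)
  refine arrow_of_wr Φ x₀ hS y T hT r hr hy1 hy2 hT1 hT2 ?_ hrel hcos
  intro a t ht
  have h1 := hle (hyz a)
  have h2 := Subgroup.inv_mem _ h1
  constructor
  · exact (Subgroup.mem_normalizer_iff.mp h1 t).mp (Subgroup.subset_closure ht)
  · have h3 := (Subgroup.mem_normalizer_iff.mp h2 t).mp (Subgroup.subset_closure ht)
    rwa [inv_inv] at h3

namespace Chk

/-! ### Words in `Mod_{0,5}` -/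

theorem datB_cos : chkCos relP 4 5 datB = true := by decide +kernel

theorem datB_small : chkSmall 4 3 5 relP relB datB = true := by decide +kernel

/-- The words of the coset table of `datB` are the labels. -/
theorem datB_lab : ((List.range 4).all fun s => (List.range 5).all fun x =>
    decide (subst (datB.Y ++ datB.T) ((datB.cosC.getD s []).getD x ([], [])).1 =
      (act1 datB.tabs (2 * s) x).2) && decide ((act1 datB.tabs (2 * s) x).1 < 5)) = true := by
  decide +kernel

theorem datB_edge {s x : ℕ} (hs : s < 4) (hx : x < 5) :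
    ev (pg 4 relP) (datB.r.getD (act1 datB.tabs (2 * s) x).1 []) * pg 4 relP s =
      ev (pg 4 relP) (act1 datB.tabs (2 * s) x).2 * ev (pg 4 relP) (datB.r.getD x []) ∧
    (act1 datB.tabs (2 * s) x).1 < 5 := by
  have h1 := all_range (all_range datB_cos hs) hx
  have h2 := all_range (all_range datB_lab hs) hx
  simp only [Bool.and_eq_true, decide_eq_true_eq] at h2
  have h4 := triv_sound (pg 4 relP) (pg_rel 4 relP) h1
  simp only [ev_append, ev_winv] at h4
  rw [mul_inv_eq_one] at h4
  have h7 : ev (pg 4 relP) [2 * s] = pg 4 relP s := by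
    rw [ev_cons, ev_nil, mul_one]
    unfold val
    have e1 : (2 * s) % 2 = 0 := by omega
    have e2 : (2 * s) / 2 = s := by omega
    rw [if_pos e1, e2]
  rw [h7, h2.1] at h4
  exact ⟨mul_inv_eq_iff_eq_mul.mp h4, h2.2⟩

theorem act1_lt {n d : ℕ} {tabs : List Tab} (hn : tabs.length = n)
    (h : ∀ t ∈ tabs, okTab d t = true) {a x : ℕ} (hx : x < d) : (act1 tabs a x).1 < d := by
  unfold act1
  by_cases hi : a / 2 < tabs.length
  · have h1 : tabs[a / 2]? = some tabs[a / 2] := List.getElem?_eq_getElem hi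
    rw [h1]
    have h2 := okTab_iff (h _ (List.getElem_mem hi)) hx
    simp only
    split_ifs
    · exact h2.1
    · exact h2.2.1
  · rw [List.getElem?_eq_none (not_lt.mp hi)]
    exact hx

/-- An odd letter undoes the even letter. -/
theorem act1_odd {d : ℕ} {tabs : List Tab} (h : ∀ t ∈ tabs, okTab d t = true) {a x : ℕ}
    (hx : x < d) (ha : a % 2 = 1) (hi : a / 2 < tabs.length) :
    (act1 tabs (2 * (a / 2)) (act1 tabs a x).1).1 = x ∧
      (act1 tabs a x).2 = winv (act1 tabs (2 * (a / 2)) (act1 tabs a x).1).2 := by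
  have h1 : tabs[a / 2]? = some tabs[a / 2] := List.getElem?_eq_getElem hi
  have h2 := okTab_iff (h _ (List.getElem_mem hi)) hx
  have e0 : 2 * (a / 2) / 2 = a / 2 := by omega
  have e1 : (2 * (a / 2)) % 2 = 0 := by omega
  have e2 : a % 2 ≠ 0 := by omega
  unfold act1
  rw [e0, h1]
  simp only [e1, e2, if_true, if_false]
  exact ⟨h2.2.2.2, trivial⟩

theorem datB_tabs : ∀ t ∈ datB.tabs, okTab 5 t = true := by
  have h := datB_small
  unfold chkSmall at h
  simp only [Bool.and_eq_true, List.all_eq_true] at h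
  exact h.1.1.1.2

theorem datB_len : datB.tabs.length = 4 := by
  have h := datB_small
  unfold chkSmall at h
  simp only [Bool.and_eq_true, decide_eq_true_eq] at h
  exact h.1.1.1.1.1.1

theorem val_two_mul {G : Type*} [Group G] (f : ℕ → G) (s : ℕ) : val f (2 * s) = f s := by
  unfold val
  have e1 : (2 * s) % 2 = 0 := by omega
  have e2 : (2 * s) / 2 = s := by omega
  rw [if_pos e1, e2]

theorem datB_letter {a x : ℕ} (ha : a < 8) (hx : x < 5) :
    ev (pg 4 relP) (datB.r.getD (act1 datB.tabs a x).1 []) * val (pg 4 relP) a =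
      ev (pg 4 relP) (act1 datB.tabs a x).2 * ev (pg 4 relP) (datB.r.getD x []) := by
  rcases Nat.mod_two_eq_zero_or_one a with h | h
  · have e : 2 * (a / 2) = a := by omega
    have h1 := (datB_edge (s := a / 2) (by omega) hx).1
    rw [e] at h1
    have h2 : val (pg 4 relP) a = pg 4 relP (a / 2) := by
      conv_lhs => rw [← e]
      exact val_two_mul _ _
    rw [h2]
    exact h1
  · have hy : (act1 datB.tabs a x).1 < 5 := act1_lt datB_len datB_tabs hx
    have h1 := (datB_edge (s := a / 2) (by omega) hy).1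
    have h2 := act1_odd datB_tabs hx h (by rw [datB_len]; omega)
    rw [h2.1] at h1
    rw [h2.2, ev_winv]
    have h3 : val (pg 4 relP) a = (pg 4 relP (a / 2))⁻¹ := by
      unfold val
      rw [if_neg (by omega)]
    rw [h3, mul_inv_eq_iff_eq_mul, mul_assoc, h1, inv_mul_cancel_left]

theorem datB_word (w : List ℕ) (hw : ∀ a ∈ w, a < 8) {x : ℕ} (hx : x < 5) :
    (actw datB.tabs w x).1 < 5 ∧
    ev (pg 4 relP) (datB.r.getD (actw datB.tabs w x).1 []) * ev (pg 4 relP) w =
      ev (pg 4 relP) (actw datB.tabs w x).2 * ev (pg 4 relP) (datB.r.getD x []) := by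
  induction w with
  | nil => exact ⟨hx, by simp [actw, ev_nil]⟩
  | cons a t ih =>
    obtain ⟨ih1, ih2⟩ := ih fun b hb => hw b (List.mem_cons_of_mem a hb)
    have ha : a < 8 := hw a List.mem_cons_self
    refine ⟨act1_lt datB_len datB_tabs ih1, ?_⟩
    have h1 := datB_letter ha ih1
    change ev (pg 4 relP) (datB.r.getD (act1 datB.tabs a (actw datB.tabs t x).1).1 []) *
        (val (pg 4 relP) a * ev (pg 4 relP) t) =
      ev (pg 4 relP) ((act1 datB.tabs a (actw datB.tabs t x).1).2 ++ (actw datB.tabs t x).2) * _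
    rw [ev_append, ← mul_assoc, h1, mul_assoc, ih2, mul_assoc]

theorem relB_four : triv relP (relB.getD 3 []) (datB.rel2C.getD 3 ([], [])).2 = true := by
  decide +kernel

theorem relB_in_relP : ∀ r ∈ relB, ev (pg 4 relP) r = 1 := by
  intro r hr
  have h := pg_rel 4 relP
  have h4 := triv_sound (pg 4 relP) h relB_four
  simp only [relB, List.mem_cons, List.not_mem_nil, or_false] at hr
  rcases hr with rfl | rfl | rfl | rfl
  · exact h _ (by simp [relP])
  · exact h _ (by simp [relP])
  · exact h _ (by simp [relP])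
  · exact h4

/-- Decode a derivation from a natural number. -/
def dec : ℕ → ℕ → List (ℕ × ℕ × ℕ)
  | 0, _ => []
  | k + 1, n => (n % 262144 / 128, n % 128 / 16, n % 16) :: dec k (n / 262144)

/-- A word in `Mod_{0,5}` is trivial: rewrite it to the stabiliser of the last point and apply a
derivation for the braid group on four strands modulo its centre. -/
def triv5 (w : List ℕ) (c : ℕ × ℕ) : Bool :=
  (w.all fun a => decide (a < 8)) &&
    (let u := actw datB.tabs w 4
     decide (u.1 = 4) && triv relB u.2 (dec c.1 c.2))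

theorem triv5_sound {w : List ℕ} {c : ℕ × ℕ} (h : triv5 w c = true) :
    ev (pg 4 relP) w = 1 := by
  unfold triv5 at h
  simp only [Bool.and_eq_true, decide_eq_true_eq, List.all_eq_true] at h
  obtain ⟨h1, h2, h3⟩ := h
  have h4 := (datB_word w h1 (x := 4) (by omega)).2
  rw [h2, triv_sound (pg 4 relP) relB_in_relP h3, one_mul] at h4
  exact mul_left_cancel (h4.trans (mul_one _).symm)

/-! ### Deductions -/

/-- Set a bit. -/
def setb (K e : ℕ) : ℕ := K ||| (1 <<< e)

theorem testBit_setb {K e i : ℕ} (h : (setb K e).testBit i = true) :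
    K.testBit i = true ∨ i = e := by
  unfold setb at h
  rw [Nat.testBit_or, Bool.or_eq_true] at h
  rcases h with h | h
  · exact Or.inl h
  · right
    rw [Nat.one_shiftLeft, Nat.testBit_two_pow, decide_eq_true_eq] at h
    exact h.symm

/-- The number of the edge of a letter at a point. -/
def eix (n : ℕ) (tabs : List Tab) (a x : ℕ) : ℕ :=
  n * (if a % 2 = 0 then x else (act1 tabs a x).1) + a / 2

/-- All edges of the path are known. -/
def kpath (n : ℕ) (tabs : List Tab) (K : ℕ) : List ℕ → ℕ → Bool × ℕ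
  | [], x => (true, x)
  | a :: t, x =>
    let u := kpath n tabs K t x
    (u.1 && K.testBit (eix n tabs a u.2), (act1 tabs a u.2).1)

section Ded

variable {n d : ℕ} {R : List (List ℕ)} (D : Dat) (G₀ : Subgroup (PG n R))

/-- The element of a letter at a point. -/
def eel (a x : ℕ) : PG n R :=
  ev (pg n R) (D.r.getD (act1 D.tabs a x).1 []) * val (pg n R) a *
    (ev (pg n R) (D.r.getD x []))⁻¹

/-- The known edges lie in the subgroup. -/
def Inv (K : ℕ) : Prop :=
  ∀ s < n, ∀ x < d, K.testBit (n * x + s) = true → eel (R := R) D (2 * s) x ∈ G₀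

variable {D G₀} (htab : ∀ t ∈ D.tabs, okTab d t = true) (hlen : D.tabs.length = n)
include htab hlen

theorem Inv.letter {K : ℕ} (hK : Inv (d := d) D G₀ K) {a x : ℕ} (ha : a / 2 < n) (hx : x < d)
    (h : K.testBit (eix n D.tabs a x) = true) : eel D a x ∈ G₀ := by
  rcases Nat.mod_two_eq_zero_or_one a with h0 | h0
  · have e : 2 * (a / 2) = a := by omega
    unfold eix at h
    rw [if_pos h0] at h
    have := hK (a / 2) ha x hx h
    rwa [e] at this
  · unfold eix at h
    rw [if_neg (by omega)] at h
    have hy : (act1 D.tabs a x).1 < d := act1_lt hlen htab hx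
    have h1 := hK (a / 2) ha _ hy h
    have h2 := act1_odd htab hx h0 (by rw [hlen]; exact ha)
    unfold eel at h1 ⊢
    rw [h2.1, val_two_mul] at h1
    have h3 : val (pg n R) a = (pg n R (a / 2))⁻¹ := by
      unfold val
      rw [if_neg (by omega)]
    rw [h3]
    have h4 := G₀.inv_mem h1
    convert h4 using 1
    group

theorem Inv.edge {K : ℕ} {a x : ℕ} (ha : a / 2 < n) (hx : x < d)
    (h : eel D a x ∈ G₀) (hK : Inv (d := d) D G₀ K) :
    Inv (d := d) D G₀ (setb K (eix n D.tabs a x)) := by
  intro s hs y hy hb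
  rcases testBit_setb hb with hb | hb
  · exact hK s hs y hy hb
  · rcases Nat.mod_two_eq_zero_or_one a with h0 | h0
    · unfold eix at hb
      rw [if_pos h0] at hb
      have h1 : s = a / 2 ∧ y = x := by
        have e1 := congrArg (· % n) hb
        have e2 := congrArg (· / n) hb
        simp only [Nat.mul_add_mod, Nat.mod_eq_of_lt hs, Nat.mod_eq_of_lt ha] at e1
        have hn : 0 < n := by omega
        simp only [Nat.mul_add_div hn, Nat.div_eq_of_lt hs, Nat.div_eq_of_lt ha, add_zero] at e2
        exact ⟨e1, e2⟩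
      rw [h1.1, h1.2]
      have e : 2 * (a / 2) = a := by omega
      rwa [e]
    · unfold eix at hb
      rw [if_neg (by omega)] at hb
      have h1 : s = a / 2 ∧ y = (act1 D.tabs a x).1 := by
        have e1 := congrArg (· % n) hb
        have e2 := congrArg (· / n) hb
        simp only [Nat.mul_add_mod, Nat.mod_eq_of_lt hs, Nat.mod_eq_of_lt ha] at e1
        have hn : 0 < n := by omega
        simp only [Nat.mul_add_div hn, Nat.div_eq_of_lt hs, Nat.div_eq_of_lt ha, add_zero] at e2
        exact ⟨e1, e2⟩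
      rw [h1.1, h1.2]
      have h2 := act1_odd htab hx h0 (by rw [hlen]; exact ha)
      unfold eel at h ⊢
      rw [h2.1, val_two_mul]
      have h3 : val (pg n R) a = (pg n R (a / 2))⁻¹ := by
        unfold val
        rw [if_neg (by omega)]
      rw [h3] at h
      have h4 := G₀.inv_mem h
      convert h4 using 1
      group

theorem Inv.path {K : ℕ} (hK : Inv (d := d) D G₀ K) (w : List ℕ) (hw : ∀ a ∈ w, a / 2 < n)
    {x : ℕ} (hx : x < d) (h : (kpath n D.tabs K w x).1 = true) :
    (kpath n D.tabs K w x).2 < d ∧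
    ev (pg n R) (D.r.getD (kpath n D.tabs K w x).2 []) * ev (pg n R) w *
      (ev (pg n R) (D.r.getD x []))⁻¹ ∈ G₀ := by
  induction w with
  | nil =>
    refine ⟨hx, ?_⟩
    change ev (pg n R) (D.r.getD x []) * 1 * _ ∈ G₀
    rw [mul_one, mul_inv_cancel]
    exact G₀.one_mem
  | cons a t ih =>
    unfold kpath at h
    simp only [Bool.and_eq_true] at h
    obtain ⟨h1, h2⟩ := ih (fun b hb => hw b (List.mem_cons_of_mem a hb)) h.1
    have ha : a / 2 < n := hw a List.mem_cons_self
    have h3 := hK.letter htab hlen ha h1 h.2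
    refine ⟨act1_lt hlen htab h1, ?_⟩
    have h4 := G₀.mul_mem h3 h2
    unfold eel at h4
    change ev (pg n R) (D.r.getD (act1 D.tabs a (kpath n D.tabs K t x).2).1 []) *
      (val (pg n R) a * ev (pg n R) t) * _ ∈ G₀
    convert h4 using 1
    group

/-- A deduction: the cycle, its starting point, and the place of the new edge. -/
def dstep (n d nr x0 : ℕ) (tabs : List Tab) (cyc : List (List ℕ)) (K : ℕ) (s : ℕ × ℕ × ℕ) : ℕ :=
  let w := cyc.getD s.1 []
  let p1 := kpath n tabs K (w.drop (s.2.2 + 1)) s.2.1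
  let a := w.getD s.2.2 0
  let p2 := kpath n tabs K (w.take s.2.2) (act1 tabs a p1.2).1
  if p1.1 && p2.1 && decide (p2.2 = s.2.1) && decide (s.2.2 < w.length) && decide (s.2.1 < d) &&
    (decide (s.1 < nr) || decide (s.2.1 = x0)) then setb K (eix n tabs a p1.2) else K

theorem Inv.dstep {K : ℕ} (hK : Inv (d := d) D G₀ K) {nr : ℕ} {cyc : List (List ℕ)}
    (hcyc : ∀ w ∈ cyc, ∀ a ∈ w, a / 2 < n) (hr0 : D.r.getD D.x0 [] = [])
    (h1 : ∀ i < nr, ev (pg n R) (cyc.getD i []) = 1)
    (h2 : ∀ i, ev (pg n R) (cyc.getD i []) ∈ G₀) (s : ℕ × ℕ × ℕ) :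
    Inv (d := d) D G₀ (dstep n d nr D.x0 D.tabs cyc K s) := by
  unfold Chk.dstep
  simp only
  split_ifs with hc
  swap
  · exact hK
  simp only [Bool.and_eq_true, decide_eq_true_eq, Bool.or_eq_true] at hc
  obtain ⟨⟨⟨⟨⟨c1, c2⟩, c3⟩, c4⟩, c5⟩, c6⟩ := hc
  set w := cyc.getD s.1 [] with hw
  have hwl : ∀ a ∈ w, a / 2 < n := by
    intro a ha
    rcases getD_mem_or cyc s.1 with h | h
    · exact hcyc _ h a ha
    · rw [hw, h] at ha
      exact absurd ha List.not_mem_nil
  have hwx : ev (pg n R) (D.r.getD s.2.1 []) * ev (pg n R) w *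
      (ev (pg n R) (D.r.getD s.2.1 []))⁻¹ ∈ G₀ := by
    rcases c6 with c6 | c6
    · rw [hw, h1 _ c6, mul_one, mul_inv_cancel]
      exact G₀.one_mem
    · rw [c6, hr0, ev_nil, one_mul, inv_one, mul_one]
      exact h2 _
  have ha : w.getD s.2.2 0 ∈ w := by
    rw [List.getD_eq_getElem?_getD, List.getElem?_eq_getElem c4]
    exact List.getElem_mem c4
  have e1 : w = w.take s.2.2 ++ w.getD s.2.2 0 :: w.drop (s.2.2 + 1) := by
    rw [List.getD_eq_getElem?_getD, List.getElem?_eq_getElem c4]
    change w = w.take s.2.2 ++ w[s.2.2] :: w.drop (s.2.2 + 1)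
    rw [← List.drop_eq_getElem_cons c4, List.take_append_drop]
  obtain ⟨a1, a2⟩ := hK.path htab hlen (w.drop (s.2.2 + 1))
    (fun b hb => hwl b (List.mem_of_mem_drop hb)) c5 c1
  have a3 : (act1 D.tabs (w.getD s.2.2 0) (kpath n D.tabs K (w.drop (s.2.2 + 1)) s.2.1).2).1 < d :=
    act1_lt hlen htab a1
  obtain ⟨a4, a5⟩ := hK.path htab hlen (w.take s.2.2)
    (fun b hb => hwl b (List.mem_of_mem_take hb)) a3 c2
  rw [c3] at a5
  apply Inv.edge htab hlen (hwl _ ha) a1 _ hK
  unfold eel
  rw [e1, ev_append, ev_cons] at hwx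
  have h5 := G₀.mul_mem (G₀.mul_mem (G₀.inv_mem a5) hwx) (G₀.inv_mem a2)
  convert h5 using 1
  group

/-- The tree edges. -/
def treeK (n d : ℕ) (D : Dat) : ℕ :=
  (List.range d).foldl (fun K x => (List.range n).foldl (fun K s =>
    if (mulr (D.r.getD (act1 D.tabs (2 * s) x).1 [] ++ [2 * s]) (winv (D.r.getD x []))).isEmpty
    then setb K (n * x + s) else K) K) 0

omit htab hlen in
theorem foldl_inv {α : Type*} (P : ℕ → Prop) (f : ℕ → α → ℕ) (l : List α)
    (h : ∀ K, ∀ a ∈ l, P K → P (f K a)) : ∀ K, P K → P (l.foldl f K) := by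
  induction l with
  | nil => intro K hK; exact hK
  | cons a t ih =>
    intro K hK
    exact ih (fun K b hb => h K b (List.mem_cons_of_mem a hb)) _ (h K a List.mem_cons_self hK)

theorem inv_treeK : Inv (d := d) D G₀ (treeK n d D) := by
  unfold treeK
  apply foldl_inv (fun K => Inv (d := d) D G₀ K)
  · intro K x hx hK
    rw [List.mem_range] at hx
    apply foldl_inv (fun K => Inv (d := d) D G₀ K) _ _ _ K hK
    intro K s hs hK
    rw [List.mem_range] at hs
    split_ifs with hc
    · have h1 : eel (R := R) D (2 * s) x ∈ G₀ := by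
        rw [List.isEmpty_iff] at hc
        have h2 := ev_mulr (pg n R) (D.r.getD (act1 D.tabs (2 * s) x).1 [] ++ [2 * s])
          (winv (D.r.getD x []))
        rw [hc, ev_nil, ev_append, ev_winv, ev_cons, ev_nil, mul_one] at h2
        unfold eel
        rw [← h2]
        exact G₀.one_mem
      have h3 := Inv.edge htab hlen (a := 2 * s) (by omega) hx h1 hK
      have e : eix n D.tabs (2 * s) x = n * x + s := by
        unfold eix
        have e1 : (2 * s) % 2 = 0 := by omega
        have e2 : (2 * s) / 2 = s := by omega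
        rw [if_pos e1, e2]
      rwa [e] at h3
    · exact hK
  · intro s hs x hx hb
    rw [Nat.zero_testBit] at hb
    exact absurd hb (by decide)

end Ded

/-- The deductions prove that all edges are known. -/
def chkDed (n d nr : ℕ) (cyc : List (List ℕ)) (ded : List (ℕ × ℕ × ℕ)) (D : Dat) : Bool :=
  let K := ded.foldl (dstep n d nr D.x0 D.tabs cyc) (treeK n d D)
  (List.range (n * d)).all fun i => K.testBit i

theorem ded_sound {n d nr : ℕ} {R : List (List ℕ)} {cyc : List (List ℕ)}
    {ded : List (ℕ × ℕ × ℕ)} {D : Dat} (G₀ : Subgroup (PG n R))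
    (htab : ∀ t ∈ D.tabs, okTab d t = true) (hlen : D.tabs.length = n)
    (hcyc : ∀ w ∈ cyc, ∀ a ∈ w, a / 2 < n) (hr0 : D.r.getD D.x0 [] = [])
    (h1 : ∀ i < nr, ev (pg n R) (cyc.getD i []) = 1)
    (h2 : ∀ i, ev (pg n R) (cyc.getD i []) ∈ G₀) (h : chkDed n d nr cyc ded D = true)
    {s x : ℕ} (hs : s < n) (hx : x < d) : eel (R := R) D (2 * s) x ∈ G₀ := by
  have hinv : Inv (d := d) D G₀ (ded.foldl (dstep n d nr D.x0 D.tabs cyc) (treeK n d D)) := by
    apply foldl_inv (fun K => Inv (d := d) D G₀ K)
    · intro K s _ hK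
      exact hK.dstep htab hlen hcyc hr0 h1 h2 s
    · exact inv_treeK htab hlen
  refine hinv s hs x hx ?_
  have hi : n * x + s < n * d := by
    calc n * x + s < n * x + n := by omega
      _ = n * (x + 1) := by ring
      _ ≤ n * d := Nat.mul_le_mul_left n hx
  unfold chkDed at h
  exact all_range h hi

/-! ### The certificate of an arrow from `Mod_{0,5}` -/

/-- Additional data. -/
structure Dat2 where
  /-- normalising elements -/
  Z : List (List ℕ)
  /-- the conjugates of the generators of the kernel: word in `T` and derivation -/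
  zC : List (List (List ℕ × ℕ × ℕ))
  /-- the fifth powers of the normalising elements -/
  zP : List (ℕ × ℕ)
  /-- the lifts as words in `Z ++ T` -/
  yC : List (List ℕ × ℕ × ℕ)
  /-- the relators of the target -/
  relD : List (ℕ × ℕ)
  /-- further words -/
  E : List (List ℕ)
  /-- the further words as words in `Y ++ T` -/
  eC : List (List ℕ × ℕ × ℕ)
  /-- the deductions -/
  ded : List (ℕ × ℕ × ℕ)

/-- The conjugates. -/
def chkZ (D : Dat) (D2 : Dat2) : Bool :=
  (List.range D2.Z.length).all fun i => (List.range D.T.length).all fun t =>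
    let c := (D2.zC.getD i []).getD t ([], 0, 0)
    triv5 (D2.Z.getD i [] ++ D.T.getD t [] ++ winv (D2.Z.getD i []) ++ winv (subst D.T c.1)) c.2

/-- The fifth powers. -/
def chkZP (D2 : Dat2) : Bool :=
  (List.range D2.Z.length).all fun i =>
    triv5 (D2.Z.getD i [] ++ D2.Z.getD i [] ++ D2.Z.getD i [] ++ D2.Z.getD i [] ++ D2.Z.getD i [])
      (D2.zP.getD i (0, 0))

/-- The lifts. -/
def chkYZ (m : ℕ) (D : Dat) (D2 : Dat2) : Bool :=
  (List.range m).all fun a =>
    let c := D2.yC.getD a ([], 0, 0)
    triv5 (D.Y.getD a [] ++ winv (subst (D2.Z ++ D.T) c.1)) c.2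

/-- The relators of the target. -/
def chkRelD (R' : List (List ℕ)) (D : Dat) (D2 : Dat2) : Bool :=
  (List.range R'.length).all fun i => triv5 (subst D.Y (R'.getD i [])) (D2.relD.getD i (0, 0))

/-- The further words. -/
def chkE (D : Dat) (D2 : Dat2) : Bool :=
  (List.range D2.E.length).all fun i =>
    let c := D2.eC.getD i ([], 0, 0)
    triv5 (D2.E.getD i [] ++ winv (subst (D.Y ++ D.T) c.1)) c.2

/-- Small conditions. -/
def chkCyc (D : Dat) (D2 : Dat2) : Bool :=
  (relP ++ (D.Y ++ D.T ++ D2.E)).all fun w => w.all fun a => decide (a / 2 < 4)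

/-- The second checker is sound. -/
theorem arrow_of_dat2 {m d : ℕ} {R' : List (List ℕ)} (D : Dat) (D2 : Dat2)
    (hs : chkSmall 4 m d relP R' D = true) (hrel : chkRel relP R' d D = true)
    (hY : chkY R' m D = true) (hT : chkT R' D = true) (hZ : chkZ D D2 = true)
    (hZP : chkZP D2 = true) (hYZ : chkYZ m D D2 = true) (hRD : chkRelD R' D D2 = true)
    (hE : chkE D D2 = true) (hcyc : chkCyc D D2 = true)
    (hded : chkDed 4 d 8 (relP ++ (D.Y ++ D.T ++ D2.E)) D2.ded D = true) :
    Arrow (PG 4 relP) (PG m R') := by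
  classical
  unfold chkSmall at hs
  simp only [Bool.and_eq_true, decide_eq_true_eq, List.all_eq_true] at hs
  obtain ⟨⟨⟨⟨⟨⟨hn, hx0⟩, hYl⟩, htab⟩, hr0⟩, hRn⟩, hR'm⟩ := hs
  rw [List.isEmpty_iff] at hr0
  set q := pg m R' with hq
  set g := pg 4 relP with hg
  have hqR := pg_rel m R'
  have hgR := pg_rel 4 relP
  set F := tabsWr q d D.tabs htab with hF
  have hF1 : ∀ i, ¬ i < 4 → F i = 1 := by
    intro i hi
    rw [hF]
    unfold tabsWr
    rw [dif_neg (by rwa [hn])]
  have hFF : (fun i => if i < 4 then F i else 1) = F := by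
    funext i
    split_ifs with hi
    · rfl
    · exact (hF1 i hi).symm
  -- the homomorphism
  have hrels : ∀ r ∈ relP, ev (fun i => if i < 4 then F i else 1) r = 1 := by
    intro r hr
    rw [hFF]
    obtain ⟨i, hi, rfl⟩ := List.getElem_of_mem hr
    apply Wr.ext_iff'
    intro x
    have h1 := all_range (all_range hrel hi) x.2
    simp only [Bool.and_eq_true, decide_eq_true_eq] at h1
    have h2 : relP.getD i [] = relP[i] := by
      rw [List.getD_eq_getElem?_getD, List.getElem?_eq_getElem hi]
      rfl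
    rw [h2] at h1
    have h3 := actw_sound q d D.tabs htab relP[i] x
    refine ⟨Fin.ext ?_, ?_⟩
    · rw [h3.1, h1.1]
      rfl
    · rw [h3.2, triv_sound q hqR h1.2]
      rfl
  let Φ : PG 4 relP →* Wr (PG m R') (Fin d) := homPG F hrels
  have hΦ : ∀ i, Φ (g i) = F i := by
    intro i
    have := homPG_pg F hrels i
    rw [this]
    exact congrFun hFF i
  have hΦw : ∀ w, Φ (ev g w) = ev F w := fun w => map_ev Φ g F hΦ w
  -- the kernel generators
  let Tset : Set (PG 4 relP) := {t | ∃ a < D.T.length, t = ev g (D.T.getD a [])}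
  have hTfin : Tset.Finite := by
    have : Tset = (fun a => ev g (D.T.getD a [])) '' (Set.Iio D.T.length) := by
      ext t
      constructor
      · rintro ⟨a, ha, rfl⟩
        exact ⟨a, ha, rfl⟩
      · rintro ⟨a, ha, rfl⟩
        exact ⟨a, ha, rfl⟩
    rw [this]
    exact (Set.finite_Iio _).image _
  let y : Fin m → PG 4 relP := fun a => ev g (D.Y.getD a [])
  let z : Fin D2.Z.length → PG 4 relP := fun i => ev g (D2.Z.getD i [])
  have hTmem1 : ∀ i, ev g (D.T.getD i []) ∈ Subgroup.closure Tset := by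
    intro i
    by_cases hi : i < D.T.length
    · exact Subgroup.subset_closure ⟨i, hi, rfl⟩
    · have : D.T.getD i [] = [] := by
        rw [List.getD_eq_getElem?_getD, List.getElem?_eq_none (not_lt.mp hi)]
        rfl
      rw [this]
      exact one_mem _
  have hTmem : ∀ w, ev g (subst D.T w) ∈ Subgroup.closure Tset := by
    intro w
    rw [ev_subst]
    exact ev_mem _ _ hTmem1 w
  -- words in a list followed by `T`
  have hmem2 : ∀ (A : List (List ℕ)) (H : Subgroup (PG 4 relP)), Subgroup.closure Tset ≤ H →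
      (∀ i < A.length, ev g (A.getD i []) ∈ H) → ∀ w, ev g (subst (A ++ D.T) w) ∈ H := by
    intro A H hH hA w
    rw [ev_subst]
    apply ev_mem
    intro j
    by_cases hj : j < A.length
    · have e : (A ++ D.T).getD j [] = A.getD j [] := by
        rw [List.getD_eq_getElem?_getD, List.getD_eq_getElem?_getD, List.getElem?_append_left hj]
      rw [e]
      exact hA j hj
    · rw [not_lt] at hj
      have e : (A ++ D.T).getD j [] = D.T.getD (j - A.length) [] := by
        rw [List.getD_eq_getElem?_getD, List.getD_eq_getElem?_getD, List.getElem?_append_right hj]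
      rw [e]
      exact hH (hTmem1 _)
  have hYT : Subgroup.closure Tset ≤ Subgroup.closure (Set.range y ∪ Tset) :=
    Subgroup.closure_mono Set.subset_union_right
  have hYmem : ∀ i < D.Y.length, ev g (D.Y.getD i []) ∈ Subgroup.closure (Set.range y ∪ Tset) := by
    intro i hi
    exact Subgroup.subset_closure (Or.inl ⟨⟨i, by rwa [hYl] at hi⟩, rfl⟩)
  refine arrow_of_wr2 Φ (⟨D.x0, hx0⟩ : Fin d) (closure_pg 4 relP) y Tset hTfin
    (fun x => ev g (D.r.getD x [])) ?_ ?_ ?_ ?_ ?_ z ?_ ?_ ?_ ?_ ?_
  · change ev g (D.r.getD D.x0 []) = 1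
    rw [hr0]
    rfl
  · intro a
    have h1 := all_range hY a.2
    simp only [Bool.and_eq_true, decide_eq_true_eq] at h1
    have h3 := actw_sound q d D.tabs htab (D.Y.getD a []) ⟨D.x0, hx0⟩
    rw [hΦw]
    apply Fin.ext
    rw [h3.1, h1.1]
  · intro a
    have h1 := all_range hY a.2
    simp only [Bool.and_eq_true, decide_eq_true_eq] at h1
    have h3 := actw_sound q d D.tabs htab (D.Y.getD a []) ⟨D.x0, hx0⟩
    rw [hΦw, h3.2]
    have h4 := triv_sound q hqR h1.2
    rw [ev_append, mul_eq_one_iff_eq_inv] at h4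
    rw [h4, ev_cons, ev_nil, mul_one]
    have h5 : val q (2 * (a : ℕ) + 1) = (q a)⁻¹ := by
      unfold val
      have e1 : (2 * (a : ℕ) + 1) % 2 ≠ 0 := by omega
      have e2 : (2 * (a : ℕ) + 1) / 2 = a := by omega
      rw [if_neg e1, e2]
    rw [h5, inv_inv, hq]
    unfold pg
    rw [dif_pos a.2]
  · rintro t ⟨a, ha, rfl⟩
    have h1 := all_range hT ha
    simp only [Bool.and_eq_true, decide_eq_true_eq] at h1
    have h3 := actw_sound q d D.tabs htab (D.T.getD a []) ⟨D.x0, hx0⟩
    rw [hΦw]
    apply Fin.ext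
    rw [h3.1, h1.1]
  · rintro t ⟨a, ha, rfl⟩
    have h1 := all_range hT ha
    simp only [Bool.and_eq_true, decide_eq_true_eq] at h1
    have h3 := actw_sound q d D.tabs htab (D.T.getD a []) ⟨D.x0, hx0⟩
    rw [hΦw, h3.2, triv_sound q hqR h1.2]
  · rintro i t ⟨b, hb, rfl⟩
    have h1 := all_range (all_range hZ i.2) hb
    have h4 := triv5_sound h1
    simp only [ev_append, ev_winv] at h4
    rw [mul_inv_eq_one] at h4
    change ev g (D2.Z.getD i []) * ev g (D.T.getD b []) * (ev g (D2.Z.getD i []))⁻¹ ∈ _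
    rw [h4]
    exact hTmem _
  · intro i
    have h1 := all_range hZP i.2
    have h4 := triv5_sound h1
    simp only [ev_append] at h4
    refine ⟨4, ?_⟩
    have e : z i ^ (4 + 1) = z i * z i * z i * z i * z i := by
      simp only [pow_succ, pow_zero, one_mul]
    rw [e]
    change ev g (D2.Z.getD i []) * ev g (D2.Z.getD i []) * ev g (D2.Z.getD i []) *
      ev g (D2.Z.getD i []) * ev g (D2.Z.getD i []) ∈ _
    rw [h4]
    exact one_mem _
  · intro a
    have h1 := all_range hYZ a.2
    have h4 := triv5_sound h1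
    simp only [ev_append, ev_winv] at h4
    rw [mul_inv_eq_one] at h4
    change ev g (D.Y.getD a []) ∈ _
    rw [h4]
    apply hmem2 D2.Z _ (Subgroup.closure_mono Set.subset_union_right)
    intro i hi
    exact Subgroup.subset_closure (Or.inl ⟨⟨i, hi⟩, rfl⟩)
  · rintro _ ⟨r, hr, rfl⟩
    obtain ⟨i, hi, rfl⟩ := List.getElem_of_mem hr
    have h1 := all_range hRD hi
    have h2 : R'.getD i [] = R'[i] := by
      rw [List.getD_eq_getElem?_getD, List.getElem?_eq_getElem hi]
      rfl
    rw [h2] at h1
    have h4 := triv5_sound h1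
    have h5 : FreeGroup.lift y (ev (fg m) R'[i]) = ev g (subst D.Y R'[i]) := by
      rw [ev_subst]
      rw [map_ev (FreeGroup.lift y) (fg m) (fun i => if h : i < m then y ⟨i, h⟩ else 1)]
      · apply ev_congr (n := m)
        · intro j hj
          rw [dif_pos hj]
        · intro a ha
          exact hR'm _ hr a ha
      · intro j
        unfold fg
        split_ifs with hj
        · rw [FreeGroup.lift_apply_of]
        · exact map_one _
    rw [h5, h4]
    exact one_mem _
  · rintro s ⟨i, hi, rfl⟩ x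
    have h5 := act1_sound q d D.tabs htab (2 * i) x
    have h6 : val (tabsWr q d D.tabs htab) (2 * i) = Φ (g i) := by
      rw [hΦ, val_two_mul]
    rw [h6] at h5
    -- the deductions
    have hcyc' : ∀ w ∈ relP ++ (D.Y ++ D.T ++ D2.E), ∀ a ∈ w, a / 2 < 4 := by
      intro w hw a ha
      unfold chkCyc at hcyc
      rw [List.all_eq_true] at hcyc
      have := hcyc w hw
      rw [List.all_eq_true] at this
      exact of_decide_eq_true (this a ha)
    have hc1 : ∀ j < 8, ev g ((relP ++ (D.Y ++ D.T ++ D2.E)).getD j []) = 1 := by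
      intro j hj
      have hl : j < relP.length := hj
      have e : (relP ++ (D.Y ++ D.T ++ D2.E)).getD j [] = relP[j] := by
        rw [List.getD_eq_getElem?_getD, List.getElem?_append_left hl, List.getElem?_eq_getElem hl]
        rfl
      rw [e]
      exact hgR _ (List.getElem_mem hl)
    have hc2 : ∀ j, ev g ((relP ++ (D.Y ++ D.T ++ D2.E)).getD j []) ∈
        Subgroup.closure (Set.range y ∪ Tset) := by
      intro j
      by_cases hj : j < 8
      · rw [hc1 j hj]
        exact one_mem _
      · have hl : relP.length ≤ j := not_lt.mp hj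
        rw [List.getD_eq_getElem?_getD, List.getElem?_append_right hl,
          ← List.getD_eq_getElem?_getD]
        generalize j - relP.length = j'
        by_cases h1 : j' < (D.Y ++ D.T).length
        · rw [List.getD_eq_getElem?_getD, List.getElem?_append_left h1]
          by_cases h2 : j' < D.Y.length
          · rw [List.getElem?_append_left h2, ← List.getD_eq_getElem?_getD]
            exact hYmem j' h2
          · rw [List.getElem?_append_right (not_lt.mp h2), ← List.getD_eq_getElem?_getD]
            exact hYT (hTmem1 _)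
        · rw [List.getD_eq_getElem?_getD, List.getElem?_append_right (not_lt.mp h1),
            ← List.getD_eq_getElem?_getD]
          generalize j' - (D.Y ++ D.T).length = k
          by_cases hk : k < D2.E.length
          · have h3 := all_range hE hk
            have h4 := triv5_sound h3
            simp only [ev_append, ev_winv] at h4
            rw [mul_inv_eq_one] at h4
            rw [h4]
            exact hmem2 D.Y _ hYT hYmem _
          · have : D2.E.getD k [] = [] := by
              rw [List.getD_eq_getElem?_getD, List.getElem?_eq_none (not_lt.mp hk)]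
              rfl
            rw [this]
            exact one_mem _
    have h7 := ded_sound (Subgroup.closure (Set.range y ∪ Tset)) htab hn hcyc' hr0 hc1 hc2 hded
      hi x.2
    unfold eel at h7
    rw [val_two_mul, ← h5.1] at h7
    exact h7

end Chk

end Pool.Agent.H.MP_ee9c6f_al.E2
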