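import Pool.Agent.H.MP_ee9c6f_al.E2.Chk

/-!
MP_ee9c6f_al, genus 2 (helper40). A second verified checker for arrows: the stabiliser is generated
by a deduction in the coset table, the kernel has auxiliary elements, and conjugates are needed only
in one direction.
-/

set_option autoImplicit false

namespace Pool.Agent.H.MP_ee9c6f_al.E2.Chk

/-! ### Evaluation by steps -/

/-- Evaluate a list, and go on. -/
def frc {α : Type} : List ℕ → (List ℕ → α) → α
  | [], k => k []
  | a :: t, k => frc t fun t' => k (a :: t')

theorem frc_eq {α : Type} (l : List ℕ) (k : List ℕ → α) : frc l k = k l := by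
  induction l generalizing k with
  | nil => rfl
  | cons a t ih =>
    change frc t (fun t' => k (a :: t')) = _
    rw [ih]

/-- Evaluate a number, and go on. -/
def frcN {α : Type} (n : ℕ) (k : ℕ → α) : α :=
  match n with
  | 0 => k 0
  | m + 1 => k (m + 1)

theorem frcN_eq {α : Type} (n : ℕ) (k : ℕ → α) : frcN n k = k n := by
  cases n <;> rfl

/-- Apply a derivation to a word. -/
def runF (R : List (List ℕ)) : List (ℕ × ℕ × ℕ) → List ℕ → List ℕ
  | [], w => w
  | s :: c, w => frc (stp R w s) (runF R c)

theorem runF_eq (R : List (List ℕ)) (c : List (ℕ × ℕ × ℕ)) (w : List ℕ) :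
    runF R c w = c.foldl (stp R) w := by
  induction c generalizing w with
  | nil => rfl
  | cons s c ih =>
    change frc (stp R w s) (runF R c) = _
    rw [frc_eq, ih, List.foldl_cons]

/-- The word is trivial, by the derivation. -/
def trivF (R : List (List ℕ)) (w : List ℕ) (c : List (ℕ × ℕ × ℕ)) : Bool :=
  (frc (mulr w []) (runF R c)).isEmpty

theorem trivF_eq (R : List (List ℕ)) (w : List ℕ) (c : List (ℕ × ℕ × ℕ)) :
    trivF R w c = triv R w c := by
  unfold trivF triv run
  rw [frc_eq, runF_eq]

theorem trivF_sound {G : Type*} [Group G] (f : ℕ → G) {R : List (List ℕ)}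
    (hR : ∀ r ∈ R, ev f r = 1) {w : List ℕ} {c : List (ℕ × ℕ × ℕ)} (h : trivF R w c = true) :
    ev f w = 1 := by
  rw [trivF_eq] at h
  exact triv_sound f hR h

/-! ### The data -/

/-- The data of an arrow from `PG n R` to `PG m R'`. -/
structure Dat2 where
  /-- the tables of the generators -/
  tabs : List Tab
  /-- the base point -/
  x0 : ℕ
  /-- for every relator and every point: the derivation of the label -/
  relC : List (List (List (ℕ × ℕ × ℕ)))
  /-- the lifts of the generators -/
  Y : List (List ℕ)
  /-- the derivations for the labels of the lifts -/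
  YC : List (List (ℕ × ℕ × ℕ))
  /-- the generators of the kernel -/
  T : List (List ℕ)
  /-- the derivations for the labels of the generators of the kernel -/
  TC : List (List (ℕ × ℕ × ℕ))
  /-- the representatives -/
  r : List (List ℕ)
  /-- auxiliary elements of the kernel -/
  A : List (List ℕ)
  /-- the auxiliary elements in terms of `T ++ A`: word and derivation -/
  AC : List (List ℕ × List (ℕ × ℕ × ℕ))
  /-- the numbers of the lifts with conjugates -/
  V : List ℕ
  /-- the conjugates of the generators of the kernel: word in `T ++ A` and derivation -/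
  conjC : List (List (List ℕ × List (ℕ × ℕ × ℕ)))
  /-- the relators: word in `T ++ A` and derivation -/
  rel2C : List (List ℕ × List (ℕ × ℕ × ℕ))
  /-- the deductions in the coset table: number of the word, and point -/
  log : List (ℕ × ℕ)

/-- The relators are mapped to the identity. -/
def chkRel2' (R R' : List (List ℕ)) (d : ℕ) (D : Dat2) : Bool :=
  (List.range R.length).all fun i => (List.range d).all fun x =>
    let u := actw D.tabs (R.getD i []) x
    decide (u.1 = x) && trivF R' u.2 ((D.relC.getD i []).getD x [])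

/-- The labels of the lifts. -/
def chkY2 (R' : List (List ℕ)) (m : ℕ) (D : Dat2) : Bool :=
  (List.range m).all fun a =>
    let u := actw D.tabs (D.Y.getD a []) D.x0
    decide (u.1 = D.x0) && trivF R' (u.2 ++ [2 * a + 1]) (D.YC.getD a [])

/-- The labels of the generators of the kernel. -/
def chkT2 (R' : List (List ℕ)) (D : Dat2) : Bool :=
  (List.range D.T.length).all fun a =>
    let u := actw D.tabs (D.T.getD a []) D.x0
    decide (u.1 = D.x0) && trivF R' u.2 (D.TC.getD a [])

/-- The auxiliary elements. -/
def chkA (R : List (List ℕ)) (D : Dat2) : Bool :=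
  (List.range D.A.length).all fun i =>
    let c := D.AC.getD i ([], [])
    (c.1.all fun a => decide (a / 2 < D.T.length + i)) &&
      trivF R (D.A.getD i [] ++ winv (subst (D.T ++ D.A) c.1)) c.2

/-- The conjugates. -/
def chkConj2 (R : List (List ℕ)) (D : Dat2) : Bool :=
  (List.range D.V.length).all fun i => (List.range D.T.length).all fun t =>
    let v := D.Y.getD (D.V.getD i 0) []
    let c := (D.conjC.getD i []).getD t ([], [])
    trivF R (v ++ D.T.getD t [] ++ winv v ++ winv (subst (D.T ++ D.A) c.1)) c.2

/-- The relators of the target. -/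
def chkRelT (R R' : List (List ℕ)) (D : Dat2) : Bool :=
  (List.range R'.length).all fun i =>
    let c := D.rel2C.getD i ([], [])
    trivF R (subst D.Y (R'.getD i []) ++ winv (subst (D.T ++ D.A) c.1)) c.2

/-- The edges of a word, and the end point. -/
def edg (tabs : List Tab) : List ℕ → ℕ → List (ℕ × ℕ) × ℕ
  | [], x => ([], x)
  | a :: t, x =>
    let u := edg tabs t x
    let y := (act1 tabs a u.2).1
    ((a / 2, if a % 2 = 0 then u.2 else y) :: u.1, y)

/-- The first known edges. -/
def known0 (d : ℕ) (D : Dat2) : List ℕ → ℕ → ℕ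
  | [], k => k
  | i :: l, k => frcN (if (mulr (D.r.getD ((act1 D.tabs (2 * (i / d)) (i % d)).1) [] ++
      [2 * (i / d)] ++ winv (D.r.getD (i % d) [])) []).isEmpty then k ||| (1 <<< i) else k)
      (known0 d D l)

/-- One deduction. -/
def cstep (R : List (List ℕ)) (d : ℕ) (D : Dat2) (k : ℕ) (l : ℕ × ℕ) : ℕ :=
  let w := (R ++ (D.Y ++ D.T)).getD l.1 []
  let x := if l.1 < R.length then l.2 else D.x0
  let u := edg D.tabs w x
  if decide (x < d) && decide (u.2 = x) &&
      decide ((u.1.countP fun e => !(k.testBit (e.1 * d + e.2))) ≤ 1) then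
    u.1.foldl (fun k e => k ||| (1 <<< (e.1 * d + e.2))) k else k

/-- The deductions. -/
def csteps (R : List (List ℕ)) (d : ℕ) (D : Dat2) : List (ℕ × ℕ) → ℕ → ℕ
  | [], k => k
  | l :: ls, k => frcN (cstep R d D k l) (csteps R d D ls)

/-- The coset table. -/
def chkLog (R : List (List ℕ)) (n d : ℕ) (D : Dat2) : Bool :=
  frcN (csteps R d D D.log (known0 d D (List.range (n * d)) 0)) fun k =>
    (List.range n).all fun s => (List.range d).all fun x => k.testBit (s * d + x)

/-- The small conditions. -/
def chkSmall2 (n m d : ℕ) (R R' : List (List ℕ)) (D : Dat2) : Bool :=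
  decide (D.tabs.length = n) && decide (D.x0 < d) && decide (D.Y.length = m) &&
    (D.tabs.all (okTab d)) && (D.r.getD D.x0 []).isEmpty &&
    (R.all fun r => r.all fun a => decide (a / 2 < n)) &&
    (R'.all fun r => r.all fun a => decide (a / 2 < m)) &&
    ((D.Y ++ D.T).all fun r => r.all fun a => decide (a / 2 < n))

/-! ### Soundness -/

/-- If a product lies in the subgroup, and all factors but one, then all factors. -/
theorem mem_of_prod {G : Type*} [Group G] (G₀ : Subgroup G) (l : List (Bool × G))
    (h1 : ∀ p ∈ l, p.1 = true → p.2 ∈ G₀) (h2 : (l.countP fun p => !p.1) ≤ 1)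
    (h3 : (l.map Prod.snd).prod ∈ G₀) : ∀ p ∈ l, p.2 ∈ G₀ := by
  induction l with
  | nil => intro p hp; simp at hp
  | cons q l ih =>
    rw [List.map_cons, List.prod_cons] at h3
    rcases hq : q.1 with _ | _
    · -- unknown
      have h4 : (l.countP fun p => !p.1) = 0 := by
        have h2' := h2
        rw [List.countP_cons_of_pos (by simp [hq])] at h2'
        omega
      rw [List.countP_eq_zero] at h4
      have h5 : ∀ p ∈ l, p.2 ∈ G₀ := by
        intro p hp
        apply h1 p (List.mem_cons_of_mem q hp)
        have := h4 p hp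
        simpa using this
      have h6 : (l.map Prod.snd).prod ∈ G₀ := by
        apply Subgroup.list_prod_mem
        intro x hx
        obtain ⟨p, hp, rfl⟩ := List.mem_map.mp hx
        exact h5 p hp
      intro p hp
      rcases List.mem_cons.mp hp with rfl | hp
      · exact (Subgroup.mul_mem_cancel_right G₀ h6).mp h3
      · exact h5 p hp
    · have h4 : q.2 ∈ G₀ := h1 q List.mem_cons_self hq
      have h5 := ih (fun p hp => h1 p (List.mem_cons_of_mem q hp))
        (by rw [List.countP_cons, hq] at h2; simpa using h2)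
        ((Subgroup.mul_mem_cancel_left G₀ h4).mp h3)
      intro p hp
      rcases List.mem_cons.mp hp with rfl | hp
      · exact h4
      · exact h5 p hp

section Edges

variable {G : Type*} [Group G] (g rr : ℕ → G) (tabs : List Tab)

/-- The edge element of a letter. -/
def lam (a x : ℕ) : G := rr (act1 tabs a x).1 * val g a * (rr x)⁻¹

/-- The edges with their elements. -/
def els : List ℕ → ℕ → List ((ℕ × ℕ) × G)
  | [], _ => []
  | a :: t, x =>
    ((a / 2, if a % 2 = 0 then (edg tabs t x).2 else (act1 tabs a (edg tabs t x).2).1),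
      lam g rr tabs a (edg tabs t x).2) :: els t x

theorem els_fst (w : List ℕ) (x : ℕ) : (els g rr tabs w x).map Prod.fst = (edg tabs w x).1 := by
  induction w with
  | nil => rfl
  | cons a t ih =>
    change _ = (a / 2, if a % 2 = 0 then (edg tabs t x).2 else
      (act1 tabs a (edg tabs t x).2).1) :: (edg tabs t x).1
    rw [← ih]
    rfl

theorem els_prod (w : List ℕ) (x : ℕ) :
    ((els g rr tabs w x).map Prod.snd).prod = rr (edg tabs w x).2 * ev g w * (rr x)⁻¹ := by
  induction w with
  | nil => simp [els, edg, ev]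
  | cons a t ih =>
    unfold els
    rw [List.map_cons, List.prod_cons, ih, ev_cons]
    have : (edg tabs (a :: t) x).2 = (act1 tabs a (edg tabs t x).2).1 := rfl
    rw [this]
    unfold lam
    group

variable {n d : ℕ}

theorem act1_lt (hn : tabs.length = n) (h : ∀ t ∈ tabs, okTab d t = true) {a x : ℕ}
    (ha : a / 2 < n) (hx : x < d) : (act1 tabs a x).1 < d ∧
      (a % 2 ≠ 0 → (act1 tabs (2 * (a / 2)) (act1 tabs a x).1).1 = x) := by
  have hi : a / 2 < tabs.length := by rwa [hn]
  have h1 : tabs[a / 2]? = some tabs[a / 2] := List.getElem?_eq_getElem hi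
  have h2 := okTab_iff (h _ (List.getElem_mem hi)) hx
  have e1 : 2 * (a / 2) / 2 = a / 2 := by omega
  have e2 : 2 * (a / 2) % 2 = 0 := by omega
  unfold act1
  rw [e1, h1, e2]
  by_cases ha2 : a % 2 = 0
  · simp only [ha2, if_true]
    exact ⟨h2.1, fun h => absurd rfl h⟩
  · simp only [ha2, if_false, if_true]
    exact ⟨h2.2.1, fun _ => h2.2.2.2⟩

theorem edg_lt (hn : tabs.length = n) (h : ∀ t ∈ tabs, okTab d t = true) {w : List ℕ}
    (hw : ∀ a ∈ w, a / 2 < n) {x : ℕ} (hx : x < d) : (edg tabs w x).2 < d := by
  induction w with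
  | nil => exact hx
  | cons a t ih =>
    exact (act1_lt tabs hn h (hw a List.mem_cons_self)
      (ih fun b hb => hw b (List.mem_cons_of_mem a hb))).1

/-- The element of an edge. -/
def gam (s x : ℕ) : G := lam g rr tabs (2 * s) x

theorem els_mem (hn : tabs.length = n) (h : ∀ t ∈ tabs, okTab d t = true) (G₀ : Subgroup G)
    {w : List ℕ} (hw : ∀ a ∈ w, a / 2 < n) {x : ℕ} (hx : x < d) :
    ∀ p ∈ els g rr tabs w x, p.1.1 < n ∧ p.1.2 < d ∧
      (p.2 ∈ G₀ ↔ gam g rr tabs p.1.1 p.1.2 ∈ G₀) := by
  induction w with
  | nil => intro p hp; simp [els] at hp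
  | cons a t ih =>
    have ht : ∀ b ∈ t, b / 2 < n := fun b hb => hw b (List.mem_cons_of_mem a hb)
    have ha := hw a List.mem_cons_self
    intro p hp
    unfold els at hp
    rcases List.mem_cons.mp hp with rfl | hp
    · have h1 := edg_lt tabs hn h ht hx
      have h2 := act1_lt tabs hn h ha h1
      by_cases ha2 : a % 2 = 0
      · simp only [ha2, if_true]
        refine ⟨ha, h1, ?_⟩
        unfold gam
        rw [show 2 * (a / 2) = a by omega]
      · simp only [ha2, if_false]
        refine ⟨ha, h2.1, ?_⟩
        have h3 : gam g rr tabs (a / 2) (act1 tabs a (edg tabs t x).2).1 =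
            (lam g rr tabs a (edg tabs t x).2)⁻¹ := by
          unfold gam lam
          rw [h2.2 ha2]
          have e1 : val g (2 * (a / 2)) = g (a / 2) := by
            unfold val
            rw [if_pos (by omega), show 2 * (a / 2) / 2 = a / 2 by omega]
          have e2 : val g a = (g (a / 2))⁻¹ := by
            unfold val
            rw [if_neg ha2]
          rw [e1, e2]
          group
        rw [h3, inv_mem_iff]
    · exact ih ht p hp

/-- The invariant of the deduction. -/
def Inv (n d : ℕ) (G₀ : Subgroup G) (k : ℕ) : Prop :=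
  ∀ s < n, ∀ x < d, k.testBit (s * d + x) = true → gam g rr tabs s x ∈ G₀

theorem testBit_foldl (d : ℕ) (l : List (ℕ × ℕ)) (k i : ℕ)
    (h : (l.foldl (fun k e => k ||| (1 <<< (e.1 * d + e.2))) k).testBit i = true) :
    k.testBit i = true ∨ ∃ e ∈ l, e.1 * d + e.2 = i := by
  induction l generalizing k with
  | nil => exact Or.inl h
  | cons e l ih =>
    rw [List.foldl_cons] at h
    rcases ih _ h with h1 | ⟨e', he', h1⟩
    · rw [Nat.testBit_or, Bool.or_eq_true] at h1
      rcases h1 with h1 | h1
      · exact Or.inl h1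
      · right
        refine ⟨e, List.mem_cons_self, ?_⟩
        rw [Nat.one_shiftLeft, Nat.testBit_two_pow, decide_eq_true_eq] at h1
        exact h1
    · exact Or.inr ⟨e', List.mem_cons_of_mem e he', h1⟩

theorem enc_inj {d s x s' x' : ℕ} (hx : x < d) (hx' : x' < d) (h : s * d + x = s' * d + x') :
    s = s' ∧ x = x' := by
  have hd : 0 < d := by omega
  have h1 : (x + s * d) / d = s := by
    rw [Nat.add_mul_div_right _ _ hd, Nat.div_eq_of_lt hx, zero_add]
  have h2 : (x' + s' * d) / d = s' := by
    rw [Nat.add_mul_div_right _ _ hd, Nat.div_eq_of_lt hx', zero_add]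
  have h3 : s = s' := by
    rw [← h1, ← h2, add_comm x, add_comm x', h]
  subst h3
  exact ⟨rfl, by omega⟩

theorem inv_step (hn : tabs.length = n) (h : ∀ t ∈ tabs, okTab d t = true) (G₀ : Subgroup G)
    {w : List ℕ} (hw : ∀ a ∈ w, a / 2 < n) {x k : ℕ} (hx : x < d)
    (hk : Inv g rr tabs n d G₀ k)
    (hc : ((edg tabs w x).1.countP fun e => !(k.testBit (e.1 * d + e.2))) ≤ 1)
    (hp : rr (edg tabs w x).2 * ev g w * (rr x)⁻¹ ∈ G₀) :
    Inv g rr tabs n d G₀
      ((edg tabs w x).1.foldl (fun k e => k ||| (1 <<< (e.1 * d + e.2))) k) := by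
  have h1 := els_mem g rr tabs hn h G₀ hw hx
  have h2 : ∀ p ∈ els g rr tabs w x, p.2 ∈ G₀ := by
    have h3 := mem_of_prod G₀
      ((els g rr tabs w x).map fun p => (k.testBit (p.1.1 * d + p.1.2), p.2)) ?_ ?_ ?_
    · intro p hp
      exact h3 (k.testBit (p.1.1 * d + p.1.2), p.2) (List.mem_map.mpr ⟨p, hp, rfl⟩)
    · intro q hq hq1
      obtain ⟨p, hp, rfl⟩ := List.mem_map.mp hq
      have h4 := h1 p hp
      exact h4.2.2.mpr (hk _ h4.1 _ h4.2.1 hq1)
    · rw [List.countP_map]
      rw [← els_fst g rr tabs, List.countP_map] at hc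
      exact hc
    · rw [List.map_map]
      have : (Prod.snd ∘ fun p : (ℕ × ℕ) × G => (k.testBit (p.1.1 * d + p.1.2), p.2)) =
          Prod.snd := rfl
      rw [this, els_prod]
      exact hp
  intro s hs y hy hb
  rcases testBit_foldl d _ _ _ hb with h3 | ⟨e, he, h3⟩
  · exact hk s hs y hy h3
  · rw [← els_fst g rr tabs] at he
    obtain ⟨p, hp, rfl⟩ := List.mem_map.mp he
    have h4 := h1 p hp
    obtain ⟨e1, e2⟩ := enc_inj h4.2.1 hy h3
    rw [← e1, ← e2]
    exact h4.2.2.mp (h2 p hp)

end Edges

theorem ev_mem_of {G : Type*} [Group G] (f : ℕ → G) (K : Subgroup G) (w : List ℕ)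
    (h : ∀ a ∈ w, f (a / 2) ∈ K) : ev f w ∈ K := by
  induction w with
  | nil => exact K.one_mem
  | cons a t ih =>
    rw [ev_cons]
    refine K.mul_mem ?_ (ih fun b hb => h b (List.mem_cons_of_mem a hb))
    have h1 := h a List.mem_cons_self
    unfold val
    split_ifs
    · exact h1
    · exact K.inv_mem h1

/-- The checker is sound. -/
theorem arrow_of_dat2 {n m d : ℕ} {R R' : List (List ℕ)} (D : Dat2)
    (hs : chkSmall2 n m d R R' D = true) (hrel : chkRel2' R R' d D = true)
    (hY : chkY2 R' m D = true) (hT : chkT2 R' D = true) (hA : chkA R D = true)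
    (hconj : chkConj2 R D = true) (hrel2 : chkRelT R R' D = true)
    (hlog : chkLog R n d D = true)
    (hnorm : ∀ N : Subgroup (PG n R),
      (∀ i < D.V.length, ∀ t ∈ N, ev (pg n R) (D.Y.getD (D.V.getD i 0) []) * t *
        (ev (pg n R) (D.Y.getD (D.V.getD i 0) []))⁻¹ ∈ N) →
      (∀ r ∈ R', ev (fun i => ev (pg n R) (D.Y.getD i [])) r ∈ N) →
      ∀ a < m, ev (pg n R) (D.Y.getD a []) ∈ Subgroup.normalizer (N : Set (PG n R))) :
    Arrow (PG n R) (PG m R') := by
  classical
  unfold chkSmall2 at hs
  simp only [Bool.and_eq_true, decide_eq_true_eq, List.all_eq_true] at hs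
  obtain ⟨⟨⟨⟨⟨⟨⟨hn, hx0⟩, hYl⟩, htab⟩, hr0⟩, hRn⟩, hR'm⟩, hYT⟩ := hs
  rw [List.isEmpty_iff] at hr0
  set q := pg m R' with hq
  set g := pg n R with hg
  have hqR := pg_rel m R'
  have hgR := pg_rel n R
  set F := tabsWr q d D.tabs htab with hF
  have hF1 : ∀ i, ¬ i < n → F i = 1 := by
    intro i hi
    rw [hF]
    unfold tabsWr
    rw [dif_neg (by rwa [hn])]
  have hFF : (fun i => if i < n then F i else 1) = F := by
    funext i
    split_ifs with hi
    · rfl
    · exact (hF1 i hi).symm
  have hgetR : ∀ (L : List (List ℕ)) (i : ℕ) (hi : i < L.length), L.getD i [] = L[i] := by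
    intro L i hi
    rw [List.getD_eq_getElem?_getD, List.getElem?_eq_getElem hi]
    rfl
  have hgetN : ∀ (L : List (List ℕ)) (i : ℕ), L.length ≤ i → L.getD i [] = [] := by
    intro L i hi
    rw [List.getD_eq_getElem?_getD, List.getElem?_eq_none hi]
    rfl
  -- the homomorphism
  have hrels : ∀ r ∈ R, ev (fun i => if i < n then F i else 1) r = 1 := by
    intro r hr
    rw [hFF]
    obtain ⟨i, hi, rfl⟩ := List.getElem_of_mem hr
    apply Wr.ext_iff'
    intro x
    have h1 := all_range (all_range hrel hi) x.2
    simp only [Bool.and_eq_true, decide_eq_true_eq] at h1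
    rw [hgetR R i hi] at h1
    have h3 := actw_sound q d D.tabs htab R[i] x
    refine ⟨Fin.ext ?_, ?_⟩
    · rw [h3.1, h1.1]
      rfl
    · rw [h3.2, trivF_sound q hqR h1.2]
      rfl
  let Φ : PG n R →* Wr (PG m R') (Fin d) := homPG F hrels
  have hΦ : ∀ i, Φ (g i) = F i := by
    intro i
    have := homPG_pg F hrels i
    rw [this]
    exact congrFun hFF i
  have hΦw : ∀ w, Φ (ev g w) = ev F w := fun w => map_ev Φ g F hΦ w
  -- the kernel generators
  let Tset : Set (PG n R) := {t | ∃ a < D.T.length, t = ev g (D.T.getD a [])}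
  have hTfin : Tset.Finite := by
    have : Tset = (fun a => ev g (D.T.getD a [])) '' (Set.Iio D.T.length) := by
      ext t
      constructor
      · rintro ⟨a, ha, rfl⟩
        exact ⟨a, ha, rfl⟩
      · rintro ⟨a, ha, rfl⟩
        exact ⟨a, ha, rfl⟩
    rw [this]
    exact (Set.finite_Iio _).image _
  set N := Subgroup.closure Tset with hN
  let y : Fin m → PG n R := fun a => ev g (D.Y.getD a [])
  -- the auxiliary elements
  have hTA : ∀ i, ev g ((D.T ++ D.A).getD i []) ∈ N := by
    intro i
    induction i using Nat.strong_induction_on with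
    | _ i ih =>
      by_cases hi : i < D.T.length
      · apply Subgroup.subset_closure
        refine ⟨i, hi, ?_⟩
        rw [List.getD_eq_getElem?_getD, List.getD_eq_getElem?_getD, List.getElem?_append_left hi]
      · rw [not_lt] at hi
        have e1 : (D.T ++ D.A).getD i [] = D.A.getD (i - D.T.length) [] := by
          rw [List.getD_eq_getElem?_getD, List.getD_eq_getElem?_getD,
            List.getElem?_append_right hi]
        rw [e1]
        by_cases hj : i - D.T.length < D.A.length
        · have h1 := all_range hA hj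
          simp only [Bool.and_eq_true, List.all_eq_true, decide_eq_true_eq] at h1
          have h4 := trivF_sound g hgR h1.2
          rw [ev_append, ev_winv, mul_inv_eq_one] at h4
          rw [h4, ev_subst]
          apply ev_mem_of
          intro a ha
          have h5 := h1.1 a ha
          exact ih (a / 2) (by omega)
        · rw [hgetN D.A _ (not_lt.mp hj)]
          exact one_mem _
  have hTmem : ∀ w, ev g (subst (D.T ++ D.A) w) ∈ N := by
    intro w
    rw [ev_subst]
    exact ev_mem_of _ _ _ fun a _ => hTA _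
  have hV : ∀ i < D.V.length, ∀ t ∈ N, ev g (D.Y.getD (D.V.getD i 0) []) * t *
        (ev g (D.Y.getD (D.V.getD i 0) []))⁻¹ ∈ N := by
    intro i hi
    have h1 : N ≤ N.comap (MulAut.conj (ev g (D.Y.getD (D.V.getD i 0) []))).toMonoidHom := by
      rw [hN, Subgroup.closure_le]
      rintro _ ⟨b, hb, rfl⟩
      have h1 := all_range (all_range hconj hi) hb
      have h4 := trivF_sound g hgR h1
      simp only [ev_append, ev_winv] at h4
      rw [mul_inv_eq_one] at h4
      change ev g (D.Y.getD (D.V.getD i 0) []) * ev g (D.T.getD b []) *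
        (ev g (D.Y.getD (D.V.getD i 0) []))⁻¹ ∈ N
      rw [h4]
      exact hTmem _
    intro t ht
    exact h1 ht
  have hR2 : ∀ r ∈ R', ev (fun i => ev g (D.Y.getD i [])) r ∈ N := by
    intro r hr
    obtain ⟨i, hi, rfl⟩ := List.getElem_of_mem hr
    have h1 := all_range hrel2 hi
    simp only [hgetR R' i hi] at h1
    have h4 := trivF_sound g hgR h1
    rw [ev_append, ev_winv, mul_inv_eq_one, ev_subst] at h4
    rw [h4]
    exact hTmem _
  have hnor := hnorm N hV hR2
  -- the deduction
  set G₀ := Subgroup.closure (Set.range y ∪ Tset) with hG₀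
  let rr : ℕ → PG n R := fun x => ev g (D.r.getD x [])
  have hYmem : ∀ i, ev g ((D.Y ++ D.T).getD i []) ∈ G₀ := by
    intro j
    by_cases hj : j < D.Y.length
    · apply Subgroup.subset_closure
      left
      refine ⟨⟨j, by rwa [hYl] at hj⟩, ?_⟩
      change ev g (D.Y.getD j []) = _
      rw [List.getD_eq_getElem?_getD, List.getD_eq_getElem?_getD, List.getElem?_append_left hj]
    · rw [not_lt] at hj
      have e1 : (D.Y ++ D.T).getD j [] = D.T.getD (j - D.Y.length) [] := by
        rw [List.getD_eq_getElem?_getD, List.getD_eq_getElem?_getD, List.getElem?_append_right hj]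
      rw [e1]
      by_cases hk : j - D.Y.length < D.T.length
      · exact Subgroup.subset_closure (Or.inr ⟨_, hk, rfl⟩)
      · rw [hgetN D.T _ (not_lt.mp hk)]
        exact one_mem _
  have hgam : ∀ s x, gam g rr D.tabs s x = rr (act1 D.tabs (2 * s) x).1 * g s * (rr x)⁻¹ := by
    intro s x
    unfold gam lam
    have e1 : val g (2 * s) = g s := by
      unfold val
      rw [if_pos (by omega), show 2 * s / 2 = s by omega]
    rw [e1]
  have hk0 : Inv g rr D.tabs n d G₀ (known0 d D (List.range (n * d)) 0) := by
    have key : ∀ (l : List ℕ), ∀ k : ℕ, Inv g rr D.tabs n d G₀ k →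
        Inv g rr D.tabs n d G₀ (known0 d D l k) := by
      intro l
      induction l with
      | nil => intro k hk; exact hk
      | cons i l ih =>
        intro k hk
        unfold known0
        rw [frcN_eq]
        apply ih
        split_ifs with hi
        · intro s hs x hx hb
          rw [Nat.testBit_or, Bool.or_eq_true] at hb
          rcases hb with hb | hb
          · exact hk s hs x hx hb
          · rw [Nat.one_shiftLeft, Nat.testBit_two_pow, decide_eq_true_eq] at hb
            have hd : 0 < d := by omega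
            have e1 : i / d = s := by
              rw [hb, add_comm, Nat.add_mul_div_right _ _ hd, Nat.div_eq_of_lt hx, zero_add]
            have e2 : i % d = x := by
              rw [hb, add_comm, Nat.add_mul_mod_self_right, Nat.mod_eq_of_lt hx]
            rw [e1, e2, List.isEmpty_iff] at hi
            have h1 : ev g (mulr (D.r.getD ((act1 D.tabs (2 * s) x).1) [] ++ [2 * s] ++
              winv (D.r.getD x [])) []) = 1 := by rw [hi, ev_nil]
            rw [ev_mulr, ev_nil, mul_one, ev_append, ev_append, ev_winv, ev_cons, ev_nil,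
              mul_one] at h1
            unfold gam lam
            change ev g _ * val g (2 * s) * (ev g _)⁻¹ ∈ G₀
            rw [h1]
            exact one_mem _
        · exact hk
    apply key
    intro s hs x hx hb
    rw [Nat.zero_testBit] at hb
    exact absurd hb (by decide)
  have hword : ∀ i, ∀ a ∈ (R ++ (D.Y ++ D.T)).getD i [], a / 2 < n := by
    intro i a ha
    rcases getD_mem_or (R ++ (D.Y ++ D.T)) i with h1 | h1
    · rcases List.mem_append.mp h1 with h2 | h2
      · exact hRn _ h2 a ha
      · exact hYT _ h2 a ha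
    · rw [h1] at ha
      simp at ha
  have hstep : ∀ k l, Inv g rr D.tabs n d G₀ k → Inv g rr D.tabs n d G₀ (cstep R d D k l) := by
    intro k l hk
    unfold cstep
    simp only
    split_ifs with h1 h2 h2
    · simp only [Bool.and_eq_true, decide_eq_true_eq] at h2
      obtain ⟨⟨h3, h4⟩, h5⟩ := h2
      refine inv_step g rr D.tabs hn htab G₀ (hword l.1) h3 hk h5 ?_
      rw [h4]
      have h6 : ev g ((R ++ (D.Y ++ D.T)).getD l.1 []) = 1 := by
        have e1 : (R ++ (D.Y ++ D.T)).getD l.1 [] = R.getD l.1 [] := by
          rw [List.getD_eq_getElem?_getD, List.getD_eq_getElem?_getD,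
            List.getElem?_append_left h1]
        rw [e1, hgetR R _ h1]
        exact hgR _ (List.getElem_mem h1)
      rw [h6, mul_one, mul_inv_cancel]
      exact one_mem _
    · exact hk
    · simp only [Bool.and_eq_true, decide_eq_true_eq] at h2
      obtain ⟨⟨h3, h4⟩, h5⟩ := h2
      refine inv_step g rr D.tabs hn htab G₀ (hword l.1) h3 hk h5 ?_
      rw [h4]
      have h6 : rr D.x0 = 1 := by
        change ev g (D.r.getD D.x0 []) = 1
        rw [hr0]
        rfl
      rw [h6, one_mul, inv_one, mul_one]
      rw [not_lt] at h1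
      have e1 : (R ++ (D.Y ++ D.T)).getD l.1 [] = (D.Y ++ D.T).getD (l.1 - R.length) [] := by
        rw [List.getD_eq_getElem?_getD, List.getD_eq_getElem?_getD,
          List.getElem?_append_right h1]
      rw [e1]
      exact hYmem _
    · exact hk
  have hfin : Inv g rr D.tabs n d G₀
      (csteps R d D D.log (known0 d D (List.range (n * d)) 0)) := by
    have key : ∀ (l : List (ℕ × ℕ)) (k : ℕ), Inv g rr D.tabs n d G₀ k →
        Inv g rr D.tabs n d G₀ (csteps R d D l k) := by
      intro l
      induction l with
      | nil => intro k hk; exact hk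
      | cons e l ih =>
        intro k hk
        unfold csteps
        rw [frcN_eq]
        exact ih _ (hstep k e hk)
    exact key _ _ hk0
  have hlog' : ((List.range n).all fun s => (List.range d).all fun x =>
      (csteps R d D D.log (known0 d D (List.range (n * d)) 0)).testBit (s * d + x)) = true := by
    have := hlog
    unfold chkLog at this
    rwa [frcN_eq] at this
  refine arrow_of_wr Φ (⟨D.x0, hx0⟩ : Fin d) (closure_pg n R) y Tset hTfin
    (fun x => ev g (D.r.getD x [])) ?_ ?_ ?_ ?_ ?_ ?_ ?_ ?_
  · change ev g (D.r.getD D.x0 []) = 1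
    rw [hr0]
    rfl
  · intro a
    have h1 := all_range hY a.2
    simp only [Bool.and_eq_true, decide_eq_true_eq] at h1
    have h3 := actw_sound q d D.tabs htab (D.Y.getD a []) ⟨D.x0, hx0⟩
    rw [hΦw]
    apply Fin.ext
    rw [h3.1, h1.1]
  · intro a
    have h1 := all_range hY a.2
    simp only [Bool.and_eq_true, decide_eq_true_eq] at h1
    have h3 := actw_sound q d D.tabs htab (D.Y.getD a []) ⟨D.x0, hx0⟩
    rw [hΦw, h3.2]
    have h4 := trivF_sound q hqR h1.2
    rw [ev_append, mul_eq_one_iff_eq_inv] at h4
    rw [h4, ev_cons, ev_nil, mul_one]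
    have h5 : val q (2 * (a : ℕ) + 1) = (q a)⁻¹ := by
      unfold val
      have e1 : (2 * (a : ℕ) + 1) % 2 ≠ 0 := by omega
      have e2 : (2 * (a : ℕ) + 1) / 2 = a := by omega
      rw [if_neg e1, e2]
    rw [h5, inv_inv, hq]
    unfold pg
    rw [dif_pos a.2]
  · rintro t ⟨a, ha, rfl⟩
    have h1 := all_range hT ha
    simp only [Bool.and_eq_true, decide_eq_true_eq] at h1
    have h3 := actw_sound q d D.tabs htab (D.T.getD a []) ⟨D.x0, hx0⟩
    rw [hΦw]
    apply Fin.ext
    rw [h3.1, h1.1]
  · rintro t ⟨a, ha, rfl⟩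
    have h1 := all_range hT ha
    simp only [Bool.and_eq_true, decide_eq_true_eq] at h1
    have h3 := actw_sound q d D.tabs htab (D.T.getD a []) ⟨D.x0, hx0⟩
    rw [hΦw, h3.2, trivF_sound q hqR h1.2]
  · intro a t ht
    have h1 := hnor a a.2
    have ht' : t ∈ N := Subgroup.subset_closure ht
    constructor
    · exact (Subgroup.mem_normalizer_iff.mp h1 t).mp ht'
    · have h2 := (Subgroup.mem_normalizer_iff.mp (inv_mem h1) t).mp ht'
      rwa [inv_inv] at h2
  · rintro _ ⟨r, hr, rfl⟩
    have h5 : FreeGroup.lift y (ev (fg m) r) = ev (fun i => ev g (D.Y.getD i [])) r := by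
      rw [map_ev (FreeGroup.lift y) (fg m) (fun i => if h : i < m then y ⟨i, h⟩ else 1)]
      · apply ev_congr (n := m)
        · intro j hj
          rw [dif_pos hj]
        · intro a ha
          exact hR'm _ hr a ha
      · intro j
        unfold fg
        split_ifs with hj
        · rw [FreeGroup.lift_apply_of]
        · exact map_one _
    rw [h5]
    exact hR2 r hr
  · rintro s ⟨i, hi, rfl⟩ x
    have h1 := all_range (all_range hlog' hi) x.2
    have h4 := hfin i hi x x.2 h1
    rw [hgam] at h4
    have h5 := act1_sound q d D.tabs htab (2 * i) x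
    have h6 : val (tabsWr q d D.tabs htab) (2 * i) = Φ (g i) := by
      rw [hΦ]
      unfold val
      have e1 : (2 * i) % 2 = 0 := by omega
      have e2 : (2 * i) / 2 = i := by omega
      rw [if_pos e1, e2]
    rw [h6] at h5
    rw [← h5.1] at h4
    exact h4

end Pool.Agent.H.MP_ee9c6f_al.E2.Chk
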