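import Pool.Agent.H.MP_ee9c6f_al.E2.Chk

/-!
MP_ee9c6f_al, genus 2 (helper40). The arrows from `Mod_2` to `Mod_{0,5}` and to the four strand braid
group modulo its centre. The data are produced by a computer and checked by the kernel.
-/

set_option autoImplicit false

namespace Pool.Agent.H.MP_ee9c6f_al.E2.Chk

/-- The relators of `Mod_2`. -/
def relM : List (List ℕ) :=
  [[0, 2, 0, 3, 1, 3], [2, 4, 2, 5, 3, 5], [4, 6, 4, 7, 5, 7], [6, 8, 6, 9, 7, 9], [0, 4, 1,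
  5], [0, 6, 1, 7], [0, 8, 1, 9], [2, 6, 3, 7], [2, 8, 3, 9], [4, 8, 5, 9], [0, 2, 4, 6, 8, 0,
  2, 4, 6, 8, 0, 2, 4, 6, 8, 0, 2, 4, 6, 8, 0, 2, 4, 6, 8, 0, 2, 4, 6, 8], [0, 2, 4, 6, 8, 8,
  6, 4, 2, 0, 0, 2, 4, 6, 8, 8, 6, 4, 2, 0], [0, 2, 4, 6, 8, 8, 6, 4, 2, 0, 0, 1, 3, 5, 7, 9,
  9, 7, 5, 3, 1, 1], [0, 2, 4, 6, 8, 8, 6, 4, 2, 0, 2, 1, 3, 5, 7, 9, 9, 7, 5, 3, 1, 3], [0, 2,
  4, 6, 8, 8, 6, 4, 2, 0, 4, 1, 3, 5, 7, 9, 9, 7, 5, 3, 1, 5], [0, 2, 4, 6, 8, 8, 6, 4, 2, 0,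
  6, 1, 3, 5, 7, 9, 9, 7, 5, 3, 1, 7], [0, 2, 4, 6, 8, 8, 6, 4, 2, 0, 8, 1, 3, 5, 7, 9, 9, 7,
  5, 3, 1, 9]]

/-- The relators of `Mod_{0,5}`. -/
def relP : List (List ℕ) :=
  [[0, 2, 0, 3, 1, 3], [2, 4, 2, 5, 3, 5], [4, 6, 4, 7, 5, 7], [0, 4, 1, 5], [0, 6, 1, 7], [2,
  6, 3, 7], [0, 2, 4, 6, 6, 4, 2, 0], [0, 2, 4, 6, 0, 2, 4, 6, 0, 2, 4, 6, 0, 2, 4, 6, 0, 2, 4,
  6]]

/-- The relators of the four strand braid group modulo its centre. -/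
def relB : List (List ℕ) :=
  [[0, 2, 0, 3, 1, 3], [2, 4, 2, 5, 3, 5], [0, 4, 1, 5], [0, 2, 4, 0, 2, 4, 0, 2, 4, 0, 2, 4]]

/-- Forgetting a point: from `Mod_2` to `Mod_{0,5}`. -/
def datA : Dat where
  tabs :=
    [⟨[1, 0, 2, 3, 4, 5], [1, 0, 2, 3, 4, 5], [[], [], [0], [0], [0], [0]]⟩, ⟨[0, 2, 1, 3, 4,
    5], [0, 2, 1, 3, 4, 5], [[0], [], [], [2], [2], [2]]⟩, ⟨[0, 1, 3, 2, 4, 5], [0, 1, 3, 2, 4,
    5], [[2], [2], [], [], [4], [4]]⟩, ⟨[0, 1, 2, 4, 3, 5], [0, 1, 2, 4, 3, 5], [[4], [4], [4],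
    [], [], [6]]⟩, ⟨[0, 1, 2, 3, 5, 4], [0, 1, 2, 3, 5, 4], [[6], [6], [6], [6], [], []]⟩]
  x0 := 5
  relC :=
    [[[], [], [], [(4, 1, 2)], [(4, 1, 2)], [(4, 1, 2)]], [[(4, 1, 2)], [], [], [], [(4, 3,
    2)], [(4, 3, 2)]], [[(4, 3, 2)], [(4, 3, 2)], [], [], [], [(4, 5, 2)]], [[(4, 5, 2)], [(4,
    5, 2)], [(4, 5, 2)], [], [], []], [[], [], [], [], [(2, 7, 2)], [(2, 7, 2)]], [[], [], [(2,
    7, 2)], [], [], [(2, 9, 2)]], [[], [], [(2, 9, 2)], [(2, 9, 2)], [], []], [[(2, 7, 2)], [],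
    [], [], [], [(2, 11, 2)]], [[(2, 9, 2)], [], [], [(2, 11, 2)], [], []], [[(2, 11, 2)], [(2,
    11, 2)], [], [], [], []], [[(0, 15, 0)], [(0, 15, 0)], [(0, 15, 0)], [(0, 15, 0)], [(0, 15,
    0)], [(0, 15, 0)]], [[], [(0, 13, 0), (0, 13, 0)], [(0, 13, 0), (0, 13, 0)], [(0, 13, 0),
    (0, 13, 0)], [(0, 13, 0), (0, 13, 0)], [(0, 13, 0), (0, 13, 0)]], [[(0, 12, 0)], [(0, 13,
    0)], [(0, 13, 0), (0, 12, 7)], [(0, 13, 0), (0, 12, 7)], [(0, 13, 0), (0, 12, 7)], [(0, 13,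
    0), (0, 12, 7)]], [[], [], [], [(9, 0, 3), (7, 6, 2), (6, 8, 2), (5, 8, 2), (4, 6, 2), (4,
    1, 2)], [(9, 0, 3), (7, 6, 2), (6, 8, 2), (5, 8, 2), (4, 6, 2), (4, 1, 2)], [(9, 0, 3), (7,
    6, 2), (6, 8, 2), (5, 8, 2), (4, 6, 2), (4, 1, 2)]], [[], [(9, 0, 3), (7, 6, 2), (6, 8, 2),
    (5, 8, 2), (4, 6, 2), (4, 1, 2)], [], [], [(9, 7, 2), (8, 2, 3), (6, 10, 2), (5, 10, 2),
    (5, 3, 2), (2, 7, 2)], [(9, 7, 2), (8, 2, 3), (6, 10, 2), (5, 10, 2), (5, 3, 2), (2, 7,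
    2)]], [[], [(9, 7, 2), (8, 2, 3), (6, 10, 2), (5, 10, 2), (5, 3, 2), (2, 7, 2)], [(9, 7,
    2), (8, 2, 3), (6, 10, 2), (5, 10, 2), (5, 3, 2), (2, 7, 2)], [], [], [(9, 9, 2), (8, 11,
    2), (7, 4, 3), (6, 5, 2), (3, 11, 2), (2, 9, 2)]], [[], [(9, 9, 2), (8, 11, 2), (7, 4, 3),
    (6, 5, 2), (3, 11, 2), (2, 9, 2)], [(9, 9, 2), (8, 11, 2), (7, 4, 3), (6, 5, 2), (3, 11,
    2), (2, 9, 2)], [(9, 9, 2), (8, 11, 2), (7, 4, 3), (6, 5, 2), (3, 11, 2), (2, 9, 2)], [],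
    []]]
  Y :=
    [[0], [2], [4], [6]]
  YC :=
    [[], [], [], []]
  T :=
    [[0, 2, 4, 6, 8, 8, 7, 5, 3, 1], [2, 4, 6, 8, 8, 7, 5, 3], [4, 6, 8, 8, 7, 5], [6, 8, 8,
    7], [8, 8], [0, 2, 4, 6, 8, 8, 6, 4, 2, 0]]
  TC :=
    [[], [], [], [], [], [(0, 13, 0)]]
  r :=
    [[8, 6, 4, 2, 0], [8, 6, 4, 2], [8, 6, 4], [8, 6], [8], []]
  conjC :=
    [[(([1, 2, 0], [(6, 6, 3), (9, 6, 3), (5, 18, 1), (6, 4, 3), (9, 4, 3), (10, 19, 2), (4,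
    16, 1), (5, 14, 1), (6, 2, 3), (9, 2, 3), (10, 15, 2), (11, 17, 2), (3, 12, 1), (4, 10, 1),
    (5, 8, 1), (6, 0, 3), (9, 0, 3), (10, 9, 2), (11, 11, 2), (12, 13, 2), (15, 7, 2), (18, 7,
    2), (12, 16, 2), (13, 18, 2), (13, 5, 2), (16, 5, 2), (17, 19, 2), (11, 14, 2), (11, 3, 2),
    (10, 3, 2), (11, 15, 2), (12, 17, 2), (8, 1, 2), (11, 9, 2), (12, 11, 2), (13, 13, 2), (7,
    1, 2), (2, 12, 1), (3, 10, 1), (4, 8, 1), (5, 1, 2), (8, 1, 2), (16, 7, 2), (19, 7, 2),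
    (13, 16, 2), (14, 18, 2), (14, 5, 2), (17, 5, 2), (18, 19, 2), (12, 14, 2), (12, 3, 2),
    (11, 3, 2), (10, 15, 2), (11, 17, 2), (7, 0, 5), (10, 8, 3), (11, 10, 3), (12, 12, 3), (6,
    0, 5), (7, 2, 5), (10, 14, 3), (11, 16, 3), (6, 2, 5), (4, 9, 3), (7, 4, 5), (10, 18, 3),
    (6, 4, 5), (3, 11, 3), (4, 15, 3), (7, 6, 5), (6, 6, 5), (2, 13, 3), (3, 17, 3), (4, 19,
    3)]), ([2], [])), (([0], []), ([2, 0, 3], [(5, 6, 3), (8, 6, 3), (4, 18, 1), (5, 4, 3), (8,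
    4, 3), (9, 19, 2), (3, 16, 1), (4, 14, 1), (5, 2, 3), (8, 2, 3), (9, 15, 2), (10, 17, 2),
    (2, 13, 0), (3, 11, 0), (4, 9, 0), (5, 0, 5), (8, 0, 5), (9, 8, 3), (10, 10, 3), (11, 12,
    3), (8, 2, 5), (11, 14, 3), (12, 16, 3), (10, 4, 5), (13, 18, 3), (12, 6, 5), (13, 6, 3),
    (11, 4, 3), (12, 19, 2), (9, 2, 3), (10, 15, 2), (11, 17, 2), (15, 7, 2), (18, 7, 2), (11,
    12, 2), (12, 16, 2), (13, 18, 2), (13, 5, 2), (16, 5, 2), (17, 19, 2), (10, 10, 2), (11,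
    14, 2), (11, 3, 2), (14, 3, 2), (15, 15, 2), (16, 17, 2), (9, 8, 2), (9, 1, 2), (8, 1, 2),
    (7, 9, 2), (8, 11, 2), (9, 13, 2), (12, 7, 2), (15, 7, 2), (9, 16, 2), (10, 18, 2), (10, 5,
    2), (13, 5, 2), (14, 19, 2), (8, 14, 2), (8, 3, 2), (7, 3, 2), (4, 15, 2), (3, 17, 2)])),
    (([4], [(4, 6, 3), (7, 6, 3), (3, 18, 1), (4, 4, 3), (7, 4, 3), (8, 19, 2), (2, 12, 1), (3,
    10, 1), (4, 9, 2), (5, 9, 2), (6, 11, 2), (7, 13, 2), (9, 7, 2), (12, 7, 2), (7, 18, 2),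
    (7, 5, 2), (6, 5, 2), (3, 19, 2)]), ([4], [(4, 6, 3), (7, 6, 3), (3, 18, 1), (4, 4, 3), (7,
    4, 3), (8, 19, 2), (2, 13, 0), (3, 11, 0), (4, 8, 3), (5, 8, 3), (6, 10, 3), (7, 12, 3),
    (9, 7, 2), (12, 7, 2), (7, 18, 2), (7, 5, 2), (6, 5, 2), (3, 19, 2)])), (([6], [(3, 6, 3),
    (6, 6, 3), (2, 12, 1), (3, 11, 2), (4, 11, 2), (5, 13, 2), (6, 7, 2), (5, 7, 2)]), ([6],
    [(3, 6, 3), (6, 6, 3), (2, 13, 0), (3, 10, 3), (4, 10, 3), (5, 12, 3), (6, 7, 2), (5, 7,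
    2)])), (([8], [(2, 13, 2), (3, 13, 2)]), ([8], [(2, 12, 3), (3, 12, 3)])), (([10], [(0, 24,
    0)]), ([10], [(0, 24, 10), (10, 0, 5), (11, 8, 3), (12, 10, 3), (13, 12, 3), (14, 12, 3),
    (15, 10, 3), (16, 8, 3), (17, 0, 5), (10, 2, 5), (13, 14, 3), (14, 16, 3), (15, 16, 3),
    (16, 14, 3), (17, 2, 5), (8, 9, 3), (10, 4, 5), (13, 18, 3), (14, 18, 3), (15, 4, 5), (7,
    11, 3), (8, 15, 3), (10, 6, 5), (13, 6, 5), (6, 13, 3), (7, 17, 3), (8, 19, 3), (15, 9, 3),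
    (13, 15, 3), (14, 11, 3), (11, 19, 3), (12, 17, 3), (13, 13, 3), (18, 1, 2), (19, 8, 1),
    (20, 10, 1), (21, 12, 1), (22, 12, 1), (23, 10, 1), (24, 8, 1), (25, 1, 2), (13, 13, 2),
    (14, 11, 2), (15, 9, 2), (16, 3, 2), (17, 14, 1), (18, 16, 1), (19, 16, 1), (20, 14, 1),
    (21, 3, 2), (12, 17, 2), (13, 15, 2), (14, 5, 2), (15, 18, 1), (16, 18, 1), (17, 5, 2),
    (11, 19, 2), (12, 7, 2), (11, 7, 2), (5, 13, 3), (6, 17, 3), (7, 19, 3), (4, 11, 3), (5,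
    15, 3), (3, 9, 3)]))], [(([0], [(6, 6, 3), (9, 6, 3), (5, 18, 1), (6, 4, 3), (9, 4, 3),
    (10, 19, 2), (4, 16, 1), (5, 14, 1), (6, 2, 3), (9, 2, 3), (10, 15, 2), (11, 17, 2), (3,
    12, 1), (4, 10, 1), (5, 8, 1), (6, 0, 3), (9, 0, 3), (10, 9, 2), (11, 11, 2), (12, 13, 2),
    (2, 16, 1), (3, 14, 1), (4, 3, 2), (9, 2, 3), (12, 15, 2), (13, 17, 2), (6, 8, 2), (7, 8,
    2), (15, 7, 2), (18, 7, 2), (11, 12, 2), (12, 16, 2), (13, 18, 2), (13, 5, 2), (16, 5, 2),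
    (17, 19, 2), (10, 10, 2), (11, 14, 2), (11, 3, 2), (14, 3, 2), (15, 15, 2), (16, 17, 2),
    (9, 8, 2), (9, 1, 2), (8, 1, 2), (5, 9, 2), (4, 11, 2), (3, 13, 2)]), ([0], [(6, 6, 3), (9,
    6, 3), (5, 18, 1), (6, 4, 3), (9, 4, 3), (10, 19, 2), (4, 16, 1), (5, 14, 1), (6, 2, 3),
    (9, 2, 3), (10, 15, 2), (11, 17, 2), (3, 12, 1), (4, 10, 1), (5, 8, 1), (6, 0, 3), (9, 0,
    3), (10, 9, 2), (11, 11, 2), (12, 13, 2), (17, 7, 2), (20, 7, 2), (12, 16, 2), (13, 12, 2),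
    (14, 16, 2), (15, 18, 2), (15, 5, 2), (18, 5, 2), (19, 19, 2), (11, 14, 2), (12, 10, 2),
    (13, 14, 2), (13, 3, 2), (16, 3, 2), (17, 15, 2), (18, 17, 2), (12, 8, 1), (13, 1, 2), (16,
    1, 2), (17, 9, 2), (18, 11, 2), (19, 13, 2), (11, 3, 2), (8, 9, 2), (7, 9, 2), (6, 2, 5),
    (2, 17, 0), (3, 15, 0)])), (([3, 4, 2], [(5, 6, 3), (8, 6, 3), (4, 18, 1), (5, 4, 3), (8,
    4, 3), (9, 19, 2), (3, 16, 1), (4, 14, 1), (5, 2, 3), (8, 2, 3), (9, 15, 2), (10, 17, 2),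
    (12, 7, 2), (15, 7, 2), (10, 18, 2), (10, 5, 2), (9, 5, 2), (10, 19, 2), (7, 3, 2), (10,
    15, 2), (11, 17, 2), (6, 3, 2), (2, 16, 1), (3, 14, 1), (4, 3, 2), (7, 3, 2), (13, 7, 2),
    (16, 7, 2), (11, 18, 2), (11, 5, 2), (10, 5, 2), (9, 19, 2), (6, 2, 5), (9, 14, 3), (10,
    16, 3), (5, 2, 5), (6, 4, 5), (9, 18, 3), (5, 4, 5), (3, 15, 3), (6, 6, 5), (5, 6, 5), (2,
    17, 3), (3, 19, 3)]), ([4], [])), (([2], []), ([4, 2, 5], [(4, 6, 3), (7, 6, 3), (3, 18,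
    1), (4, 4, 3), (7, 4, 3), (8, 19, 2), (2, 17, 0), (3, 15, 0), (4, 2, 5), (7, 2, 5), (8, 14,
    3), (9, 16, 3), (7, 4, 5), (10, 18, 3), (9, 6, 5), (10, 6, 3), (8, 4, 3), (9, 19, 2), (12,
    7, 2), (15, 7, 2), (9, 16, 2), (10, 18, 2), (10, 5, 2), (13, 5, 2), (14, 19, 2), (8, 14,
    2), (8, 3, 2), (7, 3, 2), (6, 15, 2), (7, 17, 2), (9, 7, 2), (12, 7, 2), (7, 18, 2), (7, 5,
    2), (6, 5, 2), (3, 19, 2)])), (([6], [(3, 6, 3), (6, 6, 3), (2, 16, 1), (3, 15, 2), (4, 15,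
    2), (5, 17, 2), (6, 7, 2), (5, 7, 2)]), ([6], [(3, 6, 3), (6, 6, 3), (2, 17, 0), (3, 14,
    3), (4, 14, 3), (5, 16, 3), (6, 7, 2), (5, 7, 2)])), (([8], [(2, 17, 2), (3, 17, 2)]),
    ([8], [(2, 16, 3), (3, 16, 3)])), (([10], [(12, 1, 2), (3, 0, 3), (4, 9, 2), (5, 11, 2),
    (6, 13, 2), (7, 13, 2), (8, 11, 2), (9, 9, 2)]), ([10], [(12, 0, 3), (10, 8, 2), (9, 10,
    2), (8, 12, 2), (7, 12, 2), (6, 10, 2), (5, 8, 2), (5, 1, 2)]))], [(([0], [(6, 6, 3), (9,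
    6, 3), (5, 18, 1), (6, 4, 3), (9, 4, 3), (10, 19, 2), (4, 16, 1), (5, 14, 1), (6, 2, 3),
    (9, 2, 3), (10, 15, 2), (11, 17, 2), (2, 8, 2), (3, 18, 1), (4, 5, 2), (2, 12, 1), (3, 10,
    1), (4, 8, 1), (5, 11, 2), (6, 0, 3), (9, 0, 3), (10, 9, 2), (11, 11, 2), (12, 13, 2), (10,
    4, 3), (13, 19, 2), (5, 15, 1), (6, 10, 2), (7, 10, 2), (8, 14, 2), (15, 7, 2), (18, 7, 2),
    (11, 12, 2), (12, 16, 2), (13, 18, 2), (13, 5, 2), (16, 5, 2), (17, 19, 2), (10, 10, 2),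
    (11, 14, 2), (11, 3, 2), (14, 3, 2), (15, 15, 2), (16, 17, 2), (9, 8, 2), (9, 1, 2), (8, 1,
    2), (5, 9, 2), (4, 11, 2), (3, 13, 2)]), ([0], [(6, 6, 3), (9, 6, 3), (5, 18, 1), (6, 4,
    3), (9, 4, 3), (10, 19, 2), (4, 16, 1), (5, 14, 1), (6, 2, 3), (9, 2, 3), (10, 15, 2), (11,
    17, 2), (3, 12, 1), (4, 10, 1), (5, 8, 1), (6, 0, 3), (9, 0, 3), (10, 9, 2), (11, 11, 2),
    (12, 13, 2), (17, 7, 2), (20, 7, 2), (12, 18, 2), (13, 12, 2), (14, 16, 2), (15, 18, 2),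
    (15, 5, 2), (18, 5, 2), (19, 19, 2), (14, 14, 1), (15, 3, 2), (18, 3, 2), (19, 15, 2), (20,
    17, 2), (12, 8, 2), (13, 5, 2), (11, 10, 2), (10, 8, 2), (10, 11, 2), (11, 1, 2), (14, 1,
    2), (15, 9, 2), (16, 11, 2), (17, 13, 2), (9, 15, 2), (8, 11, 2), (7, 11, 2), (6, 14, 3),
    (5, 4, 5), (2, 19, 0)])), (([2], [(5, 6, 3), (8, 6, 3), (4, 18, 1), (5, 4, 3), (8, 4, 3),
    (9, 19, 2), (3, 16, 1), (4, 14, 1), (5, 2, 3), (8, 2, 3), (9, 15, 2), (10, 17, 2), (2, 18,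
    1), (3, 5, 2), (8, 4, 3), (11, 19, 2), (5, 14, 2), (6, 14, 2), (12, 7, 2), (15, 7, 2), (9,
    16, 2), (10, 18, 2), (10, 5, 2), (13, 5, 2), (14, 19, 2), (8, 14, 2), (8, 3, 2), (7, 3, 2),
    (4, 15, 2), (3, 17, 2)]), ([2], [(5, 6, 3), (8, 6, 3), (4, 18, 1), (5, 4, 3), (8, 4, 3),
    (9, 19, 2), (3, 16, 1), (4, 14, 1), (5, 2, 3), (8, 2, 3), (9, 15, 2), (10, 17, 2), (14, 7,
    2), (17, 7, 2), (10, 18, 2), (11, 16, 2), (12, 18, 2), (12, 5, 2), (15, 5, 2), (16, 19, 2),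
    (11, 14, 1), (12, 3, 2), (15, 3, 2), (16, 15, 2), (17, 17, 2), (10, 5, 2), (7, 15, 2), (6,
    15, 2), (5, 4, 5), (2, 19, 0)])), (([5, 6, 4], [(4, 6, 3), (7, 6, 3), (3, 18, 1), (4, 4,
    3), (7, 4, 3), (8, 19, 2), (9, 7, 2), (8, 7, 2), (6, 5, 2), (9, 19, 2), (5, 5, 2), (2, 18,
    1), (3, 5, 2), (6, 5, 2), (10, 7, 2), (9, 7, 2), (5, 4, 5), (8, 18, 3), (4, 4, 5), (5, 6,
    5), (4, 6, 5), (2, 19, 3)]), ([6], [])), (([4], []), ([6, 4, 7], [(3, 6, 3), (6, 6, 3), (2,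
    19, 0), (3, 4, 5), (6, 4, 5), (7, 18, 3), (6, 6, 5), (7, 6, 3), (9, 7, 2), (12, 7, 2), (7,
    18, 2), (7, 5, 2), (6, 5, 2), (5, 19, 2), (6, 7, 2), (5, 7, 2)])), (([8], [(2, 19, 2), (3,
    19, 2)]), ([8], [(2, 18, 3), (3, 18, 3)])), (([10], [(12, 8, 1), (11, 3, 2), (4, 2, 3), (7,
    15, 2), (8, 17, 2), (9, 17, 2), (10, 15, 2), (2, 8, 2)]), ([10], [(12, 9, 2), (11, 2, 3),
    (9, 14, 2), (8, 16, 2), (7, 16, 2), (6, 14, 2), (6, 3, 2), (2, 9, 3)]))], [(([0], [(6, 6,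
    3), (9, 6, 3), (5, 18, 1), (6, 4, 3), (9, 4, 3), (10, 19, 2), (2, 10, 2), (3, 14, 2), (4,
    7, 2), (3, 16, 1), (4, 14, 1), (5, 17, 2), (6, 2, 3), (9, 2, 3), (10, 15, 2), (11, 17, 2),
    (2, 12, 1), (3, 10, 1), (4, 13, 2), (5, 8, 1), (6, 0, 3), (9, 0, 3), (10, 9, 2), (11, 11,
    2), (12, 13, 2), (11, 6, 3), (4, 19, 1), (5, 17, 1), (6, 12, 2), (7, 12, 2), (8, 16, 2),
    (9, 18, 2), (15, 7, 2), (18, 7, 2), (11, 12, 2), (12, 16, 2), (13, 18, 2), (13, 5, 2), (16,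
    5, 2), (17, 19, 2), (10, 10, 2), (11, 14, 2), (11, 3, 2), (14, 3, 2), (15, 15, 2), (16, 17,
    2), (9, 8, 2), (9, 1, 2), (8, 1, 2), (5, 9, 2), (4, 11, 2), (3, 13, 2)]), ([0], [(6, 6, 3),
    (9, 6, 3), (5, 18, 1), (6, 4, 3), (9, 4, 3), (10, 19, 2), (4, 16, 1), (5, 14, 1), (6, 2,
    3), (9, 2, 3), (10, 15, 2), (11, 17, 2), (3, 12, 1), (4, 10, 1), (5, 8, 1), (6, 0, 3), (9,
    0, 3), (10, 9, 2), (11, 11, 2), (12, 13, 2), (17, 7, 2), (20, 7, 2), (16, 18, 1), (17, 5,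
    2), (20, 5, 2), (21, 19, 2), (13, 10, 2), (14, 14, 2), (15, 7, 2), (12, 12, 2), (13, 16,
    2), (11, 10, 2), (12, 14, 2), (12, 17, 2), (13, 3, 2), (16, 3, 2), (17, 15, 2), (18, 17,
    2), (10, 8, 2), (11, 19, 2), (10, 13, 2), (11, 1, 2), (14, 1, 2), (15, 9, 2), (16, 11, 2),
    (17, 13, 2), (9, 17, 2), (8, 13, 2), (7, 13, 2), (6, 16, 3), (5, 18, 3), (4, 6, 5)])),
    (([2], [(5, 6, 3), (8, 6, 3), (4, 18, 1), (5, 4, 3), (8, 4, 3), (9, 19, 2), (2, 14, 2), (3,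
    7, 2), (2, 16, 1), (3, 14, 1), (4, 17, 2), (5, 2, 3), (8, 2, 3), (9, 15, 2), (10, 17, 2),
    (9, 6, 3), (4, 19, 1), (5, 16, 2), (6, 16, 2), (7, 18, 2), (12, 7, 2), (15, 7, 2), (9, 16,
    2), (10, 18, 2), (10, 5, 2), (13, 5, 2), (14, 19, 2), (8, 14, 2), (8, 3, 2), (7, 3, 2), (4,
    15, 2), (3, 17, 2)]), ([2], [(5, 6, 3), (8, 6, 3), (4, 18, 1), (5, 4, 3), (8, 4, 3), (9,
    19, 2), (3, 16, 1), (4, 14, 1), (5, 2, 3), (8, 2, 3), (9, 15, 2), (10, 17, 2), (14, 7, 2),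
    (17, 7, 2), (13, 18, 1), (14, 5, 2), (17, 5, 2), (18, 19, 2), (11, 14, 2), (12, 7, 2), (10,
    16, 2), (9, 14, 2), (9, 17, 2), (10, 3, 2), (13, 3, 2), (14, 15, 2), (15, 17, 2), (8, 19,
    2), (7, 17, 2), (6, 17, 2), (5, 18, 3), (4, 6, 5)])), (([4], [(4, 6, 3), (7, 6, 3), (3, 18,
    1), (4, 4, 3), (7, 4, 3), (8, 19, 2), (2, 7, 2), (7, 6, 3), (4, 18, 2), (5, 18, 2), (9, 7,
    2), (12, 7, 2), (7, 18, 2), (7, 5, 2), (6, 5, 2), (3, 19, 2)]), ([4], [(4, 6, 3), (7, 6,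
    3), (3, 18, 1), (4, 4, 3), (7, 4, 3), (8, 19, 2), (11, 7, 2), (14, 7, 2), (10, 18, 1), (11,
    5, 2), (14, 5, 2), (15, 19, 2), (9, 7, 2), (6, 19, 2), (5, 19, 2), (4, 6, 5)])), (([7, 8,
    6], [(3, 6, 3), (6, 6, 3), (5, 7, 2), (4, 7, 2)]), ([8], [])), (([6], []), ([8, 6, 9], [(2,
    6, 5), (5, 6, 5), (6, 7, 2), (5, 7, 2)])), (([10], [(12, 10, 1), (11, 14, 1), (10, 5, 2),
    (5, 4, 3), (8, 19, 2), (9, 19, 2), (2, 10, 2), (3, 14, 2)]), ([10], [(12, 11, 2), (11, 15,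
    2), (10, 4, 3), (8, 18, 2), (7, 18, 2), (7, 5, 2), (2, 11, 3), (3, 15, 3)]))]]
  rel2C :=
    [([], [(4, 1, 2)]), ([], [(4, 3, 2)]), ([], [(4, 5, 2)]), ([], [(2, 9, 2)]), ([], [(2, 11,
    2)]), ([], [(2, 15, 2)]), ([1, 10], []), ([1, 3, 5, 7, 9], [(0, 21, 0), (26, 13, 0), (25,
    17, 0), (24, 19, 0), (23, 7, 0), (21, 11, 0), (22, 13, 0), (20, 15, 0), (21, 17, 0), (19,
    5, 0), (20, 19, 0), (19, 7, 0), (17, 18, 0), (16, 9, 0), (17, 11, 0), (18, 13, 0), (15, 3,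
    0), (16, 15, 0), (17, 17, 0), (15, 5, 0), (18, 19, 0), (13, 14, 0), (15, 7, 0), (12, 16,
    0), (13, 18, 0), (11, 1, 0), (12, 9, 0), (13, 11, 0), (14, 13, 0), (11, 3, 0), (14, 15, 0),
    (15, 17, 0), (9, 8, 0), (11, 5, 0), (14, 19, 0), (8, 10, 0), (9, 14, 0), (11, 7, 0), (7,
    12, 0), (8, 16, 0), (9, 18, 0), (10, 6, 5), (11, 6, 3), (9, 4, 5), (12, 18, 3), (11, 6, 5),
    (12, 6, 3), (10, 4, 3), (11, 19, 2), (8, 2, 5), (11, 14, 3), (12, 16, 3), (10, 4, 5), (13,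
    18, 3), (12, 6, 5), (13, 6, 3), (11, 4, 3), (12, 19, 2), (9, 2, 3), (10, 15, 2), (11, 17,
    2), (7, 0, 5), (10, 8, 3), (11, 10, 3), (12, 12, 3), (6, 0, 5), (7, 2, 5), (10, 14, 3),
    (11, 16, 3), (6, 2, 5), (4, 9, 3), (7, 4, 5), (10, 18, 3), (6, 4, 5), (3, 11, 3), (4, 15,
    3), (7, 6, 5), (6, 6, 5), (2, 13, 3), (3, 17, 3), (4, 19, 3)])]
  cosC :=
    [[([], []), ([1, 3, 5, 7, 16, 6, 4, 2, 0], [(7, 1, 2), (10, 8, 1), (11, 10, 1), (12, 12,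
    1), (6, 1, 2), (7, 3, 2), (10, 14, 1), (11, 16, 1), (6, 3, 2), (4, 9, 1), (7, 5, 2), (10,
    18, 1), (6, 5, 2), (3, 11, 1), (4, 15, 1), (7, 7, 2), (6, 7, 2), (2, 13, 1), (3, 17, 1),
    (4, 19, 1)]), ([0], [(4, 8, 2), (3, 10, 2), (2, 12, 2)]), ([0], [(3, 10, 2), (2, 12, 2)]),
    ([0], [(2, 12, 2)]), ([0], [])], [([0], [(6, 0, 3), (4, 8, 2), (3, 10, 2), (2, 12, 2)]),
    ([], []), ([3, 5, 7, 16, 6, 4, 2], [(6, 3, 2), (9, 14, 1), (10, 16, 1), (5, 3, 2), (6, 5,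
    2), (9, 18, 1), (5, 5, 2), (3, 15, 1), (6, 7, 2), (5, 7, 2), (2, 17, 1), (3, 19, 1)]),
    ([2], [(3, 14, 2), (2, 16, 2)]), ([2], [(2, 16, 2)]), ([2], [])], [([2], [(6, 9, 2), (5, 2,
    3), (3, 14, 2), (2, 16, 2)]), ([2], [(5, 2, 3), (3, 14, 2), (2, 16, 2)]), ([], []), ([5, 7,
    16, 6, 4], [(5, 5, 2), (8, 18, 1), (4, 5, 2), (5, 7, 2), (4, 7, 2), (2, 19, 1)]), ([4],
    [(2, 18, 2)]), ([4], [])], [([4], [(6, 11, 2), (5, 15, 2), (4, 4, 3), (2, 18, 2)]), ([4],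
    [(5, 15, 2), (4, 4, 3), (2, 18, 2)]), ([4], [(4, 4, 3), (2, 18, 2)]), ([], []), ([7, 16,
    6], [(4, 7, 2), (3, 7, 2)]), ([6], [])], [([6], [(6, 13, 2), (5, 17, 2), (4, 19, 2), (3, 6,
    3)]), ([6], [(5, 17, 2), (4, 19, 2), (3, 6, 3)]), ([6], [(4, 19, 2), (3, 6, 3)]), ([6],
    [(3, 6, 3)]), ([], []), ([16], [])]]

/-- The stabiliser of a point in `Mod_{0,5}`. -/
def datB : Dat where
  tabs :=
    [⟨[1, 0, 2, 3, 4], [1, 0, 2, 3, 4], [[], [1, 3, 5, 5, 3, 1], [0], [0], [0]]⟩, ⟨[0, 2, 1, 3,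
    4], [0, 2, 1, 3, 4], [[0], [], [3, 5, 5, 3, 1, 1], [2], [2]]⟩, ⟨[0, 1, 3, 2, 4], [0, 1, 3,
    2, 4], [[2], [2], [], [5, 5, 3, 1, 1, 3], [4]]⟩, ⟨[0, 1, 2, 4, 3], [0, 1, 2, 4, 3], [[4],
    [4], [4], [], [5, 3, 1, 1, 3, 5]]⟩]
  x0 := 4
  relC :=
    [[[(7, 1, 0), (8, 5, 0), (9, 5, 0), (10, 1, 0), (7, 3, 0), (10, 3, 0), (5, 4, 0), (8, 4,
    0), (8, 4, 3), (9, 0, 5), (7, 2, 5), (6, 2, 5), (4, 4, 0), (4, 0, 5), (3, 5, 0), (4, 5,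
    0)], [], [], [(4, 1, 2)], [(4, 1, 2)]], [[(4, 1, 2)], [(12, 0, 5), (11, 0, 5), (7, 5, 0),
    (8, 5, 0), (6, 5, 0), (7, 5, 0), (8, 1, 0), (11, 1, 0), (5, 3, 0), (6, 3, 0), (6, 4, 0),
    (7, 4, 0), (7, 4, 3), (6, 4, 3), (5, 2, 5), (4, 2, 5)], [], [], [(4, 3, 2)]], [[(4, 3, 2)],
    [(4, 3, 2)], [(12, 2, 5), (11, 4, 3), (12, 0, 5), (15, 5, 0), (10, 4, 3), (11, 0, 5), (9,
    2, 5), (6, 5, 0), (5, 5, 0), (6, 1, 0), (9, 1, 0), (10, 5, 0), (4, 3, 0), (7, 3, 0), (4, 4,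
    0), (5, 4, 0)], [], []], [[(7, 0, 5), (2, 1, 0), (5, 5, 0), (6, 5, 0)], [], [(2, 4, 1), (3,
    4, 1), (4, 1, 2), (9, 0, 5)], [], [(2, 5, 2)]], [[(7, 4, 3), (6, 2, 5), (3, 3, 0), (2, 4,
    3)], [], [(2, 5, 2)], [(2, 4, 1), (3, 1, 2), (8, 4, 0), (8, 0, 5)], []], [[(2, 5, 2)], [(7,
    4, 3), (6, 4, 3), (5, 2, 5), (2, 3, 0)], [], [(2, 3, 2), (9, 2, 5), (4, 5, 1), (5, 5, 1)],
    []], [[(0, 6, 0), (0, 6, 0), (23, 0, 3), (26, 5, 2), (21, 2, 3), (19, 4, 2), (23, 2, 3),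
    (21, 4, 2), (22, 3, 2), (21, 4, 1), (22, 1, 2), (25, 5, 2), (20, 3, 2), (19, 4, 1), (20, 1,
    2), (23, 5, 2), (18, 3, 2), (16, 4, 2), (16, 1, 2), (15, 5, 2), (18, 2, 3), (17, 3, 2),
    (16, 3, 2), (11, 0, 3), (14, 5, 2), (15, 5, 2), (16, 5, 2), (9, 2, 3), (7, 4, 2), (10, 0,
    3), (13, 5, 2), (14, 5, 2), (15, 5, 2), (8, 2, 3), (12, 2, 3), (10, 4, 2), (10, 0, 3), (11,
    5, 2), (9, 0, 3), (12, 5, 2), (11, 2, 3), (10, 4, 1), (7, 4, 1), (8, 1, 2), (11, 4, 1), (6,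
    3, 2), (4, 4, 2), (4, 1, 2), (3, 5, 2), (4, 3, 2)], [], [], [], []], [[(0, 6, 0), (11, 0,
    3), (14, 5, 2), (9, 2, 3), (7, 4, 2), (11, 2, 3), (9, 4, 2), (10, 3, 2), (9, 4, 1), (10, 1,
    2), (13, 5, 2), (8, 3, 2), (7, 4, 1), (8, 1, 2), (11, 5, 2), (6, 3, 2), (4, 4, 2), (4, 1,
    2), (3, 5, 2), (6, 2, 3), (5, 3, 2), (4, 3, 2), (3, 5, 1), (4, 5, 1), (2, 5, 1), (3, 5, 1),
    (11, 1, 0), (14, 5, 0), (13, 3, 0), (12, 4, 3), (13, 1, 0), (14, 4, 3), (10, 0, 5), (11, 4,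
    3), (12, 0, 5), (15, 4, 3), (16, 0, 5), (19, 4, 3), (6, 1, 0), (9, 5, 0), (10, 2, 5), (7,
    5, 0), (6, 3, 2), (7, 2, 5), (8, 2, 5), (5, 0, 5), (4, 0, 5), (3, 5, 0), (4, 2, 5)], [(0,
    6, 0), (14, 0, 3), (17, 5, 2), (12, 2, 3), (10, 4, 2), (14, 2, 3), (12, 4, 2), (13, 3, 2),
    (12, 4, 1), (13, 1, 2), (16, 5, 2), (11, 3, 2), (10, 4, 1), (11, 1, 2), (14, 5, 2), (9, 3,
    2), (7, 4, 2), (7, 1, 2), (6, 5, 2), (9, 2, 3), (8, 3, 2), (7, 3, 2), (2, 0, 3), (5, 5, 2),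
    (6, 5, 2), (7, 5, 2), (3, 0, 3), (6, 5, 2), (7, 5, 2), (8, 5, 2), (5, 2, 3), (4, 4, 1), (5,
    0, 3), (8, 5, 2), (6, 0, 3), (9, 5, 2), (8, 2, 3), (7, 4, 1), (8, 1, 0), (11, 5, 0), (6, 3,
    0), (10, 3, 0), (8, 4, 0), (8, 1, 0), (7, 4, 3), (5, 2, 5), (4, 2, 5)], [(0, 6, 0), (17, 0,
    3), (20, 5, 2), (15, 2, 3), (13, 4, 2), (17, 2, 3), (15, 4, 2), (16, 3, 2), (15, 4, 1),
    (16, 1, 2), (19, 5, 2), (14, 3, 2), (13, 4, 1), (14, 1, 2), (17, 5, 2), (12, 3, 2), (10, 4,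
    2), (10, 1, 2), (9, 5, 2), (12, 2, 3), (11, 3, 2), (10, 3, 2), (5, 0, 3), (8, 5, 2), (9, 5,
    2), (10, 5, 2), (3, 2, 3), (6, 0, 3), (9, 5, 2), (10, 5, 2), (11, 5, 2), (4, 2, 3), (8, 2,
    3), (6, 4, 2), (6, 0, 3), (7, 5, 2), (5, 0, 3), (8, 5, 2), (7, 2, 3), (6, 4, 1), (2, 4, 1),
    (3, 4, 1), (4, 1, 2), (7, 4, 1), (6, 3, 2), (5, 5, 0), (6, 1, 0), (4, 3, 0), (4, 4, 0)],
    [(0, 6, 0), (20, 0, 3), (23, 5, 2), (18, 2, 3), (16, 4, 2), (20, 2, 3), (18, 4, 2), (19, 3,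
    2), (18, 4, 1), (19, 1, 2), (22, 5, 2), (17, 3, 2), (16, 4, 1), (17, 1, 2), (20, 5, 2),
    (15, 3, 2), (13, 4, 2), (13, 1, 2), (12, 5, 2), (15, 2, 3), (14, 3, 2), (13, 3, 2), (8, 0,
    3), (11, 5, 2), (12, 5, 2), (13, 5, 2), (6, 2, 3), (4, 4, 2), (7, 0, 3), (10, 5, 2), (11,
    5, 2), (12, 5, 2), (5, 2, 3), (9, 2, 3), (7, 4, 2), (7, 0, 3), (8, 5, 2), (6, 0, 3), (9, 5,
    2), (8, 2, 3), (7, 4, 1), (4, 4, 1), (5, 1, 2), (8, 4, 1), (3, 3, 2), (2, 4, 1), (3, 1, 2),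
    (6, 5, 2), (7, 3, 2)], [(0, 6, 0), (23, 0, 3), (26, 5, 2), (21, 2, 3), (19, 4, 2), (23, 2,
    3), (21, 4, 2), (22, 3, 2), (21, 4, 1), (22, 1, 2), (25, 5, 2), (20, 3, 2), (19, 4, 1),
    (20, 1, 2), (23, 5, 2), (18, 3, 2), (16, 4, 2), (16, 1, 2), (15, 5, 2), (18, 2, 3), (17, 3,
    2), (16, 3, 2), (11, 0, 3), (14, 5, 2), (15, 5, 2), (16, 5, 2), (9, 2, 3), (7, 4, 2), (10,
    0, 3), (13, 5, 2), (14, 5, 2), (15, 5, 2), (8, 2, 3), (12, 2, 3), (10, 4, 2), (10, 0, 3),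
    (11, 5, 2), (9, 0, 3), (12, 5, 2), (11, 2, 3), (10, 4, 1), (7, 4, 1), (8, 1, 2), (11, 4,
    1), (6, 3, 2), (4, 4, 2), (4, 1, 2), (3, 5, 2), (4, 3, 2)]]]
  Y :=
    [[0], [2], [4]]
  YC :=
    [[], [], []]
  T :=
    []
  TC :=
    []
  r :=
    [[6, 4, 2, 0], [6, 4, 2], [6, 4], [6], []]
  conjC :=
    [[], [], []]
  rel2C :=
    [([], [(4, 1, 2)]), ([], [(4, 3, 2)]), ([], [(2, 7, 2)]), ([], [(0, 15, 0), (0, 12, 4), (5,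
    8, 1), (6, 6, 1), (7, 1, 2), (4, 10, 1), (5, 3, 2), (3, 5, 2), (7, 10, 1), (8, 3, 2), (5,
    7, 1), (6, 5, 2), (3, 11, 1), (4, 9, 1), (8, 7, 1), (9, 5, 2), (6, 11, 1), (7, 9, 1), (9,
    11, 1), (10, 9, 1)])]
  cosC :=
    [[([], []), ([1, 3, 5, 5, 3, 1], [(2, 0, 0), (10, 13, 0), (8, 1, 2), (11, 6, 1), (12, 8,
    1), (6, 1, 2), (5, 1, 2), (6, 3, 2), (9, 10, 1), (5, 3, 2), (3, 7, 1), (6, 5, 2), (5, 5,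
    2), (2, 9, 1), (3, 11, 1)]), ([0], [(3, 6, 2), (2, 8, 2)]), ([0], [(2, 8, 2)]), ([0], [])],
    [([0], [(5, 0, 3), (3, 6, 2), (2, 8, 2)]), ([], []), ([3, 5, 5, 3, 1, 1], [(3, 13, 2), (4,
    3, 2), (5, 10, 1), (6, 10, 1), (7, 3, 2), (4, 5, 2), (7, 5, 2), (2, 11, 1), (7, 7, 1), (8,
    7, 1), (5, 11, 1), (6, 9, 1), (7, 9, 1)]), ([2], [(2, 10, 2)]), ([2], [])], [([2], [(5, 7,
    2), (4, 2, 3), (2, 10, 2)]), ([2], [(4, 2, 3), (2, 10, 2)]), ([], []), ([5, 5, 3, 1, 1, 3],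
    [(4, 13, 2), (4, 5, 2), (3, 5, 2)]), ([4], [])], [([4], [(5, 9, 2), (4, 11, 2), (3, 4,
    3)]), ([4], [(4, 11, 2), (3, 4, 3)]), ([4], [(3, 4, 3)]), ([], []), ([5, 3, 1, 1, 3, 5],
    [(0, 13, 5)])]]

theorem arrowA : Arrow (PG 5 relM) (PG 4 relP) :=
  arrow_of_dat (d := 6) datA (by decide +kernel) (by decide +kernel) (by decide +kernel) (by decide +kernel) (by decide +kernel) (by decide +kernel) (by decide +kernel)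

theorem arrowB : Arrow (PG 4 relP) (PG 3 relB) :=
  arrow_of_dat (d := 5) datB (by decide +kernel) (by decide +kernel) (by decide +kernel) (by decide +kernel) (by decide +kernel) (by decide +kernel) (by decide +kernel)

end Pool.Agent.H.MP_ee9c6f_al.E2.Chk
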