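import Pool.Agent.H.MP_ee9c6f_al.E2.ChkC
import Pool.Agent.H.MP_ee9c6f_al.E2.DataAB

/-!
MP_ee9c6f_al, genus 2 (helper40). The arrow from `Mod_{0,5}` to the triangle group `(2, 5, 10)`: a
subgroup of index 150 of `Mod_{0,5}` maps onto the triangle group with finitely generated kernel. The
data are produced by a computer and checked by the kernel.
-/

set_option autoImplicit false
set_option linter.style.longLine false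

namespace Pool.Agent.H.MP_ee9c6f_al.E2.Chk

/-- The relators of the triangle group `(2, 5, 10)`, with generators `a`, `b`, `c = ab`, `d = c ^ 2`. -/
def relQ : List (List ℕ) :=
  [[0, 0], [2, 2, 2, 2, 2], [6, 6, 6, 6, 6], [0, 2, 5], [4, 4, 7]]

/-- The permutation of the generator 0. -/
def cP0 : List ℕ :=
  [1, 9, 0, 5, 23, 12, 13, 14, 15, 41, 30, 51, 43, 44, 32, 45, 2, 8, 7, 6, 3, 75, 31, 80, 4,
  85, 81, 21, 61, 82, 95, 55, 99, 38, 50, 57, 58, 33, 59, 26, 47, 69, 96, 62, 101, 79, 10, 74,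
  77, 11, 54, 117, 92, 118, 67, 111, 27, 36, 78, 90, 16, 29, 123, 19, 18, 17, 40, 39, 37, 132,
  53, 34, 35, 20, 22, 94, 88, 49, 97, 98, 137, 139, 140, 24, 28, 93, 25, 143, 84, 113, 145,
  141, 126, 104, 142, 52, 83, 87, 109, 133, 76, 106, 42, 114, 70, 56, 91, 73, 115, 148, 116,
  125, 46, 48, 64, 68, 105, 146, 144, 60, 89, 63, 65, 131, 86, 129, 134, 71, 72, 66, 108, 107,
  119, 136, 149, 102, 103, 135, 110, 127, 147, 121, 138, 128, 124, 130, 120, 100, 122, 112]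

/-- The inverse permutation of the generator 0. -/
def cI0 : List ℕ :=
  [2, 0, 16, 20, 24, 3, 19, 18, 17, 1, 46, 49, 5, 6, 7, 8, 60, 65, 64, 63, 73, 27, 74, 4, 83,
  86, 39, 56, 84, 61, 10, 22, 14, 37, 71, 72, 57, 68, 33, 67, 66, 9, 102, 12, 13, 15, 112, 40,
  113, 77, 34, 11, 95, 70, 50, 31, 105, 35, 36, 38, 119, 28, 43, 121, 114, 122, 129, 54, 115,
  41, 104, 127, 128, 107, 47, 21, 100, 48, 58, 45, 23, 26, 29, 96, 88, 25, 124, 97, 76, 120,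
  59, 106, 52, 85, 75, 30, 42, 78, 79, 32, 147, 44, 135, 136, 93, 116, 101, 131, 130, 98, 138,
  55, 149, 89, 103, 108, 110, 51, 53, 132, 146, 141, 148, 62, 144, 111, 92, 139, 143, 125, 145,
  123, 69, 99, 126, 137, 133, 80, 142, 81, 82, 91, 94, 87, 118, 90, 117, 140, 109, 134]

/-- The labels of the generator 0. -/
def cL0 : List (List ℕ) :=
  [[], [], [6], [6], [], [], [], [], [4], [], [0], [2], [], [5], [2], [], [7], [4, 6], [], [2],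
  [], [], [], [], [0], [], [], [], [], [2], [7], [], [], [], [], [], [], [], [], [2], [5], [],
  [], [], [], [6], [], [], [0], [], [0], [], [2], [2], [7], [], [0], [5], [], [], [7], [7], [],
  [7], [], [6], [], [], [], [4], [], [2, 2], [], [], [], [7], [3], [7], [], [], [5], [], [5],
  [], [0], [], [2], [], [], [3, 3], [], [], [], [5], [2], [], [3], [], [], [], [3], [], [3],
  [], [], [3], [2], [5], [], [], [], [], [3], [], [5], [], [], [5], [], [4], [5], [4], [6],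
  [5], [], [4], [5], [], [0], [], [], [], [], [], [3, 3], [3], [0], [3], [3, 3], [5], [], [],
  [5], [2], [5], [], [0], [3], [], []]

/-- The permutation of the generator 1. -/
def cP1 : List ℕ :=
  [3, 10, 17, 21, 0, 30, 32, 20, 5, 42, 47, 1, 54, 31, 27, 50, 61, 66, 2, 69, 51, 76, 77, 46,
  49, 4, 11, 15, 7, 8, 96, 35, 100, 6, 101, 81, 9, 105, 22, 73, 12, 38, 94, 64, 45, 88, 58,
  114, 44, 57, 115, 102, 107, 14, 84, 79, 13, 98, 33, 72, 120, 56, 16, 126, 24, 23, 130, 18,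
  28, 128, 19, 134, 133, 118, 83, 95, 111, 85, 74, 104, 40, 135, 34, 39, 70, 112, 122, 25, 52,
  29, 26, 116, 53, 36, 131, 67, 59, 48, 63, 55, 146, 93, 148, 97, 37, 113, 68, 145, 43, 41,
  136, 121, 110, 71, 86, 60, 78, 75, 147, 91, 125, 127, 142, 65, 62, 92, 140, 87, 138, 82, 144,
  129, 99, 141, 132, 124, 139, 103, 80, 109, 108, 89, 90, 149, 117, 137, 123, 119, 143, 106]

/-- The inverse permutation of the generator 1. -/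
def cI1 : List ℕ :=
  [4, 11, 18, 0, 25, 8, 33, 28, 29, 36, 1, 26, 40, 56, 53, 27, 62, 2, 67, 70, 7, 3, 38, 65, 64,
  87, 90, 14, 68, 89, 5, 13, 6, 58, 82, 31, 93, 104, 41, 83, 80, 109, 9, 108, 48, 44, 23, 10,
  97, 24, 15, 20, 88, 92, 12, 99, 61, 49, 46, 96, 115, 16, 124, 98, 43, 123, 17, 95, 106, 19,
  84, 113, 59, 39, 78, 117, 21, 22, 116, 55, 138, 35, 129, 74, 54, 77, 114, 127, 45, 141, 142,
  119, 125, 101, 42, 75, 30, 103, 57, 132, 32, 34, 51, 137, 79, 37, 149, 52, 140, 139, 112, 76,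
  85, 105, 47, 50, 91, 144, 73, 147, 60, 111, 86, 146, 135, 120, 63, 121, 69, 131, 66, 94, 134,
  72, 71, 81, 110, 145, 128, 136, 126, 133, 122, 148, 130, 107, 100, 118, 102, 143]

/-- The labels of the generator 1. -/
def cL1 : List (List ℕ) :=
  [[5], [0], [], [5], [0], [5], [], [4], [], [], [4], [], [4], [], [], [0], [4, 6], [5], [],
  [], [5, 7], [], [], [], [], [3], [3, 3], [3], [0], [], [], [], [], [], [2], [], [5], [0], [],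
  [4, 6], [6, 6], [2], [2], [4], [5], [], [2], [5, 7], [3], [6], [4], [], [7, 7], [], [], [],
  [4], [], [0], [], [], [], [4, 6], [], [6], [5], [4], [6], [5], [4], [], [], [], [4, 6, 6],
  [7], [], [2], [5], [0], [7], [6], [], [], [2], [], [], [5], [3], [2], [], [], [3], [3, 3],
  [], [7], [6], [2], [], [], [], [4], [], [2], [3, 3], [2], [], [0], [6], [4, 6], [7], [4, 2],
  [5], [], [2], [2], [7], [], [6], [2], [3], [3], [], [], [5], [6], [], [], [3], [], [], [6],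
  [4], [0], [5], [], [4], [], [5], [6], [], [6], [2], [3], [3], [6], [2], [], [5], [3, 5], []]

/-- The permutation of the generator 2. -/
def cP2 : List ℕ :=
  [5, 12, 3, 22, 26, 31, 0, 37, 17, 43, 48, 30, 55, 1, 33, 8, 20, 65, 68, 2, 74, 23, 78, 81,
  39, 88, 91, 4, 21, 94, 77, 97, 38, 18, 6, 85, 104, 64, 7, 106, 57, 62, 50, 111, 9, 15, 113,
  36, 112, 10, 13, 95, 11, 82, 44, 87, 24, 93, 70, 14, 73, 75, 125, 16, 115, 122, 35, 101, 114,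
  123, 29, 19, 25, 47, 58, 80, 105, 46, 53, 45, 139, 141, 142, 67, 27, 84, 76, 144, 56, 134,
  32, 132, 51, 28, 137, 49, 54, 118, 79, 59, 116, 41, 34, 130, 61, 83, 69, 40, 136, 98, 42,
  143, 89, 149, 108, 103, 96, 52, 140, 107, 126, 60, 148, 129, 100, 128, 117, 63, 86, 72, 133,
  66, 131, 90, 146, 71, 145, 127, 102, 121, 138, 119, 135, 124, 147, 99, 92, 110, 109, 120]

/-- The inverse permutation of the generator 2. -/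
def cI2 : List ℕ :=
  [6, 13, 19, 2, 27, 0, 34, 38, 15, 44, 49, 52, 1, 50, 59, 45, 63, 8, 33, 71, 16, 28, 3, 21,
  56, 72, 4, 84, 93, 70, 11, 5, 90, 14, 102, 66, 47, 7, 32, 24, 107, 101, 110, 9, 54, 79, 77,
  73, 10, 95, 42, 92, 117, 78, 96, 12, 88, 40, 74, 99, 121, 104, 41, 127, 37, 17, 131, 83, 18,
  106, 58, 135, 129, 60, 20, 61, 86, 30, 22, 98, 75, 23, 53, 105, 85, 35, 128, 55, 25, 112,
  133, 26, 146, 57, 29, 51, 116, 31, 109, 145, 124, 67, 138, 115, 36, 76, 39, 119, 114, 148,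
  147, 43, 48, 46, 68, 64, 100, 126, 97, 141, 149, 139, 65, 69, 143, 62, 120, 137, 125, 123,
  103, 132, 91, 130, 89, 142, 108, 94, 140, 80, 118, 81, 82, 111, 87, 136, 134, 144, 122, 113]

/-- The labels of the generator 2. -/
def cL2 : List (List ℕ) :=
  [[], [], [], [], [], [7], [0], [], [5], [], [], [2], [7], [0], [], [4], [7], [], [], [5], [],
  [], [], [], [5], [2], [], [], [], [], [], [], [3], [3], [3], [], [], [3], [3], [], [], [],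
  [], [7], [2], [6], [], [], [], [4], [3], [7], [], [2], [7], [], [], [], [], [3], [7, 7], [],
  [7], [5], [], [], [], [], [0], [], [], [], [], [], [], [], [], [5], [], [], [], [], [], [5],
  [0], [2], [3, 3], [2], [], [], [], [4], [], [4], [4], [], [0], [2], [6], [3], [3], [2], [3],
  [5], [6], [3], [2], [], [], [6], [], [], [2], [], [5], [0], [], [7], [5], [7], [], [6], [6],
  [5], [3], [2], [], [6], [5], [], [], [], [7], [3], [], [2], [3], [], [3], [], [], [4], [5],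
  [3, 4], [5], [], [0], [3, 3], [6], [4, 2]]

/-- The permutation of the generator 3. -/
def cP3 : List ℕ :=
  [7, 14, 18, 20, 28, 3, 35, 39, 0, 32, 27, 53, 5, 57, 26, 1, 64, 2, 67, 72, 73, 51, 79, 61,
  84, 68, 92, 11, 83, 4, 21, 98, 81, 31, 46, 63, 6, 22, 55, 52, 8, 99, 100, 12, 36, 9, 56, 15,
  93, 70, 10, 118, 94, 90, 30, 109, 49, 19, 13, 111, 114, 24, 43, 128, 54, 16, 17, 95, 74, 133,
  59, 112, 121, 107, 45, 117, 102, 104, 44, 41, 29, 126, 23, 88, 96, 37, 115, 106, 42, 25, 125,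
  97, 142, 33, 146, 75, 76, 101, 69, 139, 135, 58, 147, 34, 38, 77, 78, 131, 40, 132, 113, 148,
  105, 85, 50, 47, 48, 144, 145, 103, 86, 143, 60, 62, 108, 122, 138, 149, 141, 65, 66, 123,
  136, 127, 110, 140, 71, 82, 89, 134, 80, 87, 120, 91, 130, 129, 124, 137, 119, 116]

/-- The inverse permutation of the generator 3. -/
def cI3 : List ℕ :=
  [8, 15, 17, 5, 29, 12, 36, 0, 40, 45, 50, 27, 43, 58, 1, 47, 65, 66, 2, 57, 3, 30, 37, 82,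
  61, 89, 14, 10, 4, 80, 54, 33, 9, 93, 103, 6, 44, 85, 104, 7, 108, 79, 88, 62, 78, 74, 34,
  115, 116, 56, 114, 21, 39, 11, 64, 38, 46, 13, 101, 70, 122, 23, 123, 35, 16, 129, 130, 18,
  25, 98, 49, 136, 19, 20, 68, 95, 96, 105, 106, 22, 140, 32, 137, 28, 24, 113, 120, 141, 83,
  138, 53, 143, 26, 48, 52, 67, 84, 91, 31, 41, 42, 97, 76, 119, 77, 112, 87, 73, 124, 55, 134,
  59, 71, 110, 60, 86, 149, 75, 51, 148, 142, 72, 125, 131, 146, 90, 81, 133, 63, 145, 144,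
  107, 109, 69, 139, 100, 132, 147, 126, 99, 135, 128, 92, 121, 117, 118, 94, 102, 111, 127]

/-- The labels of the generator 3. -/
def cL3 : List (List ℕ) :=
  [[], [], [6], [6], [], [], [], [], [4], [2], [0], [], [6], [], [2], [], [], [6], [], [2],
  [6], [], [], [], [], [0], [], [3], [5], [2], [], [], [], [], [], [], [0], [], [], [], [7, 7],
  [2], [2], [6], [], [], [], [7], [3], [], [], [], [], [2], [], [], [5], [7], [0], [], [5],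
  [5], [6], [5], [6], [7, 7], [4, 6], [], [], [2], [2], [3, 3], [5], [4, 6], [7], [], [], [7],
  [3], [7], [7], [], [], [], [], [0], [4], [3], [], [2, 2], [], [3], [], [0], [4], [6], [],
  [3], [7], [], [], [], [2], [2], [2], [0], [], [6], [4], [5], [], [], [], [3], [2], [], [],
  [], [], [], [0], [3], [], [6], [4], [], [5], [3, 3], [3], [4], [4], [4, 6], [0], [5], [3, 3],
  [], [5], [0], [], [5], [4], [3], [], [], [], [4], [], [], [5], []]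

/-- The derivations for the relator 0. -/
def cR0 : List (List (ℕ × ℕ × ℕ)) :=
  [[(0, 0, 0)], [(0, 1, 0)], [(0, 9, 1), (0, 8, 1)], [(0, 9, 2)], [(1, 8, 0), (1, 6, 0), (0, 1,
  0)], [(0, 8, 0)], [], [(0, 0, 0)], [(2, 8, 1), (0, 9, 2)], [(0, 9, 1)], [(0, 0, 0)], [], [(2,
  9, 2), (1, 8, 0), (0, 9, 0)], [(1, 7, 2), (0, 0, 0)], [(0, 1, 0)], [(0, 9, 2), (1, 0, 0), (0,
  7, 1)], [(0, 4, 0), (1, 8, 0), (1, 9, 2), (0, 8, 0)], [(0, 8, 0), (2, 8, 1), (0, 9, 2)], [],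
  [], [], [], [], [(0, 9, 2)], [(0, 9, 0)], [(0, 3, 0)], [], [], [(0, 1, 0)], [(0, 9, 1)], [(2,
  9, 2), (0, 1, 0)], [], [], [(0, 7, 2), (0, 0, 0)], [], [], [], [(1, 6, 0), (0, 1, 0)], [(1,
  6, 0), (0, 1, 0)], [], [(0, 8, 1), (0, 9, 0)], [(0, 8, 2)], [], [(1, 8, 0), (1, 9, 2), (0, 8,
  0)], [], [(1, 1, 0), (0, 6, 2)], [], [(0, 8, 1)], [], [], [(0, 7, 2), (0, 0, 0)], [(1, 8, 1),
  (0, 9, 1)], [], [], [(0, 1, 0)], [], [(1, 1, 0), (0, 6, 2)], [], [], [], [], [(0, 8, 1)],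
  [(0, 9, 0)], [], [(0, 8, 2), (0, 4, 0), (2, 8, 0), (2, 9, 2), (1, 8, 0), (1, 9, 2), (0, 8,
  0)], [(0, 8, 0), (0, 9, 2)], [(0, 9, 2)], [(0, 9, 1)], [(0, 6, 0)], [], [], [], [(1, 6, 0),
  (0, 1, 0)], [(1, 4, 0), (0, 8, 1)], [(0, 6, 0)], [(0, 8, 1), (0, 9, 0)], [], [], [], [(0, 8,
  0)], [(0, 8, 1), (0, 9, 0)], [], [(0, 7, 2), (1, 7, 2), (0, 0, 0)], [(2, 8, 1), (1, 1, 0),
  (0, 6, 2)], [(0, 0, 0)], [(0, 6, 2)], [(0, 6, 0), (1, 6, 0), (0, 1, 0)], [(2, 1, 0), (1, 6,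
  2)], [], [], [], [], [], [(0, 7, 1)], [], [(1, 8, 1), (0, 9, 1)], [(0, 0, 0)], [(2, 0, 0),
  (1, 7, 1)], [], [(0, 7, 2), (0, 0, 0)], [], [(0, 2, 0)], [], [(3, 9, 1), (1, 6, 0), (0, 1,
  0)], [], [(0, 0, 0)], [(0, 3, 0)], [], [(0, 9, 0)], [], [], [], [], [], [(2, 9, 1), (1, 8,
  2)], [(0, 8, 0)], [], [(1, 4, 0), (0, 8, 1), (1, 8, 0), (0, 9, 0)], [(2, 9, 2), (1, 8, 0),
  (1, 9, 2), (0, 8, 0)], [], [(1, 6, 0), (0, 1, 0)], [], [], [(0, 8, 0), (0, 9, 2)], [(0, 8,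
  1)], [(1, 0, 0), (0, 7, 1)], [], [], [(0, 8, 1)], [(0, 6, 0), (0, 1, 0)], [(0, 8, 0)], [(0,
  8, 2)], [(0, 9, 2)], [], [], [], [(0, 7, 0)], [(0, 8, 1)], [], [], [], [(0, 6, 2)], [], [],
  [(2, 8, 0), (2, 9, 2), (1, 8, 0), (0, 9, 0)], [], [(0, 8, 1)], [], [], []]

/-- The derivations for the relator 1. -/
def cR1 : List (List (ℕ × ℕ × ℕ)) :=
  [[], [(0, 7, 2), (0, 0, 0)], [(1, 1, 0), (0, 6, 2)], [(0, 7, 1)], [], [(0, 6, 0)], [], [(1,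
  6, 0), (0, 1, 0)], [(1, 7, 2), (0, 0, 0)], [], [(0, 1, 0)], [(0, 2, 0)], [], [(0, 9, 2), (1,
  0, 0), (0, 7, 1)], [], [(3, 9, 2), (2, 8, 0), (1, 1, 0), (0, 6, 2)], [(0, 9, 2)], [], [(0, 8,
  0), (0, 9, 2), (1, 0, 0), (0, 7, 1)], [], [(2, 8, 1), (0, 9, 2)], [], [(0, 6, 2)], [], [],
  [], [], [(0, 0, 0)], [(0, 8, 1)], [], [(0, 7, 1)], [(2, 8, 1), (1, 1, 0), (0, 6, 2)], [],
  [(0, 1, 0)], [], [(0, 9, 1)], [(0, 8, 0)], [(0, 7, 2), (0, 0, 0)], [(0, 3, 0)], [(2, 9, 1),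
  (0, 7, 0)], [(0, 5, 0)], [], [], [(1, 8, 0), (0, 9, 2)], [(2, 8, 1), (1, 1, 0), (0, 6, 2)],
  [(1, 9, 1), (0, 8, 2)], [], [(1, 9, 0)], [(0, 0, 0)], [], [(1, 8, 0), (1, 6, 0), (0, 1, 0)],
  [(2, 9, 1), (2, 8, 1), (1, 9, 1), (0, 8, 2)], [], [(2, 1, 0), (1, 6, 2)], [(0, 6, 0)], [],
  [], [], [(0, 7, 2), (0, 0, 0)], [(1, 0, 0), (0, 7, 1)], [(0, 9, 1), (0, 8, 1), (0, 9, 0)],
  [(1, 8, 0), (0, 9, 0)], [(2, 6, 0), (2, 1, 0), (1, 6, 2), (0, 8, 0)], [], [], [], [(0, 8,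
  2)], [], [(2, 9, 2), (0, 7, 0)], [], [], [], [(2, 8, 0), (1, 1, 0), (0, 6, 2)], [(3, 5, 0),
  (1, 8, 0), (0, 9, 0)], [(0, 7, 0)], [(1, 9, 2), (0, 8, 0)], [(1, 0, 0), (0, 7, 1)], [], [],
  [], [], [], [(1, 0, 0), (0, 7, 1)], [(0, 9, 1), (1, 0, 0), (0, 7, 1)], [(1, 6, 0), (0, 1,
  0)], [(0, 8, 2)], [(1, 1, 0)], [], [], [], [], [], [(0, 7, 2), (0, 0, 0)], [], [], [(1, 5,
  0), (2, 9, 1), (2, 8, 1), (0, 9, 2)], [], [(2, 1, 0), (1, 6, 2)], [], [(1, 6, 0), (0, 1, 0)],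
  [], [], [], [(0, 7, 2), (0, 0, 0)], [], [(0, 1, 0)], [], [(1, 9, 1)], [(0, 5, 0), (0, 9, 1)],
  [], [], [(2, 8, 1), (0, 9, 2)], [], [], [(4, 0, 0), (1, 9, 1), (0, 8, 2)], [], [], [], [(0,
  9, 2), (1, 0, 0), (0, 7, 1)], [(0, 8, 2)], [(0, 8, 0)], [(1, 9, 1), (0, 8, 2)], [], [], [(0,
  9, 1), (1, 7, 2), (1, 0, 0), (0, 7, 1)], [], [], [], [], [(0, 9, 2)], [(0, 9, 2)], [], [(0,
  7, 2), (1, 7, 2), (0, 0, 0)], [], [], [], [(0, 9, 0)], [], [], [], [], [], [], [(1, 8, 1)],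
  [(0, 8, 0)], [(1, 7, 2), (1, 0, 0), (0, 7, 1)], [(0, 6, 0), (1, 6, 0), (0, 1, 0)], [(0, 9,
  2)], [(0, 9, 0)], []]

/-- The derivations for the relator 2. -/
def cR2 : List (List (ℕ × ℕ × ℕ)) :=
  [[(2, 8, 0), (0, 1, 0)], [(0, 1, 0)], [(0, 8, 1), (0, 9, 0)], [(0, 8, 0)], [(1, 6, 0), (0, 1,
  0)], [(0, 9, 0)], [], [(0, 0, 0)], [(3, 8, 1), (2, 9, 1), (2, 8, 1), (0, 9, 2)], [], [], [(1,
  0, 0), (0, 7, 1)], [], [], [(0, 0, 0)], [], [(2, 8, 1), (1, 9, 1), (0, 8, 2)], [(1, 4, 0),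
  (0, 8, 1)], [(3, 9, 2), (2, 8, 0), (1, 1, 0), (0, 6, 2)], [(0, 8, 2)], [(0, 4, 0)], [], [],
  [], [], [], [], [], [(0, 6, 0)], [], [], [], [], [], [(0, 2, 0), (1, 7, 2), (1, 0, 0)], [],
  [], [], [], [(0, 8, 2)], [(0, 9, 2)], [], [(0, 2, 0)], [], [], [], [(0, 7, 1)], [], [], [],
  [(1, 0, 0)], [], [(0, 9, 1)], [], [(0, 7, 0), (1, 0, 0), (1, 7, 0), (0, 9, 0)], [], [(0, 6,
  2)], [], [], [], [(0, 8, 0)], [], [], [(0, 8, 0)], [(1, 1, 0), (0, 6, 2)], [], [], [(1, 0,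
  0), (0, 7, 1)], [(0, 8, 0), (0, 6, 0)], [], [], [], [(0, 6, 0), (1, 6, 0), (0, 1, 0)], [],
  [], [], [(2, 1, 0), (1, 6, 2)], [], [], [], [], [], [(0, 7, 2), (0, 0, 0)], [], [], [], [(0,
  8, 2), (0, 7, 2), (0, 0, 0)], [], [(0, 3, 0)], [], [], [], [(1, 6, 0), (0, 1, 0)], [], [],
  [(0, 9, 1)], [], [], [], [], [], [], [(2, 0, 0), (1, 7, 1)], [(0, 7, 0)], [], [], [], [(1, 8,
  1), (0, 9, 1), (0, 8, 1)], [(0, 8, 2), (0, 7, 2), (1, 7, 2), (0, 0, 0)], [], [], [], [], [],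
  [(2, 9, 2), (0, 1, 0)], [], [], [], [], [(0, 9, 2)], [(0, 6, 0)], [], [], [], [(1, 6, 0), (1,
  1, 0), (0, 6, 2)], [], [], [], [(0, 9, 2)], [(1, 7, 2), (0, 0, 0)], [], [(1, 8, 1), (0, 9,
  1)], [(0, 9, 2)], [], [], [(0, 7, 1)], [(0, 6, 0)], [(0, 9, 2)], [], [], [], [], [], [], [],
  [(1, 1, 0), (0, 6, 2)], [(0, 8, 1)], [], [], []]

/-- The derivations for the relator 3. -/
def cR3 : List (List (ℕ × ℕ × ℕ)) :=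
  [[(0, 8, 0), (0, 6, 0)], [], [(1, 8, 1), (0, 9, 1)], [], [], [], [], [], [(1, 8, 0)], [(1, 6,
  0), (0, 1, 0)], [(0, 8, 1)], [], [], [], [], [(0, 9, 0)], [], [], [], [], [], [], [], [], [],
  [(0, 7, 2), (0, 0, 0)], [(0, 7, 2), (0, 0, 0)], [], [(0, 7, 0)], [], [(1, 6, 0), (0, 1, 0)],
  [], [], [], [(0, 3, 0)], [], [], [], [], [], [], [], [], [], [(1, 6, 2), (0, 8, 2)], [], [(0,
  6, 2)], [], [], [], [], [], [], [], [], [], [], [], [], [], [(0, 9, 0)], [(0, 9, 0)], [],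
  [(0, 9, 0)], [(0, 7, 1)], [], [], [(1, 7, 0), (0, 9, 1)], [], [], [], [], [(0, 7, 0)], [(2,
  8, 1), (1, 9, 1), (0, 8, 2)], [], [], [], [], [], [], [], [], [], [], [], [], [(1, 6, 0), (1,
  1, 0), (0, 6, 2)], [], [(0, 2, 0)], [], [], [], [(1, 9, 1), (0, 7, 2), (0, 0, 0)], [], [],
  [], [], [], [], [], [], [], [], [], [], [], [], [], [], [], [], [], [], [], [], [], [], [],
  [], [], [(0, 7, 0)], [], [], [], [(1, 7, 2), (1, 0, 0), (0, 7, 1)], [], [], [], [], [(0, 9,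
  2)], [(0, 6, 2)], [(0, 8, 2)], [], [], [], [(1, 6, 0), (1, 1, 0), (0, 6, 2)], [], [(0, 8,
  1)], [], [], [], [], [], [], [], [], [], [], [], []]

/-- The derivations for the relator 4. -/
def cR4 : List (List (ℕ × ℕ × ℕ)) :=
  [[(0, 8, 0)], [], [(0, 4, 0)], [], [(1, 8, 1), (1, 6, 0), (0, 1, 0)], [], [(1, 9, 1), (0, 7,
  2), (0, 0, 0)], [], [(3, 5, 0), (2, 9, 2), (1, 8, 0), (0, 9, 0)], [], [], [(1, 0, 0), (0, 7,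
  1)], [], [], [], [(2, 9, 1), (2, 8, 1), (0, 9, 2)], [], [(1, 9, 2), (0, 8, 0)], [], [], [],
  [], [], [], [], [(2, 6, 0), (1, 1, 0)], [], [], [], [], [], [], [], [], [(1, 7, 2), (1, 0,
  0)], [], [], [], [(1, 6, 0), (0, 1, 0)], [], [], [], [], [], [(0, 7, 1)], [], [(0, 2, 0)],
  [], [], [(1, 7, 0), (0, 9, 1)], [], [], [], [], [(2, 9, 2), (0, 7, 0)], [], [], [], [], [],
  [], [], [], [], [(0, 8, 2)], [(0, 8, 0)], [], [], [(0, 6, 0)], [], [], [], [(1, 8, 1), (1, 6,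
  0), (0, 1, 0)], [], [], [], [], [], [], [], [], [], [(1, 9, 1), (0, 7, 2), (0, 0, 0)], [(0,
  6, 2)], [], [(0, 3, 0)], [(0, 0, 0)], [], [], [], [], [], [], [], [], [], [], [], [], [], [],
  [], [], [(0, 1, 0)], [(1, 6, 2), (0, 8, 2)], [], [], [(1, 9, 2), (0, 8, 0)], [], [], [], [],
  [], [], [], [], [], [], [], [], [(1, 6, 0), (0, 1, 0)], [(0, 6, 2)], [], [(1, 9, 2), (0, 8,
  0)], [], [], [], [], [], [], [], [], [(0, 9, 2)], [], [], [], [(0, 7, 2), (0, 0, 0)], [], [],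
  [], [(0, 7, 1)], [], [], [], [], [], [(0, 8, 1)], [], [], []]

/-- The derivations for the relator 5. -/
def cR5 : List (List (ℕ × ℕ × ℕ)) :=
  [[(0, 7, 0)], [], [], [], [], [(0, 4, 0)], [], [], [], [], [], [], [(2, 9, 2), (1, 8, 0)],
  [(0, 6, 0)], [], [(2, 8, 1), (1, 1, 0), (0, 6, 2)], [(2, 8, 0), (3, 9, 0), (3, 5, 0), (2, 9,
  2), (1, 8, 0), (0, 9, 0)], [(1, 9, 2), (0, 8, 0)], [], [], [(0, 9, 0)], [], [], [], [], [(0,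
  2, 0)], [], [(0, 0, 0)], [(0, 7, 1)], [], [(0, 8, 1)], [], [(1, 6, 0), (0, 1, 0)], [], [(1,
  6, 0), (0, 1, 0)], [], [], [(1, 9, 1), (0, 7, 2), (0, 0, 0)], [], [(0, 7, 2), (0, 0, 0)],
  [(1, 9, 2), (0, 8, 0)], [], [], [(2, 9, 2), (1, 8, 0), (0, 9, 0)], [], [(1, 6, 2), (0, 8,
  2)], [], [], [], [], [(1, 6, 0), (0, 1, 0)], [], [], [], [(1, 8, 0), (0, 9, 0)], [], [], [(0,
  8, 0)], [], [], [(0, 9, 1)], [(0, 9, 2)], [], [], [], [(0, 8, 0)], [(0, 8, 0)], [], [], [],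
  [], [], [], [(1, 8, 0), (0, 9, 0)], [], [], [], [(0, 0, 0)], [], [], [(0, 8, 0)], [], [(0, 6,
  0)], [(0, 9, 1)], [], [(0, 7, 1)], [(0, 7, 2), (0, 0, 0)], [], [], [], [], [], [], [], [],
  [], [], [], [], [(1, 8, 1), (1, 6, 0), (0, 1, 0)], [], [(0, 3, 0)], [], [], [], [(0, 1, 0)],
  [], [(0, 4, 0), (1, 8, 0), (1, 9, 2), (0, 8, 0)], [(0, 8, 0)], [], [], [], [], [], [], [],
  [], [], [(1, 5, 0), (0, 9, 2)], [], [], [], [(0, 7, 1)], [], [], [], [], [], [(0, 9, 2)], [],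
  [(0, 9, 0)], [], [], [], [], [], [(0, 6, 0)], [], [], [], [], [(1, 7, 2), (1, 0, 0), (0, 7,
  1)], [], [], [], [(1, 9, 2), (0, 8, 0)], [], [], [], []]

/-- The derivations for the relator 6. -/
def cR6 : List (List (ℕ × ℕ × ℕ)) :=
  [[(4, 1, 0), (3, 6, 2), (2, 1, 0), (1, 6, 2), (0, 8, 0)], [(0, 1, 0)], [], [(2, 8, 1), (0, 9,
  2)], [(3, 1, 0), (2, 6, 2), (1, 8, 0), (1, 6, 0), (0, 1, 0)], [(2, 1, 0), (0, 8, 0), (0, 9,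
  2)], [], [(0, 8, 0)], [(1, 8, 0), (0, 9, 0), (1, 1, 0), (0, 6, 2)], [], [(0, 1, 0)], [], [(0,
  9, 2)], [(0, 8, 0)], [(1, 6, 0), (0, 1, 0)], [], [(0, 4, 0)], [(0, 8, 0), (2, 9, 1), (2, 8,
  1), (0, 9, 2)], [(0, 9, 2)], [], [(1, 8, 0)], [], [(0, 1, 0)], [], [(0, 1, 0)], [(2, 1, 0),
  (0, 3, 0)], [], [(0, 1, 0)], [(0, 1, 0)], [(0, 9, 1), (0, 8, 1)], [(0, 1, 0), (0, 1, 0)], [],
  [], [], [(0, 3, 0), (1, 1, 0), (0, 6, 2)], [], [(0, 8, 1), (0, 6, 0), (0, 1, 0)], [(0, 1,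
  0)], [(0, 1, 0)], [], [(0, 8, 2), (0, 4, 0), (1, 8, 0), (1, 9, 2), (0, 8, 0)], [], [], [(3,
  8, 0), (4, 9, 0), (2, 9, 0), (0, 5, 0)], [], [(2, 8, 1), (1, 1, 0), (0, 6, 2)], [(1, 1, 0),
  (0, 6, 2)], [(0, 8, 1), (1, 8, 0), (0, 9, 0)], [(0, 7, 2)], [], [(0, 1, 0)], [], [], [], [(0,
  1, 0)], [(0, 8, 1)], [(3, 6, 0), (3, 1, 0), (1, 1, 0), (0, 6, 2)], [(0, 8, 0)], [(0, 1, 0)],
  [], [], [(0, 8, 1), (1, 8, 0), (0, 9, 0)], [(1, 8, 0)], [], [(0, 8, 2)], [(0, 8, 0), (0, 8,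
  2)], [(2, 8, 1), (0, 9, 2)], [(1, 9, 2)], [(0, 6, 0), (0, 1, 0)], [(1, 1, 0), (0, 6, 2)], [],
  [(0, 3, 0)], [(1, 6, 0), (0, 1, 0)], [(1, 4, 0), (0, 8, 1), (1, 8, 0), (0, 9, 0)], [], [(0,
  8, 1), (0, 9, 0)], [], [(0, 1, 0)], [(0, 7, 2)], [(0, 8, 0)], [(0, 8, 0)], [], [(0, 8, 1)],
  [(1, 1, 0), (0, 6, 2)], [(0, 1, 0)], [], [], [(4, 1, 0), (4, 6, 1), (2, 1, 0), (1, 6, 2)],
  [], [(0, 8, 1)], [], [], [(0, 3, 0)], [(0, 8, 1)], [], [(0, 4, 0)], [], [], [], [], [], [(0,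
  1, 0)], [(1, 1, 0), (0, 6, 2)], [(1, 6, 0), (0, 1, 0)], [(0, 8, 1)], [(1, 6, 0), (0, 1, 0)],
  [], [(1, 9, 1), (1, 8, 1), (0, 9, 1), (0, 8, 1)], [(2, 9, 2), (1, 8, 0), (0, 9, 0)], [(1, 6,
  0), (2, 6, 0), (1, 1, 0)], [], [], [], [], [(0, 8, 1)], [(0, 8, 0)], [], [(1, 4, 0), (0, 8,
  1)], [(1, 1, 0), (0, 6, 2)], [], [(1, 6, 0), (0, 1, 0)], [], [(0, 8, 2)], [(2, 6, 0), (2, 1,
  0), (1, 6, 2), (0, 8, 0)], [(0, 8, 1), (0, 8, 1)], [(1, 1, 0), (0, 6, 2)], [], [], [(0, 8,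
  1), (0, 6, 0), (0, 1, 0)], [(0, 6, 0), (1, 6, 0), (0, 1, 0)], [(1, 9, 1), (0, 8, 2)], [(0, 8,
  2)], [(1, 6, 0), (0, 1, 0)], [(1, 6, 0), (0, 1, 0)], [(0, 8, 1)], [(2, 8, 1), (1, 1, 0), (0,
  6, 2)], [(0, 6, 0), (0, 1, 0)], [(0, 8, 1), (0, 6, 0), (1, 6, 0), (0, 1, 0)], [(0, 6, 0), (1,
  6, 0), (0, 1, 0)], [], [(0, 8, 1)], [(1, 6, 0), (2, 8, 1), (1, 1, 0), (0, 6, 2)], [(0, 8,
  1)], [], [], [(2, 8, 1), (1, 1, 0), (0, 6, 2)], [(0, 8, 1), (0, 6, 0), (0, 1, 0)], [(1, 6,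
  0), (0, 1, 0)], [], []]

/-- The derivations for the relator 7. -/
def cR7 : List (List (ℕ × ℕ × ℕ)) :=
  [[(4, 1, 0), (4, 1, 0), (3, 6, 2), (2, 1, 0), (1, 6, 2), (0, 8, 0)], [(0, 1, 0), (0, 1, 0),
  (0, 1, 0)], [(2, 8, 0), (2, 8, 0)], [(0, 6, 0), (0, 1, 0)], [(6, 6, 0), (5, 1, 0), (3, 1, 0),
  (2, 6, 2), (1, 8, 0), (1, 6, 0), (0, 1, 0)], [(2, 1, 0)], [], [(0, 8, 0), (0, 1, 0), (0, 1,
  0)], [(1, 8, 0), (0, 9, 0), (2, 8, 1), (0, 9, 2)], [], [(0, 1, 0), (0, 1, 0), (0, 1, 0)], [],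
  [(2, 8, 1), (0, 9, 2), (1, 8, 0), (0, 9, 0)], [(0, 1, 0), (0, 1, 0), (0, 1, 0)], [(0, 1, 0)],
  [(0, 1, 0)], [(0, 4, 0), (0, 4, 0)], [(0, 8, 0), (3, 8, 0), (2, 9, 0), (2, 8, 1), (0, 9, 2)],
  [(0, 6, 0), (0, 1, 0)], [], [(1, 8, 0), (1, 8, 0)], [], [(2, 8, 0), (0, 1, 0), (0, 1, 0)],
  [], [(0, 6, 0), (0, 1, 0)], [(18, 1, 0), (14, 1, 0), (12, 3, 0), (10, 1, 0), (6, 1, 0), (2,
  1, 0), (0, 3, 0)], [], [(0, 1, 0)], [(4, 8, 0), (0, 1, 0), (0, 1, 0)], [(2, 8, 0), (0, 9, 1),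
  (0, 8, 1)], [(0, 1, 0), (0, 1, 0), (0, 1, 0)], [], [], [(0, 1, 0)], [(0, 3, 0), (0, 3, 0),
  (0, 3, 0)], [(0, 8, 1), (0, 9, 1), (0, 8, 1)], [(0, 1, 0)], [(1, 8, 0), (0, 1, 0), (0, 1,
  0)], [(1, 6, 0), (0, 1, 0), (3, 1, 0), (2, 6, 2), (1, 8, 0), (1, 6, 0), (0, 1, 0)], [], [(16,
  8, 2), (14, 4, 0), (12, 8, 2), (10, 4, 0), (8, 8, 2), (4, 8, 2), (2, 4, 0), (0, 8, 2)], [(0,
  8, 1), (0, 9, 1), (0, 8, 1)], [], [(3, 8, 0), (2, 9, 0), (0, 8, 1), (1, 8, 0), (0, 9, 0)],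
  [(1, 1, 0)], [(1, 1, 0), (0, 6, 2)], [], [(0, 8, 1), (2, 8, 0), (1, 9, 0), (0, 9, 0)], [(2,
  1, 0)], [(1, 1, 0)], [], [(2, 8, 0), (0, 9, 1), (0, 8, 1)], [], [], [(0, 1, 0), (0, 6, 0),
  (0, 1, 0), (2, 1, 0), (1, 6, 2), (0, 8, 0)], [], [(6, 1, 0), (4, 1, 0), (3, 6, 2), (2, 8, 0),
  (1, 1, 0), (0, 6, 2)], [(2, 8, 1), (0, 9, 2), (1, 8, 0), (0, 9, 0)], [(0, 1, 0), (0, 1, 0),
  (0, 1, 0)], [], [(5, 8, 2), (2, 4, 0), (3, 8, 0), (0, 8, 2)], [(0, 8, 0), (0, 8, 0)], [(1, 8,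
  0), (1, 4, 0), (2, 8, 0), (0, 8, 1)], [(1, 8, 0), (1, 4, 0), (2, 8, 0), (0, 8, 1)], [(0, 8,
  1), (0, 8, 1)], [(0, 8, 0), (0, 8, 0), (2, 4, 0), (0, 8, 2)], [(0, 9, 2)], [(2, 1, 0)], [(0,
  6, 0), (0, 1, 0), (4, 1, 0), (3, 6, 2), (2, 1, 0), (1, 6, 2), (0, 8, 0)], [(1, 1, 0), (0, 6,
  2)], [], [(1, 6, 0), (0, 1, 0)], [(6, 3, 0), (1, 6, 0), (0, 1, 0), (2, 8, 0), (1, 1, 0), (0,
  6, 2)], [(1, 4, 0), (0, 8, 1), (1, 8, 0), (4, 8, 1), (4, 9, 0), (2, 5, 0), (0, 9, 0)], [(7,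
  1, 0), (0, 6, 0), (0, 1, 0), (2, 1, 0), (1, 6, 2), (0, 8, 0)], [(0, 8, 1), (1, 8, 0), (4, 8,
  0), (3, 9, 0), (0, 9, 0)], [], [(0, 1, 0)], [(2, 1, 0)], [(0, 8, 0), (0, 8, 0)], [(1, 9, 2)],
  [(1, 1, 0), (0, 6, 2)], [(1, 6, 0), (0, 1, 0)], [(1, 1, 0)], [(2, 8, 0), (0, 1, 0), (0, 1,
  0)], [(2, 6, 0), (1, 1, 0), (4, 1, 0), (3, 6, 2), (2, 8, 0), (1, 1, 0), (0, 6, 2)], [(0, 3,
  0), (0, 8, 1), (1, 6, 0), (0, 1, 0), (1, 1, 0), (0, 6, 2)], [(4, 3, 0), (3, 8, 0), (4, 1, 0),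
  (4, 6, 1), (2, 1, 0), (1, 6, 2)], [(6, 1, 0), (5, 6, 2), (4, 1, 0), (3, 6, 2), (2, 8, 0), (1,
  1, 0), (0, 6, 2)], [(9, 3, 0), (0, 8, 1), (1, 6, 0), (0, 1, 0), (1, 1, 0), (0, 6, 2)], [],
  [], [(0, 3, 0), (0, 8, 1), (1, 6, 0), (0, 1, 0), (1, 1, 0), (0, 6, 2)], [(1, 1, 0), (4, 1,
  0), (3, 6, 2), (2, 8, 0), (1, 1, 0), (0, 6, 2)], [(1, 1, 0), (0, 6, 2)], [(0, 9, 1), (0, 8,
  1), (0, 9, 1), (2, 8, 1), (1, 9, 1), (0, 8, 2)], [(2, 1, 0)], [], [(3, 8, 0), (2, 9, 0), (0,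
  8, 1), (1, 8, 0), (0, 9, 0)], [(1, 6, 0), (0, 1, 0)], [], [], [(1, 1, 0), (0, 6, 2)], [(1, 6,
  0), (0, 1, 0)], [(1, 1, 0), (0, 6, 2)], [(0, 1, 0)], [], [(1, 9, 2)], [(0, 9, 0)], [(1, 9,
  0)], [], [(1, 1, 0), (0, 6, 2)], [], [], [], [(4, 8, 0), (0, 8, 0), (0, 9, 2)], [], [(4, 8,
  2), (1, 4, 0), (2, 8, 0), (0, 8, 1)], [(1, 1, 0), (0, 6, 2)], [(4, 8, 1), (0, 6, 0), (1, 6,
  0), (0, 1, 0)], [(1, 6, 0), (0, 1, 0), (0, 8, 1), (0, 6, 0), (1, 6, 0), (0, 1, 0), (0, 8, 1),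
  (0, 6, 0), (0, 1, 0)], [(0, 8, 1), (0, 6, 0), (1, 6, 0), (0, 1, 0)], [(0, 8, 1), (0, 6, 0),
  (1, 6, 0), (0, 1, 0)], [(2, 6, 0), (2, 1, 0), (1, 6, 2), (0, 8, 0)], [(0, 8, 1), (0, 6, 0),
  (1, 6, 0), (0, 1, 0)], [(1, 1, 0), (1, 6, 0), (2, 8, 1), (2, 6, 0), (1, 1, 0), (1, 6, 0), (2,
  8, 1), (1, 1, 0), (0, 6, 2)], [(2, 6, 0), (2, 1, 0), (1, 6, 2), (0, 8, 0)], [(0, 8, 1), (0,
  6, 0), (1, 6, 0), (0, 1, 0)], [(3, 1, 0), (0, 8, 1), (0, 6, 0), (1, 6, 0), (0, 1, 0), (0, 8,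
  1), (0, 6, 0), (1, 6, 0), (0, 1, 0)], [(4, 8, 1), (0, 6, 0), (1, 6, 0), (0, 1, 0)], [(0, 8,
  1)], [(0, 8, 2)], [(0, 6, 0), (0, 1, 0), (0, 8, 1), (0, 6, 0), (0, 1, 0)], [(3, 8, 1), (1, 6,
  0), (0, 1, 0)], [(0, 8, 1), (1, 6, 0), (0, 1, 0)], [(2, 6, 0), (1, 1, 0), (2, 8, 1), (1, 1,
  0), (0, 6, 2)], [(0, 6, 0), (0, 1, 0), (0, 8, 1), (0, 6, 0), (0, 1, 0)], [(0, 8, 1), (0, 6,
  0), (0, 1, 0), (0, 6, 0), (0, 1, 0)], [(4, 8, 1), (0, 6, 0), (1, 6, 0), (0, 1, 0)], [(0, 8,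
  0)], [(0, 8, 1)], [(6, 1, 0), (1, 6, 0), (2, 8, 1), (2, 6, 0), (1, 1, 0), (1, 6, 0), (2, 8,
  1), (1, 1, 0), (0, 6, 2)], [(0, 8, 1), (1, 6, 0), (0, 1, 0)], [(1, 8, 1), (1, 1, 0), (0, 6,
  2)], [(2, 6, 0), (2, 1, 0), (1, 6, 2), (0, 8, 0)], [(2, 8, 1), (2, 6, 0), (1, 1, 0), (1, 1,
  0), (0, 6, 2)], [(8, 1, 0), (0, 8, 1), (0, 6, 0), (1, 6, 0), (0, 1, 0), (0, 8, 1), (0, 6, 0),
  (1, 6, 0), (0, 1, 0)], [(0, 8, 1), (1, 6, 0), (0, 1, 0)], [(0, 8, 0)], []]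

/-- The generators of the kernel. -/
def cT : List (List ℕ) :=
  [[7, 2, 0, 0], [3, 0, 3, 0, 3, 0], [3, 5, 7, 3, 3, 0], [4, 3, 4, 7, 2, 1], [1, 3, 0, 3, 0, 3,
  0, 0], [2, 5, 1, 1, 1, 3, 0, 0], [3, 4, 7, 5, 5, 2, 2, 0], [4, 4, 3, 4, 7, 5, 5, 0], [3, 3,
  3, 4, 4, 3, 1, 1], [7, 3, 3, 4, 7, 2, 2, 1], [3, 4, 7, 7, 5, 5, 0, 2], [0, 0, 0, 0, 0, 0, 0,
  0, 0, 0], [2, 2, 2, 2, 2, 2, 2, 2, 2, 2], [2, 2, 1, 7, 4, 2, 5, 5, 2, 2]]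

/-- The derivations for the labels of the generators of the kernel. -/
def cTC : List (List (ℕ × ℕ × ℕ)) :=
  [[], [(0, 7, 0)], [], [(0, 9, 0)], [], [], [], [(0, 8, 2)], [], [], [], [], [(1, 9, 1), (0,
  7, 2), (1, 7, 2), (0, 0, 0)], []]

/-- The representatives. -/
def cr : List (List ℕ) :=
  [[4, 2], [1, 2, 5], [4, 4], [4], [4, 2, 2], [1, 4], [1, 3, 6], [2, 5], [1, 4, 2], [0, 7, 7],
  [0, 0, 2], [3, 1, 1], [1, 1, 4], [1, 2], [1, 6, 4], [0, 0, 7], [0, 4, 4], [4, 4, 3], [1, 6,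
  5], [4, 4, 4], [0, 4], [4, 3], [], [3, 5, 2], [0, 3, 1], [0, 6, 6], [1, 3, 3, 0], [4, 3, 0],
  [0, 3, 6], [1, 4, 2, 2], [3, 4], [1], [2, 4], [1, 6], [3, 5, 6], [1, 3], [0, 0, 5], [6], [2],
  [0, 3, 3], [0, 0, 0], [2, 2], [1, 2, 4, 4], [6, 5, 2], [5, 7], [0, 7], [3, 5], [0, 0], [3,
  0], [3, 1], [1, 2, 4], [0, 4, 3], [0, 3, 3, 7], [5, 5], [3, 4, 6], [1, 1], [1, 2, 2], [1, 3,
  1], [0, 5], [2, 1], [0, 0, 3, 6], [3, 7, 5], [2, 2, 5], [1, 3, 7], [6, 5], [0, 4, 4, 6], [1,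
  3, 4], [0, 3, 5], [0, 6], [1, 7, 7], [0, 5, 5], [3, 0, 0, 3], [1, 3, 0], [0, 0, 4], [0], [4,
  3, 1], [3, 6, 4], [3], [5], [7], [0, 0, 0, 2], [1, 3, 3], [5, 5, 5], [0, 3], [3, 3, 5], [3,
  3], [0, 0, 3, 3], [1, 1, 5], [0, 3, 7], [0, 6, 6, 6], [2, 1, 1], [1, 5, 6], [5, 5, 2], [1, 6,
  6], [4, 3, 1, 1], [3, 1, 4], [0, 3, 0], [1, 5], [1, 7], [1, 1, 2], [2, 4, 3], [1, 5, 7], [0,
  4, 3, 3], [1, 5, 2], [3, 7], [3, 6], [5, 6], [0, 0, 0, 4], [0, 0, 0, 6], [1, 1, 7], [5, 2,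
  0], [1, 1, 1], [3, 0, 5], [3, 0, 0], [0, 0, 3], [0, 0, 6], [5, 2], [0, 4, 3, 1], [1, 5, 5],
  [1, 5, 2, 6], [5, 2, 6, 5], [1, 1, 1, 3], [1, 1, 1, 1, 7], [1, 7, 7, 5], [2, 2, 5, 2], [1, 1,
  1, 1], [1, 3, 3, 7], [1, 1, 5, 2], [1, 3, 0, 0], [1, 3, 0, 4], [1, 3, 4, 3], [1, 3, 4, 4],
  [1, 1, 2, 2], [1, 1, 2, 1], [5, 2, 0, 6], [1, 3, 3, 3], [1, 5, 2, 0], [1, 5, 2, 2], [5, 2, 0,
  0], [1, 1, 2, 7], [1, 5, 5, 5], [1, 1, 5, 6], [2, 1, 1, 2], [1, 1, 1, 5], [1, 1, 5, 5], [1,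
  1, 2, 4], [2, 4, 3, 3], [1, 5, 5, 3], [1, 1, 1, 7], [5, 2, 6]]

/-- The auxiliary elements. -/
def cA : List (List ℕ) :=
  [[3, 0, 5, 7, 7, 2], [3, 0, 7, 0, 2, 2], [5, 2, 0, 5, 2, 4, 6, 4], [0, 2, 2, 6, 4, 1, 1, 2],
  [4, 6, 4, 3, 1, 3, 5, 2], [5, 2, 1, 2, 1, 2, 4, 1], [2, 4, 3, 6, 4, 1, 3, 4], [4, 2, 2, 1, 6,
  4, 4, 4], [4, 4, 2, 2, 7, 5, 0, 2], [3, 5, 5, 5, 1, 2, 2, 2], [0, 3, 1, 4, 4, 6, 2, 1], [4,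
  3, 4, 2, 1, 1, 1, 3], [2, 2, 1, 6, 1, 3, 3, 3], [2, 1, 2, 6, 1, 3, 4, 3], [3, 0, 0, 4, 4, 7,
  7, 3], [3, 5, 2, 0, 7, 5, 2, 5], [3, 3, 4, 3, 4, 3, 4, 2], [3, 5, 5, 6, 2, 2, 2, 2], [4, 2,
  2, 4, 7, 7, 4, 4], [3, 4, 4, 3, 7, 4, 0, 3], [7, 4, 3, 1, 6, 3, 5, 6], [3, 3, 1, 5, 5, 6, 5,
  2], [5, 5, 6, 3, 3, 5, 1, 2], [0, 2, 6, 4, 2, 4, 7, 2], [3, 4, 3, 0, 7, 2, 5, 3], [1, 2, 1,
  4, 7, 2, 5, 0], [3, 6, 5, 5, 3, 3, 5, 5], [4, 7, 7, 4, 7, 2, 1, 1], [3, 3, 6, 4, 4, 7, 7, 3],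
  [4, 4, 4, 4, 4, 4, 4, 4, 4, 4], [6, 6, 6, 6, 6, 6, 6, 6, 6, 6], [4, 3, 7, 4, 7, 4, 7, 4, 2,
  5], [4, 6, 5, 2, 2, 2, 2, 5, 6, 5], [4, 1, 7, 4, 3, 0, 3, 4, 2, 5]]

/-- The auxiliary elements, part 0. -/
def cAC0 : List (List ℕ × List (ℕ × ℕ × ℕ)) :=
  [([4, 0], [(3, 6, 1), (4, 8, 1), (5, 8, 1), (6, 0, 3), (7, 0, 3), (5, 10, 0), (6, 10, 0), (7,
  9, 3)]), ([2, 0], [(5, 0, 3), (8, 0, 3), (7, 0, 3), (4, 10, 0), (5, 9, 3), (6, 10, 0), (7, 9,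
  3)]), ([4, 4], [(8, 12, 1), (0, 15, 0), (21, 7, 0), (22, 0, 5), (20, 3, 0), (17, 9, 0), (18,
  1, 0), (21, 7, 0), (16, 11, 0), (20, 3, 0), (16, 8, 0), (17, 10, 0), (18, 10, 0), (18, 2, 5),
  (17, 2, 5), (15, 6, 0), (17, 4, 5), (20, 4, 5), (14, 8, 0), (15, 11, 3), (14, 0, 5), (17, 6,
  3), (18, 6, 3), (19, 9, 0), (20, 0, 5), (13, 0, 5), (9, 9, 0), (10, 7, 0), (12, 2, 5), (15,
  2, 5), (16, 11, 0), (11, 2, 5), (8, 11, 0), (5, 9, 0), (6, 7, 0), (7, 9, 0), (8, 7, 0), (9,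
  0, 5), (12, 7, 0), (13, 9, 0), (4, 11, 0), (5, 3, 0), (8, 11, 0), (9, 3, 0), (3, 5, 0), (5,
  5, 0), (3, 10, 0), (9, 3, 0), (12, 11, 0), (7, 7, 3), (3, 3, 0), (4, 11, 0)]), ([2, 5], [(2,
  0, 3), (5, 0, 3), (6, 9, 2), (7, 7, 2), (4, 0, 3), (7, 9, 2), (8, 7, 2)]), ([34, 34], [(4,
  12, 0), (8, 4, 3), (11, 4, 3), (12, 6, 2), (13, 6, 2), (11, 8, 2), (12, 8, 2), (12, 1, 2),
  (15, 1, 2), (11, 1, 2), (14, 6, 1), (15, 8, 1), (16, 1, 2), (19, 1, 2), (7, 10, 1), (8, 2,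
  3), (11, 2, 3), (6, 8, 1), (7, 6, 1), (8, 0, 3), (11, 0, 3), (12, 7, 2), (13, 3, 2), (12, 10,
  1), (10, 7, 2), (11, 8, 1), (9, 7, 2), (10, 8, 1), (8, 2, 5), (9, 11, 0), (5, 11, 0), (4, 5,
  2)]), ([33, 37], [(5, 13, 7), (0, 12, 3), (0, 12, 1), (0, 12, 0), (0, 15, 0), (17, 8, 3),
  (18, 6, 3), (19, 0, 5), (16, 10, 3), (17, 2, 5), (15, 4, 5), (13, 6, 3), (14, 9, 0), (15, 0,
  5), (18, 7, 0), (12, 2, 5), (13, 11, 0), (9, 9, 0), (10, 0, 5), (13, 7, 0), (14, 9, 0), (8,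
  11, 0), (5, 9, 0), (6, 7, 0), (7, 9, 0), (10, 10, 0), (10, 10, 3), (11, 2, 5), (9, 4, 5), (7,
  10, 0), (7, 2, 5), (8, 11, 0), (4, 11, 0), (7, 7, 3), (8, 7, 3), (9, 4, 5), (12, 4, 5), (6,
  9, 3), (7, 9, 3), (5, 7, 3), (6, 7, 3), (3, 5, 0), (4, 7, 3), (5, 7, 3), (9, 0, 3), (12, 0,
  3), (11, 0, 3), (14, 0, 3), (13, 0, 3), (14, 0, 3), (15, 6, 1), (16, 8, 1), (17, 8, 1), (15,
  5, 0), (18, 5, 0), (6, 11, 3), (7, 9, 3), (8, 10, 0), (9, 9, 3), (10, 10, 0), (11, 9, 3),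
  (12, 10, 0), (13, 10, 0), (11, 1, 2), (14, 1, 2), (15, 6, 1), (16, 1, 2), (9, 1, 2), (12, 1,
  2), (7, 1, 2), (6, 1, 2), (8, 3, 2), (10, 7, 1), (10, 0, 5), (11, 7, 0), (12, 0, 5), (7, 7,
  0), (6, 3, 2), (5, 7, 0), (4, 3, 2)])]

/-- The auxiliary elements, part 1. -/
def cAC1 : List (List ℕ × List (ℕ × ℕ × ℕ)) :=
  [([32, 0], [(4, 13, 6), (0, 13, 7), (0, 14, 0), (18, 0, 3), (21, 7, 2), (22, 9, 2), (15, 2,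
  3), (18, 11, 2), (12, 4, 3), (15, 6, 2), (9, 8, 2), (10, 10, 2), (17, 0, 3), (20, 7, 2), (21,
  9, 2), (14, 2, 3), (17, 11, 2), (11, 4, 3), (14, 6, 2), (19, 2, 3), (22, 11, 2), (16, 4, 3),
  (19, 6, 2), (13, 8, 2), (14, 10, 2), (19, 4, 3), (16, 8, 2), (17, 10, 2), (17, 2, 3), (20,
  10, 1), (15, 6, 2), (16, 2, 3), (15, 6, 1), (16, 0, 3), (19, 7, 2), (14, 3, 2), (12, 6, 2),
  (15, 0, 3), (18, 7, 2), (17, 2, 3), (16, 6, 1), (17, 0, 3), (20, 8, 1), (21, 8, 1), (19, 10,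
  1), (20, 10, 1), (18, 8, 1), (19, 8, 1), (20, 7, 2), (12, 1, 2), (15, 7, 2), (16, 1, 2), (19,
  6, 1), (20, 1, 2), (23, 8, 1), (24, 8, 1), (25, 7, 2), (10, 10, 1), (9, 8, 1), (10, 2, 3),
  (8, 5, 2), (5, 8, 2), (6, 10, 2), (5, 0, 3), (8, 6, 1), (9, 9, 2), (10, 0, 3), (13, 7, 2),
  (3, 2, 3), (7, 3, 2), (10, 11, 2), (5, 6, 2), (12, 3, 2), (9, 7, 2), (6, 2, 5), (9, 10, 3),
  (10, 2, 5), (8, 4, 5), (12, 5, 0), (15, 5, 0), (10, 11, 3), (10, 3, 2), (11, 3, 2), (12, 10,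
  1), (7, 11, 2), (7, 11, 1), (5, 7, 2), (6, 1, 2), (9, 6, 1), (10, 1, 2), (13, 7, 2), (4, 2,
  3), (2, 6, 1), (3, 6, 1), (4, 0, 3), (7, 7, 2), (8, 3, 2), (5, 7, 2), (4, 2, 5)]), ([37, 40],
  [(12, 12, 3), (21, 12, 2), (0, 15, 0), (25, 8, 3), (26, 6, 3), (27, 6, 3), (28, 0, 5), (21,
  6, 3), (22, 0, 5), (25, 0, 5), (26, 8, 3), (27, 6, 3), (28, 6, 3), (29, 0, 5), (20, 2, 5),
  (17, 9, 0), (18, 0, 5), (21, 7, 0), (16, 11, 0), (13, 9, 0), (14, 7, 0), (15, 9, 0), (9, 9,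
  0), (10, 7, 0), (11, 1, 0), (14, 9, 0), (15, 7, 0), (16, 9, 0), (17, 1, 0), (20, 7, 0), (8,
  11, 0), (9, 3, 0), (7, 5, 0), (11, 11, 0), (12, 3, 0), (15, 11, 0), (9, 6, 0), (10, 5, 0),
  (7, 10, 0), (8, 8, 0), (17, 10, 3), (18, 2, 5), (21, 2, 5), (16, 4, 5), (13, 8, 0), (14, 10,
  0), (14, 2, 5), (17, 11, 0), (12, 6, 0), (12, 0, 5), (13, 7, 0), (14, 9, 0), (15, 0, 5), (18,
  7, 0), (8, 7, 0), (9, 9, 0), (10, 3, 0), (13, 11, 0), (8, 5, 0), (5, 7, 0), (6, 1, 0), (9, 8,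
  3), (10, 7, 0), (11, 9, 0), (12, 1, 0), (15, 7, 0), (16, 9, 0), (4, 3, 0), (6, 10, 3), (7, 3,
  0), (10, 11, 0), (4, 6, 0), (5, 4, 5), (2, 10, 0), (3, 8, 0), (16, 3, 0), (19, 11, 0), (18,
  4, 5), (17, 10, 3), (18, 2, 5), (21, 11, 0), (15, 2, 5), (14, 10, 3), (15, 2, 5), (13, 4, 5),
  (10, 11, 0), (9, 9, 0), (10, 7, 0), (11, 7, 0), (12, 9, 0), (3, 6, 3), (4, 9, 0), (5, 1, 0),
  (8, 7, 0), (9, 9, 0), (10, 9, 0), (11, 7, 0), (12, 7, 0), (13, 9, 0), (2, 2, 5), (5, 11, 0),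
  (12, 5, 0), (11, 4, 5), (8, 5, 0), (5, 8, 0), (6, 10, 0), (3, 3, 2)]), ([6, 36], [(1, 13, 3),
  (13, 13, 0), (22, 13, 1), (0, 14, 0), (22, 5, 2), (21, 5, 2), (19, 3, 2), (22, 11, 2), (16,
  4, 3), (19, 6, 2), (13, 8, 2), (14, 10, 2), (17, 1, 2), (20, 7, 2), (21, 9, 2), (14, 2, 3),
  (17, 11, 2), (12, 6, 2), (12, 0, 3), (13, 7, 2), (14, 9, 2), (11, 0, 3), (14, 7, 2), (15, 9,
  2), (16, 0, 3), (19, 7, 2), (20, 9, 2), (13, 2, 3), (16, 11, 2), (20, 10, 2), (21, 7, 3),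
  (21, 0, 3), (19, 6, 2), (16, 8, 2), (17, 10, 2), (18, 8, 2), (18, 8, 1), (19, 6, 1), (20, 6,
  1), (21, 8, 1), (22, 6, 1), (23, 1, 2), (26, 6, 1), (27, 8, 1), (28, 8, 1), (29, 6, 1), (30,
  1, 2), (17, 10, 1), (18, 3, 2), (21, 3, 2), (22, 10, 1), (23, 3, 2), (15, 6, 2), (16, 5, 2),
  (21, 5, 2), (18, 11, 1), (19, 11, 1), (15, 8, 1), (16, 6, 1), (17, 1, 2), (20, 1, 2), (21, 6,
  1), (22, 9, 2), (23, 1, 2), (26, 7, 2), (14, 10, 1), (15, 3, 2), (12, 6, 1), (13, 8, 1), (14,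
  6, 1), (15, 1, 2), (18, 7, 2), (10, 1, 2), (13, 6, 1), (14, 8, 1), (15, 6, 1), (16, 1, 2),
  (7, 2, 3), (10, 11, 2), (4, 4, 3), (7, 6, 2), (7, 0, 3), (10, 7, 2), (11, 9, 2), (3, 10, 1),
  (4, 2, 3), (7, 11, 2), (12, 3, 2), (15, 10, 1), (16, 3, 2), (10, 4, 3), (7, 8, 2), (8, 10,
  2), (8, 2, 3), (11, 11, 2), (6, 6, 2), (10, 5, 2), (7, 11, 2), (6, 9, 2), (7, 7, 2), (2, 8,
  1), (3, 6, 1), (4, 0, 3), (7, 9, 2), (8, 7, 2), (9, 0, 3), (12, 0, 3), (13, 7, 2), (6, 11,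
  2), (7, 2, 3), (14, 3, 2), (13, 11, 2), (11, 7, 2), (12, 9, 2), (15, 3, 2), (14, 10, 1), (15,
  10, 1), (16, 3, 2), (13, 5, 2), (12, 5, 2), (9, 6, 2), (9, 9, 2), (10, 1, 2), (13, 7, 2), (8,
  11, 2), (5, 9, 2), (6, 6, 1), (7, 9, 2), (4, 10, 3), (5, 3, 0), (8, 10, 3), (3, 4, 5), (5, 4,
  5), (3, 10, 0)]), ([28, 17], [(7, 12, 2), (0, 12, 2), (20, 12, 1), (0, 15, 0), (21, 6, 3),
  (22, 8, 3), (23, 8, 3), (24, 6, 3), (25, 0, 5), (20, 2, 5), (21, 10, 3), (22, 10, 3), (23, 2,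
  5), (20, 4, 5), (23, 4, 5), (18, 11, 3), (17, 0, 5), (18, 6, 3), (19, 6, 3), (20, 9, 0), (21,
  0, 5), (24, 7, 0), (13, 9, 0), (14, 7, 0), (15, 2, 5), (16, 2, 5), (17, 11, 0), (12, 11, 0),
  (9, 9, 0), (10, 7, 0), (11, 9, 0), (12, 0, 5), (15, 7, 0), (16, 9, 0), (8, 11, 0), (9, 3, 0),
  (12, 11, 0), (7, 5, 0), (5, 7, 0), (6, 9, 0), (7, 1, 0), (10, 7, 0), (11, 9, 0), (4, 3, 0),
  (5, 11, 0), (6, 1, 0), (9, 7, 0), (10, 9, 0), (11, 1, 0), (14, 7, 0), (15, 9, 0), (16, 1, 0),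
  (19, 7, 0), (20, 1, 0), (3, 3, 0), (6, 11, 0), (8, 3, 0), (11, 11, 0), (5, 5, 0), (8, 6, 0),
  (13, 3, 0), (16, 11, 0), (10, 5, 0), (13, 6, 0), (7, 8, 0), (8, 10, 0), (16, 3, 0), (13, 5,
  0), (16, 6, 0), (10, 8, 0), (11, 10, 0), (21, 6, 0), (20, 6, 0), (19, 6, 0), (19, 8, 3), (20,
  8, 3), (21, 6, 3), (22, 8, 3), (23, 8, 3), (24, 6, 3), (25, 0, 5), (28, 6, 3), (29, 8, 3),
  (30, 8, 3), (31, 6, 3), (32, 0, 5), (18, 10, 3), (19, 10, 3), (20, 2, 5), (23, 10, 3), (24,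
  10, 3), (25, 2, 5), (16, 6, 0), (17, 4, 5), (20, 4, 5), (13, 8, 0), (14, 10, 0), (15, 8, 0),
  (20, 4, 5), (23, 4, 5), (18, 11, 3), (15, 6, 3), (16, 6, 3), (17, 0, 5), (20, 6, 3), (21, 6,
  3), (22, 9, 0), (23, 0, 5), (26, 7, 0), (14, 2, 5), (17, 2, 5), (12, 6, 0), (12, 0, 5), (11,
  0, 5), (12, 7, 0), (7, 1, 0), (10, 7, 0), (4, 10, 3), (5, 3, 0), (13, 2, 5), (12, 2, 5), (13,
  11, 0), (9, 3, 0), (7, 6, 0), (7, 1, 0), (8, 7, 0), (9, 7, 0), (10, 9, 0), (13, 2, 5), (12,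
  10, 3), (13, 10, 3), (14, 2, 5), (11, 4, 5), (10, 4, 5), (7, 11, 0), (5, 7, 1), (6, 5, 2),
  (4, 9, 1), (3, 7, 1), (2, 8, 0)]), ([44, 47], [(19, 12, 7), (8, 12, 2), (1, 12, 2), (0, 15,
  0), (20, 2, 5), (21, 10, 3), (22, 10, 3), (23, 2, 5), (20, 4, 5), (23, 4, 5), (18, 11, 3),
  (17, 0, 5), (18, 6, 3), (19, 6, 3), (20, 9, 0), (21, 0, 5), (24, 7, 0), (13, 9, 0), (14, 7,
  0), (15, 2, 5), (16, 2, 5), (17, 11, 0), (12, 11, 0), (9, 9, 0), (10, 7, 0), (11, 9, 0), (12,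
  0, 5), (15, 7, 0), (16, 9, 0), (8, 11, 0), (9, 3, 0), (12, 11, 0), (7, 5, 0), (5, 7, 0), (6,
  9, 0), (7, 1, 0), (10, 7, 0), (11, 9, 0), (4, 3, 0), (5, 11, 0), (13, 2, 5), (16, 10, 3),
  (11, 5, 0), (9, 10, 0), (9, 3, 0), (10, 11, 0), (11, 4, 5), (10, 6, 0), (9, 8, 0), (5, 8, 0),
  (6, 10, 0), (7, 10, 0), (8, 8, 0), (8, 6, 3), (9, 0, 5), (7, 2, 5), (6, 2, 5), (4, 6, 0), (4,
  0, 5), (5, 7, 0), (6, 7, 0), (8, 6, 1), (9, 6, 1), (10, 6, 1), (7, 3, 0), (8, 3, 0), (9, 3,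
  0), (8, 3, 0), (3, 1, 2), (6, 6, 1), (7, 1, 2), (10, 1, 2), (11, 7, 2), (12, 1, 2), (15, 6,
  1), (5, 3, 2), (10, 2, 3), (7, 7, 1), (8, 7, 1), (12, 11, 2), (11, 8, 3), (8, 0, 5), (11, 6,
  3), (12, 8, 3), (7, 0, 5), (4, 7, 0), (6, 2, 5), (9, 10, 3), (5, 2, 5), (4, 4, 5), (3, 4,
  5)]), ([6, 0], [(2, 13, 6), (20, 13, 5), (0, 14, 0), (19, 2, 3), (22, 11, 2), (23, 2, 3),
  (16, 4, 3), (19, 6, 2), (13, 8, 2), (14, 10, 2), (19, 4, 3), (16, 8, 2), (17, 10, 2), (20, 2,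
  3), (18, 4, 3), (16, 0, 3), (19, 8, 1), (20, 7, 2), (21, 9, 2), (22, 0, 3), (25, 7, 2), (14,
  2, 3), (12, 6, 2), (16, 10, 1), (17, 2, 3), (20, 11, 2), (14, 6, 2), (15, 5, 2), (9, 8, 2),
  (10, 10, 2), (11, 8, 2), (12, 10, 2), (13, 8, 2), (19, 0, 3), (22, 7, 2), (16, 2, 3), (19,
  11, 2), (21, 2, 3), (18, 4, 3), (21, 6, 2), (20, 8, 2), (21, 10, 2), (20, 0, 3), (23, 8, 1),
  (24, 0, 3), (17, 10, 1), (18, 2, 3), (22, 10, 1), (23, 0, 3), (24, 0, 3), (21, 8, 1), (22, 1,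
  2), (25, 1, 2), (19, 2, 3), (22, 10, 1), (13, 6, 1), (14, 9, 2), (15, 6, 1), (16, 8, 1), (17,
  6, 1), (18, 6, 1), (19, 0, 3), (22, 7, 2), (23, 8, 1), (12, 3, 2), (15, 11, 2), (16, 3, 2),
  (19, 10, 1), (20, 3, 2), (23, 3, 2), (14, 4, 3), (18, 5, 2), (16, 11, 1), (22, 0, 3), (25, 7,
  2), (26, 8, 1), (26, 1, 2), (29, 6, 1), (30, 1, 2), (24, 2, 3), (23, 6, 1), (24, 0, 3), (27,
  7, 2), (28, 3, 2), (25, 7, 2), (24, 2, 5), (11, 6, 1), (12, 1, 2), (15, 8, 1), (16, 7, 2),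
  (17, 1, 2), (20, 6, 1), (21, 9, 2), (22, 1, 2), (25, 1, 2), (10, 3, 2), (8, 6, 2), (8, 1, 2),
  (7, 7, 2), (8, 10, 1), (9, 2, 3), (7, 5, 2), (5, 10, 2), (2, 0, 3), (5, 7, 2), (6, 0, 3), (9,
  6, 1), (10, 9, 2), (11, 0, 3), (14, 7, 2), (4, 2, 3), (8, 3, 2), (11, 11, 2), (6, 6, 2), (13,
  3, 2), (12, 11, 2), (10, 7, 2), (11, 9, 2), (6, 1, 2), (7, 7, 2), (8, 9, 2), (9, 7, 2), (10,
  9, 2), (3, 6, 1), (2, 3, 0), (5, 4, 3)])]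

/-- The auxiliary elements, part 2. -/
def cAC2 : List (List ℕ × List (ℕ × ℕ × ℕ)) :=
  [([8, 0], [(11, 13, 5), (3, 13, 5), (0, 14, 0), (18, 0, 3), (21, 7, 2), (22, 9, 2), (23, 0,
  3), (26, 0, 3), (15, 2, 3), (18, 11, 2), (12, 4, 3), (15, 6, 2), (9, 8, 2), (10, 10, 2), (18,
  2, 3), (21, 11, 2), (15, 4, 3), (18, 6, 2), (12, 8, 2), (13, 10, 2), (22, 3, 2), (18, 4, 3),
  (21, 6, 2), (22, 6, 2), (15, 8, 2), (16, 10, 2), (20, 1, 2), (23, 7, 2), (19, 1, 2), (16, 2,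
  3), (19, 11, 2), (14, 6, 2), (14, 0, 3), (15, 7, 2), (16, 9, 2), (13, 0, 3), (16, 7, 2), (17,
  9, 2), (18, 0, 3), (21, 0, 3), (22, 7, 2), (15, 2, 3), (18, 11, 2), (21, 2, 3), (17, 4, 3),
  (20, 6, 2), (21, 6, 2), (19, 8, 2), (20, 8, 2), (21, 10, 2), (20, 0, 3), (21, 1, 2), (24, 1,
  2), (19, 1, 2), (22, 1, 2), (16, 10, 1), (17, 2, 3), (14, 6, 1), (15, 8, 1), (16, 6, 1), (17,
  0, 3), (20, 7, 2), (18, 0, 3), (21, 7, 2), (19, 0, 3), (22, 7, 2), (23, 0, 3), (21, 2, 3),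
  (24, 0, 3), (27, 0, 3), (22, 2, 3), (24, 6, 2), (25, 6, 2), (25, 1, 2), (24, 1, 2), (20, 6,
  1), (21, 6, 1), (19, 3, 0), (22, 3, 0), (21, 3, 0), (12, 1, 2), (15, 6, 1), (16, 8, 1), (17,
  6, 1), (18, 1, 2), (21, 1, 2), (22, 7, 2), (23, 1, 2), (26, 7, 2), (27, 1, 2), (30, 6, 1),
  (10, 2, 3), (8, 6, 2), (8, 0, 3), (9, 7, 2), (10, 3, 2), (9, 10, 1), (10, 3, 2), (8, 5, 2),
  (5, 8, 2), (6, 8, 2), (4, 6, 2), (5, 6, 2), (5, 9, 2), (6, 1, 2), (9, 7, 2), (4, 9, 2), (5,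
  1, 2), (3, 11, 2), (2, 9, 2), (7, 2, 3), (5, 7, 1), (9, 2, 3), (7, 7, 1), (11, 3, 2), (9, 7,
  1), (2, 10, 2), (3, 10, 2), (4, 9, 1), (5, 10, 2), (6, 9, 1), (7, 10, 2), (8, 9, 1), (9, 11,
  1), (15, 0, 5), (13, 0, 5), (16, 0, 5), (11, 0, 5), (14, 0, 5), (10, 0, 5)]), ([0, 11], [(11,
  13, 5), (3, 13, 5), (0, 14, 0), (18, 0, 3), (21, 7, 2), (22, 9, 2), (23, 0, 3), (15, 2, 3),
  (18, 11, 2), (12, 4, 3), (15, 6, 2), (9, 8, 2), (10, 10, 2), (18, 2, 3), (21, 11, 2), (15, 4,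
  3), (18, 6, 2), (12, 8, 2), (13, 10, 2), (22, 3, 2), (21, 3, 2), (18, 4, 3), (21, 6, 2), (15,
  8, 2), (16, 10, 2), (19, 1, 2), (22, 7, 2), (23, 7, 2), (16, 2, 3), (19, 11, 2), (14, 6, 2),
  (14, 0, 3), (15, 7, 2), (16, 9, 2), (13, 0, 3), (16, 7, 2), (17, 9, 2), (18, 0, 3), (21, 7,
  2), (22, 7, 2), (15, 2, 3), (18, 11, 2), (20, 2, 3), (23, 2, 3), (17, 4, 3), (20, 6, 2), (19,
  8, 2), (20, 10, 2), (21, 10, 2), (19, 0, 3), (22, 0, 3), (16, 10, 1), (17, 2, 3), (14, 6, 1),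
  (15, 8, 1), (16, 6, 1), (17, 0, 3), (20, 7, 2), (19, 2, 3), (20, 2, 3), (18, 6, 1), (19, 6,
  1), (12, 1, 2), (15, 6, 1), (16, 8, 1), (17, 6, 1), (18, 1, 2), (21, 6, 1), (22, 6, 1), (10,
  2, 3), (8, 6, 2), (8, 0, 3), (9, 7, 2), (10, 3, 2), (9, 10, 1), (10, 3, 2), (8, 5, 2), (5, 8,
  2), (6, 8, 2), (4, 6, 2), (5, 6, 2), (5, 9, 2), (6, 1, 2), (9, 7, 2), (4, 9, 2), (5, 1, 2),
  (3, 11, 2), (2, 9, 2), (6, 3, 2), (5, 3, 2)]), ([12, 54], [(6, 5, 2), (9, 5, 2), (5, 5, 2),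
  (9, 10, 2), (10, 8, 2), (12, 1, 2), (10, 1, 2), (11, 1, 2), (4, 8, 1), (5, 6, 1), (6, 9, 2),
  (7, 6, 1), (3, 8, 1), (4, 6, 1), (5, 9, 2), (6, 6, 1), (4, 4, 5)]), ([50, 5], [(2, 13, 2),
  (21, 13, 1), (0, 14, 0), (19, 2, 3), (22, 11, 2), (16, 4, 3), (19, 6, 2), (13, 8, 2), (14,
  10, 2), (19, 4, 3), (16, 8, 2), (17, 10, 2), (18, 4, 3), (19, 5, 2), (17, 10, 1), (18, 10,
  1), (19, 3, 2), (22, 11, 2), (15, 6, 2), (16, 5, 2), (19, 5, 2), (15, 8, 1), (16, 6, 1), (17,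
  6, 1), (18, 9, 2), (19, 1, 2), (22, 7, 2), (23, 9, 2), (14, 10, 1), (15, 3, 2), (18, 3, 2),
  (19, 11, 2), (12, 6, 2), (13, 5, 2), (9, 8, 2), (10, 10, 2), (11, 8, 2), (11, 6, 1), (12, 9,
  2), (13, 1, 2), (16, 1, 2), (17, 7, 2), (18, 9, 2), (10, 3, 2), (13, 11, 2), (8, 6, 2), (8,
  1, 2), (7, 7, 2), (8, 9, 2), (2, 0, 3), (5, 7, 2), (6, 9, 2), (7, 0, 3), (10, 7, 2), (11, 9,
  2), (4, 2, 3), (7, 11, 2), (16, 3, 2), (15, 3, 2), (13, 4, 3), (11, 10, 2), (11, 2, 3), (12,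
  11, 2), (10, 2, 3), (13, 11, 2), (14, 2, 3), (17, 10, 1), (12, 4, 3), (15, 2, 3), (18, 10,
  1), (13, 4, 3), (22, 1, 2), (25, 6, 1), (26, 8, 1), (27, 8, 1), (28, 6, 1), (29, 1, 2), (21,
  1, 2), (20, 3, 2), (23, 10, 1), (24, 10, 1), (25, 3, 2), (19, 3, 2), (17, 5, 2), (15, 10, 2),
  (15, 3, 2), (16, 11, 2), (11, 10, 1), (12, 10, 1), (10, 5, 0), (13, 5, 0), (7, 8, 2), (8, 10,
  2), (8, 3, 2), (6, 6, 2), (6, 1, 2), (7, 7, 2), (8, 7, 2), (3, 6, 1), (2, 3, 0)]), ([45, 15],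
  [(2, 13, 3), (28, 13, 0), (0, 13, 0), (0, 14, 0), (18, 0, 3), (21, 7, 2), (22, 9, 2), (15, 2,
  3), (18, 11, 2), (12, 4, 3), (15, 6, 2), (9, 8, 2), (10, 10, 2), (18, 2, 3), (21, 11, 2),
  (15, 4, 3), (18, 6, 2), (12, 8, 2), (13, 10, 2), (18, 4, 3), (15, 8, 2), (16, 10, 2), (17, 5,
  2), (16, 10, 1), (17, 3, 2), (20, 11, 2), (14, 6, 2), (15, 5, 2), (14, 8, 1), (15, 6, 1),
  (16, 9, 2), (17, 1, 2), (20, 7, 2), (21, 9, 2), (13, 10, 1), (14, 3, 2), (17, 11, 2), (11, 6,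
  2), (12, 5, 2), (11, 8, 1), (12, 6, 1), (13, 9, 2), (14, 1, 2), (17, 7, 2), (18, 9, 2), (10,
  10, 1), (11, 3, 2), (14, 11, 2), (8, 6, 2), (9, 5, 2), (5, 8, 2), (6, 10, 2), (7, 8, 2), (7,
  6, 1), (8, 9, 2), (9, 1, 2), (12, 7, 2), (13, 9, 2), (6, 3, 2), (9, 11, 2), (4, 6, 2), (4, 1,
  2), (3, 7, 2), (4, 9, 2), (11, 2, 3), (14, 11, 2), (9, 4, 3), (7, 10, 2), (10, 2, 3), (13,
  11, 2), (8, 4, 3), (12, 5, 2), (10, 10, 2), (10, 3, 2), (11, 11, 2), (7, 10, 1), (15, 2, 5),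
  (13, 2, 5), (16, 2, 5), (12, 2, 5), (11, 6, 3), (12, 0, 5), (15, 9, 0), (16, 7, 0), (17, 7,
  0), (10, 6, 3), (11, 0, 5), (14, 11, 0), (13, 11, 0), (12, 8, 1), (13, 8, 1), (14, 6, 1),
  (11, 10, 1), (12, 10, 1), (13, 3, 2), (10, 5, 2), (7, 5, 2), (6, 5, 2), (4, 10, 2), (4, 3,
  2), (3, 11, 2), (4, 11, 2)]), ([6, 19], [(2, 3, 0), (5, 3, 0), (6, 10, 3), (4, 3, 0), (7, 10,
  3), (5, 3, 0), (8, 10, 3), (6, 3, 0), (9, 10, 3), (10, 2, 5), (13, 11, 0), (9, 2, 5)])]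

/-- The auxiliary elements, part 3. -/
def cAC3 : List (List ℕ × List (ℕ × ℕ × ℕ)) :=
  [([45, 5], [(0, 13, 3), (24, 13, 0), (0, 13, 0), (0, 14, 0), (18, 0, 3), (21, 7, 2), (22, 9,
  2), (15, 2, 3), (18, 11, 2), (12, 4, 3), (15, 6, 2), (9, 8, 2), (10, 10, 2), (18, 2, 3), (21,
  11, 2), (15, 4, 3), (18, 6, 2), (12, 8, 2), (13, 10, 2), (18, 4, 3), (15, 8, 2), (16, 10, 2),
  (17, 5, 2), (16, 10, 1), (17, 3, 2), (20, 11, 2), (14, 6, 2), (15, 5, 2), (14, 8, 1), (15, 6,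
  1), (16, 9, 2), (17, 1, 2), (20, 7, 2), (21, 9, 2), (13, 10, 1), (14, 3, 2), (17, 11, 2),
  (11, 6, 2), (12, 5, 2), (11, 8, 1), (12, 6, 1), (13, 9, 2), (14, 1, 2), (17, 7, 2), (18, 9,
  2), (10, 10, 1), (11, 3, 2), (14, 11, 2), (8, 6, 2), (9, 5, 2), (5, 8, 2), (6, 10, 2), (7, 8,
  2), (7, 6, 1), (8, 9, 2), (9, 1, 2), (12, 7, 2), (13, 9, 2), (6, 3, 2), (9, 11, 2), (4, 6,
  2), (4, 1, 2), (3, 7, 2), (4, 9, 2), (12, 5, 2), (10, 10, 2), (10, 3, 2), (9, 11, 2), (12, 2,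
  3), (15, 10, 1), (16, 10, 1), (17, 2, 3), (20, 2, 3), (8, 4, 3), (9, 7, 1), (10, 7, 1), (12,
  5, 2), (15, 5, 2), (8, 9, 1), (9, 9, 1), (10, 10, 2), (13, 10, 2), (14, 10, 2), (9, 0, 5),
  (12, 7, 0), (13, 7, 0), (8, 0, 5), (9, 8, 1), (10, 6, 1), (8, 10, 1), (9, 3, 2), (7, 5, 2),
  (6, 5, 2), (4, 10, 2), (4, 3, 2), (3, 11, 2), (4, 11, 2)]), ([56, 54], [(7, 6, 2), (10, 10,
  0), (11, 9, 3), (6, 9, 3), (7, 11, 3), (8, 9, 3), (9, 10, 0), (10, 9, 3), (10, 6, 1), (11, 6,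
  1), (8, 1, 2), (5, 6, 1), (4, 6, 1)]), ([37, 28], [(18, 12, 0), (1, 13, 6), (9, 10, 0), (10,
  8, 0), (19, 2, 3), (22, 11, 2), (23, 2, 3), (17, 7, 1), (19, 4, 3), (16, 9, 1), (17, 10, 2),
  (16, 0, 5), (19, 6, 3), (20, 8, 3), (21, 0, 5), (24, 6, 3), (14, 10, 3), (10, 1, 0), (11, 7,
  0), (12, 8, 3), (13, 8, 3), (14, 2, 5), (17, 10, 3), (11, 4, 5), (14, 4, 5), (8, 8, 0), (9,
  10, 0), (9, 2, 5), (12, 2, 5), (13, 11, 0), (7, 6, 0), (7, 0, 5), (6, 0, 5), (5, 7, 0), (6,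
  9, 0), (7, 7, 0), (8, 8, 3), (9, 2, 5), (7, 4, 5), (4, 11, 0), (2, 10, 0)]), ([30, 20], [(15,
  13, 5), (11, 13, 5), (0, 14, 0), (19, 2, 3), (22, 11, 2), (16, 4, 3), (19, 6, 2), (13, 8, 2),
  (14, 10, 2), (18, 2, 3), (21, 11, 2), (15, 4, 3), (18, 6, 2), (18, 0, 3), (21, 7, 2), (22, 9,
  2), (14, 10, 1), (15, 2, 3), (18, 11, 2), (12, 6, 2), (13, 5, 2), (9, 8, 2), (10, 10, 2),
  (11, 8, 2), (19, 4, 3), (16, 8, 2), (17, 10, 2), (18, 4, 3), (19, 4, 3), (22, 4, 3), (16, 0,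
  3), (19, 8, 1), (20, 8, 1), (21, 7, 2), (22, 7, 2), (23, 9, 2), (14, 2, 3), (25, 4, 3), (18,
  10, 1), (19, 10, 1), (20, 2, 3), (23, 2, 3), (24, 11, 2), (25, 2, 3), (28, 10, 1), (29, 2,
  3), (32, 11, 2), (16, 6, 2), (17, 5, 2), (20, 5, 2), (23, 4, 3), (20, 10, 2), (21, 10, 2),
  (25, 5, 2), (23, 10, 2), (16, 8, 1), (17, 6, 1), (18, 6, 1), (19, 0, 3), (22, 0, 3), (23, 7,
  2), (24, 0, 3), (27, 6, 1), (28, 9, 2), (29, 0, 3), (32, 7, 2), (33, 9, 2), (15, 10, 1), (16,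
  3, 2), (19, 3, 2), (22, 2, 3), (19, 6, 2), (20, 6, 2), (24, 3, 2), (27, 11, 2), (22, 6, 2),
  (26, 0, 3), (29, 7, 2), (30, 9, 2), (28, 2, 3), (31, 11, 2), (30, 4, 3), (29, 10, 1), (27, 6,
  1), (28, 8, 1), (22, 1, 2), (21, 7, 2), (22, 9, 2), (23, 1, 2), (26, 6, 1), (27, 8, 1), (28,
  6, 1), (29, 1, 2), (20, 2, 3), (23, 11, 2), (19, 6, 1), (20, 0, 3), (23, 7, 2), (24, 9, 2),
  (25, 3, 2), (28, 10, 1), (29, 3, 2), (23, 4, 3), (22, 10, 1), (23, 2, 3), (26, 11, 2), (27,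
  5, 2), (24, 11, 2), (23, 4, 5), (21, 7, 2), (22, 8, 1), (20, 2, 5), (19, 11, 0), (11, 6, 1),
  (12, 9, 2), (13, 6, 1), (14, 8, 1), (15, 6, 1), (16, 1, 2), (19, 6, 1), (20, 8, 1), (10, 3,
  2), (13, 11, 2), (14, 3, 2), (17, 10, 1), (18, 3, 2), (8, 6, 2), (10, 4, 3), (5, 8, 2), (6,
  10, 2), (7, 8, 2), (8, 11, 1), (12, 5, 2), (10, 11, 1), (7, 1, 2), (6, 7, 2), (7, 1, 2), (10,
  6, 1), (11, 9, 2), (12, 1, 2), (15, 7, 2), (5, 2, 3), (2, 0, 3), (5, 0, 3), (6, 7, 2), (7, 3,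
  2), (6, 11, 2), (4, 7, 2), (5, 9, 2), (8, 3, 2), (7, 10, 1), (6, 5, 2)]), ([36, 71], [(1, 12,
  3), (2, 4, 5), (5, 4, 5), (5, 11, 3), (6, 9, 3), (7, 9, 3), (8, 11, 3), (7, 1, 2), (10, 6,
  1), (6, 1, 2), (7, 3, 2), (6, 3, 2), (4, 7, 1), (7, 7, 1), (6, 7, 1), (6, 8, 3), (7, 0, 5),
  (5, 10, 3), (4, 8, 3), (3, 4, 3)]), ([34, 30], [(6, 2, 3), (7, 10, 1), (2, 0, 3), (5, 9, 2),
  (6, 0, 3), (9, 7, 2), (10, 8, 1), (4, 11, 2), (7, 6, 2), (4, 8, 2), (5, 10, 2), (6, 8, 2),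
  (6, 1, 2), (5, 1, 2)])]

/-- The auxiliary elements, part 4. -/
def cAC4 : List (List ℕ × List (ℕ × ℕ × ℕ)) :=
  [([37, 0], [(16, 12, 0), (6, 12, 3), (2, 12, 7), (0, 15, 0), (21, 1, 0), (22, 6, 3), (20, 1,
  0), (23, 6, 3), (22, 2, 5), (21, 6, 3), (22, 0, 5), (25, 8, 3), (26, 8, 3), (27, 6, 3), (17,
  9, 0), (18, 7, 0), (19, 0, 5), (22, 6, 3), (23, 0, 5), (16, 11, 0), (17, 3, 0), (15, 5, 0),
  (13, 7, 0), (14, 9, 0), (15, 1, 0), (18, 7, 0), (12, 3, 0), (13, 11, 0), (17, 2, 5), (14, 7,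
  0), (16, 10, 3), (17, 10, 3), (18, 2, 5), (21, 11, 0), (15, 10, 3), (16, 10, 3), (17, 2, 5),
  (14, 4, 5), (13, 4, 5), (11, 2, 5), (14, 11, 0), (16, 4, 5), (15, 4, 5), (12, 10, 1), (13, 2,
  3), (16, 11, 2), (17, 2, 3), (11, 5, 2), (15, 4, 3), (13, 10, 2), (9, 9, 0), (10, 9, 0), (11,
  7, 0), (12, 0, 5), (15, 6, 3), (16, 8, 3), (17, 0, 5), (20, 6, 3), (8, 11, 0), (9, 11, 0),
  (10, 3, 0), (7, 5, 0), (8, 5, 0), (5, 7, 0), (6, 7, 0), (7, 9, 0), (8, 1, 0), (11, 7, 0), (4,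
  3, 0), (5, 3, 0), (6, 11, 0), (10, 2, 5), (9, 10, 3), (7, 7, 0), (8, 8, 3), (9, 2, 5), (7, 4,
  5), (4, 11, 0), (2, 10, 0)]), ([36, 70], [(4, 12, 4), (26, 12, 4), (0, 15, 0), (24, 6, 3),
  (25, 8, 3), (26, 6, 3), (27, 0, 5), (22, 0, 5), (25, 6, 3), (26, 8, 3), (27, 6, 3), (28, 0,
  5), (21, 0, 5), (17, 9, 0), (18, 7, 0), (20, 2, 5), (23, 10, 3), (24, 2, 5), (19, 2, 5), (16,
  11, 0), (18, 4, 5), (17, 4, 5), (13, 9, 0), (14, 9, 0), (15, 9, 0), (16, 0, 5), (19, 7, 0),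
  (12, 11, 0), (13, 11, 0), (14, 11, 0), (9, 9, 0), (10, 7, 0), (11, 9, 0), (12, 9, 0), (13, 9,
  0), (5, 9, 0), (6, 7, 0), (7, 1, 0), (10, 9, 0), (11, 7, 0), (12, 9, 0), (13, 9, 0), (14, 9,
  0), (15, 1, 0), (18, 7, 0), (19, 1, 0), (22, 1, 0), (4, 11, 0), (5, 3, 0), (3, 5, 0), (7, 11,
  0), (8, 3, 0), (11, 11, 0), (12, 11, 0), (13, 11, 0), (5, 6, 0), (6, 5, 0), (3, 10, 0), (4,
  8, 0), (13, 3, 0), (8, 5, 0), (11, 5, 0), (12, 5, 0), (13, 6, 0), (6, 10, 0), (13, 6, 0),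
  (14, 6, 0), (14, 0, 5), (17, 7, 0), (13, 0, 5), (4, 7, 0), (5, 1, 0), (8, 7, 0), (9, 7, 0),
  (10, 7, 0), (11, 9, 0), (12, 1, 0), (15, 1, 0), (16, 7, 0), (17, 1, 0), (20, 6, 3), (21, 9,
  0), (22, 6, 3), (23, 6, 3), (3, 3, 0), (5, 3, 0), (8, 3, 0), (9, 3, 0), (10, 11, 0), (3, 6,
  0), (11, 3, 0), (7, 5, 0), (10, 6, 0), (11, 6, 0), (15, 2, 5), (18, 11, 0), (19, 2, 5), (22,
  2, 5), (13, 6, 0), (15, 5, 0), (9, 8, 0), (10, 8, 0), (11, 10, 0), (12, 8, 0), (13, 11, 3),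
  (12, 0, 5), (11, 7, 0), (12, 9, 0), (13, 0, 5), (16, 0, 5), (17, 0, 5), (10, 3, 0), (13, 11,
  0), (8, 6, 0), (8, 1, 0), (11, 7, 0), (12, 9, 0), (6, 10, 3), (7, 1, 0), (10, 7, 0), (11, 9,
  0), (5, 10, 3), (6, 1, 0), (9, 7, 0), (10, 9, 0), (4, 10, 3), (9, 4, 5), (4, 9, 1), (5, 11,
  1)]), ([74, 7], [(1, 13, 5), (0, 14, 0), (19, 2, 3), (22, 11, 2), (16, 4, 3), (19, 6, 2),
  (13, 8, 2), (14, 10, 2), (19, 4, 3), (16, 8, 2), (17, 10, 2), (17, 2, 3), (20, 11, 2), (15,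
  6, 2), (15, 0, 3), (16, 7, 2), (17, 9, 2), (14, 0, 3), (17, 7, 2), (18, 9, 2), (16, 2, 3),
  (19, 11, 2), (18, 4, 3), (17, 10, 1), (18, 3, 2), (23, 2, 5), (20, 11, 0), (15, 6, 1), (16,
  8, 1), (17, 6, 1), (18, 1, 2), (21, 8, 1), (13, 1, 2), (16, 6, 1), (17, 8, 1), (18, 6, 1),
  (19, 1, 2), (11, 2, 3), (8, 4, 3), (11, 6, 2), (5, 8, 2), (6, 10, 2), (9, 0, 3), (12, 7, 2),
  (6, 2, 3), (9, 11, 2), (4, 6, 2), (11, 3, 2), (10, 10, 1), (11, 3, 2), (9, 5, 2), (7, 8, 2),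
  (6, 6, 2), (6, 9, 2), (7, 1, 2), (10, 7, 2), (5, 11, 2), (4, 9, 2), (8, 10, 1), (7, 3, 2)]),
  ([15, 28], [(6, 11, 3), (7, 8, 0), (8, 8, 0), (9, 10, 0), (13, 2, 3), (16, 2, 3), (11, 7, 1),
  (15, 5, 2), (14, 5, 2), (10, 9, 1), (11, 10, 2), (12, 10, 2), (10, 0, 5), (9, 0, 5), (6, 7,
  0), (5, 8, 3), (4, 8, 3), (3, 7, 0)]), ([30, 56], [(7, 13, 5), (2, 13, 5), (0, 14, 0), (19,
  2, 3), (22, 11, 2), (16, 4, 3), (19, 6, 2), (13, 8, 2), (14, 10, 2), (18, 2, 3), (21, 11, 2),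
  (15, 4, 3), (18, 6, 2), (20, 4, 3), (17, 8, 2), (18, 10, 2), (18, 2, 3), (21, 11, 2), (16, 6,
  2), (16, 0, 3), (19, 7, 2), (20, 9, 2), (14, 10, 1), (15, 0, 3), (18, 7, 2), (19, 9, 2), (17,
  2, 3), (20, 11, 2), (19, 4, 3), (16, 6, 1), (17, 0, 3), (20, 8, 1), (21, 7, 2), (18, 0, 3),
  (21, 8, 1), (22, 7, 2), (20, 10, 1), (21, 2, 3), (19, 8, 1), (20, 6, 1), (21, 0, 3), (24, 7,
  2), (13, 8, 1), (14, 1, 2), (17, 6, 1), (18, 1, 2), (21, 1, 2), (22, 8, 1), (23, 6, 1), (24,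
  1, 2), (11, 2, 3), (14, 10, 1), (8, 4, 3), (11, 6, 2), (5, 8, 2), (6, 10, 2), (9, 0, 3), (12,
  7, 2), (13, 8, 1), (6, 2, 3), (9, 11, 2), (4, 6, 2), (12, 3, 2), (10, 5, 2), (7, 8, 2), (8,
  10, 2), (8, 3, 2), (11, 11, 2), (6, 6, 2), (6, 1, 2), (5, 7, 2), (6, 9, 2), (7, 7, 2), (2, 0,
  3), (5, 0, 3), (6, 7, 2), (7, 9, 2), (8, 7, 2), (9, 10, 1), (10, 3, 2), (8, 5, 2), (5, 11,
  2), (4, 9, 2), (5, 7, 2)]), ([28, 22, 28], [(10, 12, 2), (32, 12, 2), (0, 15, 0), (21, 6, 3),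
  (22, 6, 3), (23, 6, 3), (24, 6, 3), (25, 6, 3), (26, 6, 3), (27, 6, 3), (28, 6, 3), (29, 6,
  3), (30, 6, 3), (31, 6, 3), (32, 8, 3), (33, 8, 3), (34, 6, 3), (35, 0, 5), (20, 2, 5), (21,
  2, 5), (22, 2, 5), (23, 2, 5), (24, 2, 5), (25, 2, 5), (26, 2, 5), (27, 2, 5), (28, 2, 5),
  (29, 2, 5), (30, 2, 5), (31, 10, 3), (32, 10, 3), (33, 2, 5), (30, 4, 5), (33, 4, 5), (18,
  11, 3), (19, 11, 3), (20, 11, 3), (21, 11, 3), (22, 11, 3), (23, 11, 3), (24, 11, 3), (25,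
  11, 3), (26, 11, 3), (27, 11, 3), (28, 11, 3), (17, 0, 5), (18, 0, 5), (19, 0, 5), (20, 0,
  5), (21, 0, 5), (22, 0, 5), (23, 0, 5), (24, 0, 5), (25, 0, 5), (26, 0, 5), (27, 0, 5), (28,
  6, 3), (29, 6, 3), (30, 9, 0), (31, 0, 5), (34, 7, 0), (13, 9, 0), (14, 7, 0), (9, 9, 0),
  (10, 7, 0), (11, 1, 0), (14, 9, 0), (15, 7, 0), (8, 11, 0), (9, 3, 0), (7, 5, 0), (10, 1, 0),
  (13, 9, 0), (14, 7, 0), (8, 3, 0), (6, 5, 0), (11, 1, 0), (14, 9, 0), (15, 7, 0), (9, 3, 0),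
  (7, 5, 0), (12, 1, 0), (15, 9, 0), (16, 7, 0), (10, 3, 0), (8, 5, 0), (13, 1, 0), (16, 9, 0),
  (17, 7, 0), (11, 3, 0), (9, 5, 0), (14, 1, 0), (17, 9, 0), (18, 7, 0), (12, 3, 0), (10, 5,
  0), (15, 1, 0), (18, 9, 0), (19, 7, 0), (13, 3, 0), (11, 5, 0), (16, 1, 0), (19, 9, 0), (20,
  7, 0), (14, 3, 0), (12, 5, 0), (17, 1, 0), (20, 9, 0), (21, 7, 0), (15, 3, 0), (13, 5, 0),
  (18, 1, 0), (21, 9, 0), (22, 7, 0), (16, 3, 0), (14, 5, 0), (23, 2, 5), (24, 2, 5), (25, 11,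
  0), (20, 11, 0), (19, 9, 0), (20, 0, 5), (23, 7, 0), (24, 9, 0), (17, 3, 0), (20, 11, 0),
  (15, 5, 0), (5, 8, 3), (6, 8, 3), (7, 8, 3), (8, 8, 3), (9, 8, 3), (10, 8, 3), (11, 8, 3),
  (12, 8, 3), (13, 8, 3), (14, 8, 3), (15, 7, 0), (16, 9, 0), (17, 1, 0), (20, 7, 0), (21, 9,
  0), (4, 10, 3), (5, 10, 3), (6, 10, 3), (7, 10, 3), (8, 10, 3), (9, 10, 3), (10, 10, 3), (11,
  10, 3), (12, 10, 3), (13, 10, 3), (14, 3, 0), (17, 11, 0), (3, 4, 5), (4, 4, 5), (5, 4, 5),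
  (6, 4, 5), (7, 4, 5), (8, 4, 5), (9, 4, 5), (10, 4, 5), (11, 4, 5), (12, 4, 5), (16, 1, 0),
  (19, 7, 0), (20, 9, 0), (21, 1, 0), (24, 7, 0), (25, 9, 0), (26, 1, 0), (29, 7, 0), (30, 1,
  0), (13, 3, 0), (16, 11, 0), (18, 3, 0), (21, 11, 0), (15, 5, 0), (18, 6, 0), (23, 3, 0),
  (26, 11, 0), (20, 5, 0), (23, 6, 0), (17, 8, 0), (18, 10, 0), (26, 3, 0), (23, 5, 0), (26, 6,
  0), (20, 8, 0), (21, 10, 0), (43, 6, 3), (44, 8, 3), (45, 8, 3), (46, 6, 3), (47, 0, 5), (42,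
  6, 3), (43, 8, 3), (44, 8, 3), (45, 6, 3), (46, 0, 5), (41, 6, 3), (42, 8, 3), (43, 8, 3),
  (44, 6, 3), (45, 0, 5), (40, 6, 3), (41, 8, 3), (42, 8, 3), (43, 6, 3), (44, 0, 5), (39, 6,
  3), (40, 8, 3), (41, 8, 3), (42, 6, 3), (43, 0, 5), (38, 6, 3), (39, 8, 3), (40, 8, 3), (41,
  6, 3), (42, 0, 5), (37, 6, 3), (38, 8, 3), (39, 8, 3), (40, 6, 3), (41, 0, 5), (36, 6, 3),
  (37, 8, 3), (38, 8, 3), (39, 6, 3), (40, 0, 5), (35, 6, 3), (36, 8, 3), (37, 8, 3), (38, 6,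
  3), (39, 0, 5), (34, 6, 3), (35, 8, 3), (36, 8, 3), (37, 6, 3), (38, 0, 5), (32, 0, 5), (35,
  6, 3), (36, 8, 3), (37, 8, 3), (38, 6, 3), (39, 0, 5), (28, 10, 3), (29, 10, 3), (30, 2, 5),
  (26, 6, 0), (27, 4, 5), (30, 4, 5), (23, 8, 0), (24, 10, 0), (25, 8, 0), (25, 6, 3), (26, 6,
  3), (27, 9, 0), (28, 0, 5), (31, 7, 0), (24, 2, 5), (27, 2, 5), (28, 11, 0), (22, 6, 0), (22,
  0, 5), (21, 0, 5), (22, 7, 0), (23, 9, 0), (17, 1, 0), (20, 7, 0), (14, 10, 3), (15, 3, 0),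
  (26, 2, 5), (25, 10, 3), (26, 10, 3), (27, 2, 5), (24, 4, 5), (23, 4, 5), (21, 2, 5), (20,
  11, 0), (18, 7, 0), (19, 9, 0), (20, 7, 0), (32, 9, 2), (33, 9, 2), (34, 7, 2), (31, 10, 3),
  (32, 10, 3), (33, 2, 5), (30, 10, 3), (31, 10, 3), (32, 2, 5), (29, 10, 3), (30, 10, 3), (31,
  2, 5), (28, 10, 3), (29, 10, 3), (30, 2, 5), (27, 10, 3), (28, 10, 3), (29, 2, 5), (26, 10,
  3), (27, 10, 3), (28, 2, 5), (25, 10, 3), (26, 10, 3), (27, 2, 5), (24, 10, 3), (25, 10, 3),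
  (26, 2, 5), (23, 10, 3), (24, 10, 3), (25, 2, 5), (22, 10, 3), (23, 10, 3), (24, 2, 5), (21,
  10, 3), (22, 10, 3), (23, 2, 5), (20, 4, 5), (19, 4, 5), (16, 11, 0), (15, 5, 2)])]

/-- The auxiliary elements, part 5. -/
def cAC5 : List (List ℕ × List (ℕ × ℕ × ℕ)) :=
  [([57, 42, 86, 43, 56], [(23, 8, 3), (24, 7, 0), (25, 7, 0), (26, 7, 0), (27, 7, 0), (28, 7,
  0), (29, 7, 0), (30, 7, 0), (31, 7, 0), (32, 7, 0), (33, 7, 0), (34, 9, 0), (22, 11, 2), (23,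
  3, 2), (26, 3, 2), (27, 3, 2), (28, 3, 2), (29, 3, 2), (30, 3, 2), (31, 3, 2), (32, 3, 2),
  (33, 3, 2), (34, 3, 2), (35, 10, 1), (21, 11, 2), (22, 3, 2), (20, 4, 3), (19, 10, 1), (20,
  2, 3), (23, 11, 2), (21, 2, 3), (24, 11, 2), (25, 2, 3), (23, 4, 3), (26, 2, 3), (24, 4, 3),
  (27, 2, 3), (25, 4, 3), (28, 2, 3), (26, 4, 3), (29, 2, 3), (27, 4, 3), (30, 2, 3), (28, 4,
  3), (31, 2, 3), (29, 4, 3), (32, 2, 3), (30, 4, 3), (33, 2, 3), (31, 4, 3), (34, 2, 3), (37,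
  2, 3), (38, 10, 1), (32, 4, 3), (37, 5, 2), (34, 10, 2), (35, 10, 2), (35, 3, 2), (38, 11,
  2), (34, 3, 2), (22, 10, 1), (23, 10, 1), (24, 10, 1), (25, 10, 1), (26, 10, 1), (27, 10, 1),
  (28, 10, 1), (29, 10, 1), (30, 10, 1), (31, 10, 1), (21, 5, 0), (24, 5, 0), (25, 5, 0), (26,
  5, 0), (27, 5, 0), (28, 5, 0), (29, 5, 0), (30, 5, 0), (31, 5, 0), (32, 5, 0), (31, 5, 0),
  (18, 9, 0), (19, 7, 0), (20, 8, 3), (21, 7, 0), (22, 7, 0), (23, 7, 0), (24, 7, 0), (25, 7,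
  0), (26, 7, 0), (27, 7, 0), (28, 7, 0), (29, 7, 0), (30, 8, 3), (31, 7, 0), (17, 9, 0), (18,
  7, 0), (19, 8, 3), (20, 7, 0), (21, 7, 0), (22, 7, 0), (23, 7, 0), (24, 7, 0), (25, 7, 0),
  (26, 7, 0), (27, 7, 0), (28, 7, 0), (29, 8, 3), (30, 7, 0), (28, 4, 5), (27, 4, 5), (26, 4,
  5), (25, 4, 5), (24, 4, 5), (23, 4, 5), (22, 4, 5), (21, 4, 5), (20, 4, 5), (18, 4, 5), (17,
  4, 5), (11, 10, 2), (10, 10, 2), (9, 10, 2), (8, 10, 2), (7, 10, 2), (6, 10, 2), (5, 10, 2),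
  (4, 10, 2), (3, 10, 2), (2, 10, 2)]), ([44, 27, 13, 68, 26, 68], [(9, 12, 6), (58, 13, 6),
  (3, 11, 0), (4, 2, 5), (7, 11, 0), (8, 2, 5), (11, 11, 0), (12, 2, 5), (6, 5, 0), (10, 5, 0),
  (8, 11, 3), (23, 3, 2), (26, 11, 2), (32, 8, 2), (33, 11, 1), (34, 11, 1), (34, 2, 5), (33,
  2, 5), (31, 7, 3), (37, 3, 2), (40, 11, 2), (41, 5, 2), (38, 10, 3), (39, 3, 0), (37, 4, 5),
  (35, 9, 3), (34, 7, 3), (36, 3, 0), (33, 7, 3), (34, 5, 0), (39, 0, 3), (42, 0, 3), (41, 0,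
  3), (44, 8, 1), (45, 7, 2), (46, 0, 3), (49, 6, 1), (50, 6, 1), (51, 0, 3), (43, 10, 1), (44,
  2, 3), (48, 3, 2), (51, 3, 2), (46, 6, 2), (46, 1, 2), (47, 1, 2), (48, 7, 2), (42, 8, 1),
  (43, 6, 1), (40, 1, 2), (43, 8, 1), (44, 6, 1), (33, 9, 2), (34, 6, 1), (35, 8, 1), (36, 1,
  2), (39, 6, 1), (40, 1, 2), (43, 1, 2), (32, 11, 2), (33, 3, 2), (36, 10, 1), (31, 9, 2),
  (32, 6, 1), (33, 1, 2), (36, 7, 2), (37, 8, 1), (22, 6, 1), (23, 1, 2), (26, 7, 2), (27, 9,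
  2), (28, 1, 2), (31, 7, 2), (32, 7, 2), (33, 1, 2), (36, 9, 2), (37, 6, 1), (38, 1, 2), (20,
  10, 1), (21, 3, 2), (19, 5, 2), (16, 11, 2), (15, 9, 2), (16, 7, 2), (17, 2, 3), (18, 11, 2),
  (14, 9, 2), (15, 0, 3), (18, 7, 2), (19, 9, 2), (13, 11, 2), (18, 2, 3), (21, 2, 3), (16, 4,
  3), (13, 8, 2), (14, 10, 2), (13, 0, 3), (16, 7, 2), (17, 9, 2), (18, 0, 3), (21, 0, 3), (22,
  7, 2), (11, 3, 2), (8, 3, 2), (11, 10, 1), (12, 3, 2), (5, 11, 2), (6, 3, 2), (9, 3, 2), (4,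
  4, 3), (10, 5, 2), (9, 5, 2), (6, 11, 1), (7, 11, 1), (15, 2, 3), (18, 11, 2), (13, 6, 2),
  (21, 11, 2), (22, 3, 2), (20, 4, 3), (16, 8, 2), (17, 8, 2), (18, 10, 2), (18, 2, 3), (21,
  11, 2), (15, 6, 2), (16, 6, 2), (16, 0, 3), (19, 7, 2), (20, 9, 2), (21, 7, 2), (26, 3, 2),
  (24, 5, 2), (23, 10, 1), (24, 3, 2), (27, 11, 2), (22, 10, 1), (23, 3, 2), (21, 5, 2), (18,
  11, 2), (17, 9, 2), (18, 7, 2), (19, 7, 2), (20, 9, 2), (21, 7, 2), (15, 1, 2), (14, 9, 2),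
  (15, 7, 2), (16, 7, 2), (17, 9, 2), (18, 7, 2), (11, 2, 5), (8, 4, 5), (11, 4, 5), (7, 10,
  3), (8, 2, 5), (11, 2, 5), (12, 11, 0), (6, 10, 3), (7, 2, 5), (13, 4, 5), (19, 2, 3), (20,
  10, 1), (16, 10, 1), (17, 3, 2), (20, 3, 2), (21, 10, 1), (15, 10, 1), (16, 3, 2), (14, 5,
  2), (8, 5, 2), (7, 5, 2)]), ([21, 56, 1, 88, 23, 7], [(26, 12, 5), (12, 13, 2), (54, 13, 0),
  (17, 13, 0), (33, 12, 5), (0, 13, 6), (28, 13, 1), (0, 14, 0), (19, 2, 3), (22, 11, 2), (16,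
  4, 3), (19, 6, 2), (13, 8, 2), (14, 10, 2), (17, 0, 3), (20, 7, 2), (21, 9, 2), (14, 2, 3),
  (17, 11, 2), (12, 6, 2), (16, 0, 3), (19, 7, 2), (20, 9, 2), (13, 2, 3), (16, 11, 2), (18, 2,
  3), (21, 11, 2), (15, 4, 3), (18, 6, 2), (20, 4, 3), (17, 8, 2), (18, 10, 2), (22, 3, 2),
  (25, 11, 2), (21, 3, 2), (20, 3, 2), (19, 3, 2), (18, 3, 2), (16, 6, 2), (24, 5, 2), (21, 5,
  2), (20, 5, 2), (19, 5, 2), (18, 5, 2), (16, 1, 2), (19, 8, 1), (20, 6, 1), (21, 9, 2), (22,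
  9, 2), (23, 9, 2), (24, 9, 2), (25, 1, 2), (14, 10, 1), (12, 6, 1), (13, 8, 1), (14, 10, 1),
  (15, 3, 2), (18, 11, 2), (19, 11, 2), (20, 11, 2), (21, 11, 2), (11, 3, 2), (14, 10, 1), (15,
  10, 1), (16, 3, 2), (8, 4, 3), (11, 6, 2), (5, 8, 2), (6, 10, 2), (11, 5, 2), (14, 5, 2), (8,
  8, 2), (9, 11, 1), (8, 1, 2), (11, 6, 1), (12, 6, 1), (13, 9, 2), (14, 1, 2), (17, 7, 2),
  (18, 7, 2), (19, 9, 2), (20, 9, 2), (21, 9, 2), (22, 9, 2), (6, 2, 3), (4, 6, 2), (4, 0, 3),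
  (5, 7, 2), (6, 3, 2), (5, 3, 2), (6, 11, 2), (3, 1, 2), (6, 7, 2), (7, 9, 2), (2, 1, 2), (10,
  4, 3), (13, 4, 3), (14, 4, 3), (15, 4, 3), (14, 5, 2), (13, 5, 2), (12, 5, 2), (11, 5, 2),
  (9, 5, 2), (12, 5, 2), (7, 10, 2), (7, 3, 2), (6, 3, 2), (5, 11, 2), (6, 11, 2), (7, 11, 2),
  (8, 11, 2), (9, 11, 2), (3, 6, 3), (4, 8, 3), (5, 8, 3), (6, 8, 3), (7, 8, 3), (8, 8, 3), (9,
  1, 0), (12, 7, 0), (13, 9, 0), (14, 9, 0), (15, 7, 0), (16, 1, 0), (2, 2, 5), (5, 10, 3), (6,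
  10, 3), (7, 10, 3), (8, 10, 3), (9, 10, 3), (11, 3, 0), (14, 11, 0), (15, 11, 0), (16, 3, 0),
  (4, 4, 5), (7, 4, 5), (8, 4, 5), (9, 4, 5), (10, 4, 5), (11, 6, 0), (13, 5, 0), (16, 5, 0),
  (10, 8, 0), (11, 10, 0), (17, 1, 0), (15, 3, 0), (13, 5, 0), (18, 1, 0), (16, 3, 0), (14, 5,
  0), (19, 1, 0), (17, 3, 0), (15, 5, 0), (21, 11, 0), (22, 11, 0), (23, 11, 0), (24, 2, 5),
  (19, 6, 0), (20, 5, 0), (23, 5, 0), (24, 5, 0), (17, 10, 0), (18, 8, 0), (18, 7, 0), (19, 7,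
  0), (20, 7, 0), (21, 9, 0), (22, 0, 5), (25, 7, 0), (17, 3, 0), (18, 3, 0), (19, 3, 0), (20,
  11, 0), (10, 1, 0), (13, 7, 0), (14, 8, 3), (15, 8, 3), (16, 8, 3), (17, 1, 0), (20, 1, 0),
  (21, 1, 0), (22, 7, 0), (23, 9, 0), (12, 3, 0), (15, 10, 3), (16, 10, 3), (17, 10, 3), (20,
  1, 0), (23, 7, 0), (24, 9, 0), (25, 1, 0), (28, 7, 0), (22, 3, 0), (25, 11, 0), (27, 3, 0),
  (24, 5, 0), (27, 6, 0), (26, 8, 0), (27, 10, 0), (27, 2, 5), (25, 6, 0), (25, 0, 5), (28, 7,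
  0), (23, 10, 3), (21, 6, 3), (22, 8, 3), (20, 2, 3), (23, 11, 2), (22, 4, 3), (19, 7, 0),
  (20, 0, 5), (23, 9, 0), (24, 6, 3), (25, 8, 3), (18, 7, 0), (19, 0, 5), (13, 3, 0), (16, 10,
  3), (17, 10, 3), (18, 10, 3), (19, 3, 0), (15, 4, 5), (18, 4, 5), (19, 4, 5), (11, 6, 3),
  (12, 6, 3), (13, 1, 0), (16, 8, 3), (17, 6, 3), (18, 6, 3), (19, 6, 3), (20, 9, 0), (21, 1,
  0), (24, 7, 0), (15, 10, 3), (16, 2, 5), (19, 2, 5), (20, 2, 5), (21, 11, 0), (26, 11, 0),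
  (27, 2, 5), (30, 10, 3), (25, 11, 0), (26, 2, 5), (24, 5, 0), (21, 8, 0), (22, 10, 0), (22,
  3, 0), (25, 11, 0), (20, 6, 0), (25, 4, 5), (24, 4, 5), (21, 11, 0), (22, 11, 0), (23, 11,
  0), (24, 11, 0), (25, 11, 0), (26, 11, 0), (27, 11, 0), (20, 9, 0), (21, 9, 0), (22, 9, 0),
  (23, 9, 0), (24, 9, 0), (25, 9, 0), (26, 9, 0), (14, 8, 3), (15, 6, 3), (16, 0, 5), (19, 0,
  5), (20, 0, 5), (21, 9, 0), (22, 9, 0), (23, 9, 0), (24, 9, 0), (25, 9, 0), (26, 9, 0), (27,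
  9, 0), (20, 11, 0), (21, 11, 0), (22, 11, 0), (23, 11, 0), (24, 11, 0), (25, 11, 0), (26, 11,
  0), (19, 8, 1), (20, 8, 1), (21, 8, 1), (22, 8, 1), (23, 8, 1), (24, 6, 1), (25, 6, 1), (18,
  8, 1), (19, 8, 1), (20, 8, 1), (21, 8, 1), (22, 8, 1), (23, 6, 1), (24, 6, 1), (17, 8, 1),
  (18, 8, 1), (19, 8, 1), (20, 8, 1), (21, 8, 1), (22, 6, 1), (23, 8, 1), (24, 8, 1), (25, 6,
  1), (26, 6, 1), (16, 10, 1), (17, 10, 1), (18, 10, 1), (19, 10, 1), (20, 10, 1), (21, 3, 2),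
  (24, 10, 1), (25, 10, 1), (26, 3, 2), (29, 3, 2), (15, 5, 2), (16, 5, 2), (17, 5, 2), (18, 5,
  2), (19, 5, 2), (13, 3, 2), (14, 3, 2), (15, 3, 2), (16, 3, 2), (17, 3, 2), (18, 11, 2), (10,
  2, 3), (9, 2, 3), (8, 2, 3), (7, 2, 3), (6, 2, 3), (9, 5, 2), (8, 5, 2), (5, 11, 2), (3, 11,
  2), (4, 11, 2)]), ([44, 27, 52, 26, 68], [(9, 12, 6), (40, 13, 6), (3, 9, 0), (4, 6, 3), (5,
  1, 0), (8, 2, 5), (7, 2, 5), (6, 6, 3), (7, 0, 5), (10, 7, 0), (11, 7, 0), (12, 0, 5), (9, 3,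
  0), (12, 3, 0), (23, 3, 2), (26, 11, 2), (32, 8, 2), (33, 10, 2), (34, 8, 2), (34, 8, 1),
  (35, 7, 2), (36, 0, 3), (39, 6, 1), (40, 6, 1), (41, 0, 3), (33, 10, 1), (34, 2, 3), (38, 3,
  2), (41, 3, 2), (36, 6, 2), (36, 1, 2), (37, 1, 2), (38, 7, 2), (32, 8, 1), (33, 6, 1), (22,
  6, 1), (23, 1, 2), (26, 7, 2), (27, 9, 2), (28, 1, 2), (31, 7, 2), (32, 7, 2), (33, 1, 2),
  (36, 6, 1), (37, 8, 1), (38, 6, 1), (20, 10, 1), (21, 3, 2), (19, 5, 2), (16, 11, 2), (15, 9,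
  2), (16, 7, 2), (14, 10, 3), (15, 2, 5), (12, 7, 3), (13, 4, 5), (15, 11, 3), (12, 9, 2),
  (13, 7, 2), (11, 10, 3), (12, 2, 5), (10, 10, 3), (11, 2, 5), (8, 7, 2), (9, 9, 2), (10, 7,
  2), (15, 2, 3), (16, 10, 1), (11, 3, 2), (12, 10, 1), (13, 3, 2), (16, 3, 2), (17, 10, 1),
  (7, 2, 3), (8, 11, 2), (9, 5, 2), (6, 11, 2), (5, 11, 2), (6, 5, 2)])]

/-- The conjugates 0, part 0. -/
def cV00 : List (List ℕ × List (ℕ × ℕ × ℕ)) :=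
  [([74], [(4, 13, 2), (9, 13, 0), (0, 14, 0), (20, 4, 3), (17, 8, 2), (18, 10, 2), (18, 2, 3),
  (21, 11, 2), (16, 6, 2), (16, 0, 3), (17, 7, 2), (18, 9, 2), (13, 8, 2), (14, 8, 2), (15, 10,
  2), (15, 10, 1), (16, 3, 2), (12, 6, 2), (13, 6, 2), (14, 5, 2), (9, 8, 2), (10, 10, 2), (11,
  8, 2), (12, 8, 2), (12, 6, 1), (13, 9, 2), (14, 1, 2), (17, 7, 2), (11, 6, 1), (12, 9, 2),
  (13, 1, 2), (10, 3, 2), (13, 11, 2), (8, 6, 2), (8, 1, 2), (7, 7, 2), (8, 9, 2), (10, 2, 3),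
  (11, 10, 1), (12, 10, 1), (9, 3, 2), (12, 10, 1), (13, 3, 2), (7, 4, 3), (5, 10, 2), (5, 2,
  3), (6, 11, 2), (7, 5, 2), (4, 11, 2)]), ([38], [(4, 1, 0), (3, 1, 0), (6, 1, 0), (5, 1, 0),
  (8, 1, 0), (7, 1, 0), (8, 6, 3)]), ([37], [(16, 12, 0), (7, 12, 7), (2, 12, 0), (0, 15, 0),
  (21, 7, 0), (22, 1, 0), (20, 3, 0), (20, 6, 0), (18, 10, 0), (19, 8, 0), (19, 1, 0), (18, 1,
  0), (19, 6, 3), (20, 8, 3), (21, 8, 3), (22, 6, 3), (17, 0, 5), (18, 6, 3), (19, 8, 3), (20,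
  8, 3), (21, 6, 3), (13, 9, 0), (14, 7, 0), (15, 2, 5), (16, 10, 3), (17, 10, 3), (18, 2, 5),
  (12, 11, 0), (13, 4, 5), (12, 4, 5), (13, 2, 3), (16, 11, 2), (17, 2, 3), (11, 5, 2), (15, 4,
  3), (13, 10, 2), (9, 9, 0), (10, 9, 0), (11, 7, 0), (12, 0, 5), (15, 6, 3), (16, 8, 3), (17,
  0, 5), (20, 6, 3), (8, 11, 0), (9, 11, 0), (10, 3, 0), (7, 5, 0), (8, 5, 0), (5, 7, 0), (6,
  7, 0), (7, 9, 0), (8, 1, 0), (11, 7, 0), (4, 3, 0), (5, 3, 0), (6, 11, 0), (10, 2, 5), (9,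
  10, 3), (7, 7, 0), (8, 8, 3), (9, 2, 5), (7, 4, 5), (4, 11, 0), (2, 10, 0)]), ([85, 68],
  [(10, 12, 5), (5, 13, 3), (13, 11, 0), (12, 9, 0), (13, 0, 5), (16, 6, 3), (17, 6, 3), (18,
  0, 5), (11, 9, 0), (12, 0, 5), (10, 11, 0), (4, 6, 3), (5, 1, 0), (8, 9, 0), (9, 9, 0), (10,
  7, 0), (11, 9, 0), (3, 2, 5), (11, 2, 5), (14, 2, 5), (10, 2, 5), (8, 5, 0), (5, 11, 0), (6,
  3, 0), (9, 11, 0), (3, 6, 0), (4, 5, 0), (7, 3, 0), (10, 11, 0), (11, 3, 0), (5, 5, 0), (9,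
  5, 0), (7, 10, 0), (3, 8, 3), (4, 8, 3), (5, 7, 0), (6, 1, 0), (9, 7, 0), (10, 9, 0), (11, 1,
  0), (14, 7, 0), (15, 7, 0), (8, 3, 0), (11, 11, 0), (12, 1, 0), (15, 7, 0), (16, 7, 0), (17,
  1, 0), (9, 3, 0), (12, 11, 0), (14, 3, 0), (17, 3, 0), (11, 5, 0), (14, 6, 0), (17, 6, 0),
  (13, 8, 0), (14, 10, 0), (15, 10, 0), (16, 8, 0), (16, 6, 3), (17, 0, 5), (20, 9, 0), (15, 2,
  5), (14, 2, 5), (12, 6, 0), (12, 0, 5), (15, 7, 0), (16, 7, 0), (10, 10, 3), (7, 6, 3), (8,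
  6, 3), (9, 8, 3), (6, 2, 3), (9, 2, 3), (10, 11, 2), (9, 4, 3), (10, 4, 3), (8, 10, 1), (9,
  10, 1), (10, 2, 3), (13, 11, 2), (13, 3, 2), (10, 11, 2), (7, 10, 1)]), ([83, 81], [(9, 13,
  1), (23, 12, 7), (6, 12, 7), (5, 1, 0), (6, 1, 0), (7, 1, 0), (8, 6, 3), (9, 8, 3), (10, 8,
  3), (11, 6, 3), (7, 2, 3), (10, 11, 2), (11, 11, 2), (12, 2, 3), (9, 4, 3), (12, 4, 3), (13,
  2, 3), (11, 4, 3), (13, 10, 2), (13, 10, 1), (14, 3, 2), (12, 5, 2), (10, 5, 2), (13, 5, 2),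
  (8, 10, 1), (9, 10, 1), (10, 3, 2), (13, 3, 2), (14, 11, 2), (15, 11, 2), (6, 3, 2), (9, 10,
  1), (10, 10, 1), (11, 3, 2), (5, 3, 2), (8, 5, 2), (11, 5, 2), (7, 5, 2), (4, 7, 0), (5, 1,
  0), (8, 9, 0), (9, 7, 0), (10, 8, 3), (11, 7, 0), (12, 8, 3), (13, 1, 0), (16, 6, 3), (17, 1,
  0), (20, 6, 3), (21, 8, 3), (22, 8, 3), (23, 6, 3), (3, 3, 0), (5, 11, 0), (6, 3, 0), (9, 10,
  3), (10, 3, 0), (13, 10, 3), (3, 6, 0), (4, 5, 0), (8, 4, 5), (6, 10, 0), (13, 2, 5), (10, 4,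
  5), (13, 6, 0), (8, 10, 0), (15, 2, 5), (18, 10, 3), (19, 10, 3), (20, 2, 5), (13, 6, 0),
  (15, 4, 5), (18, 4, 5), (10, 8, 0), (11, 11, 3), (12, 8, 0), (13, 11, 3), (10, 0, 5), (8, 2,
  5), (6, 2, 5), (7, 2, 5), (3, 8, 3), (4, 0, 5), (7, 0, 5), (8, 7, 0), (9, 7, 0), (2, 10, 3),
  (2, 8, 2), (3, 8, 2), (4, 11, 1)]), ([17, 28], [(10, 13, 1), (16, 13, 5), (0, 14, 0), (20, 4,
  3), (17, 8, 2), (18, 10, 2), (18, 2, 3), (21, 11, 2), (16, 6, 2), (16, 0, 3), (17, 7, 2),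
  (18, 9, 2), (15, 0, 3), (18, 7, 2), (19, 9, 2), (20, 0, 3), (23, 6, 1), (17, 2, 3), (20, 11,
  2), (21, 0, 3), (24, 6, 1), (18, 2, 3), (21, 11, 2), (22, 0, 3), (25, 6, 1), (19, 2, 3), (22,
  11, 2), (24, 3, 2), (21, 4, 3), (24, 6, 2), (31, 10, 0), (27, 1, 2), (30, 6, 1), (31, 8, 1),
  (32, 1, 2), (35, 6, 1), (36, 1, 2), (24, 1, 2), (27, 7, 2), (28, 1, 2), (20, 10, 1), (21, 2,
  3), (24, 11, 2), (16, 6, 1), (17, 6, 1), (18, 6, 1), (19, 8, 1), (20, 6, 1), (21, 0, 3), (24,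
  7, 2), (25, 9, 2), (26, 2, 3), (24, 4, 3), (22, 0, 3), (25, 8, 1), (26, 7, 2), (27, 9, 2),
  (28, 0, 3), (31, 7, 2), (24, 10, 1), (25, 2, 3), (28, 11, 2), (33, 3, 2), (36, 10, 1), (32,
  3, 2), (29, 7, 2), (30, 7, 2), (31, 8, 1), (32, 3, 2), (30, 5, 2), (29, 5, 2), (26, 11, 2),
  (27, 11, 2), (25, 4, 5), (26, 4, 5), (23, 7, 2), (24, 7, 2), (25, 8, 1), (22, 2, 5), (25, 2,
  5), (26, 11, 0), (21, 2, 5), (15, 3, 0), (18, 3, 0), (19, 3, 0), (20, 11, 0), (18, 3, 0),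
  (21, 11, 0), (22, 3, 0), (20, 5, 0), (14, 7, 2), (15, 1, 2), (18, 1, 2), (19, 7, 2), (20, 1,
  2), (23, 9, 2), (24, 6, 1), (25, 8, 1), (26, 1, 2), (29, 6, 1), (30, 6, 1), (31, 8, 1), (11,
  2, 3), (14, 11, 2), (15, 2, 3), (8, 4, 3), (11, 6, 2), (5, 8, 2), (6, 10, 2), (11, 4, 3), (8,
  8, 2), (9, 10, 2), (8, 0, 3), (11, 7, 2), (12, 9, 2), (13, 0, 3), (16, 7, 2), (6, 2, 3), (4,
  6, 2), (8, 2, 3), (11, 11, 2), (6, 6, 2), (10, 0, 3), (13, 7, 2), (7, 2, 3), (10, 11, 2),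
  (14, 2, 3), (11, 0, 3), (14, 0, 3), (15, 7, 2), (8, 2, 3), (11, 11, 2), (16, 11, 2), (17, 3,
  2), (20, 10, 1), (15, 4, 3), (11, 8, 2), (12, 8, 2), (13, 10, 2), (13, 2, 3), (16, 11, 2),
  (10, 6, 2), (11, 6, 2), (11, 0, 3), (14, 7, 2), (15, 9, 2), (16, 7, 2), (17, 8, 1), (18, 3,
  2), (21, 3, 2), (22, 10, 1), (16, 5, 2), (13, 11, 2), (15, 5, 2), (13, 11, 1), (12, 1, 2),
  (10, 1, 2), (11, 1, 2), (6, 6, 1), (7, 6, 1), (4, 0, 3), (5, 6, 1), (6, 6, 1)]), ([51, 48,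
  6], [(15, 12, 7), (31, 13, 0), (40, 13, 6), (47, 13, 7), (0, 14, 0), (20, 4, 3), (17, 8, 2),
  (18, 10, 2), (18, 2, 3), (21, 11, 2), (16, 6, 2), (16, 0, 3), (17, 7, 2), (18, 9, 2), (16, 2,
  3), (19, 11, 2), (12, 4, 3), (15, 6, 2), (16, 6, 2), (9, 8, 2), (10, 10, 2), (18, 5, 2), (31,
  4, 3), (34, 1, 2), (37, 8, 1), (38, 6, 1), (39, 6, 1), (32, 3, 2), (30, 4, 3), (27, 2, 3),
  (30, 2, 3), (31, 11, 2), (23, 6, 2), (24, 6, 2), (25, 6, 2), (25, 0, 3), (28, 0, 3), (29, 7,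
  2), (30, 9, 2), (31, 7, 2), (32, 10, 1), (33, 3, 2), (36, 3, 2), (31, 5, 2), (28, 11, 2),
  (28, 11, 1), (27, 1, 2), (30, 8, 1), (31, 6, 1), (26, 1, 2), (24, 1, 2), (27, 1, 2), (23, 1,
  2), (20, 0, 3), (23, 10, 1), (22, 10, 1), (19, 0, 3), (20, 0, 3), (21, 8, 1), (19, 0, 3),
  (22, 8, 1), (21, 10, 1), (20, 8, 1), (21, 6, 1), (22, 8, 1), (23, 8, 1), (18, 1, 2), (21, 8,
  1), (22, 6, 1), (23, 8, 1), (24, 8, 1), (15, 11, 2), (16, 3, 2), (11, 4, 3), (14, 6, 2), (15,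
  6, 2), (16, 4, 3), (13, 8, 2), (14, 8, 2), (14, 7, 2), (15, 9, 2), (16, 1, 2), (19, 7, 2),
  (13, 7, 2), (14, 9, 2), (15, 1, 2), (10, 10, 1), (11, 2, 3), (14, 2, 3), (15, 11, 2), (8, 6,
  2), (9, 5, 2), (5, 8, 2), (6, 10, 2), (7, 8, 2), (7, 6, 1), (8, 9, 2), (9, 0, 3), (12, 0, 3),
  (13, 7, 2), (14, 9, 2), (6, 3, 2), (9, 11, 2), (4, 6, 2), (16, 10, 1), (17, 3, 2), (20, 10,
  1), (21, 10, 1), (15, 5, 2), (12, 10, 2), (13, 10, 2), (13, 3, 2), (16, 11, 2), (12, 3, 2),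
  (13, 5, 2), (12, 5, 2), (7, 8, 2), (8, 8, 2), (6, 6, 2), (7, 6, 2), (4, 1, 2)])]

/-- The conjugates 0, part 1. -/
def cV01 : List (List ℕ × List (ℕ × ℕ × ℕ)) :=
  [([52, 68, 56], [(21, 13, 2), (38, 13, 2), (29, 13, 3), (0, 14, 0), (20, 4, 3), (17, 8, 2),
  (18, 10, 2), (18, 2, 3), (21, 11, 2), (16, 6, 2), (16, 0, 3), (17, 7, 2), (18, 9, 2), (16, 2,
  3), (19, 11, 2), (20, 2, 3), (23, 2, 3), (12, 4, 3), (15, 6, 2), (16, 6, 2), (9, 8, 2), (10,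
  10, 2), (16, 4, 3), (12, 8, 2), (13, 8, 2), (14, 10, 2), (20, 5, 2), (19, 5, 2), (16, 10, 2),
  (17, 10, 2), (23, 0, 3), (26, 7, 2), (27, 0, 3), (30, 9, 2), (31, 9, 2), (32, 6, 1), (33, 6,
  1), (25, 2, 3), (28, 0, 3), (31, 9, 2), (32, 9, 2), (33, 6, 1), (34, 6, 1), (26, 2, 3), (30,
  11, 2), (31, 11, 2), (32, 3, 2), (35, 3, 2), (36, 3, 2), (37, 10, 1), (38, 10, 1), (39, 3,
  2), (28, 6, 2), (29, 4, 3), (32, 4, 3), (36, 5, 2), (39, 5, 2), (32, 11, 1), (33, 11, 1),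
  (34, 11, 1), (28, 8, 1), (29, 7, 2), (30, 7, 2), (31, 1, 2), (34, 1, 2), (35, 1, 2), (36, 6,
  1), (37, 6, 1), (38, 9, 2), (39, 1, 2), (42, 7, 2), (27, 10, 1), (28, 2, 3), (31, 2, 3), (24,
  6, 1), (25, 6, 1), (26, 8, 1), (27, 6, 1), (28, 0, 3), (31, 0, 3), (32, 7, 2), (30, 0, 3),
  (33, 7, 2), (31, 0, 3), (34, 7, 2), (35, 3, 2), (34, 3, 2), (35, 11, 2), (32, 1, 2), (35, 7,
  2), (36, 9, 2), (29, 1, 2), (32, 1, 2), (33, 1, 2), (22, 1, 2), (25, 6, 1), (26, 6, 1), (27,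
  8, 1), (28, 6, 1), (29, 1, 2), (32, 1, 2), (17, 3, 2), (20, 11, 2), (21, 11, 2), (22, 3, 2),
  (16, 3, 2), (15, 4, 3), (18, 4, 3), (13, 7, 2), (14, 8, 1), (15, 7, 2), (16, 7, 2), (17, 9,
  2), (18, 1, 2), (21, 7, 2), (12, 7, 2), (13, 8, 1), (14, 7, 2), (15, 7, 2), (16, 9, 2), (17,
  1, 2), (10, 2, 3), (13, 2, 3), (14, 10, 1), (15, 2, 3), (18, 2, 3), (19, 11, 2), (8, 6, 2),
  (11, 5, 2), (5, 8, 2), (6, 10, 2), (7, 8, 2), (8, 10, 2), (9, 10, 2), (7, 0, 3), (8, 0, 3),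
  (9, 6, 1), (10, 9, 2), (11, 0, 3), (14, 0, 3), (15, 7, 2), (16, 9, 2), (8, 3, 2), (11, 11,
  2), (4, 6, 2), (5, 6, 2), (6, 6, 2), (18, 3, 2), (17, 3, 2), (16, 10, 1), (17, 3, 2), (15, 5,
  2), (12, 11, 2), (11, 9, 2), (12, 7, 2), (10, 9, 2), (11, 7, 2), (7, 2, 5), (10, 10, 3), (11,
  10, 3), (12, 2, 5), (9, 4, 5), (12, 4, 5), (6, 7, 2), (7, 0, 3), (10, 9, 2), (11, 7, 2), (12,
  7, 2), (13, 8, 1), (14, 0, 3), (17, 6, 1), (9, 11, 2), (10, 2, 3), (13, 2, 3), (14, 10, 1),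
  (15, 0, 3), (18, 6, 1), (12, 2, 3), (15, 10, 1), (16, 0, 3), (19, 6, 1), (20, 0, 3), (23, 0,
  3), (24, 7, 2), (25, 9, 2), (26, 0, 3), (29, 7, 2), (13, 2, 3), (16, 10, 1), (18, 3, 2), (15,
  5, 2), (18, 6, 2), (23, 2, 3), (26, 11, 2), (20, 6, 2), (21, 6, 2), (27, 5, 2), (30, 5, 2),
  (31, 5, 2), (24, 8, 2), (25, 10, 2), (25, 3, 2), (28, 3, 2), (29, 3, 2), (30, 11, 2), (23, 6,
  2), (23, 1, 2), (22, 1, 2), (19, 1, 2), (22, 7, 2), (23, 9, 2), (18, 1, 2), (14, 10, 1), (15,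
  3, 2), (18, 11, 2), (11, 3, 2), (14, 3, 2), (15, 10, 1), (16, 3, 2), (14, 5, 2), (8, 9, 2),
  (9, 6, 1), (10, 6, 1), (11, 1, 2), (14, 1, 2), (15, 8, 1), (16, 6, 1), (17, 9, 2), (18, 1,
  2), (21, 7, 2), (22, 7, 2), (23, 9, 2), (5, 7, 2), (6, 1, 2), (9, 9, 2), (10, 6, 1), (11, 6,
  1), (12, 1, 2), (4, 7, 2), (5, 1, 2), (3, 2, 3), (2, 6, 1), (3, 0, 3), (6, 7, 2), (8, 11, 2),
  (9, 3, 2), (12, 3, 2), (7, 11, 2), (8, 3, 2), (6, 4, 3), (5, 10, 1), (6, 2, 3), (9, 11, 2),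
  (7, 2, 3), (10, 11, 2), (11, 2, 3), (9, 4, 3), (4, 8, 1), (5, 6, 1), (6, 6, 1), (7, 0, 3),
  (10, 8, 1), (11, 7, 2), (12, 9, 2), (13, 0, 3), (16, 7, 2), (17, 7, 2), (9, 10, 1), (10, 2,
  3), (13, 11, 2), (14, 0, 3), (17, 7, 2), (18, 7, 2), (19, 0, 3), (11, 2, 3), (14, 11, 2),
  (16, 2, 3), (19, 2, 3), (13, 4, 3), (16, 6, 2), (22, 10, 1), (23, 3, 2), (26, 11, 2), (21,
  10, 1), (22, 3, 2), (19, 6, 2), (20, 5, 2), (15, 8, 2), (16, 10, 2), (17, 10, 2), (18, 8, 2),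
  (18, 6, 1), (19, 9, 2), (20, 1, 2), (23, 7, 2), (24, 7, 2), (25, 9, 2), (17, 3, 2), (20, 11,
  2), (16, 3, 2), (14, 6, 2), (14, 1, 2), (17, 7, 2), (18, 7, 2), (19, 9, 2), (12, 10, 1), (8,
  8, 1), (9, 6, 1), (10, 6, 1), (11, 8, 1), (7, 11, 0), (8, 3, 0), (11, 3, 0), (12, 11, 0), (6,
  5, 0), (11, 5, 0), (8, 10, 0), (9, 10, 0), (10, 5, 0), (9, 10, 3), (10, 3, 0), (11, 2, 5),
  (14, 10, 3), (8, 10, 3), (9, 2, 5), (12, 2, 5), (7, 4, 5), (5, 4, 5), (6, 4, 5), (3, 2, 5),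
  (4, 2, 5), (5, 11, 0), (6, 11, 0), (9, 4, 5), (8, 4, 5), (6, 11, 3), (15, 9, 1), (19, 3, 2),
  (22, 10, 1), (23, 10, 1), (24, 3, 2), (18, 3, 2), (15, 3, 2), (14, 11, 2), (15, 3, 2), (13,
  4, 3), (11, 10, 2), (11, 2, 3), (12, 11, 2), (15, 5, 2), (18, 5, 2), (14, 5, 2), (13, 5, 2),
  (9, 11, 3), (8, 11, 3), (8, 3, 2), (7, 11, 2), (4, 5, 0), (4, 9, 1)]), ([11, 28], [(13, 13,
  5), (0, 13, 4), (0, 14, 0), (14, 0, 3), (17, 7, 2), (18, 9, 2), (11, 2, 3), (14, 11, 2), (8,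
  4, 3), (11, 6, 2), (5, 8, 2), (6, 10, 2), (14, 2, 3), (17, 11, 2), (11, 4, 3), (14, 6, 2),
  (8, 8, 2), (9, 10, 2), (14, 4, 3), (11, 8, 2), (12, 10, 2), (9, 2, 3), (7, 6, 2), (8, 2, 3),
  (9, 2, 3), (10, 2, 3), (13, 2, 3), (14, 2, 3), (7, 6, 1), (8, 6, 1), (9, 6, 1), (10, 0, 3),
  (13, 0, 3), (14, 0, 3), (15, 7, 2), (6, 3, 2), (9, 3, 2), (10, 3, 2), (4, 6, 2), (14, 2, 3),
  (11, 0, 3), (12, 0, 3), (8, 6, 2), (9, 6, 2), (4, 1, 2), (3, 1, 2), (4, 1, 2)]), ([78, 66,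
  28], [(13, 13, 5), (17, 12, 2), (31, 13, 7), (0, 12, 3), (9, 2, 5), (12, 11, 0), (8, 2, 5),
  (14, 2, 3), (6, 8, 1), (7, 7, 2), (8, 0, 3), (11, 6, 1), (12, 6, 1), (13, 8, 1), (14, 0, 3),
  (17, 6, 1), (5, 10, 1), (6, 2, 3), (4, 5, 2), (8, 3, 2), (11, 3, 2), (12, 10, 1), (6, 6, 2),
  (11, 0, 3), (14, 6, 1), (10, 10, 0), (11, 9, 3), (12, 11, 3), (16, 0, 3), (17, 0, 3), (16, 0,
  3), (19, 6, 1), (20, 9, 2), (21, 0, 3), (24, 6, 1), (25, 6, 1), (18, 3, 2), (21, 11, 2), (22,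
  0, 3), (25, 6, 1), (26, 6, 1), (24, 3, 2), (27, 3, 2), (23, 6, 1), (24, 1, 2), (27, 1, 2),
  (28, 8, 1), (29, 8, 1), (30, 6, 1), (17, 6, 1), (18, 1, 2), (21, 7, 2), (22, 9, 2), (23, 1,
  2), (26, 6, 1), (27, 1, 2), (15, 1, 2), (18, 6, 1), (19, 1, 2), (12, 11, 2), (13, 2, 3), (11,
  9, 2), (12, 6, 1), (13, 0, 3), (16, 7, 2), (17, 3, 2), (14, 7, 2), (13, 2, 5), (10, 10, 3),
  (9, 4, 3), (4, 10, 2), (5, 8, 2), (6, 11, 1), (7, 11, 1), (7, 2, 5), (10, 10, 3), (6, 2, 5),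
  (9, 4, 5), (8, 4, 5), (7, 11, 2), (8, 2, 3), (11, 10, 1), (6, 4, 3), (5, 8, 1), (6, 7, 2),
  (7, 9, 2), (8, 0, 3), (11, 7, 2), (12, 8, 1), (4, 10, 1), (5, 2, 3), (8, 11, 2), (13, 3, 2),
  (11, 5, 2), (8, 8, 2), (9, 10, 2), (9, 3, 2), (12, 11, 2), (7, 6, 2), (7, 1, 2), (8, 7, 2),
  (9, 9, 2), (10, 7, 2), (13, 10, 1), (14, 10, 1), (12, 9, 0), (13, 7, 0), (11, 10, 1), (12, 3,
  2), (10, 5, 2), (7, 11, 2), (5, 6, 0), (6, 4, 5), (4, 8, 0), (3, 6, 0), (2, 9, 1)]), ([77,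
  4], [(6, 5, 2), (9, 5, 2), (4, 1, 0), (5, 9, 0), (6, 7, 0), (7, 7, 0), (8, 8, 3), (9, 7, 0),
  (4, 11, 0), (5, 3, 0), (8, 3, 0), (9, 10, 3), (10, 3, 0), (2, 6, 0), (3, 5, 0), (8, 4, 5),
  (5, 10, 0), (6, 10, 0), (2, 8, 3), (3, 7, 0), (4, 1, 0), (7, 1, 0), (8, 6, 3), (9, 9, 0),
  (10, 1, 0), (13, 7, 0), (7, 2, 5), (10, 11, 0), (12, 3, 0), (9, 5, 0), (12, 6, 0), (11, 8,
  0), (12, 10, 0), (13, 8, 0), (14, 11, 3), (15, 11, 3), (15, 2, 3), (18, 2, 3), (13, 0, 5),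
  (12, 7, 0), (13, 0, 5), (16, 0, 5), (17, 6, 3), (8, 11, 2), (9, 3, 2), (7, 4, 3), (6, 9, 0),
  (7, 6, 3), (8, 8, 3), (5, 9, 0), (6, 6, 3), (7, 8, 3), (4, 10, 1), (5, 2, 3), (8, 11, 2),
  (11, 3, 2), (9, 5, 2), (6, 11, 2), (5, 4, 5)]), ([28, 24, 28], [(10, 13, 1), (0, 12, 3), (15,
  12, 3), (38, 12, 2), (0, 15, 0), (21, 8, 3), (22, 8, 3), (23, 6, 3), (24, 0, 5), (20, 10, 3),
  (21, 10, 3), (22, 2, 5), (19, 4, 5), (20, 4, 5), (17, 6, 3), (18, 6, 3), (19, 9, 0), (20, 0,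
  5), (23, 7, 0), (16, 2, 5), (17, 2, 5), (18, 11, 0), (13, 9, 0), (14, 0, 5), (17, 0, 5), (18,
  7, 0), (19, 9, 0), (12, 11, 0), (9, 9, 0), (10, 7, 0), (11, 9, 0), (5, 9, 0), (6, 7, 0), (7,
  1, 0), (10, 9, 0), (11, 7, 0), (12, 9, 0), (4, 11, 0), (5, 3, 0), (3, 5, 0), (6, 1, 0), (9,
  9, 0), (10, 7, 0), (11, 9, 0), (12, 1, 0), (15, 7, 0), (16, 9, 0), (17, 1, 0), (20, 7, 0),
  (21, 1, 0), (4, 3, 0), (2, 5, 0), (8, 11, 0), (9, 3, 0), (12, 11, 0), (6, 6, 0), (7, 5, 0),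
  (4, 10, 0), (5, 8, 0), (12, 3, 0), (15, 11, 0), (9, 5, 0), (12, 6, 0), (7, 10, 0), (15, 3,
  0), (12, 5, 0), (15, 6, 0), (9, 8, 0), (10, 10, 0), (16, 1, 0), (14, 3, 0), (11, 5, 0), (14,
  6, 0), (17, 1, 0), (15, 3, 0), (12, 5, 0), (15, 6, 0), (18, 1, 0), (16, 3, 0), (13, 5, 0),
  (16, 6, 0), (19, 1, 0), (17, 3, 0), (14, 5, 0), (17, 6, 0), (20, 1, 0), (18, 3, 0), (15, 5,
  0), (18, 6, 0), (21, 1, 0), (19, 3, 0), (16, 5, 0), (19, 6, 0), (22, 1, 0), (20, 3, 0), (17,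
  5, 0), (20, 6, 0), (23, 1, 0), (21, 3, 0), (18, 5, 0), (21, 6, 0), (26, 10, 3), (27, 10, 3),
  (28, 2, 5), (25, 10, 3), (26, 10, 3), (27, 2, 5), (23, 6, 0), (24, 4, 5), (27, 4, 5), (20, 8,
  0), (21, 10, 0), (22, 8, 0), (22, 6, 3), (23, 6, 3), (24, 9, 0), (25, 0, 5), (28, 7, 0), (29,
  7, 0), (21, 2, 5), (24, 2, 5), (25, 11, 0), (19, 6, 0), (19, 0, 5), (22, 0, 5), (23, 7, 0),
  (24, 9, 0), (10, 10, 3), (11, 10, 3), (12, 10, 3), (13, 10, 3), (14, 10, 3), (15, 10, 3),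
  (16, 10, 3), (17, 10, 3), (9, 8, 3), (10, 8, 3), (11, 8, 3), (12, 8, 3), (13, 8, 3), (14, 8,
  3), (15, 8, 3), (16, 8, 3), (5, 7, 0), (6, 1, 0), (9, 7, 0), (10, 8, 3), (11, 8, 3), (12, 8,
  3), (13, 8, 3), (14, 8, 3), (15, 8, 3), (16, 8, 3), (17, 8, 3), (4, 3, 0), (5, 1, 0), (8, 7,
  0), (9, 8, 3), (10, 8, 3), (11, 8, 3), (12, 8, 3), (13, 8, 3), (14, 8, 3), (15, 8, 3), (16,
  8, 3), (17, 1, 0), (20, 7, 0), (21, 9, 0), (22, 1, 0), (25, 7, 0), (26, 7, 0), (3, 3, 0), (7,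
  3, 0), (10, 10, 3), (11, 10, 3), (12, 10, 3), (13, 10, 3), (14, 10, 3), (15, 10, 3), (16, 10,
  3), (17, 10, 3), (5, 6, 0), (17, 3, 0), (20, 11, 0), (7, 4, 5), (10, 4, 5), (11, 4, 5), (12,
  4, 5), (13, 4, 5), (14, 4, 5), (15, 4, 5), (16, 4, 5), (17, 6, 0), (22, 3, 0), (25, 3, 0),
  (19, 5, 0), (22, 6, 0), (16, 8, 0), (17, 10, 0), (25, 10, 0), (24, 10, 0), (35, 2, 5), (38,
  10, 3), (39, 10, 3), (40, 2, 5), (34, 2, 5), (33, 2, 5), (32, 2, 5), (31, 2, 5), (30, 2, 5),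
  (29, 2, 5), (28, 2, 5), (27, 2, 5), (37, 4, 5), (40, 4, 5), (36, 4, 5), (35, 4, 5), (34, 4,
  5), (33, 4, 5), (32, 4, 5), (31, 4, 5), (30, 4, 5), (29, 4, 5), (26, 6, 3), (27, 0, 5), (30,
  8, 3), (31, 6, 3), (32, 9, 0), (33, 9, 0), (34, 9, 0), (35, 9, 0), (36, 9, 0), (37, 9, 0),
  (38, 9, 0), (39, 9, 0), (40, 6, 3), (41, 9, 0), (42, 0, 5), (45, 7, 0), (24, 2, 5), (23, 2,
  5), (20, 7, 0), (21, 10, 3), (22, 2, 5), (25, 11, 0), (26, 11, 0), (27, 11, 0), (28, 11, 0),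
  (29, 11, 0), (30, 11, 0), (31, 11, 0), (32, 11, 0), (33, 2, 5), (36, 11, 0), (20, 4, 5), (17,
  11, 0), (15, 7, 1), (16, 5, 2), (14, 7, 1), (15, 5, 2), (13, 7, 1), (14, 5, 2), (12, 7, 1),
  (13, 5, 2), (11, 7, 1), (12, 5, 2), (10, 7, 1), (11, 5, 2), (9, 7, 1), (10, 5, 2), (8, 7, 1),
  (9, 5, 2), (7, 9, 1), (7, 0, 5), (6, 7, 0), (7, 9, 0), (9, 7, 3), (10, 4, 5), (13, 4, 5), (7,
  10, 0), (8, 9, 3), (8, 7, 2), (9, 7, 2), (10, 8, 1), (7, 2, 5), (6, 2, 5), (3, 11, 0)]),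
  ([22], [(4, 0, 5), (5, 0, 5), (6, 0, 5), (7, 0, 5), (8, 0, 5), (9, 0, 5), (10, 0, 5), (11, 0,
  5), (12, 0, 5), (13, 0, 5), (2, 7, 3), (3, 7, 3), (4, 7, 3), (5, 7, 3), (6, 7, 3), (7, 7, 3),
  (8, 7, 3), (9, 7, 3), (10, 7, 3), (11, 7, 3)]), ([7, 15, 62, 25, 0], [(34, 12, 4), (3, 13,
  2), (10, 13, 2), (19, 9, 0), (20, 6, 3), (21, 0, 5), (24, 7, 0), (25, 7, 0), (26, 0, 5), (29,
  0, 5), (18, 9, 0), (19, 6, 3), (20, 0, 5), (17, 9, 0), (18, 6, 3), (19, 0, 5), (16, 11, 0),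
  (17, 2, 5), (15, 5, 0), (11, 7, 0), (12, 9, 0), (13, 7, 0), (14, 9, 0), (15, 0, 5), (18, 7,
  0), (10, 7, 0), (11, 9, 0), (12, 7, 0), (13, 9, 0), (14, 0, 5), (9, 3, 0), (10, 11, 0), (11,
  3, 0), (14, 11, 0), (9, 5, 0), (7, 10, 0), (4, 7, 0), (5, 9, 0), (6, 1, 0), (9, 7, 0), (10,
  9, 0), (11, 1, 0), (14, 7, 0), (15, 9, 0), (3, 3, 0), (4, 11, 0), (6, 3, 0), (9, 11, 0), (3,
  5, 0), (6, 6, 0), (19, 3, 0), (22, 3, 0), (10, 1, 0), (13, 7, 0), (14, 9, 0), (15, 1, 0),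
  (18, 1, 0), (19, 7, 0), (20, 1, 0), (23, 1, 0), (24, 6, 3), (25, 1, 0), (28, 1, 0), (29, 7,
  0), (7, 3, 0), (10, 11, 0), (4, 5, 0), (7, 6, 0), (12, 3, 0), (15, 11, 0), (9, 5, 0), (12, 6,
  0), (6, 8, 0), (7, 10, 0), (16, 3, 0), (12, 5, 0), (15, 6, 0), (16, 6, 0), (9, 8, 0), (10,
  10, 0), (19, 2, 5), (16, 6, 0), (17, 6, 0), (21, 1, 0), (24, 7, 0), (26, 10, 3), (26, 10, 2),
  (27, 10, 2), (28, 10, 2), (29, 10, 2), (30, 10, 2), (33, 2, 3), (34, 2, 3), (25, 0, 5), (28,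
  0, 5), (29, 0, 5), (30, 0, 5), (31, 0, 5), (32, 6, 3), (33, 0, 5), (36, 0, 5), (37, 6, 3),
  (38, 6, 3), (39, 8, 3), (40, 6, 3), (41, 0, 5), (24, 0, 5), (17, 0, 5), (20, 7, 0), (16, 0,
  5), (13, 1, 0), (16, 1, 0), (17, 7, 0), (10, 3, 0), (13, 11, 0), (8, 6, 0), (13, 1, 0), (16,
  7, 0), (17, 2, 5), (14, 7, 0), (12, 0, 5), (15, 7, 0), (9, 3, 0), (12, 11, 0), (8, 6, 3), (9,
  1, 0), (12, 7, 0), (13, 9, 0), (7, 2, 5), (5, 6, 0), (14, 2, 5), (13, 2, 5), (14, 10, 3),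
  (15, 2, 5), (9, 3, 0), (12, 11, 0), (7, 6, 0), (11, 4, 5), (4, 9, 1), (5, 10, 2), (6, 9, 1),
  (7, 11, 1), (6, 7, 0), (5, 3, 2), (4, 7, 0), (5, 1, 0), (8, 6, 3), (2, 10, 3), (3, 3, 0), (7,
  2, 5), (5, 6, 0), (5, 0, 5), (6, 7, 0), (7, 7, 0), (7, 2, 5), (6, 11, 0), (3, 6, 2), (2, 8,
  2)])]

/-- The conjugates 1, part 0. -/
def cV10 : List (List ℕ × List (ℕ × ℕ × ℕ)) :=
  [([64, 43], [(15, 13, 6), (11, 13, 6), (3, 13, 0), (0, 14, 0), (18, 0, 3), (21, 7, 2), (22,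
  9, 2), (23, 7, 2), (24, 0, 3), (27, 6, 1), (15, 2, 3), (18, 11, 2), (12, 4, 3), (15, 6, 2),
  (9, 8, 2), (10, 10, 2), (18, 2, 3), (21, 11, 2), (22, 2, 3), (15, 4, 3), (18, 6, 2), (12, 8,
  2), (13, 10, 2), (18, 4, 3), (15, 8, 2), (16, 10, 2), (22, 3, 2), (20, 6, 2), (18, 10, 2),
  (19, 8, 2), (20, 11, 1), (23, 3, 0), (24, 11, 0), (23, 5, 0), (26, 7, 3), (27, 7, 3), (21,
  10, 0), (24, 1, 2), (19, 1, 2), (20, 1, 2), (21, 6, 1), (22, 8, 1), (23, 1, 2), (15, 0, 3),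
  (18, 7, 2), (13, 2, 3), (11, 6, 2), (14, 0, 3), (17, 7, 2), (12, 2, 3), (18, 3, 2), (17, 10,
  1), (15, 7, 2), (16, 8, 1), (11, 6, 1), (12, 0, 3), (15, 7, 2), (16, 7, 2), (17, 8, 1), (18,
  0, 3), (21, 0, 3), (10, 3, 2), (8, 6, 2), (12, 2, 3), (15, 2, 3), (16, 10, 1), (10, 6, 2),
  (13, 5, 2), (16, 6, 2), (17, 6, 2), (5, 8, 2), (6, 10, 2), (7, 8, 2), (8, 11, 1), (9, 8, 2),
  (10, 10, 2), (11, 10, 2), (13, 8, 2), (14, 8, 2), (14, 8, 1), (15, 0, 3), (14, 10, 0), (15,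
  9, 3), (16, 11, 3), (13, 1, 2), (11, 3, 2), (10, 3, 2), (9, 6, 1), (10, 1, 2), (13, 7, 2),
  (14, 7, 2), (7, 1, 2), (6, 6, 1), (7, 1, 2), (5, 3, 2), (2, 7, 2)]), ([30, 18, 44], [(18, 13,
  6), (9, 12, 2), (45, 13, 5), (41, 13, 5), (0, 14, 0), (38, 7, 2), (37, 7, 2), (38, 7, 2),
  (39, 1, 2), (42, 6, 1), (43, 1, 2), (36, 7, 2), (37, 7, 2), (38, 1, 2), (35, 2, 3), (36, 2,
  3), (30, 7, 2), (31, 9, 2), (32, 9, 2), (33, 0, 3), (36, 0, 3), (37, 7, 2), (39, 3, 2), (38,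
  3, 2), (35, 7, 2), (36, 7, 2), (34, 7, 2), (35, 7, 2), (28, 1, 2), (31, 7, 2), (32, 9, 2),
  (33, 9, 2), (34, 1, 2), (37, 7, 2), (38, 7, 2), (25, 6, 1), (26, 1, 2), (29, 1, 2), (23, 3,
  2), (24, 3, 2), (19, 2, 3), (22, 11, 2), (16, 4, 3), (19, 6, 2), (13, 8, 2), (14, 10, 2),
  (18, 2, 3), (21, 11, 2), (15, 4, 3), (18, 6, 2), (18, 0, 3), (21, 7, 2), (22, 9, 2), (23, 7,
  2), (14, 10, 1), (15, 2, 3), (18, 11, 2), (12, 6, 2), (13, 5, 2), (9, 8, 2), (10, 10, 2),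
  (11, 8, 2), (17, 0, 3), (20, 7, 2), (21, 9, 2), (22, 7, 2), (14, 2, 3), (17, 11, 2), (24, 2,
  3), (27, 11, 2), (28, 11, 2), (18, 0, 3), (21, 7, 2), (22, 9, 2), (23, 7, 2), (24, 0, 3),
  (27, 6, 1), (28, 0, 3), (31, 7, 2), (32, 9, 2), (33, 9, 2), (15, 2, 3), (18, 11, 2), (20, 2,
  3), (23, 11, 2), (24, 2, 3), (17, 4, 3), (20, 6, 2), (22, 4, 3), (19, 8, 2), (20, 10, 2),
  (26, 3, 2), (24, 6, 2), (32, 2, 3), (35, 2, 3), (29, 4, 3), (32, 4, 3), (32, 10, 2), (33, 10,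
  2), (29, 9, 3), (30, 10, 0), (31, 10, 0), (31, 3, 0), (32, 3, 0), (29, 1, 2), (28, 7, 2),
  (29, 7, 2), (30, 1, 2), (33, 6, 1), (34, 6, 1), (35, 1, 2), (25, 2, 5), (26, 2, 3), (24, 0,
  3), (25, 7, 2), (26, 3, 2), (25, 3, 2), (23, 1, 2), (26, 7, 2), (20, 2, 3), (23, 11, 2), (18,
  6, 2), (18, 0, 3), (21, 7, 2), (22, 9, 2), (16, 10, 1), (17, 0, 3), (20, 7, 2), (21, 9, 2),
  (22, 0, 3), (25, 7, 2), (26, 0, 3), (19, 2, 3), (22, 11, 2), (24, 2, 3), (21, 4, 3), (24, 6,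
  2), (26, 6, 2), (23, 8, 2), (24, 10, 2), (25, 8, 2), (25, 1, 2), (24, 1, 2), (18, 6, 1), (19,
  0, 3), (22, 8, 1), (23, 7, 2), (24, 3, 2), (21, 10, 1), (20, 8, 1), (21, 7, 2), (11, 6, 1),
  (12, 9, 2), (13, 6, 1), (14, 6, 1), (15, 8, 1), (16, 1, 2), (19, 6, 1), (20, 1, 2), (23, 8,
  1), (24, 7, 2), (10, 3, 2), (13, 11, 2), (14, 3, 2), (17, 3, 2), (18, 10, 1), (8, 6, 2), (10,
  4, 3), (5, 8, 2), (6, 10, 2), (7, 8, 2), (8, 11, 1), (7, 1, 2), (6, 7, 2), (7, 9, 2), (8, 1,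
  2), (11, 1, 2), (12, 7, 2), (13, 8, 1), (5, 2, 3), (6, 11, 2), (2, 0, 3), (5, 0, 3), (6, 7,
  2), (7, 9, 2), (4, 0, 3), (7, 7, 2), (8, 9, 2), (12, 3, 2), (10, 5, 2), (8, 10, 2), (8, 3,
  2), (7, 11, 2), (5, 7, 2), (6, 9, 2), (7, 7, 2), (4, 2, 5), (7, 10, 3), (8, 2, 5), (6, 4, 5),
  (10, 5, 0), (8, 11, 3), (8, 3, 2), (9, 10, 1), (5, 11, 2), (6, 5, 2)]), ([68, 46], [(0, 13,
  3), (28, 12, 5), (7, 7, 0), (6, 7, 0), (7, 7, 0), (8, 1, 0), (11, 7, 0), (12, 9, 0), (13, 1,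
  0), (16, 1, 0), (5, 3, 0), (6, 3, 0), (8, 3, 0), (11, 11, 0), (6, 6, 0), (14, 6, 3), (15, 1,
  0), (18, 7, 0), (19, 1, 0), (22, 1, 0), (23, 1, 0), (12, 2, 5), (15, 2, 5), (8, 5, 0), (11,
  6, 0), (12, 6, 0), (3, 10, 0), (4, 10, 0), (5, 8, 0), (6, 10, 0), (15, 3, 0), (13, 6, 0),
  (19, 2, 5), (22, 2, 5), (23, 2, 5), (15, 6, 0), (16, 6, 0), (17, 6, 0), (17, 0, 5), (20, 0,
  5), (21, 0, 5), (22, 0, 5), (16, 0, 5), (15, 0, 5), (5, 1, 0), (6, 7, 0), (7, 9, 0), (4, 1,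
  0), (5, 7, 0), (6, 9, 0), (7, 1, 0), (4, 3, 0), (7, 11, 0), (6, 5, 0), (9, 6, 0), (8, 8, 0),
  (7, 6, 0), (6, 9, 1), (7, 10, 2), (6, 0, 5), (3, 6, 3)]), ([58, 62], [(6, 2, 5), (9, 11, 0),
  (4, 7, 3), (4, 0, 3), (5, 6, 1), (6, 8, 1), (5, 5, 0), (3, 0, 3), (6, 9, 2), (7, 6, 1), (8,
  8, 1), (7, 5, 0), (5, 11, 2), (6, 11, 2), (7, 3, 2), (10, 10, 1), (9, 5, 2), (11, 11, 1),
  (12, 11, 1), (13, 11, 1), (14, 11, 1), (14, 2, 5), (17, 2, 5), (13, 2, 5), (12, 2, 5), (11,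
  2, 5), (8, 11, 0), (4, 9, 2), (5, 9, 2), (6, 6, 1), (7, 8, 1), (8, 6, 1), (9, 6, 1), (10, 9,
  2), (11, 2, 5), (9, 4, 5), (8, 4, 5)]), ([68, 91, 68], [(16, 12, 7), (37, 12, 6), (0, 15, 0),
  (21, 6, 3), (22, 0, 5), (25, 7, 0), (20, 2, 5), (17, 9, 0), (18, 0, 5), (21, 7, 0), (16, 11,
  0), (13, 9, 0), (14, 7, 0), (15, 9, 0), (21, 1, 0), (18, 3, 0), (19, 3, 0), (20, 1, 0), (23,
  1, 0), (18, 3, 0), (22, 1, 0), (25, 1, 0), (24, 1, 0), (28, 6, 3), (25, 1, 0), (28, 6, 3),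
  (29, 6, 3), (27, 2, 5), (30, 2, 5), (26, 6, 3), (27, 0, 5), (30, 0, 5), (31, 8, 3), (32, 6,
  3), (33, 0, 5), (36, 9, 0), (23, 0, 5), (26, 0, 5), (27, 6, 3), (28, 0, 5), (21, 0, 5), (24,
  0, 5), (19, 3, 0), (9, 9, 0), (10, 7, 0), (11, 1, 0), (14, 9, 0), (15, 7, 0), (16, 9, 0),
  (17, 1, 0), (20, 1, 0), (21, 6, 3), (22, 6, 3), (23, 1, 0), (26, 7, 0), (8, 11, 0), (9, 3,
  0), (7, 5, 0), (11, 11, 0), (12, 3, 0), (15, 11, 0), (9, 6, 0), (10, 5, 0), (7, 10, 0), (8,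
  8, 0), (16, 2, 5), (19, 2, 5), (12, 5, 0), (15, 6, 0), (16, 6, 0), (10, 10, 0), (18, 1, 0),
  (21, 7, 0), (19, 1, 0), (22, 7, 0), (23, 1, 0), (21, 3, 0), (26, 2, 5), (25, 2, 5), (23, 6,
  0), (23, 0, 5), (24, 7, 0), (25, 7, 0), (20, 6, 3), (19, 2, 3), (20, 3, 2), (18, 3, 2), (21,
  3, 2), (16, 3, 2), (19, 3, 2), (15, 3, 2), (14, 7, 0), (15, 1, 0), (18, 6, 3), (19, 1, 0),
  (22, 6, 3), (23, 1, 0), (26, 6, 3), (27, 6, 3), (17, 2, 5), (21, 2, 5), (19, 6, 0), (26, 10,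
  3), (27, 2, 5), (23, 2, 5), (26, 2, 5), (27, 10, 3), (28, 2, 5), (21, 6, 0), (24, 4, 5), (21,
  0, 5), (24, 0, 5), (25, 8, 3), (26, 6, 3), (27, 9, 0), (28, 0, 5), (31, 7, 0), (32, 7, 0),
  (19, 0, 5), (22, 0, 5), (16, 6, 3), (17, 0, 5), (20, 0, 5), (13, 7, 0), (14, 0, 5), (17, 6,
  3), (18, 0, 5), (10, 3, 0), (11, 11, 0), (12, 3, 0), (10, 5, 0), (8, 1, 0), (9, 8, 3), (10,
  7, 0), (11, 9, 0), (12, 1, 0), (15, 7, 0), (8, 10, 3), (9, 3, 0), (12, 11, 0), (6, 6, 0), (7,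
  4, 5), (16, 2, 5), (13, 7, 0), (6, 8, 3), (7, 6, 3), (8, 9, 0), (9, 1, 0), (12, 7, 0), (13,
  9, 0), (14, 7, 0), (15, 1, 0), (11, 3, 0), (14, 11, 0), (15, 3, 0), (13, 5, 0), (18, 1, 0),
  (21, 1, 0), (16, 3, 0), (14, 5, 0), (20, 1, 0), (23, 1, 0), (24, 10, 3), (25, 2, 5), (28, 11,
  0), (23, 10, 3), (24, 2, 5), (22, 8, 3), (23, 6, 3), (24, 0, 5), (27, 7, 0), (28, 7, 0), (29,
  9, 0), (21, 8, 3), (22, 6, 3), (23, 0, 5), (19, 0, 5), (22, 8, 3), (23, 6, 3), (24, 0, 5),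
  (17, 3, 0), (15, 5, 0), (10, 6, 3), (11, 1, 0), (14, 8, 3), (15, 8, 3), (16, 8, 3), (17, 7,
  0), (18, 9, 0), (19, 1, 0), (22, 7, 0), (13, 10, 3), (14, 10, 3), (15, 10, 3), (16, 3, 0),
  (19, 11, 0), (23, 10, 3), (24, 2, 5), (22, 4, 5), (19, 8, 0), (20, 10, 0), (20, 2, 5), (23,
  11, 0), (18, 6, 0), (18, 0, 5), (19, 7, 0), (20, 9, 0), (21, 7, 0), (12, 8, 3), (13, 8, 3),
  (14, 8, 3), (15, 6, 3), (11, 11, 2), (12, 11, 2), (13, 11, 2), (14, 2, 3), (10, 4, 3), (13,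
  4, 3), (14, 4, 3), (14, 10, 2), (14, 3, 2), (9, 10, 1), (10, 2, 3), (13, 2, 3), (7, 5, 2),
  (8, 5, 2), (10, 2, 3), (13, 2, 3), (12, 2, 3), (13, 3, 2), (16, 10, 1), (11, 3, 2), (14, 3,
  2), (9, 3, 2), (12, 3, 2), (15, 5, 2), (14, 5, 2), (19, 11, 0), (20, 4, 5), (16, 11, 1), (16,
  2, 5), (17, 11, 0), (18, 2, 5), (21, 11, 0), (22, 2, 5), (13, 11, 0), (12, 5, 2), (11, 11,
  0), (12, 5, 0), (10, 3, 0), (11, 11, 0), (9, 3, 0), (12, 11, 0), (13, 3, 0), (7, 4, 5), (6,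
  4, 5), (11, 5, 0), (9, 10, 0), (5, 8, 3), (6, 6, 3), (7, 9, 0), (8, 1, 0), (11, 7, 0), (12,
  9, 0), (13, 1, 0), (16, 7, 0), (4, 10, 3), (5, 2, 5), (8, 11, 0), (3, 4, 5), (8, 3, 0), (11,
  11, 0), (5, 5, 0), (8, 6, 0), (3, 11, 3), (10, 1, 0), (13, 7, 0), (7, 3, 0), (10, 11, 0), (4,
  5, 0), (7, 6, 0), (12, 3, 0), (9, 5, 0), (12, 6, 0), (6, 8, 0), (7, 10, 0), (9, 8, 0), (10,
  10, 0), (10, 2, 5), (8, 6, 0), (8, 0, 5), (7, 7, 0), (8, 9, 0), (3, 11, 2), (4, 3, 2), (2, 4,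
  3), (4, 11, 1)]), ([47, 69, 25, 26, 64, 43], [(14, 12, 1), (47, 13, 7), (0, 13, 3), (9, 13,
  2), (23, 13, 3), (0, 14, 0), (20, 5, 2), (17, 8, 2), (18, 10, 2), (18, 3, 2), (21, 11, 2),
  (16, 6, 2), (16, 1, 2), (15, 7, 2), (16, 9, 2), (10, 0, 3), (13, 7, 2), (14, 9, 2), (15, 0,
  3), (18, 7, 2), (19, 9, 2), (7, 2, 3), (10, 11, 2), (4, 4, 3), (7, 6, 2), (12, 2, 3), (15,
  11, 2), (9, 4, 3), (12, 6, 2), (6, 8, 2), (7, 10, 2), (16, 4, 3), (13, 8, 2), (14, 10, 2),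
  (15, 4, 3), (18, 6, 2), (16, 4, 3), (19, 6, 2), (18, 8, 2), (17, 6, 2), (18, 5, 2), (17, 8,
  1), (18, 6, 1), (19, 9, 2), (20, 1, 2), (14, 10, 1), (15, 10, 1), (16, 10, 1), (17, 3, 2),
  (20, 11, 2), (12, 6, 2), (13, 5, 2), (16, 5, 2), (17, 5, 2), (9, 8, 2), (10, 10, 2), (11, 8,
  2), (11, 6, 1), (12, 6, 1), (13, 6, 1), (14, 9, 2), (15, 1, 2), (18, 7, 2), (19, 9, 2), (10,
  3, 2), (13, 3, 2), (14, 3, 2), (15, 11, 2), (8, 6, 2), (8, 1, 2), (7, 1, 2), (8, 1, 2), (9,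
  7, 2), (10, 9, 2), (2, 0, 3), (5, 8, 1), (6, 7, 2), (3, 0, 3), (6, 8, 1), (7, 7, 2), (4, 0,
  3), (7, 8, 1), (8, 7, 2), (9, 0, 3), (12, 7, 2), (13, 9, 2), (14, 0, 3), (17, 7, 2), (18, 9,
  2), (19, 0, 3), (6, 10, 1), (7, 2, 3), (11, 2, 3), (14, 11, 2), (9, 6, 2), (14, 2, 3), (17,
  11, 2), (11, 4, 3), (14, 6, 2), (18, 0, 3), (21, 6, 1), (15, 2, 3), (18, 11, 2), (12, 4, 3),
  (15, 6, 2), (19, 0, 3), (22, 6, 1), (16, 2, 3), (19, 11, 2), (13, 4, 3), (16, 6, 2), (20, 0,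
  3), (23, 6, 1), (17, 2, 3), (20, 11, 2), (14, 4, 3), (17, 6, 2), (22, 3, 2), (19, 4, 3), (22,
  6, 2), (16, 8, 2), (17, 10, 2), (22, 6, 2), (23, 6, 2), (24, 5, 2), (27, 5, 2), (19, 8, 2),
  (20, 11, 1), (21, 8, 2), (22, 8, 2), (22, 6, 1), (23, 6, 1), (24, 9, 2), (25, 1, 2), (21, 6,
  1), (22, 6, 1), (23, 9, 2), (24, 1, 2), (19, 1, 2), (22, 6, 1), (23, 6, 1), (24, 9, 2), (25,
  1, 2), (17, 2, 3), (15, 6, 2), (15, 0, 3), (18, 7, 2), (10, 10, 1), (11, 10, 1), (12, 10, 1),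
  (13, 10, 1), (17, 3, 2), (16, 3, 2), (17, 11, 2), (14, 1, 2), (17, 7, 2), (18, 9, 2), (9, 8,
  1), (10, 8, 1), (11, 8, 1), (12, 8, 1), (13, 1, 2), (8, 10, 1), (9, 10, 1), (10, 10, 1), (11,
  10, 1), (5, 8, 1), (6, 6, 1), (7, 8, 1), (8, 8, 1), (9, 8, 1), (10, 8, 1), (4, 11, 0), (5, 3,
  0), (8, 11, 0), (9, 11, 0), (10, 11, 0), (11, 11, 0), (6, 3, 0), (9, 11, 0), (10, 11, 0),
  (11, 11, 0), (12, 11, 0), (8, 5, 0), (11, 5, 0), (12, 5, 0), (13, 5, 0), (7, 10, 3), (8, 3,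
  0), (11, 3, 0), (12, 3, 0), (13, 3, 0), (12, 3, 0), (13, 3, 0), (15, 6, 0), (15, 8, 3), (16,
  8, 3), (17, 6, 3), (18, 0, 5), (14, 10, 3), (15, 10, 3), (16, 2, 5), (11, 2, 5), (14, 2, 5),
  (15, 10, 3), (16, 10, 3), (17, 2, 5), (10, 2, 5), (9, 2, 5), (3, 11, 0), (4, 2, 5), (7, 2,
  5), (8, 10, 3), (9, 2, 5), (12, 2, 5), (2, 11, 0), (3, 2, 5), (7, 4, 5), (16, 4, 5), (19, 4,
  5), (24, 2, 5), (22, 7, 3), (22, 0, 3), (25, 6, 1), (20, 3, 2), (18, 5, 2), (17, 5, 2), (15,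
  3, 2), (18, 11, 2), (19, 11, 2), (11, 3, 2), (14, 3, 2), (15, 3, 2), (16, 3, 2), (10, 3, 2),
  (8, 5, 2), (6, 3, 2), (9, 11, 2), (4, 3, 2), (5, 3, 2), (19, 4, 5), (20, 4, 3), (18, 2, 3),
  (21, 11, 2), (16, 6, 2), (17, 2, 3), (20, 11, 2), (13, 4, 3), (16, 4, 3), (17, 6, 2), (19, 4,
  3), (16, 8, 2), (17, 10, 2), (17, 2, 3), (20, 11, 2), (15, 6, 2), (16, 2, 3), (19, 11, 2),
  (14, 6, 2), (15, 2, 3), (18, 11, 2), (19, 2, 3), (22, 2, 3), (12, 5, 2), (15, 6, 2), (17, 4,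
  3), (14, 8, 2), (15, 10, 2), (21, 0, 3), (24, 0, 3), (25, 0, 3), (26, 0, 3), (27, 0, 3), (28,
  0, 3), (29, 0, 3), (19, 11, 2), (26, 0, 3), (31, 5, 0), (27, 6, 1), (28, 8, 1), (29, 6, 1),
  (30, 8, 1), (31, 1, 2), (25, 1, 2), (28, 6, 1), (29, 8, 1), (30, 6, 1), (31, 8, 1), (32, 1,
  2), (24, 1, 2), (23, 1, 2), (22, 1, 2), (21, 1, 2), (20, 1, 2), (18, 11, 2), (14, 0, 3), (17,
  7, 2), (18, 9, 2), (19, 9, 2), (25, 3, 2), (28, 10, 1), (29, 3, 2), (32, 10, 1), (24, 3, 2),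
  (23, 3, 2), (22, 3, 2), (21, 3, 2), (20, 3, 2), (17, 4, 3), (20, 4, 3), (16, 10, 1), (17, 2,
  3), (20, 2, 3), (21, 11, 2), (27, 5, 2), (26, 5, 2), (25, 5, 2), (24, 5, 2), (23, 5, 2), (22,
  5, 2), (19, 11, 2), (20, 11, 2), (21, 11, 2), (22, 11, 2), (23, 11, 2), (24, 11, 2), (15, 8,
  1), (16, 6, 1), (17, 0, 3), (20, 9, 2), (21, 9, 2), (22, 9, 2), (23, 9, 2), (24, 9, 2), (25,
  9, 2), (26, 7, 2), (27, 8, 1), (27, 11, 3), (28, 11, 3), (27, 3, 2), (28, 11, 2), (19, 11,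
  2), (20, 11, 2), (21, 11, 2), (22, 11, 2), (23, 11, 2), (24, 11, 2), (25, 4, 3), (24, 4, 3),
  (23, 4, 3), (18, 9, 2), (19, 9, 2), (20, 9, 2), (21, 7, 2), (22, 9, 2), (17, 10, 3), (18, 10,
  3), (19, 10, 3), (20, 2, 5), (23, 10, 3), (16, 4, 5), (17, 4, 5), (18, 4, 5), (14, 2, 5),
  (15, 2, 5), (16, 2, 5), (17, 11, 0), (11, 11, 0), (10, 11, 0), (9, 11, 0), (8, 5, 2), (2, 10,
  0), (3, 10, 0)]), ([37, 61], [(8, 5, 2), (7, 11, 0), (8, 3, 0), (11, 10, 3), (12, 3, 0), (6,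
  5, 0), (10, 4, 5), (8, 10, 0), (11, 3, 0), (13, 7, 3), (21, 2, 5), (19, 2, 5), (22, 2, 5),
  (17, 2, 5), (20, 2, 5), (16, 2, 5), (8, 2, 5), (9, 11, 0), (10, 4, 5), (6, 10, 2), (3, 3,
  2)])]

/-- The conjugates 1, part 1. -/
def cV11 : List (List ℕ × List (ℕ × ℕ × ℕ)) :=
  [([78], [(4, 7, 3), (6, 5, 2), (9, 7, 3), (7, 4, 5), (4, 1, 2), (5, 7, 2), (6, 8, 1), (7, 1,
  2), (10, 6, 1), (4, 2, 3), (7, 10, 1), (2, 7, 1), (5, 8, 0), (4, 7, 1)]), ([37, 92, 58, 19],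
  [(10, 12, 2), (18, 12, 7), (11, 13, 4), (12, 5, 2), (11, 5, 2), (10, 5, 2), (5, 6, 1), (6, 1,
  2), (9, 1, 2), (10, 1, 2), (11, 8, 1), (12, 6, 1), (13, 9, 2), (14, 9, 2), (15, 9, 2), (16,
  1, 2), (3, 3, 2), (4, 3, 2), (8, 10, 1), (9, 3, 2), (12, 11, 2), (13, 11, 2), (14, 11, 2),
  (4, 7, 1), (5, 7, 1), (6, 7, 1), (7, 5, 2), (19, 4, 5), (18, 10, 3), (19, 2, 5), (22, 11, 0),
  (21, 5, 0), (22, 5, 0), (25, 6, 0), (17, 8, 3), (18, 6, 3), (19, 0, 5), (22, 8, 3), (23, 8,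
  3), (24, 7, 0), (25, 9, 0), (15, 0, 5), (18, 8, 3), (19, 6, 3), (20, 0, 5), (10, 2, 5), (13,
  10, 3), (14, 10, 3), (15, 10, 3), (8, 4, 5), (6, 6, 3), (7, 9, 0), (8, 0, 5), (11, 7, 0),
  (12, 8, 3), (13, 8, 3), (14, 8, 3), (5, 6, 3), (6, 9, 0), (7, 0, 5), (4, 6, 3), (5, 9, 0),
  (6, 0, 5), (3, 2, 5), (6, 11, 0), (2, 2, 5), (15, 10, 3), (16, 2, 5), (11, 4, 5), (14, 4, 5),
  (15, 4, 5), (16, 4, 5), (6, 9, 3), (7, 10, 0), (8, 10, 0), (9, 10, 0), (9, 2, 5), (12, 2, 5),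
  (13, 2, 5), (14, 2, 5), (15, 11, 0), (8, 2, 5), (7, 2, 5), (5, 7, 3), (17, 10, 3), (18, 10,
  3), (19, 3, 0), (22, 11, 0), (21, 5, 0), (24, 2, 5), (27, 11, 0), (23, 2, 5), (20, 10, 3),
  (19, 4, 3), (18, 4, 3), (16, 2, 5), (14, 7, 3), (14, 0, 3), (17, 6, 1), (11, 3, 2), (14, 10,
  1), (10, 3, 2), (9, 3, 2), (6, 3, 2), (9, 3, 2), (10, 3, 2), (15, 7, 2), (16, 9, 2), (17, 2,
  5), (9, 2, 5), (12, 2, 5), (13, 2, 5), (14, 2, 5), (15, 11, 0), (16, 2, 5), (19, 10, 3), (20,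
  2, 5), (8, 2, 5), (7, 2, 5), (12, 5, 0), (16, 4, 5), (14, 11, 3), (18, 5, 0), (16, 11, 3),
  (16, 3, 2), (13, 10, 1), (3, 3, 2)]), ([31, 92, 58, 19], [(16, 12, 7), (42, 12, 7), (41, 12,
  7), (0, 15, 0), (21, 6, 3), (22, 0, 5), (25, 7, 0), (20, 2, 5), (17, 9, 0), (18, 0, 5), (21,
  7, 0), (16, 11, 0), (13, 9, 0), (14, 7, 0), (15, 9, 0), (23, 2, 5), (26, 11, 0), (22, 2, 5),
  (20, 5, 0), (18, 3, 0), (19, 10, 3), (20, 3, 0), (23, 11, 0), (18, 4, 5), (15, 10, 0), (16,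
  10, 0), (19, 3, 0), (22, 11, 0), (23, 3, 0), (26, 3, 0), (27, 11, 0), (21, 5, 0), (26, 5, 0),
  (29, 6, 0), (23, 10, 0), (24, 10, 0), (25, 5, 0), (28, 6, 0), (29, 6, 0), (24, 10, 3), (25,
  3, 0), (28, 11, 0), (27, 5, 0), (30, 2, 5), (33, 11, 0), (29, 2, 5), (26, 10, 3), (25, 4, 3),
  (24, 4, 3), (23, 11, 0), (24, 2, 5), (22, 5, 0), (20, 10, 3), (21, 10, 3), (22, 3, 0), (25,
  11, 0), (26, 6, 0), (31, 2, 5), (32, 10, 1), (33, 2, 3), (31, 5, 2), (29, 9, 1), (28, 7, 1),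
  (25, 8, 0), (26, 10, 0), (27, 8, 0), (28, 2, 3), (27, 7, 0), (28, 0, 5), (31, 6, 3), (26, 3,
  0), (24, 6, 0), (24, 1, 0), (25, 7, 0), (23, 1, 0), (26, 7, 0), (27, 1, 0), (30, 6, 3), (16,
  2, 5), (19, 11, 0), (20, 2, 5), (23, 10, 3), (24, 10, 3), (25, 2, 5), (15, 2, 5), (12, 11,
  0), (14, 5, 0), (18, 4, 5), (21, 4, 5), (16, 11, 3), (23, 3, 0), (21, 6, 0), (25, 2, 5), (23,
  6, 0), (19, 11, 3), (20, 8, 0), (21, 10, 0), (22, 8, 0), (23, 11, 3), (22, 0, 5), (19, 8, 3),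
  (20, 6, 3), (9, 9, 0), (10, 7, 0), (11, 9, 0), (12, 7, 0), (13, 8, 3), (14, 7, 0), (15, 0,
  5), (18, 6, 3), (19, 6, 3), (20, 8, 3), (21, 6, 3), (8, 11, 0), (9, 3, 0), (12, 11, 0), (13,
  3, 0), (16, 10, 3), (17, 3, 0), (7, 5, 0), (9, 5, 0), (7, 10, 0), (11, 4, 5), (9, 10, 0), (5,
  7, 0), (6, 1, 0), (9, 7, 0), (10, 1, 0), (13, 6, 3), (14, 9, 0), (15, 1, 0), (18, 7, 0), (4,
  3, 0), (6, 3, 0), (4, 6, 0), (8, 2, 5), (11, 11, 0), (6, 6, 0), (13, 2, 5), (12, 2, 5), (13,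
  10, 3), (14, 2, 5), (12, 4, 5), (9, 8, 0), (10, 11, 3), (12, 11, 3), (15, 5, 2), (14, 5, 2),
  (12, 3, 2), (11, 11, 2), (12, 11, 2), (8, 6, 0), (2, 10, 0), (3, 8, 0), (4, 10, 0), (5, 8,
  0), (6, 11, 3), (7, 8, 0), (7, 8, 3), (5, 0, 5)]), ([73, 65, 30], [(7, 12, 5), (4, 12, 3),
  (16, 12, 3), (0, 15, 0), (21, 6, 3), (22, 0, 5), (25, 7, 0), (20, 2, 5), (17, 9, 0), (18, 0,
  5), (21, 7, 0), (16, 11, 0), (13, 9, 0), (14, 7, 0), (15, 9, 0), (19, 4, 5), (22, 4, 5), (18,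
  10, 3), (19, 2, 5), (22, 2, 5), (23, 11, 0), (17, 4, 5), (15, 10, 0), (15, 2, 5), (16, 11,
  0), (12, 11, 0), (9, 9, 0), (10, 7, 0), (11, 9, 0), (12, 7, 0), (13, 9, 0), (14, 0, 5), (17,
  7, 0), (18, 9, 0), (8, 11, 0), (9, 3, 0), (12, 11, 0), (13, 3, 0), (16, 11, 0), (7, 5, 0),
  (9, 5, 0), (7, 10, 0), (5, 7, 0), (6, 1, 0), (9, 7, 0), (10, 9, 0), (11, 1, 0), (14, 7, 0),
  (15, 9, 0), (4, 3, 0), (6, 3, 0), (9, 11, 0), (4, 6, 0), (8, 1, 0), (11, 7, 0), (12, 9, 0),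
  (13, 1, 0), (16, 7, 0), (17, 9, 0), (5, 3, 0), (8, 11, 0), (10, 3, 0), (13, 11, 0), (7, 5,
  0), (10, 6, 0), (16, 5, 0), (13, 8, 0), (14, 10, 0), (15, 5, 0), (14, 10, 3), (15, 3, 0),
  (18, 11, 0), (12, 6, 0), (13, 4, 5), (9, 8, 0), (10, 10, 0), (11, 8, 0), (11, 6, 3), (12, 9,
  0), (13, 1, 0), (16, 7, 0), (17, 9, 0), (10, 2, 5), (13, 11, 0), (8, 6, 0), (12, 1, 0), (15,
  7, 0), (16, 9, 0), (14, 3, 0), (17, 11, 0), (16, 4, 5), (15, 10, 3), (16, 2, 5), (19, 11, 0),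
  (13, 6, 3), (14, 8, 3), (15, 6, 3), (16, 0, 5), (19, 7, 0), (20, 9, 0), (8, 0, 5), (11, 7,
  0), (12, 9, 0), (13, 0, 5), (16, 6, 3), (17, 8, 3), (18, 6, 3), (19, 0, 5), (6, 10, 3), (4,
  6, 3), (5, 8, 3), (6, 3, 0), (9, 11, 0), (11, 2, 5), (14, 10, 3), (15, 2, 5), (8, 5, 0), (11,
  7, 3), (13, 4, 5), (10, 9, 3), (11, 11, 3), (23, 0, 3), (24, 7, 2), (23, 2, 3), (26, 2, 3),
  (22, 6, 1), (21, 6, 1), (22, 9, 2), (18, 3, 0), (21, 11, 0), (22, 3, 0), (25, 10, 3), (20, 5,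
  0), (24, 4, 5), (22, 10, 0), (22, 2, 5), (23, 11, 0), (19, 10, 3), (18, 4, 3), (17, 11, 0),
  (18, 2, 5), (15, 7, 3), (16, 5, 0), (13, 11, 3), (14, 9, 3), (17, 10, 1), (14, 6, 1), (15, 8,
  1), (16, 8, 1), (17, 1, 2), (20, 6, 1), (13, 3, 2), (12, 10, 1), (13, 10, 1), (9, 7, 3), (8,
  8, 2), (8, 8, 1), (7, 11, 0), (6, 5, 2), (2, 10, 0)]), ([63, 44, 24, 45, 62], [(13, 13, 1),
  (48, 12, 2), (14, 1, 2), (17, 6, 1), (18, 8, 1), (19, 8, 1), (20, 6, 1), (21, 1, 2), (24, 7,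
  2), (13, 1, 2), (12, 1, 2), (11, 1, 2), (10, 1, 2), (9, 1, 2), (8, 1, 2), (7, 1, 2), (5, 6,
  1), (6, 1, 2), (3, 3, 2), (4, 3, 2), (14, 3, 2), (17, 10, 1), (18, 10, 1), (19, 3, 2), (13,
  3, 2), (12, 3, 2), (11, 3, 2), (10, 3, 2), (9, 3, 2), (8, 3, 2), (7, 3, 2), (6, 3, 2), (4, 7,
  1), (14, 5, 2), (17, 5, 2), (13, 5, 2), (12, 5, 2), (11, 5, 2), (10, 5, 2), (9, 5, 2), (8, 5,
  2), (7, 5, 2), (6, 5, 2), (21, 2, 3), (24, 2, 3), (19, 7, 1), (17, 11, 1), (18, 9, 1), (19,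
  11, 1), (20, 11, 1), (20, 2, 5), (23, 2, 5), (19, 2, 5), (18, 6, 3), (19, 0, 5), (22, 7, 0),
  (23, 0, 5), (26, 6, 3), (27, 0, 5), (30, 0, 5), (31, 9, 0), (32, 7, 0), (17, 2, 5), (5, 11,
  0), (6, 3, 0), (9, 10, 3), (10, 10, 3), (11, 10, 3), (12, 10, 3), (13, 10, 3), (14, 10, 3),
  (15, 10, 3), (16, 10, 3), (4, 9, 0), (5, 6, 3), (6, 1, 0), (9, 7, 0), (10, 8, 3), (11, 8, 3),
  (12, 8, 3), (13, 8, 3), (14, 8, 3), (15, 8, 3), (16, 8, 3), (17, 8, 3), (18, 7, 0), (3, 11,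
  0), (4, 2, 5), (2, 11, 0), (3, 2, 5), (19, 3, 0), (7, 1, 0), (10, 7, 0), (11, 8, 3), (12, 8,
  3), (13, 8, 3), (14, 8, 3), (15, 8, 3), (16, 8, 3), (17, 8, 3), (18, 8, 3), (19, 1, 0), (22,
  7, 0), (9, 3, 0), (12, 10, 3), (13, 10, 3), (14, 10, 3), (15, 10, 3), (16, 10, 3), (17, 10,
  3), (18, 10, 3), (19, 10, 3), (23, 2, 5), (20, 7, 0), (8, 6, 3), (9, 1, 0), (12, 7, 0), (13,
  8, 3), (14, 8, 3), (15, 8, 3), (16, 8, 3), (17, 8, 3), (18, 8, 3), (19, 8, 3), (20, 8, 3),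
  (21, 7, 0), (33, 2, 5), (36, 10, 3), (37, 10, 3), (38, 2, 5), (32, 2, 5), (31, 2, 5), (30, 2,
  5), (29, 2, 5), (28, 2, 5), (27, 2, 5), (26, 2, 5), (25, 2, 5), (22, 11, 0), (31, 4, 5), (34,
  4, 5), (30, 4, 5), (29, 4, 5), (28, 4, 5), (27, 4, 5), (26, 4, 5), (25, 4, 5), (24, 4, 5),
  (23, 4, 5), (11, 11, 0), (10, 9, 0), (11, 7, 0), (7, 2, 3), (8, 3, 2), (4, 3, 2), (5, 3, 2),
  (6, 3, 2), (7, 3, 2), (2, 10, 0), (3, 10, 0), (4, 10, 0), (5, 10, 0)]), ([37, 88, 36], [(5,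
  6, 1), (6, 0, 3), (9, 0, 3), (10, 0, 3), (11, 0, 3), (12, 0, 3), (13, 0, 3), (14, 0, 3), (15,
  0, 3), (16, 0, 3), (17, 0, 3), (18, 7, 2), (3, 3, 2), (4, 3, 2), (15, 2, 3), (18, 2, 3), (4,
  6, 2), (5, 6, 2), (6, 6, 2), (7, 6, 2), (8, 6, 2), (9, 6, 2), (10, 6, 2), (11, 6, 2), (12, 6,
  2), (13, 6, 2), (21, 5, 0), (22, 5, 0), (23, 5, 0), (24, 5, 0), (25, 5, 0), (26, 5, 0), (27,
  5, 0), (28, 5, 0), (29, 5, 0), (30, 5, 0), (18, 3, 2), (21, 3, 2), (22, 3, 2), (23, 3, 2),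
  (24, 3, 2), (25, 3, 2), (26, 3, 2), (27, 3, 2), (28, 3, 2), (29, 3, 2), (17, 6, 1), (18, 1,
  2), (21, 1, 2), (22, 1, 2), (23, 1, 2), (24, 1, 2), (25, 1, 2), (26, 1, 2), (27, 1, 2), (28,
  1, 2), (29, 1, 2), (30, 7, 2), (16, 3, 2), (13, 7, 2), (12, 7, 2), (11, 7, 2), (10, 7, 2),
  (9, 7, 2), (8, 7, 2), (7, 7, 2), (6, 7, 2), (5, 7, 2), (4, 7, 2), (3, 2, 5)]), ([27, 13, 36],
  [(26, 12, 4), (8, 12, 4), (0, 15, 0), (21, 6, 3), (22, 0, 5), (25, 7, 0), (20, 2, 5), (17, 9,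
  0), (18, 0, 5), (21, 7, 0), (16, 11, 0), (13, 9, 0), (14, 7, 0), (15, 9, 0), (18, 3, 0), (19,
  3, 0), (18, 3, 0), (20, 6, 0), (21, 4, 5), (20, 8, 3), (21, 6, 3), (22, 9, 0), (23, 0, 5),
  (19, 10, 3), (20, 2, 5), (23, 11, 0), (17, 2, 5), (20, 10, 3), (21, 2, 5), (16, 2, 5), (14,
  5, 0), (12, 3, 0), (13, 11, 0), (15, 4, 5), (14, 4, 5), (11, 11, 0), (12, 11, 0), (9, 9, 0),
  (10, 9, 0), (11, 9, 0), (12, 7, 0), (13, 7, 0), (14, 9, 0), (5, 9, 0), (6, 7, 0), (7, 1, 0),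
  (10, 9, 0), (11, 9, 0), (12, 9, 0), (13, 7, 0), (14, 7, 0), (15, 9, 0), (16, 1, 0), (4, 11,
  0), (5, 3, 0), (3, 5, 0), (7, 11, 0), (8, 11, 0), (9, 11, 0), (10, 3, 0), (13, 3, 0), (14,
  11, 0), (5, 6, 0), (6, 5, 0), (9, 5, 0), (10, 5, 0), (3, 10, 0), (4, 8, 0), (11, 5, 0), (14,
  6, 0), (8, 10, 0), (9, 10, 0), (10, 5, 0), (13, 6, 0), (24, 2, 5), (21, 4, 5), (13, 0, 5),
  (16, 7, 0), (17, 7, 0), (18, 0, 5), (21, 0, 5), (22, 6, 3), (23, 0, 5), (26, 8, 3), (27, 6,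
  3), (28, 9, 0), (29, 0, 5), (9, 10, 3), (10, 3, 0), (13, 11, 0), (4, 7, 0), (5, 7, 0), (6, 7,
  0), (7, 1, 0), (10, 8, 3), (11, 6, 3), (12, 1, 0), (15, 7, 0), (16, 9, 0), (3, 3, 0), (4, 3,
  0), (5, 3, 0), (7, 10, 3), (8, 2, 5), (5, 6, 0), (6, 4, 5), (15, 3, 0), (18, 3, 0), (13, 5,
  0), (11, 1, 0), (14, 8, 3), (15, 7, 0), (16, 9, 0), (17, 1, 0), (20, 1, 0), (21, 7, 0), (13,
  10, 3), (14, 3, 0), (17, 11, 0), (19, 1, 0), (22, 7, 0), (23, 2, 5), (20, 7, 0), (19, 3, 2),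
  (20, 2, 5), (21, 10, 3), (22, 2, 5), (25, 11, 0), (20, 4, 5), (17, 8, 0), (18, 11, 3), (17,
  0, 5), (20, 6, 3), (21, 9, 0), (22, 0, 5), (25, 7, 0), (26, 9, 0), (15, 3, 0), (12, 8, 3),
  (13, 6, 3), (14, 6, 3), (15, 1, 0), (18, 7, 0), (19, 2, 5), (18, 11, 0), (16, 7, 0), (17, 9,
  0), (15, 3, 2), (16, 10, 1), (11, 11, 2), (12, 2, 3), (15, 5, 2), (14, 5, 2), (13, 10, 1),
  (14, 3, 2), (17, 11, 2), (9, 3, 2), (12, 11, 2), (13, 3, 2), (16, 10, 1), (17, 3, 2), (7, 5,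
  2), (9, 4, 3), (7, 11, 1), (11, 5, 2), (9, 11, 1), (5, 7, 0), (6, 1, 0), (9, 6, 3), (10, 1,
  0), (13, 7, 0), (14, 8, 3), (15, 1, 0), (18, 6, 3), (19, 6, 3), (20, 8, 3), (4, 3, 0), (8, 2,
  5), (6, 6, 0), (10, 3, 0), (13, 10, 3), (8, 6, 0), (17, 5, 2), (14, 4, 3), (11, 9, 1), (12,
  11, 1), (12, 2, 5), (15, 10, 3), (10, 6, 0), (10, 0, 5), (7, 7, 0), (8, 8, 3), (9, 0, 5), (6,
  7, 0), (7, 8, 3), (8, 0, 5), (5, 3, 0), (8, 10, 3)])]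

/-- The relators of the target. -/
def cRel2 : List (List ℕ × List (ℕ × ℕ × ℕ)) :=
  [([28], [(0, 12, 3), (5, 12, 3), (10, 12, 2), (0, 15, 0), (21, 8, 3), (22, 8, 3), (23, 6, 3),
  (24, 0, 5), (20, 10, 3), (21, 10, 3), (22, 2, 5), (19, 4, 5), (20, 4, 5), (17, 6, 3), (18, 6,
  3), (19, 9, 0), (20, 0, 5), (23, 7, 0), (16, 2, 5), (17, 2, 5), (18, 11, 0), (13, 9, 0), (14,
  0, 5), (17, 0, 5), (18, 7, 0), (19, 9, 0), (12, 11, 0), (9, 9, 0), (10, 7, 0), (11, 9, 0),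
  (5, 9, 0), (6, 7, 0), (7, 1, 0), (10, 9, 0), (11, 7, 0), (12, 9, 0), (4, 11, 0), (5, 3, 0),
  (3, 5, 0), (16, 10, 3), (17, 10, 3), (18, 2, 5), (15, 4, 5), (18, 4, 5), (13, 10, 0), (13, 2,
  5), (12, 2, 5), (13, 11, 0), (7, 11, 0), (8, 3, 0), (11, 11, 0), (5, 6, 0), (6, 5, 0), (3,
  10, 0), (4, 8, 0), (4, 7, 0), (5, 9, 0), (6, 1, 0), (9, 7, 0), (10, 9, 0), (11, 7, 0), (12,
  9, 0), (13, 7, 0), (3, 3, 0), (4, 11, 0), (9, 4, 5), (6, 11, 0), (5, 9, 0), (5, 9, 3), (4, 9,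
  3), (3, 7, 3)]), ([], [(8, 13, 2), (20, 13, 2), (0, 12, 4), (12, 12, 4), (13, 10, 3), (14, 2,
  5), (11, 7, 3), (12, 4, 5), (21, 3, 2), (20, 10, 1), (21, 10, 1), (22, 3, 2), (16, 7, 3),
  (17, 7, 3), (17, 8, 1), (18, 8, 1), (19, 6, 1), (20, 1, 2), (23, 7, 2), (16, 8, 1), (17, 8,
  1), (18, 6, 1), (19, 1, 2), (15, 10, 1), (16, 10, 1), (17, 3, 2), (13, 5, 2), (14, 5, 2),
  (15, 5, 2), (11, 6, 1), (12, 6, 1), (13, 6, 1), (14, 9, 2), (15, 1, 2), (18, 7, 2), (10, 3,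
  2), (13, 3, 2), (14, 3, 2), (15, 11, 2), (9, 3, 2), (6, 7, 2), (7, 1, 2), (10, 1, 2), (11, 7,
  2), (12, 9, 2), (5, 7, 2), (6, 1, 2), (4, 2, 3), (15, 7, 1), (15, 3, 2), (18, 10, 1), (19,
  10, 1), (20, 3, 2), (13, 10, 1), (14, 3, 2), (12, 5, 2), (10, 10, 2), (10, 3, 2), (9, 11, 2),
  (11, 5, 2), (14, 5, 2), (10, 5, 2), (12, 7, 1), (13, 7, 1), (10, 11, 1), (11, 9, 1), (12, 11,
  1), (11, 0, 5), (12, 7, 0), (7, 8, 3), (8, 7, 0), (6, 11, 2), (7, 3, 2), (4, 7, 1), (5, 4,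
  3), (2, 10, 2), (3, 9, 1), (5, 11, 1), (6, 11, 1)]), ([69, 92, 94, 14], [(38, 12, 2), (32,
  12, 2), (0, 15, 0), (21, 6, 3), (22, 8, 3), (17, 9, 0), (18, 7, 0), (19, 1, 0), (22, 6, 3),
  (23, 8, 3), (24, 8, 3), (16, 11, 0), (17, 3, 0), (15, 5, 0), (18, 1, 0), (21, 6, 3), (22, 8,
  3), (23, 8, 3), (24, 8, 3), (16, 3, 0), (14, 5, 0), (19, 1, 0), (22, 6, 3), (23, 8, 3), (24,
  8, 3), (25, 8, 3), (26, 8, 3), (17, 3, 0), (15, 5, 0), (20, 1, 0), (23, 6, 3), (24, 8, 3),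
  (25, 8, 3), (26, 8, 3), (27, 8, 3), (28, 8, 3), (18, 3, 0), (16, 5, 0), (23, 4, 3), (26, 4,
  3), (27, 4, 3), (28, 4, 3), (29, 4, 3), (32, 4, 3), (35, 3, 2), (33, 4, 3), (36, 0, 5), (39,
  7, 0), (40, 8, 3), (30, 6, 3), (31, 9, 0), (32, 9, 0), (33, 6, 3), (34, 8, 3), (35, 0, 5),
  (22, 11, 0), (23, 2, 5), (26, 2, 5), (27, 2, 5), (28, 2, 5), (29, 2, 5), (30, 10, 3), (31, 2,
  5), (34, 11, 0), (35, 11, 0), (36, 2, 5), (39, 10, 3), (20, 6, 0), (21, 5, 0), (18, 10, 0),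
  (19, 8, 0), (27, 4, 5), (21, 11, 3), (22, 11, 3), (23, 11, 3), (24, 11, 3), (25, 11, 3), (29,
  5, 0), (32, 5, 0), (27, 11, 3), (19, 7, 0), (20, 0, 5), (23, 0, 5), (24, 0, 5), (25, 0, 5),
  (26, 0, 5), (27, 6, 3), (28, 0, 5), (31, 7, 0), (32, 7, 0), (33, 9, 0), (34, 0, 5), (37, 7,
  0), (38, 8, 3), (18, 3, 0), (13, 8, 3), (14, 8, 3), (15, 8, 3), (16, 1, 0), (19, 7, 0), (12,
  10, 3), (13, 10, 3), (14, 10, 3), (15, 1, 0), (18, 7, 0), (16, 1, 0), (19, 7, 0), (17, 1, 0),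
  (20, 7, 0), (18, 1, 0), (21, 7, 0), (22, 2, 5), (19, 7, 0), (18, 3, 2), (17, 3, 2), (16, 3,
  2), (15, 3, 2), (16, 2, 5), (17, 2, 5), (18, 11, 0), (9, 9, 0), (10, 7, 0), (11, 8, 3), (12,
  8, 3), (13, 8, 3), (14, 0, 5), (17, 0, 5), (18, 7, 0), (19, 9, 0), (8, 11, 0), (9, 3, 0),
  (12, 10, 3), (13, 10, 3), (14, 10, 3), (7, 5, 0), (5, 7, 0), (6, 9, 0), (7, 1, 0), (10, 7,
  0), (11, 8, 3), (12, 8, 3), (13, 8, 3), (4, 3, 0), (5, 11, 0), (6, 1, 0), (9, 7, 0), (10, 8,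
  3), (11, 8, 3), (12, 8, 3), (3, 3, 0), (6, 11, 0), (23, 2, 5), (26, 10, 3), (27, 10, 3), (28,
  2, 5), (22, 2, 5), (21, 2, 5), (20, 2, 5), (19, 2, 5), (17, 4, 5), (15, 10, 0), (15, 2, 5),
  (14, 11, 0), (19, 4, 5), (22, 4, 5), (18, 4, 5), (17, 4, 5), (16, 4, 5), (15, 4, 5), (9, 5,
  0), (6, 8, 0), (7, 10, 0), (7, 3, 0), (10, 11, 0), (11, 11, 0), (5, 6, 0), (5, 1, 0), (6, 7,
  0), (7, 9, 0), (8, 9, 0), (9, 7, 0), (4, 1, 0), (7, 7, 0), (8, 9, 0), (9, 9, 0), (10, 7, 0),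
  (11, 5, 0), (10, 5, 0), (9, 4, 5), (6, 11, 0), (5, 9, 0)]), ([36], [(4, 13, 2), (21, 13, 3),
  (0, 14, 0), (20, 4, 3), (17, 8, 2), (18, 10, 2), (18, 2, 3), (21, 11, 2), (16, 6, 2), (16, 0,
  3), (17, 7, 2), (18, 9, 2), (13, 8, 2), (14, 8, 2), (15, 10, 2), (15, 10, 1), (16, 3, 2),
  (12, 6, 2), (13, 6, 2), (14, 5, 2), (9, 8, 2), (10, 10, 2), (11, 8, 2), (12, 8, 2), (12, 6,
  1), (13, 9, 2), (14, 1, 2), (17, 7, 2), (11, 6, 1), (12, 9, 2), (13, 1, 2), (10, 3, 2), (13,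
  11, 2), (8, 6, 2), (8, 1, 2), (7, 7, 2), (8, 9, 2), (2, 0, 3), (5, 7, 2), (6, 9, 2), (7, 0,
  3), (10, 7, 2), (11, 9, 2), (12, 0, 3), (15, 0, 3), (16, 7, 2), (4, 2, 3), (7, 11, 2), (9, 2,
  3), (12, 11, 2), (6, 4, 3), (9, 6, 2), (19, 1, 2), (22, 7, 2), (17, 3, 2), (14, 7, 2), (15,
  2, 3), (16, 2, 3), (12, 8, 2), (13, 10, 2), (13, 10, 1), (14, 3, 2), (11, 6, 2), (12, 5, 2),
  (8, 8, 2), (9, 10, 2), (10, 8, 2), (10, 6, 1), (11, 9, 2), (12, 1, 2), (15, 7, 2), (9, 3, 2),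
  (12, 11, 2), (7, 6, 2), (7, 1, 2), (10, 7, 2), (11, 9, 2), (5, 10, 1), (3, 6, 1), (4, 8, 1),
  (2, 3, 0), (5, 11, 0), (4, 5, 0), (3, 10, 3), (4, 3, 0)]), ([37], [(3, 3, 2)])]

/-- The deductions. -/
def cLog : List (ℕ × ℕ) :=
  [(8, 22), (12, 22), (14, 22), (15, 22), (16, 22), (0, 35), (0, 49), (0, 57), (0, 81), (1,
  46), (1, 58), (1, 70), (1, 74), (1, 78), (3, 22), (3, 31), (3, 35), (3, 46), (3, 47), (3,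
  49), (3, 55), (3, 58), (3, 74), (3, 78), (3, 87), (3, 97), (3, 118), (3, 140), (3, 143), (3,
  144), (4, 22), (4, 31), (4, 45), (4, 47), (4, 74), (4, 79), (4, 87), (4, 97), (4, 98), (4,
  101), (4, 109), (4, 116), (4, 122), (4, 148), (5, 13), (5, 31), (5, 35), (5, 45), (5, 52),
  (5, 63), (5, 74), (5, 77), (5, 78), (5, 79), (5, 83), (5, 88), (5, 97), (5, 104), (5, 109),
  (5, 114), (5, 126), (9, 22), (10, 22), (11, 22), (0, 22), (0, 31), (0, 63), (0, 74), (0, 75),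
  (0, 77), (0, 78), (0, 79), (0, 97), (0, 98), (0, 109), (1, 18), (1, 20), (1, 33), (1, 53),
  (1, 77), (1, 85), (1, 110), (1, 112), (2, 79), (3, 3), (3, 5), (3, 7), (3, 10), (3, 18), (3,
  38), (3, 53), (3, 59), (3, 79), (3, 90), (3, 98), (3, 109), (3, 116), (3, 148), (4, 3), (4,
  5), (4, 13), (4, 20), (4, 57), (4, 63), (4, 73), (4, 111), (4, 125), (4, 139), (5, 3), (5,
  6), (5, 20), (5, 21), (5, 30), (5, 51), (5, 55), (5, 57), (5, 81), (5, 135), (6, 2), (6, 3),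
  (6, 18), (6, 22), (6, 24), (6, 31), (6, 32), (6, 38), (6, 58), (6, 70), (6, 78), (6, 81),
  (13, 22), (17, 22), (18, 22), (19, 22), (20, 22), (22, 22), (0, 3), (0, 5), (0, 13), (0, 21),
  (0, 44), (0, 47), (0, 48), (0, 58), (0, 70), (0, 93), (0, 95), (0, 104), (0, 105), (0, 116),
  (1, 2), (1, 3), (1, 17), (1, 21), (1, 25), (1, 35), (1, 45), (1, 48), (1, 67), (1, 68), (1,
  88), (1, 93), (1, 104), (2, 0), (2, 3), (2, 8), (2, 9), (2, 15), (2, 20), (2, 22), (2, 33),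
  (2, 38), (2, 41), (2, 43), (2, 44), (2, 55), (2, 61), (2, 62), (2, 69), (2, 74), (2, 78), (2,
  87), (2, 90), (2, 95), (2, 99), (2, 101), (2, 109), (2, 125), (3, 0), (3, 1), (3, 8), (3, 9),
  (3, 12), (3, 14), (3, 17), (3, 29), (3, 32), (3, 41), (3, 43), (3, 44), (3, 48), (3, 62), (3,
  68), (3, 77), (3, 80), (3, 82), (3, 84), (3, 99), (3, 101), (3, 104), (3, 105), (3, 112), (3,
  139), (3, 141), (4, 1), (4, 6), (4, 18), (4, 19), (4, 21), (4, 27), (4, 29), (4, 30), (4,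
  35), (4, 39), (4, 52), (4, 58), (4, 59), (4, 62), (4, 69), (4, 70), (4, 72), (4, 75), (4,
  77), (4, 78), (4, 81), (4, 84), (4, 91), (4, 94), (4, 104), (4, 117), (5, 0), (5, 5), (5, 9),
  (5, 10), (5, 12), (5, 15), (5, 16), (5, 17), (5, 22), (5, 25), (5, 39), (5, 41), (5, 43), (5,
  47), (5, 50), (5, 56), (5, 58), (5, 66), (5, 69), (5, 73), (5, 85), (5, 90), (5, 99), (5,
  101), (5, 106), (5, 107), (5, 112), (5, 113), (5, 115), (5, 116), (5, 128), (6, 14), (6, 15),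
  (6, 16), (6, 27), (6, 41), (6, 49), (6, 55), (6, 61), (6, 64), (6, 69), (6, 73), (6, 75), (6,
  79), (6, 84), (6, 91), (6, 100), (6, 101), (6, 113), (7, 1), (7, 3), (7, 9), (24, 22), (25,
  22), (0, 0), (0, 7), (0, 8), (0, 10), (0, 12), (0, 39), (0, 40), (0, 43), (0, 46), (0, 52),
  (0, 53), (0, 68), (0, 87), (0, 92), (0, 101), (0, 106), (0, 107), (0, 118), (0, 126), (0,
  139), (0, 143), (0, 149), (1, 10), (1, 19), (1, 26), (1, 38), (1, 43), (1, 47), (1, 49), (1,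
  50), (1, 51), (1, 52), (1, 55), (1, 57), (1, 62), (1, 66), (1, 71), (1, 73), (1, 75), (1,
  76), (1, 83), (1, 84), (1, 89), (1, 92), (1, 97), (1, 101), (1, 108), (1, 117), (1, 120), (1,
  125), (1, 128), (1, 133), (1, 136), (1, 141), (1, 143), (2, 10), (2, 11), (2, 17), (2, 19),
  (2, 24), (2, 28), (2, 34), (2, 35), (2, 42), (2, 48), (2, 51), (2, 53), (2, 54), (2, 63), (2,
  66), (2, 77), (2, 81), (2, 86), (2, 92), (2, 96), (2, 108), (2, 113), (2, 118), (2, 132), (2,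
  133), (2, 136), (2, 139), (2, 141), (2, 143), (2, 144), (2, 145), (3, 25), (3, 26), (3, 30),
  (3, 34), (3, 50), (3, 51), (3, 54), (3, 72), (3, 73), (3, 76), (3, 86), (3, 89), (3, 92), (3,
  108), (3, 121), (3, 124), (3, 129), (3, 130), (4, 17), (4, 65), (4, 66), (4, 103), (4, 113),
  (4, 119), (4, 124), (4, 142), (4, 149), (5, 4), (5, 11), (5, 23), (5, 29), (5, 46), (5, 59),
  (5, 60), (5, 62), (5, 65), (5, 89), (5, 94), (5, 124), (5, 125), (5, 127), (5, 130), (5,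
  132), (5, 138), (5, 142), (5, 148), (6, 62), (6, 66), (6, 80), (6, 86), (6, 99), (6, 114),
  (6, 119), (6, 120), (6, 122), (6, 123), (6, 125), (6, 126), (6, 127), (6, 138), (6, 148), (0,
  86), (0, 120), (0, 124), (0, 140), (0, 147), (1, 80), (1, 87), (1, 107), (2, 82), (2, 127)]

/-- The data of the arrow. -/
def datC : Dat2 where
  tabs := [⟨cP0, cI0, cL0⟩, ⟨cP1, cI1, cL1⟩, ⟨cP2, cI2, cL2⟩, ⟨cP3, cI3, cL3⟩]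
  x0 := 22
  relC := [cR0, cR1, cR2, cR3, cR4, cR5, cR6, cR7]
  Y := [[5, 3, 1], [7, 2, 2, 5, 0, 3], [4, 2, 5, 0, 5], [4, 6, 0, 5]]
  YC := [[(0, 0, 0)], [], [(0, 8, 1)], []]
  T := cT
  TC := cTC
  r := cr
  A := cA
  AC := cAC0 ++ cAC1 ++ cAC2 ++ cAC3 ++ cAC4 ++ cAC5
  V := [0, 2]
  conjC := [cV00 ++ cV01, cV10 ++ cV11]
  rel2C := cRel2
  log := cLog

end Pool.Agent.H.MP_ee9c6f_al.E2.Chk
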