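import Pool.Agent.H.MP_ee9c6f_al.E2.DataAB

/-!
MP_ee9c6f_al, genus 2 (helper40). The arrow from the four strand braid group modulo its centre to the
free group of rank 2.
-/

set_option autoImplicit false

namespace Pool.Agent.H.MP_ee9c6f_al.E2.Chk

/-- From the four strand braid group modulo its centre to the free group. -/
def datI : Dat where
  tabs :=
    [⟨[1, 2, 3, 4, 5, 0], [5, 0, 1, 2, 3, 4], [[], [], [], [], [], [1, 2, 0, 3]]⟩, ⟨[1, 2, 3,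
    4, 5, 0], [5, 0, 1, 2, 3, 4], [[0], [2], [2, 1], [2, 1, 3], [2, 1, 3, 0, 3], [0, 3]]⟩, ⟨[1,
    2, 3, 4, 5, 0], [5, 0, 1, 2, 3, 4], [[], [], [], [], [], [1, 2, 0, 3]]⟩]
  x0 := 0
  relC :=
    [[[], [], [], [], [], []], [[], [], [], [], [], []], [[], [], [], [], [], []], [[], [], [],
    [], [], []]]
  Y :=
    [[1, 2], [1, 1, 2, 0]]
  YC :=
    [[], []]
  T :=
    [[0, 5], [2, 0, 5, 3], [0, 2, 0, 2, 0, 2]]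
  TC :=
    [[], [], []]
  r :=
    [[], [1], [1, 1], [1, 1, 1], [1, 1, 1, 1], [1, 1, 1, 1, 1]]
  conjC :=
    [[(([2, 0], [(2, 0, 5), (7, 5, 2), (6, 2, 5)]), ([0, 3, 0], [(4, 4, 1), (3, 4, 1), (4, 0,
    3), (7, 5, 2), (9, 4, 1), (10, 1, 2), (13, 5, 2), (8, 3, 2), (5, 5, 2), (4, 2, 5)])), (([2,
    2, 0], [(2, 0, 5), (5, 0, 5), (9, 5, 2), (8, 2, 5), (7, 2, 5), (4, 4, 1)]), ([2, 1], [(5,
    4, 1), (6, 1, 2), (4, 3, 2), (3, 4, 1), (4, 1, 2), (7, 5, 2), (5, 0, 5), (6, 4, 3), (7, 0,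
    5), (10, 0, 5), (5, 2, 5), (3, 5, 3), (8, 3, 0), (5, 5, 3), (6, 5, 3), (6, 1, 2), (5, 1,
    2)])), (([4], [(2, 0, 5), (7, 1, 2), (6, 1, 2), (3, 0, 3)]), ([4], [(8, 0, 3), (7, 0, 3),
    (6, 1, 2), (5, 1, 2)]))], [(([2, 0, 0], [(3, 0, 5), (2, 0, 5), (6, 4, 1), (9, 5, 2), (8, 5,
    2), (9, 5, 2), (7, 2, 5), (6, 2, 5)]), ([3, 0], [(2, 1, 0), (3, 1, 0), (4, 1, 0), (9, 0,
    5), (8, 0, 5), (6, 3, 0), (5, 4, 3), (6, 1, 0), (9, 5, 0), (13, 0, 5), (11, 2, 5), (10, 2,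
    5), (7, 5, 0), (8, 5, 0), (6, 3, 2), (5, 3, 2)])), (([2, 0], [(3, 0, 5), (2, 0, 5), (5, 4,
    1), (6, 1, 2), (7, 5, 2), (6, 2, 5)]), ([2, 1, 2], [(2, 1, 0), (3, 1, 0), (3, 3, 2), (2, 3,
    2), (7, 0, 5), (6, 0, 5), (3, 2, 5), (4, 2, 5), (5, 1, 2), (8, 5, 2), (3, 3, 2), (2, 3, 2),
    (7, 2, 3), (5, 5, 1), (5, 0, 5), (8, 4, 3), (3, 2, 5), (3, 5, 3)])), (([4], [(3, 0, 5), (2,
    0, 5), (10, 0, 3), (11, 1, 2), (10, 1, 2), (9, 1, 2), (8, 1, 2), (3, 0, 3)]), ([4], [(2, 1,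
    0), (3, 1, 0), (4, 1, 0), (6, 0, 3), (5, 0, 3), (7, 1, 2), (4, 0, 3), (3, 0, 3)]))]]
  rel2C :=
    []
  cosC :=
    [[([], []), ([], []), ([], []), ([], []), ([], []), ([8, 1, 2, 0, 3], [(7, 1, 2), (6, 1,
    2), (5, 1, 2)])], [([0], []), ([2], []), ([2, 1], [(4, 0, 5)]), ([2, 1, 3], [(5, 0, 5), (4,
    0, 5)]), ([2, 1, 3, 0, 3], [(6, 0, 5), (5, 0, 5), (4, 0, 5), (3, 0, 5), (2, 0, 5), (11, 1,
    2), (3, 1, 2), (4, 1, 2)]), ([8, 0, 3], [(9, 1, 2), (7, 1, 2), (6, 1, 2), (3, 0, 3)])],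
    [([5], [(2, 4, 3)]), ([5], [(3, 4, 3), (2, 4, 3)]), ([5], [(4, 4, 3), (3, 4, 3), (2, 4,
    3)]), ([5], [(5, 4, 3), (4, 4, 3), (3, 4, 3), (2, 4, 3)]), ([5], [(6, 4, 3), (5, 4, 3), (4,
    4, 3), (3, 4, 3), (2, 4, 3)]), ([5, 8, 1, 2, 0, 3], [(7, 1, 2), (6, 1, 2), (5, 1, 2)])]]

theorem arrowI : Arrow (PG 3 relB) (PG 2 []) :=
  arrow_of_dat (d := 6) datI (by decide +kernel) (by decide +kernel) (by decide +kernel)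
    (by decide +kernel) (by decide +kernel) (by decide +kernel) (by decide +kernel)

end Pool.Agent.H.MP_ee9c6f_al.E2.Chk
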