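import Pool.Agent.H.MP_ee9c6f_al.E2.Wr

/-!
MP_ee9c6f_al, genus 2 (helper40). Duality for the surface group of genus 2: a subgroup generated by
`k` elements has at most `k + 1` relative ends.
-/

set_option autoImplicit false

namespace Pool.Agent.H.MP_ee9c6f_al.E2

open Wr

/-- The relator `[x, y][z, w]`. -/
def sRel : FreeGroup (Fin 4) :=
  FreeGroup.of 0 * FreeGroup.of 1 * (FreeGroup.of 0)⁻¹ * (FreeGroup.of 1)⁻¹ *
    (FreeGroup.of 2 * FreeGroup.of 3 * (FreeGroup.of 2)⁻¹ * (FreeGroup.of 3)⁻¹)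

/-- The fundamental group of the closed orientable surface of genus 2. -/
abbrev Su : Type := PresentedGroup ({sRel} : Set (FreeGroup (Fin 4)))

namespace Su

/-- The generators. -/
def gen (i : Fin 4) : Su := PresentedGroup.of i

/-- The generator `x`. -/
def x : Su := gen 0
/-- The generator `y`. -/
def y : Su := gen 1
/-- The generator `z`. -/
def z : Su := gen 2
/-- The generator `w`. -/
def w : Su := gen 3

theorem rel : x * y * x⁻¹ * y⁻¹ * (z * w * z⁻¹ * w⁻¹) = 1 :=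
  PresentedGroup.one_of_mem (rels := ({sRel} : Set (FreeGroup (Fin 4)))) rfl

theorem closure_gen : Subgroup.closure (Set.range gen) = ⊤ :=
  PresentedGroup.closure_range_of _

theorem closure_xyzw : Subgroup.closure ({x, y, z, w} : Set Su) = ⊤ := by
  have : ({x, y, z, w} : Set Su) = Set.range gen := by
    ext a
    constructor
    · rintro (rfl | rfl | rfl | rfl)
      · exact ⟨0, rfl⟩
      · exact ⟨1, rfl⟩
      · exact ⟨2, rfl⟩
      · exact ⟨3, rfl⟩
    · rintro ⟨i, rfl⟩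
      fin_cases i
      · exact Or.inl rfl
      · exact Or.inr (Or.inl rfl)
      · exact Or.inr (Or.inr (Or.inl rfl))
      · exact Or.inr (Or.inr (Or.inr rfl))
  rw [this, closure_gen]

end Su

section Dual

variable {X : Type*} [MulAction Su X]

open Su

/-- The coboundary of a function. -/
def cob : (X → ZMod 2) →ₗ[ZMod 2] (X × Fin 4 → ZMod 2) where
  toFun φ := fun e => φ e.1 + φ (gen e.2 • e.1)
  map_add' φ ψ := by
    funext e
    simp only [Pi.add_apply]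
    ring
  map_smul' c φ := by
    funext e
    simp only [Pi.smul_apply, smul_eq_mul, RingHom.id_apply]
    ring

theorem cob_apply (φ : X → ZMod 2) (v : X) (i : Fin 4) :
    cob φ (v, i) = φ v + φ (gen i • v) := rfl

/-- The functions with finite support. -/
def finS (X : Type*) : Submodule (ZMod 2) (X → ZMod 2) where
  carrier := {φ | (Function.support φ).Finite}
  add_mem' {φ ψ} h1 h2 := (Set.Finite.union h1 h2).subset (Function.support_add φ ψ)
  zero_mem' := by simp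
  smul_mem' c φ h := Set.Finite.subset h (Function.support_const_smul_subset c φ)

/-- The coboundaries of functions with finite support. -/
def cobS (X : Type*) [MulAction Su X] : Submodule (ZMod 2) (X × Fin 4 → ZMod 2) :=
  (finS X).map cob

/-- The quotient by the coboundaries of functions with finite support. -/
def Qt (X : Type*) [MulAction Su X] : Type _ := (X × Fin 4 → ZMod 2) ⧸ cobS X

noncomputable instance : AddCommGroup (Qt X) := Submodule.Quotient.addCommGroup (cobS X)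

noncomputable instance : Module (ZMod 2) (Qt X) := Submodule.Quotient.module (cobS X)

/-- The projection. -/
noncomputable def mkQt : (X × Fin 4 → ZMod 2) →ₗ[ZMod 2] Qt X := (cobS X).mkQ

theorem mkQt_eq_zero (f : X × Fin 4 → ZMod 2) : mkQt f = 0 ↔ f ∈ cobS X :=
  Submodule.Quotient.mk_eq_zero (cobS X)

/-- The class of an edge. -/
noncomputable def edge (e : X × Fin 4) : Qt X := by
  classical exact mkQt (Pi.single e 1)

theorem single_inst {ι : Type*} (i1 i2 : DecidableEq ι) (e : ι) :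
    (@Pi.single ι (fun _ => ZMod 2) _ i1 e 1) = @Pi.single ι (fun _ => ZMod 2) _ i2 e 1 := by
  rw [Subsingleton.elim i1 i2]

theorem edge_eq [DecidableEq (X × Fin 4)] (e : X × Fin 4) :
    edge e = mkQt (Pi.single e 1) := by
  unfold edge
  exact congrArg mkQt (single_inst _ _ e)

theorem add_self (q : Qt X) : q + q = 0 := by
  have h : (2 : ZMod 2) • q = 0 := by
    have : (2 : ZMod 2) = 0 := by decide
    rw [this, zero_smul]
  rwa [two_smul] at h

theorem neg_eq (q : Qt X) : -q = q := by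
  rw [neg_eq_iff_add_eq_zero]
  exact add_self q

/-- The sum of the edges at a vertex. -/
theorem edge_star (u : X) : (edge (u, 0) + edge (x⁻¹ • u, 0)) + (edge (u, 1) + edge (y⁻¹ • u, 1)) +
    ((edge (u, 2) + edge (z⁻¹ • u, 2)) + (edge (u, 3) + edge (w⁻¹ • u, 3))) = 0 := by
  classical
  unfold edge
  simp only [← map_add]
  rw [mkQt_eq_zero]
  refine ⟨Pi.single u 1, ?_, ?_⟩
  · change (Function.support (Pi.single u (1 : ZMod 2))).Finite
    exact (Set.finite_singleton u).subset (Pi.support_single_subset)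
  · funext ⟨v, i⟩
    rw [cob_apply]
    simp only [Pi.add_apply, Pi.single_apply, Prod.mk.injEq]
    have e : ∀ g : Su, (v = g⁻¹ • u) = (g • v = u) := by
      intro g
      rw [eq_inv_smul_iff]
    simp only [e]
    fin_cases i
    · change _ + (if x • v = u then _ else _) = _
      simp
    · change _ + (if y • v = u then _ else _) = _
      simp
    · change _ + (if z • v = u then _ else _) = _
      simp
    · change _ + (if w • v = u then _ else _) = _
      simp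

/-- `[z, w]⁻¹`. -/
def kk : Su := w * z * w⁻¹ * z⁻¹

/-- The shifts. -/
def sh : Fin 4 → Su := ![x⁻¹ * y⁻¹ * kk⁻¹, y⁻¹ * kk⁻¹, z⁻¹ * w⁻¹, w⁻¹]

/-- The dual generators. -/
def dg : Fin 4 → Su :=
  ![kk * (y * x * y⁻¹ * x⁻¹ * y⁻¹) * kk⁻¹, kk * (y * x * y⁻¹) * kk⁻¹, w * z * w⁻¹ * z⁻¹ * w⁻¹,
    w * z * w⁻¹]

/-- The lift of a dual generator. -/
noncomputable def dd (X : Type*) [MulAction Su X] (i : Fin 4) : Wr (Multiplicative (Qt X)) X :=
  ⟨MulAction.toPerm (dg i), fun v => Multiplicative.ofAdd (edge (sh i • v, i))⟩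

theorem dd_perm (i : Fin 4) (v : X) : (dd X i).perm v = dg i • v := rfl

theorem dd_lab (i : Fin 4) (v : X) :
    (dd X i).lab v = Multiplicative.ofAdd (edge (sh i • v, i)) := rfl

theorem dd_inv_perm (i : Fin 4) (v : X) : ((dd X i)⁻¹).perm v = (dg i)⁻¹ • v := rfl

theorem dd_inv_lab (i : Fin 4) (v : X) :
    ((dd X i)⁻¹).lab v = Multiplicative.ofAdd (edge (sh i • (dg i)⁻¹ • v, i)) := by
  rw [inv_lab]
  change (Multiplicative.ofAdd (edge (sh i • (dg i)⁻¹ • v, i)))⁻¹ = _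
  rw [← ofAdd_neg, neg_eq]

/-- The lift of `kk`. -/
noncomputable def kd (X : Type*) [MulAction Su X] : Wr (Multiplicative (Qt X)) X :=
  dd X 2 * (dd X 3)⁻¹ * (dd X 2)⁻¹ * dd X 3

/-- The lifts of the generators. -/
noncomputable def lf (X : Type*) [MulAction Su X] : Fin 4 → Wr (Multiplicative (Qt X)) X :=
  ![(kd X)⁻¹ * ((dd X 1)⁻¹ * dd X 0 * dd X 1 * (dd X 0)⁻¹ * dd X 1) * kd X,
    (kd X)⁻¹ * ((dd X 1)⁻¹ * (dd X 0)⁻¹ * dd X 1) * kd X,
    (dd X 3)⁻¹ * dd X 2 * dd X 3 * (dd X 2)⁻¹ * dd X 3,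
    (dd X 3)⁻¹ * (dd X 2)⁻¹ * dd X 3]

theorem dd_rel : dd X 0 * (dd X 1)⁻¹ * (dd X 0)⁻¹ * dd X 1 *
    (dd X 2 * (dd X 3)⁻¹ * (dd X 2)⁻¹ * dd X 3) = 1 := by
  apply Wr.ext_iff'
  intro u
  have hrel : kk = x * y * x⁻¹ * y⁻¹ := by
    have h := rel
    unfold kk
    rw [mul_eq_one_iff_eq_inv] at h
    rw [h]
    group
  have hrel' : kk * (y * x * y⁻¹ * x⁻¹) = 1 := by
    rw [hrel]
    group
  have g0 : dg 0 = kk * (y * x * y⁻¹ * x⁻¹ * y⁻¹) * kk⁻¹ := rfl
  have g1 : dg 1 = kk * (y * x * y⁻¹) * kk⁻¹ := rfl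
  have g2 : dg 2 = w * z * w⁻¹ * z⁻¹ * w⁻¹ := rfl
  have g3 : dg 3 = w * z * w⁻¹ := rfl
  have s0 : sh 0 = x⁻¹ * y⁻¹ * kk⁻¹ := rfl
  have s1 : sh 1 = y⁻¹ * kk⁻¹ := rfl
  have s2 : sh 2 = z⁻¹ * w⁻¹ := rfl
  have s3 : sh 3 = w⁻¹ := rfl
  have u1 : (dg 2)⁻¹ • dg 3 • u = (w * z) • u := by
    rw [← mul_smul]
    congr 1
    rw [g2, g3]
    group
  have u2 : (dg 3)⁻¹ • (w * z) • u = w • u := by
    rw [← mul_smul]
    congr 1
    rw [g3]
    group
  have u3 : dg 2 • w • u = kk • u := by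
    rw [← mul_smul]
    congr 1
    rw [g2, kk]
    group
  have u4 : (dg 0)⁻¹ • dg 1 • kk • u = (kk * y * x) • u := by
    rw [← mul_smul, ← mul_smul]
    congr 1
    rw [g0, g1]
    group
  have u5 : (dg 1)⁻¹ • (kk * y * x) • u = (kk * y) • u := by
    rw [← mul_smul]
    congr 1
    rw [g1]
    group
  have u6 : dg 0 • (kk * y) • u = u := by
    rw [← mul_smul]
    have : dg 0 * (kk * y) = kk * (y * x * y⁻¹ * x⁻¹) := by
      rw [g0]
      group
    rw [this, hrel', one_smul]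
  constructor
  · simp only [mul_perm, Equiv.Perm.mul_apply, dd_perm, dd_inv_perm, one_perm,
      Equiv.Perm.one_apply]
    rw [u1, u2, u3, u4, u5, u6]
  · simp only [mul_lab, mul_perm, Equiv.Perm.mul_apply, dd_perm, dd_inv_perm, dd_lab, dd_inv_lab,
      one_lab]
    rw [u1, u2, u3, u4, u5]
    have v0 : sh 3 • u = w⁻¹ • u := rfl
    have v1 : sh 2 • (w * z) • u = u := by
      rw [← mul_smul]
      have : sh 2 * (w * z) = 1 := by
        rw [s2]
        group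
      rw [this, one_smul]
    have v2 : sh 3 • w • u = u := by
      rw [s3, inv_smul_smul]
    have v3 : sh 2 • w • u = z⁻¹ • u := by
      rw [← mul_smul]
      congr 1
      rw [s2]
      group
    have v4 : sh 1 • kk • u = y⁻¹ • u := by
      rw [← mul_smul]
      congr 1
      rw [s1]
      group
    have v5 : sh 0 • (kk * y * x) • u = u := by
      rw [← mul_smul]
      have : sh 0 * (kk * y * x) = 1 := by
        rw [s0]
        group
      rw [this, one_smul]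
    have v6 : sh 1 • (kk * y) • u = u := by
      rw [← mul_smul]
      have : sh 1 * (kk * y) = 1 := by
        rw [s1]
        group
      rw [this, one_smul]
    have v7 : sh 0 • (kk * y) • u = x⁻¹ • u := by
      rw [← mul_smul]
      congr 1
      rw [s0]
      group
    rw [v0, v1, v2, v3, v4, v5, v6, v7]
    simp only [← ofAdd_add]
    rw [← ofAdd_zero]
    congr 1
    have h := edge_star u
    rw [← h]
    abel

theorem comm_aux {G : Type*} [Group G] (a b k : G) :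
    (k⁻¹ * (b⁻¹ * a * b * a⁻¹ * b) * k) * (k⁻¹ * (b⁻¹ * a⁻¹ * b) * k) *
      (k⁻¹ * (b⁻¹ * a * b * a⁻¹ * b) * k)⁻¹ * (k⁻¹ * (b⁻¹ * a⁻¹ * b) * k)⁻¹ =
    k⁻¹ * (b⁻¹ * a * b * a⁻¹) * k := by
  group

theorem comm_aux' {G : Type*} [Group G] (c d : G) :
    (d⁻¹ * c * d * c⁻¹ * d) * (d⁻¹ * c⁻¹ * d) * (d⁻¹ * c * d * c⁻¹ * d)⁻¹ * (d⁻¹ * c⁻¹ * d)⁻¹ =
    (c * d⁻¹ * c⁻¹ * d)⁻¹ := by
  group

theorem comm_aux'' {G : Type*} [Group G] (a b k : G) :
    (k⁻¹ * (b⁻¹ * a * b * a⁻¹) * k) * k⁻¹ = (a * b⁻¹ * a⁻¹ * b * k)⁻¹ := by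
  group

theorem lf_0 : lf X 0 = (kd X)⁻¹ * ((dd X 1)⁻¹ * dd X 0 * dd X 1 * (dd X 0)⁻¹ * dd X 1) * kd X :=
  rfl

theorem lf_1 : lf X 1 = (kd X)⁻¹ * ((dd X 1)⁻¹ * (dd X 0)⁻¹ * dd X 1) * kd X := rfl

theorem lf_2 : lf X 2 = (dd X 3)⁻¹ * dd X 2 * dd X 3 * (dd X 2)⁻¹ * dd X 3 := rfl

theorem lf_3 : lf X 3 = (dd X 3)⁻¹ * (dd X 2)⁻¹ * dd X 3 := rfl

theorem lf_rel : lf X 0 * lf X 1 * (lf X 0)⁻¹ * (lf X 1)⁻¹ *
    (lf X 2 * lf X 3 * (lf X 2)⁻¹ * (lf X 3)⁻¹) = 1 := by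
  have e1 : lf X 0 * lf X 1 * (lf X 0)⁻¹ * (lf X 1)⁻¹ =
      (kd X)⁻¹ * ((dd X 1)⁻¹ * dd X 0 * dd X 1 * (dd X 0)⁻¹) * kd X := by
    rw [lf_0, lf_1, comm_aux]
  have e2 : lf X 2 * lf X 3 * (lf X 2)⁻¹ * (lf X 3)⁻¹ = (kd X)⁻¹ := by
    rw [lf_2, lf_3, comm_aux']
    rfl
  rw [e1, e2, comm_aux'', inv_eq_one]
  exact dd_rel

/-- The lifted action. -/
noncomputable def Th (X : Type*) [MulAction Su X] : Su →* Wr (Multiplicative (Qt X)) X :=
  PresentedGroup.toGroup (f := lf X) (by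
    rintro r hr
    rw [Set.mem_singleton_iff] at hr
    subst hr
    unfold sRel
    simp only [map_mul, map_inv, FreeGroup.lift_apply_of]
    rw [lf_rel])

theorem Th_gen (i : Fin 4) : Th X (gen i) = lf X i := PresentedGroup.toGroup.of _

set_option maxRecDepth 20000 in
theorem Th_perm (s : Su) (v : X) : (Th X s).perm v = s • v := by
  have h : (toPerm (Q := Multiplicative (Qt X)) (X := X)).comp (Th X) =
      MulAction.toPermHom Su X := by
    apply PresentedGroup.ext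
    intro i
    have e : (toPerm.comp (Th X)) (PresentedGroup.of i) = (lf X i).perm := by
      change (Th X (gen i)).perm = _
      rw [Th_gen]
    rw [e]
    have d0 : (dd X 0).perm = MulAction.toPermHom Su X (dg 0) := rfl
    have d1 : (dd X 1).perm = MulAction.toPermHom Su X (dg 1) := rfl
    have d2 : (dd X 2).perm = MulAction.toPermHom Su X (dg 2) := rfl
    have d3 : (dd X 3).perm = MulAction.toPermHom Su X (dg 3) := rfl
    have kdp : (kd X).perm = MulAction.toPermHom Su X kk := by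
      unfold kd
      simp only [mul_perm, inv_perm, d2, d3, ← map_inv, ← map_mul]
      congr 1
      change (w * z * w⁻¹ * z⁻¹ * w⁻¹) * (w * z * w⁻¹)⁻¹ * (w * z * w⁻¹ * z⁻¹ * w⁻¹)⁻¹ *
        (w * z * w⁻¹) = w * z * w⁻¹ * z⁻¹
      group
    fin_cases i
    · change ((kd X)⁻¹ * ((dd X 1)⁻¹ * dd X 0 * dd X 1 * (dd X 0)⁻¹ * dd X 1) * kd X).perm =
        MulAction.toPermHom Su X x
      simp only [mul_perm, inv_perm, d0, d1, kdp, ← map_inv, ← map_mul]
      congr 1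
      change kk⁻¹ * ((kk * (y * x * y⁻¹) * kk⁻¹)⁻¹ * (kk * (y * x * y⁻¹ * x⁻¹ * y⁻¹) * kk⁻¹) *
        (kk * (y * x * y⁻¹) * kk⁻¹) * (kk * (y * x * y⁻¹ * x⁻¹ * y⁻¹) * kk⁻¹)⁻¹ *
        (kk * (y * x * y⁻¹) * kk⁻¹)) * kk = x
      group
    · change ((kd X)⁻¹ * ((dd X 1)⁻¹ * (dd X 0)⁻¹ * dd X 1) * kd X).perm =
        MulAction.toPermHom Su X y
      simp only [mul_perm, inv_perm, d0, d1, kdp, ← map_inv, ← map_mul]
      congr 1
      change kk⁻¹ * ((kk * (y * x * y⁻¹) * kk⁻¹)⁻¹ * (kk * (y * x * y⁻¹ * x⁻¹ * y⁻¹) * kk⁻¹)⁻¹ *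
        (kk * (y * x * y⁻¹) * kk⁻¹)) * kk = y
      group
    · change ((dd X 3)⁻¹ * dd X 2 * dd X 3 * (dd X 2)⁻¹ * dd X 3).perm =
        MulAction.toPermHom Su X z
      simp only [mul_perm, inv_perm, d2, d3, ← map_inv, ← map_mul]
      congr 1
      change (w * z * w⁻¹)⁻¹ * (w * z * w⁻¹ * z⁻¹ * w⁻¹) * (w * z * w⁻¹) *
        (w * z * w⁻¹ * z⁻¹ * w⁻¹)⁻¹ * (w * z * w⁻¹) = z
      group
    · change ((dd X 3)⁻¹ * (dd X 2)⁻¹ * dd X 3).perm =
        MulAction.toPermHom Su X w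
      simp only [mul_perm, inv_perm, d2, d3, ← map_inv, ← map_mul]
      congr 1
      change (w * z * w⁻¹)⁻¹ * (w * z * w⁻¹ * z⁻¹ * w⁻¹)⁻¹ * (w * z * w⁻¹) = w
      group
  have := DFunLike.congr_fun h s
  exact Equiv.congr_fun this v

set_option maxRecDepth 20000 in
theorem Th_dg (i : Fin 4) : Th X (dg i) = dd X i := by
  have hk : Th X kk = kd X := by
    unfold kk
    simp only [map_mul, map_inv]
    change Th X (gen 3) * Th X (gen 2) * (Th X (gen 3))⁻¹ * (Th X (gen 2))⁻¹ = _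
    rw [Th_gen, Th_gen]
    change ((dd X 3)⁻¹ * (dd X 2)⁻¹ * dd X 3) *
      ((dd X 3)⁻¹ * dd X 2 * dd X 3 * (dd X 2)⁻¹ * dd X 3) *
      ((dd X 3)⁻¹ * (dd X 2)⁻¹ * dd X 3)⁻¹ *
      ((dd X 3)⁻¹ * dd X 2 * dd X 3 * (dd X 2)⁻¹ * dd X 3)⁻¹ = _
    unfold kd
    group
  have hx : Th X x = (kd X)⁻¹ * ((dd X 1)⁻¹ * dd X 0 * dd X 1 * (dd X 0)⁻¹ * dd X 1) * kd X :=
    Th_gen 0
  have hy : Th X y = (kd X)⁻¹ * ((dd X 1)⁻¹ * (dd X 0)⁻¹ * dd X 1) * kd X := Th_gen 1
  have hz : Th X z = (dd X 3)⁻¹ * dd X 2 * dd X 3 * (dd X 2)⁻¹ * dd X 3 := Th_gen 2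
  have hw : Th X w = (dd X 3)⁻¹ * (dd X 2)⁻¹ * dd X 3 := Th_gen 3
  fin_cases i
  · change Th X (kk * (y * x * y⁻¹ * x⁻¹ * y⁻¹) * kk⁻¹) = dd X 0
    simp only [map_mul, map_inv, hk, hx, hy]
    group
  · change Th X (kk * (y * x * y⁻¹) * kk⁻¹) = dd X 1
    simp only [map_mul, map_inv, hk, hx, hy]
    group
  · change Th X (w * z * w⁻¹ * z⁻¹ * w⁻¹) = dd X 2
    simp only [map_mul, map_inv, hz, hw]
    group
  · change Th X (w * z * w⁻¹) = dd X 3
    simp only [map_mul, map_inv, hz, hw]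
    group

/-! ### Cocycles -/

/-- The base point. -/
def bp (P : Subgroup Su) : Su ⧸ P := ((1 : Su) : Su ⧸ P)

theorem out_bp {P : Subgroup Su} (v : Su ⧸ P) : v.out • bp P = v := by
  have h : v.out • bp P = ((v.out * 1 : Su) : Su ⧸ P) := rfl
  rw [h, mul_one, QuotientGroup.out_eq']

theorem smul_bp_iff {P : Subgroup Su} (s : Su) : s • bp P = bp P ↔ s ∈ P := by
  have h : s • bp P = ((s * 1 : Su) : Su ⧸ P) := rfl
  rw [h, mul_one, bp, eq_comm, QuotientGroup.eq, inv_one, one_mul]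

/-- The label of an element at a point. -/
noncomputable def la {X : Type*} [MulAction Su X] (s : Su) (v : X) : Qt X :=
  Multiplicative.toAdd ((Th X s).lab v)

theorem la_mul (s t : Su) (v : X) : la (s * t) v = la s (t • v) + la t v := by
  unfold la
  rw [map_mul, mul_lab, Th_perm, toAdd_mul]

theorem la_one (v : X) : la 1 v = 0 := by
  unfold la
  rw [map_one, one_lab, toAdd_one]

theorem la_inv (s : Su) (v : X) : la s⁻¹ v = la s (s⁻¹ • v) := by
  have h := la_mul s s⁻¹ v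
  rw [mul_inv_cancel, la_one, eq_comm, add_eq_zero_iff_neg_eq, neg_eq] at h
  exact h.symm

theorem la_dg (i : Fin 4) (v : X) : la (dg i) v = edge (sh i • v, i) := by
  unfold la
  rw [Th_dg, dd_lab, toAdd_ofAdd]

/-- The labels of the elements of `P` at the base point. -/
noncomputable def Lam (P : Subgroup Su) : Submodule (ZMod 2) (Qt (Su ⧸ P)) :=
  Submodule.span (ZMod 2) {q | ∃ p ∈ P, q = la p (bp P)}

/-- The loop through a dual edge. -/
noncomputable def lp (P : Subgroup Su) (e : (Su ⧸ P) × Fin 4) : Su :=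
  (dg e.2 • e.1).out⁻¹ * (dg e.2 * e.1.out)

theorem lp_mem {P : Subgroup Su} (e : (Su ⧸ P) × Fin 4) : lp P e ∈ P := by
  rw [← smul_bp_iff, lp, mul_smul, mul_smul, out_bp, inv_smul_eq_iff, out_bp]

theorem la_lp {P : Subgroup Su} (e : (Su ⧸ P) × Fin 4) : la (lp P e) (bp P) =
    edge (sh e.2 • e.1, e.2) + (la e.1.out (bp P) + la (dg e.2 • e.1).out (bp P)) := by
  have h1 : (dg e.2 * e.1.out) • bp P = dg e.2 • e.1 := by rw [mul_smul, out_bp]
  have h2 : (dg e.2 • e.1).out⁻¹ • (dg e.2 • e.1) = bp P := by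
    rw [inv_smul_eq_iff, out_bp]
  rw [lp, la_mul, la_inv, h1, h2, la_mul, out_bp, la_dg]
  abel

/-- The boundary of a chain of dual edges. -/
noncomputable def bdm (X : Type*) [MulAction Su X] :
    (X × Fin 4 →₀ ZMod 2) →ₗ[ZMod 2] (X →₀ ZMod 2) :=
  Finsupp.linearCombination (ZMod 2)
    fun e => Finsupp.single e.1 1 + Finsupp.single (dg e.2 • e.1) 1

theorem bdm_apply (h : X × Fin 4 →₀ ZMod 2) (u : X) :
    bdm X h u = ∑ i, (h (u, i) + h ((dg i)⁻¹ • u, i)) := by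
  classical
  induction h using Finsupp.induction_linear with
  | zero => simp
  | add f g hf hg =>
    rw [map_add, Finsupp.add_apply, hf, hg, ← Finset.sum_add_distrib]
    apply Finset.sum_congr rfl
    intro i _
    simp only [Finsupp.add_apply]
    ring
  | single e c =>
    obtain ⟨v, j⟩ := e
    rw [bdm, Finsupp.linearCombination_single]
    simp only [Finsupp.smul_apply, Finsupp.add_apply, Finsupp.single_apply, Prod.mk.injEq,
      smul_eq_mul]
    rw [Finset.sum_eq_single j]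
    · have e1 : (v = (dg j)⁻¹ • u) = (dg j • v = u) := by rw [eq_inv_smul_iff]
      simp only [and_true, e1]
      split_ifs <;> ring
    · intro i _ hi
      simp [Ne.symm hi]
    · simp

theorem mk_mem_Lam {P : Subgroup Su} (h : (Su ⧸ P) × Fin 4 →₀ ZMod 2) (hb : bdm (Su ⧸ P) h = 0) :
    Finsupp.linearCombination (ZMod 2) (fun e : (Su ⧸ P) × Fin 4 => edge (sh e.2 • e.1, e.2)) h ∈
      Lam P := by
  have h1 : Finsupp.linearCombination (ZMod 2) (fun e => la (lp P e) (bp P)) h ∈ Lam P := by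
    rw [Finsupp.linearCombination_apply]
    apply Submodule.sum_mem
    intro e _
    exact Submodule.smul_mem _ _ (Submodule.subset_span ⟨_, lp_mem e, rfl⟩)
  have h2 : Finsupp.linearCombination (ZMod 2) (fun e => la (lp P e) (bp P)) =
      Finsupp.linearCombination (ZMod 2)
        (fun e : (Su ⧸ P) × Fin 4 => edge (sh e.2 • e.1, e.2)) +
      (Finsupp.linearCombination (ZMod 2) (fun v : Su ⧸ P => la v.out (bp P))).comp
        (bdm (Su ⧸ P)) := by
    apply Finsupp.lhom_ext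
    intro e c
    rw [LinearMap.add_apply, LinearMap.comp_apply, bdm]
    simp only [Finsupp.linearCombination_single, map_smul, map_add, one_smul]
    rw [la_lp, smul_add]
  rw [h2, LinearMap.add_apply, LinearMap.comp_apply, hb, map_zero, add_zero] at h1
  exact h1

theorem cob_shift (φ : X → ZMod 2) (u : X) :
    ∑ i, (cob φ (sh i • u, i) + cob φ (sh i • (dg i)⁻¹ • u, i)) = 0 := by
  have hrel' : x * y * x⁻¹ * y⁻¹ * kk⁻¹ = 1 := by
    have h := rel
    rw [← h, kk]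
    first | done | group
  have e0 : sh 0 • u = (x⁻¹ * y⁻¹ * kk⁻¹) • u := rfl
  have e1 : sh 1 • u = (y⁻¹ * kk⁻¹) • u := rfl
  have e2 : sh 2 • u = (z⁻¹ * w⁻¹) • u := rfl
  have e3 : sh 3 • u = w⁻¹ • u := rfl
  have f0 : sh 0 • (dg 0)⁻¹ • u = (y * x⁻¹ * y⁻¹ * kk⁻¹) • u := by
    rw [← mul_smul]
    congr 1
    change (x⁻¹ * y⁻¹ * kk⁻¹) * (kk * (y * x * y⁻¹ * x⁻¹ * y⁻¹) * kk⁻¹)⁻¹ = _
    first | done | group
  have f1 : sh 1 • (dg 1)⁻¹ • u = (x⁻¹ * y⁻¹ * kk⁻¹) • u := by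
    rw [← mul_smul]
    congr 1
    change (y⁻¹ * kk⁻¹) * (kk * (y * x * y⁻¹) * kk⁻¹)⁻¹ = _
    first | done | group
  have f2 : sh 2 • (dg 2)⁻¹ • u = (w * z⁻¹ * w⁻¹) • u := by
    rw [← mul_smul]
    congr 1
    change (z⁻¹ * w⁻¹) * (w * z * w⁻¹ * z⁻¹ * w⁻¹)⁻¹ = _
    first | done | group
  have f3 : sh 3 • (dg 3)⁻¹ • u = (z⁻¹ * w⁻¹) • u := by
    rw [← mul_smul]
    congr 1
    change w⁻¹ * (w * z * w⁻¹)⁻¹ = _
    first | done | group
  have g0 : gen 0 • (x⁻¹ * y⁻¹ * kk⁻¹) • u = (y⁻¹ * kk⁻¹) • u := by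
    rw [← mul_smul]
    congr 1
    change x * (x⁻¹ * y⁻¹ * kk⁻¹) = _
    first | done | group
  have g0' : gen 0 • (y * x⁻¹ * y⁻¹ * kk⁻¹) • u = u := by
    rw [← mul_smul]
    have : gen 0 * (y * x⁻¹ * y⁻¹ * kk⁻¹) = x * y * x⁻¹ * y⁻¹ * kk⁻¹ := by
      change x * (y * x⁻¹ * y⁻¹ * kk⁻¹) = _
      first | done | group
    rw [this, hrel', one_smul]
  have g1 : gen 1 • (y⁻¹ * kk⁻¹) • u = kk⁻¹ • u := by
    rw [← mul_smul]
    congr 1
    change y * (y⁻¹ * kk⁻¹) = _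
    first | done | group
  have g1' : gen 1 • (x⁻¹ * y⁻¹ * kk⁻¹) • u = (y * x⁻¹ * y⁻¹ * kk⁻¹) • u := by
    rw [← mul_smul]
    rfl
  have g2 : gen 2 • (z⁻¹ * w⁻¹) • u = w⁻¹ • u := by
    rw [← mul_smul]
    congr 1
    change z * (z⁻¹ * w⁻¹) = _
    first | done | group
  have g2' : gen 2 • (w * z⁻¹ * w⁻¹) • u = kk⁻¹ • u := by
    rw [← mul_smul]
    rfl
  have g3 : gen 3 • w⁻¹ • u = u := smul_inv_smul w u
  have g3' : gen 3 • (z⁻¹ * w⁻¹) • u = (w * z⁻¹ * w⁻¹) • u := by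
    rw [← mul_smul]
    rfl
  have two : (2 : ZMod 2) = 0 := by decide
  simp only [Fin.sum_univ_four, cob_apply]
  rw [e0, e1, e2, e3, f0, f1, f2, f3, g0, g0', g1, g1', g2, g2', g3, g3']
  linear_combination (φ ((x⁻¹ * y⁻¹ * kk⁻¹) • u) + φ ((y⁻¹ * kk⁻¹) • u) +
    φ ((y * x⁻¹ * y⁻¹ * kk⁻¹) • u) + φ u + φ (kk⁻¹ • u) + φ ((z⁻¹ * w⁻¹) • u) + φ (w⁻¹ • u) +
    φ ((w * z⁻¹ * w⁻¹) • u)) * two

/-- The class of the coboundary of a function with finite support lies in `Lam P`. -/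
theorem cob_mem_Lam {P : Subgroup Su} (φ : Su ⧸ P → ZMod 2)
    (hφ : (Function.support (cob φ)).Finite) :
    (mkQt (cob φ) : Qt (Su ⧸ P)) ∈ Lam P := by
  classical
  -- the dual chain
  let f : (Su ⧸ P) × Fin 4 → ZMod 2 := fun e => cob φ (sh e.2 • e.1, e.2)
  have hf : (Function.support f).Finite := by
    have hinj : Function.Injective (fun e : (Su ⧸ P) × Fin 4 => (sh e.2 • e.1, e.2)) := by
      rintro ⟨v, i⟩ ⟨v', i'⟩ h
      simp only [Prod.mk.injEq] at h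
      obtain ⟨h1, rfl⟩ := h
      rw [smul_left_cancel _ h1]
    exact hφ.preimage (f := fun e : (Su ⧸ P) × Fin 4 => (sh e.2 • e.1, e.2)) hinj.injOn
  let h : (Su ⧸ P) × Fin 4 →₀ ZMod 2 := Finsupp.ofSupportFinite f hf
  have hh : ∀ e, h e = f e := fun e => rfl
  have hb : bdm (Su ⧸ P) h = 0 := by
    ext u
    rw [bdm_apply, Finsupp.zero_apply]
    exact cob_shift φ u
  have h1 := mk_mem_Lam h hb
  have h2 : Finsupp.linearCombination (ZMod 2)
      (fun e : (Su ⧸ P) × Fin 4 => edge (sh e.2 • e.1, e.2)) h =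
      (mkQt (cob φ) : Qt (Su ⧸ P)) := by
    have h3 : (Finsupp.linearCombination (ZMod 2)
        (fun e : (Su ⧸ P) × Fin 4 => edge (sh e.2 • e.1, e.2)) h : Qt (Su ⧸ P)) =
        mkQt (Finsupp.linearCombination (ZMod 2)
        (fun e : (Su ⧸ P) × Fin 4 => (Pi.single (sh e.2 • e.1, e.2) 1 :
          (Su ⧸ P) × Fin 4 → ZMod 2)) h) := by
      rw [← LinearMap.comp_apply]
      congr 1
      apply Finsupp.lhom_ext
      intro e c
      rw [LinearMap.comp_apply, Finsupp.linearCombination_single,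
        Finsupp.linearCombination_single, map_smul]
      congr 1
      exact edge_eq _
    rw [h3]
    congr 1
    funext e
    rw [Finsupp.linearCombination_apply, Finsupp.sum, Finset.sum_apply]
    have e' : e = (sh e.2 • ((sh e.2)⁻¹ • e.1), e.2) := by
      rw [smul_inv_smul]
    have hval : h ((sh e.2)⁻¹ • e.1, e.2) = cob φ e := by
      rw [hh]
      change cob φ (sh e.2 • ((sh e.2)⁻¹ • e.1), e.2) = _
      rw [smul_inv_smul]
    rw [Finset.sum_eq_single ((sh e.2)⁻¹ • e.1, e.2)]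
    · rw [hval, Pi.smul_apply]
      change cob φ e • (Pi.single (sh e.2 • ((sh e.2)⁻¹ • e.1), e.2) (1 : ZMod 2) :
        (Su ⧸ P) × Fin 4 → ZMod 2) e = _
      rw [← e', Pi.single_eq_same, smul_eq_mul, mul_one]
    · rintro ⟨v, i⟩ _ hne
      rw [Pi.smul_apply]
      change h (v, i) • (Pi.single (sh i • v, i) (1 : ZMod 2) : (Su ⧸ P) × Fin 4 → ZMod 2) e = _
      rw [Pi.single_eq_of_ne, smul_zero]
      intro he
      apply hne
      rw [he]
      change (v, i) = ((sh i)⁻¹ • (sh i • v), i)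
      rw [inv_smul_smul]
    · intro hne
      rw [Finsupp.notMem_support_iff.mp hne, zero_smul]
      rfl
  rwa [h2] at h1

end Dual

end Pool.Agent.H.MP_ee9c6f_al.E2
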