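import Pool.Agent.H.MP_ee9c6f_al.Ends

/-!
MP_ee9c6f_al, genus 2 (helper40). The number of relative ends in terms of families of pairwise
disjoint infinite almost invariant sets.
-/

set_option autoImplicit false

namespace Pool.Agent.H.MP_ee9c6f_al.E2

open Pointwise

/-- There are `n` pairwise disjoint infinite almost invariant subsets. -/
def HasEnds (G : Type*) (X : Type*) [Group G] [MulAction G X] (n : ℕ) : Prop :=
  ∃ U : Fin n → Set X, (∀ i j, i ≠ j → Disjoint (U i) (U j)) ∧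
    ∀ i, (U i).Infinite ∧ AInv G (U i)

theorem AInv.of_gen {G X : Type*} [Group G] [MulAction G X] {S : Set G}
    (hS : Subgroup.closure S = ⊤) {U : Set X} (h : ∀ s ∈ S, AE (s • U) U) : AInv G U := by
  intro g
  have hg : g ∈ Subgroup.closure S := by rw [hS]; trivial
  induction hg using Subgroup.closure_induction with
  | mem s hs => exact h s hs
  | one => rw [one_smul]; exact AE.refl _
  | mul g h _ _ ihg ihh =>
    rw [mul_smul]
    exact (ihh.smul g).trans ihg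
  | inv g _ ih =>
    have := (ih.smul g⁻¹).symm
    rwa [inv_smul_smul] at this

section Graph

variable {Γ : Type} [Group Γ] {S : Set Γ} {H : Subgroup Γ}

theorem comp_AInv (hS : Subgroup.closure S = ⊤) (K : Finset (Γ ⧸ H))
    (C : ((schreier S H).induce ((K : Set (Γ ⧸ H))ᶜ)).ConnectedComponent) :
    AInv Γ (Subtype.val '' C.supp) := by
  set U : Set (Γ ⧸ H) := Subtype.val '' C.supp with hU
  have memU : ∀ (x : Γ ⧸ H) (hx : x ∈ ((K : Set (Γ ⧸ H))ᶜ)), x ∈ U ↔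
      ((schreier S H).induce ((K : Set (Γ ⧸ H))ᶜ)).connectedComponentMk ⟨x, hx⟩ = C := by
    intro x hx
    constructor
    · rintro ⟨⟨y, hy⟩, hy', rfl⟩
      exact hy'
    · intro h
      exact ⟨⟨x, hx⟩, h, rfl⟩
  have hUK : ∀ x ∈ U, x ∈ ((K : Set (Γ ⧸ H))ᶜ) := by
    rintro _ ⟨⟨y, hy⟩, -, rfl⟩
    exact hy
  apply AInv.of_gen hS
  intro s hs
  have hfin : ((K : Set (Γ ⧸ H)) ∪ s • (K : Set (Γ ⧸ H))).Finite :=
    (Finset.finite_toSet K).union ((Finset.finite_toSet K).smul_set)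
  refine hfin.subset ?_
  rintro y (⟨hy1, hy2⟩ | ⟨hy1, hy2⟩)
  · left
    obtain ⟨x, hx, rfl⟩ := hy1
    by_contra hyK
    apply hy2
    have hr := reach_of_mem hs (hUK x hx) hyK
    change s • x ∈ U
    rw [memU _ hyK, ← (memU x (hUK x hx)).mp hx]
    exact (SimpleGraph.ConnectedComponent.eq.mpr hr).symm
  · right
    rw [Set.mem_smul_set_iff_inv_smul_mem]
    by_contra hxK
    apply hy2
    rw [Set.mem_smul_set_iff_inv_smul_mem]
    have hyK : s • s⁻¹ • y ∈ ((K : Set (Γ ⧸ H))ᶜ) := by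
      rw [smul_inv_smul]
      exact hUK y hy1
    have hr := reach_of_mem hs (x := s⁻¹ • y) hxK hyK
    rw [memU _ hxK, SimpleGraph.ConnectedComponent.eq.mpr hr]
    apply (memU _ hyK).mp
    rw [smul_inv_smul]
    exact hy1

theorem hasEnds_of_le (hS : Subgroup.closure S = ⊤) {n : ℕ} (h : (n : ℕ∞) ≤ relEnds S H) :
    HasEnds Γ (Γ ⧸ H) n := by
  classical
  rcases Nat.eq_zero_or_pos n with rfl | hn
  · exact ⟨fun i => i.elim0, fun i => i.elim0, fun i => i.elim0⟩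
  obtain ⟨K, hK⟩ : ∃ K : Finset (Γ ⧸ H), (n : ℕ∞) ≤ ENat.card
      {C : ((schreier S H).induce ((K : Set (Γ ⧸ H))ᶜ)).ConnectedComponent //
        C.supp.Infinite} := by
    by_contra hcon
    push Not at hcon
    obtain ⟨m, rfl⟩ : ∃ m, n = m + 1 := ⟨n - 1, by omega⟩
    have h1 : relEnds S H ≤ (m : ℕ∞) := by
      apply iSup_le
      intro K
      have h2 := hcon K
      rw [Nat.cast_succ] at h2
      exact Order.lt_add_one_iff_of_not_isMax (by simp) |>.mp h2
    have h4 := h.trans h1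
    rw [Nat.cast_le] at h4
    omega
  set T := {C : ((schreier S H).induce ((K : Set (Γ ⧸ H))ᶜ)).ConnectedComponent //
        C.supp.Infinite} with hT
  obtain ⟨f, hf⟩ : ∃ f : Fin n → T, Function.Injective f := by
    rcases finite_or_infinite T with hfin | hinf
    · have := Fintype.ofFinite T
      rw [ENat.card_eq_coe_fintype_card, Nat.cast_le] at hK
      have e := (Fintype.equivFin T).symm
      exact ⟨fun i => e (Fin.castLE hK i), fun i j hij =>
        Fin.castLE_injective hK (e.injective hij)⟩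
    · exact ⟨fun i => Infinite.natEmbedding T i, fun i j hij =>
        Fin.ext ((Infinite.natEmbedding T).injective hij)⟩
  refine ⟨fun i => Subtype.val '' (f i).1.supp, ?_, ?_⟩
  · intro i j hij
    rw [Set.disjoint_left]
    rintro _ ⟨⟨y, hy⟩, hy', rfl⟩ ⟨⟨z, hz⟩, hz', e⟩
    change z = y at e
    subst e
    apply hij
    apply hf
    apply Subtype.ext
    exact (show _ = _ from hy').symm.trans hz'
  · intro i
    exact ⟨(f i).2.image Subtype.val_injective.injOn, comp_AInv hS K _⟩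

/-- The points of `U` that have a neighbour outside `U`. -/
def bdry (U : Set (Γ ⧸ H)) (S : Set Γ) : Set (Γ ⧸ H) :=
  {z | z ∈ U ∧ ∃ s : Γ, (s ∈ S ∨ s⁻¹ ∈ S) ∧ s • z ∉ U}

theorem bdry_finite {U : Set (Γ ⧸ H)} (hU : AInv Γ U) (hT : S.Finite) : (bdry U S).Finite := by
  have h1 : (⋃ s ∈ S, (U \ s⁻¹ • U)).Finite := hT.biUnion fun s _ => (hU s⁻¹).finite_diff'
  have h2 : (⋃ s ∈ S, (U \ s • U)).Finite := hT.biUnion fun s _ => (hU s).finite_diff'
  refine (h1.union h2).subset ?_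
  rintro z ⟨hz, s, hs | hs, hsz⟩
  · left
    refine Set.mem_biUnion hs ⟨hz, fun h => hsz ?_⟩
    rwa [Set.mem_inv_smul_set_iff] at h
  · right
    refine Set.mem_biUnion hs ⟨hz, fun h => hsz ?_⟩
    rwa [Set.mem_smul_set_iff_inv_smul_mem, inv_inv] at h

theorem bdry_cross {U : Set (Γ ⧸ H)} {z : Γ ⧸ H} (hz : z ∉ bdry U S) (hz' : z ∉ bdry Uᶜ S) {s : Γ}
    (hs : s ∈ S ∨ s⁻¹ ∈ S) : s • z ∈ U ↔ z ∈ U := by
  constructor
  · intro h
    by_contra h'
    exact hz' ⟨h', s, hs, fun h'' => h'' h⟩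
  · intro h
    by_contra h'
    exact hz ⟨h, s, hs, h'⟩

theorem le_of_hasEnds (hfin : S.Finite) (hS : Subgroup.closure S = ⊤) {n : ℕ}
    (h : HasEnds Γ (Γ ⧸ H) n) : (n : ℕ∞) ≤ relEnds S H := by
  classical
  obtain ⟨U, hdis, hU⟩ := h
  have hKfin : (⋃ i, (bdry (U i) S ∪ bdry (U i)ᶜ S)).Finite :=
    Set.finite_iUnion fun i => (bdry_finite (hU i).2 hfin).union
      (bdry_finite (hU i).2.compl hfin)
  -- one more point, so that `K` is nonempty
  set x₀ : Γ ⧸ H := ((1 : Γ) : Γ ⧸ H) with hx₀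
  have hKfin' : ({x₀} ∪ ⋃ i, (bdry (U i) S ∪ bdry (U i)ᶜ S)).Finite :=
    (Set.finite_singleton _).union hKfin
  set K : Finset (Γ ⧸ H) := hKfin'.toFinset with hK
  have hx₀K : x₀ ∈ (K : Set (Γ ⧸ H)) := by simp [K]
  have memK : ∀ x, x ∈ ((K : Set (Γ ⧸ H))ᶜ) → ∀ i, x ∉ bdry (U i) S ∧ x ∉ bdry (U i)ᶜ S := by
    intro x hx i
    simp only [hK, Set.Finite.coe_toFinset, Set.mem_compl_iff, Set.mem_union, Set.mem_iUnion,
      not_or, not_exists] at hx
    exact hx.2 i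
  set Gr := (schreier S H).induce ((K : Set (Γ ⧸ H))ᶜ) with hGr
  have hadj : ∀ i, ∀ x y : ((K : Set (Γ ⧸ H))ᶜ : Set (Γ ⧸ H)), Gr.Adj x y →
      ((x : Γ ⧸ H) ∈ U i ↔ (y : Γ ⧸ H) ∈ U i) := by
    rintro i ⟨x, hx⟩ ⟨y, hy⟩ h
    rw [hGr, SimpleGraph.comap_adj] at h
    obtain ⟨-, ⟨s, hs, e⟩ | ⟨s, hs, e⟩⟩ := h
    · change s • x = y at e
      change x ∈ U i ↔ y ∈ U i
      rw [← e]
      exact (bdry_cross (memK x hx i).1 (memK x hx i).2 (Or.inl hs)).symm
    · change s • y = x at e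
      change x ∈ U i ↔ y ∈ U i
      rw [← e]
      exact bdry_cross (memK y hy i).1 (memK y hy i).2 (Or.inl hs)
  have hreach : ∀ i, ∀ x y : ((K : Set (Γ ⧸ H))ᶜ : Set (Γ ⧸ H)), Gr.Reachable x y →
      ((x : Γ ⧸ H) ∈ U i ↔ (y : Γ ⧸ H) ∈ U i) := by
    rintro i x y ⟨w⟩
    induction w with
    | nil => rfl
    | cons h _ ih => exact (hadj i _ _ h).trans ih
  -- the neighbours of `K`
  set N : Set (Γ ⧸ H) := (⋃ s ∈ S, s⁻¹ • (K : Set (Γ ⧸ H))) ∪ ⋃ s ∈ S, s • (K : Set (Γ ⧸ H))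
    with hN
  have hNfin : N.Finite := (hfin.biUnion fun s _ => (Finset.finite_toSet K).smul_set).union
    (hfin.biUnion fun s _ => (Finset.finite_toSet K).smul_set)
  have step : ∀ γ : Γ, ∀ z : ((K : Set (Γ ⧸ H))ᶜ : Set (Γ ⧸ H)),
      (∃ hz : γ • (z : Γ ⧸ H) ∈ ((K : Set (Γ ⧸ H))ᶜ), Gr.Reachable z ⟨γ • (z : Γ ⧸ H), hz⟩) ∨
        ∃ w : ((K : Set (Γ ⧸ H))ᶜ : Set (Γ ⧸ H)), (w : Γ ⧸ H) ∈ N ∧ Gr.Reachable z w := by
    intro γ z
    have hγ : γ ∈ Subgroup.closure S := by rw [hS]; trivial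
    induction hγ using Subgroup.closure_induction_left with
    | one =>
      left
      refine ⟨by rw [one_smul]; exact z.2, ?_⟩
      have : (⟨(1 : Γ) • (z : Γ ⧸ H), by rw [one_smul]; exact z.2⟩ :
          ((K : Set (Γ ⧸ H))ᶜ : Set (Γ ⧸ H))) = z := Subtype.ext (one_smul _ _)
      rw [this]
    | mul_left s hs v _ ih =>
      rcases ih with ⟨hz, hr⟩ | h
      · by_cases hk : (s * v) • (z : Γ ⧸ H) ∈ ((K : Set (Γ ⧸ H))ᶜ)
        · left
          refine ⟨hk, hr.trans ?_⟩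
          have e : (⟨(s * v) • (z : Γ ⧸ H), hk⟩ : ((K : Set (Γ ⧸ H))ᶜ : Set (Γ ⧸ H))) =
              ⟨s • v • (z : Γ ⧸ H), by rw [← mul_smul]; exact hk⟩ :=
            Subtype.ext (mul_smul _ _ _)
          rw [e]
          exact reach_of_mem hs hz _
        · right
          refine ⟨_, Or.inl (Set.mem_biUnion hs ?_), hr⟩
          rw [Set.mem_inv_smul_set_iff, ← mul_smul]
          exact Set.notMem_compl_iff.mp hk
      · exact Or.inr h
    | inv_mul_cancel s hs v _ ih =>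
      rcases ih with ⟨hz, hr⟩ | h
      · by_cases hk : (s⁻¹ * v) • (z : Γ ⧸ H) ∈ ((K : Set (Γ ⧸ H))ᶜ)
        · left
          refine ⟨hk, hr.trans ?_⟩
          have hk' : s • (s⁻¹ * v) • (z : Γ ⧸ H) ∈ ((K : Set (Γ ⧸ H))ᶜ) := by
            rw [← mul_smul, mul_inv_cancel_left]
            exact hz
          have := (reach_of_mem (S := S) (H := H) hs hk hk').symm
          have e : (⟨v • (z : Γ ⧸ H), hz⟩ : ((K : Set (Γ ⧸ H))ᶜ : Set (Γ ⧸ H))) =
              ⟨s • (s⁻¹ * v) • (z : Γ ⧸ H), hk'⟩ :=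
            Subtype.ext (show v • (z : Γ ⧸ H) = s • (s⁻¹ * v) • (z : Γ ⧸ H) by
              rw [← mul_smul s, mul_inv_cancel_left])
          rw [e]
          exact this
        · right
          refine ⟨_, Or.inr (Set.mem_biUnion hs ?_), hr⟩
          rw [Set.mem_smul_set_iff_inv_smul_mem, ← mul_smul]
          exact Set.notMem_compl_iff.mp hk
      · exact Or.inr h
  -- every point off `K` is connected to `N`
  have toN : ∀ z : ((K : Set (Γ ⧸ H))ᶜ : Set (Γ ⧸ H)),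
      ∃ w : ((K : Set (Γ ⧸ H))ᶜ : Set (Γ ⧸ H)), (w : Γ ⧸ H) ∈ N ∧ Gr.Reachable z w := by
    intro z
    obtain ⟨γ, hγ⟩ := MulAction.exists_smul_eq Γ (z : Γ ⧸ H) x₀
    rcases step γ z with ⟨hz', hr⟩ | h
    · exfalso
      rw [hγ] at hz'
      exact hz' hx₀K
    · exact h
  -- infinite components
  have comp : ∀ i, ∃ C : Gr.ConnectedComponent, C.supp.Infinite ∧ ∀ x ∈ C.supp,
      (x : Γ ⧸ H) ∈ U i := by
    intro i
    by_contra hcon
    push Not at hcon
    have hfinC : ∀ C : Gr.ConnectedComponent, (∀ x ∈ C.supp, (x : Γ ⧸ H) ∈ U i) →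
        C.supp.Finite := by
      intro C hC
      by_contra hCi
      obtain ⟨x, hx, hxW⟩ := hcon C hCi
      exact hxW (hC x hx)
    apply (hU i).1
    -- the components that meet `N`
    have hNsub : ((fun x : ((K : Set (Γ ⧸ H))ᶜ : Set (Γ ⧸ H)) => (x : Γ ⧸ H)) ⁻¹'
        (N ∩ U i)).Finite :=
      (hNfin.inter_of_left _).preimage Subtype.val_injective.injOn
    have hbig : (⋃ w ∈ ((fun x : ((K : Set (Γ ⧸ H))ᶜ : Set (Γ ⧸ H)) => (x : Γ ⧸ H)) ⁻¹'
        (N ∩ U i)),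
        ((fun x : ((K : Set (Γ ⧸ H))ᶜ : Set (Γ ⧸ H)) => (x : Γ ⧸ H)) ''
          (Gr.connectedComponentMk w).supp)).Finite := by
      apply hNsub.biUnion
      intro w hw
      apply Set.Finite.image
      apply hfinC
      intro x hx
      have hr : Gr.Reachable x w := SimpleGraph.ConnectedComponent.eq.mp hx
      exact (hreach i x w hr).mpr hw.2
    refine ((Finset.finite_toSet K).union hbig).subset ?_
    intro z hz
    by_cases hzK : z ∈ (K : Set (Γ ⧸ H))
    · exact Or.inl hzK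
    · right
      obtain ⟨w, hwN, hr⟩ := toN ⟨z, hzK⟩
      refine Set.mem_biUnion (show w ∈ _ from ⟨hwN, (hreach i _ _ hr).mp hz⟩) ?_
      exact ⟨⟨z, hzK⟩, SimpleGraph.ConnectedComponent.eq.mpr hr, rfl⟩
  choose C hC hCU using comp
  have hinj : Function.Injective (fun i => (⟨C i, hC i⟩ :
      {C : Gr.ConnectedComponent // C.supp.Infinite})) := by
    intro i j hij
    by_contra hne
    have e : C i = C j := congrArg Subtype.val hij
    obtain ⟨x, hx⟩ := (hC i).nonempty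
    exact Set.disjoint_left.mp (hdis i j hne) (hCU i x hx) (hCU j x (e ▸ hx))
  have hcard : (n : ℕ∞) ≤ ENat.card {C : Gr.ConnectedComponent // C.supp.Infinite} := by
    have := ENat.card_le_card_of_injective hinj
    simpa using this
  exact hcard.trans (le_iSup (fun K : Finset (Γ ⧸ H) => ENat.card
    {C : ((schreier S H).induce ((K : Set (Γ ⧸ H))ᶜ)).ConnectedComponent // C.supp.Infinite}) K)

theorem le_relEnds_iff (hfin : S.Finite) (hS : Subgroup.closure S = ⊤) {n : ℕ} :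
    (n : ℕ∞) ≤ relEnds S H ↔ HasEnds Γ (Γ ⧸ H) n :=
  ⟨hasEnds_of_le hS, le_of_hasEnds hfin hS⟩

end Graph

end Pool.Agent.H.MP_ee9c6f_al.E2
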