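import Pool.Agent.H.MP_ee9c6f_al.E2.Amal

/-!
MP_ee9c6f_al, genus 2 (helper40). Subgroups of the surface group of genus 2 with at least `n`
relative ends.
-/

set_option autoImplicit false

namespace Pool.Agent.H.MP_ee9c6f_al.E2

open Monoid PushoutI NormalWord Pointwise

/-- The free group of rank 2. -/
abbrev F2 : Type := FreeGroup (Fin 2)

/-- The commutator of the generators. -/
def cm : F2 := FreeGroup.of 0 * FreeGroup.of 1 * (FreeGroup.of 0)⁻¹ * (FreeGroup.of 1)⁻¹

theorem cm_ne : cm ≠ 1 := by decide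

/-- The two embeddings of the amalgamated subgroup. -/
def am : (i : Bool) → (Multiplicative ℤ →* F2)
  | false => zpowersHom F2 cm
  | true => zpowersHom F2 cm⁻¹

theorem am_false (n : Multiplicative ℤ) : am false n = cm ^ (Multiplicative.toAdd n) := rfl

theorem am_true (n : Multiplicative ℤ) : am true n = (cm⁻¹) ^ (Multiplicative.toAdd n) := rfl

theorem am_injective (i : Bool) : Function.Injective (am i) := by
  have key : ∀ u : F2, u ≠ 1 → Function.Injective (zpowersHom F2 u) := by
    intro u hu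
    rw [injective_iff_map_eq_one]
    intro n hn
    rw [zpowersHom_apply] at hn
    by_contra hne
    have h0 : Multiplicative.toAdd n ≠ 0 := fun h => hne (Multiplicative.toAdd.injective h)
    exact hu ((IsMulTorsionFree.zpow_eq_one_iff_left h0).mp hn)
  cases i
  · exact key cm cm_ne
  · exact key cm⁻¹ (inv_ne_one.mpr cm_ne)

/-- The amalgamated product. -/
abbrev Am : Type := PushoutI am

/-- The first factor. -/
def iA : F2 →* Am := PushoutI.of (φ := am) false

/-- The second factor. -/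
def iB : F2 →* Am := PushoutI.of (φ := am) true

/-- The exponent sum of a generator. -/
def expo (k : Fin 2) : F2 →* Multiplicative ℤ :=
  FreeGroup.lift fun j => if j = k then Multiplicative.ofAdd 1 else 1

theorem expo_of (k j : Fin 2) :
    expo k (FreeGroup.of j) = if j = k then Multiplicative.ofAdd 1 else 1 := by
  simp [expo]

theorem expo_cm (k : Fin 2) : expo k cm = 1 := by
  unfold cm
  simp only [map_mul, map_inv]
  rw [mul_assoc, mul_assoc, mul_comm (expo k (FreeGroup.of 1)), ← mul_assoc, ← mul_assoc]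
  simp

theorem expo_am (k : Fin 2) (i : Bool) (n : Multiplicative ℤ) : expo k (am i n) = 1 := by
  cases i
  · rw [am_false, map_zpow, expo_cm, one_zpow]
  · rw [am_true, map_zpow, map_inv, expo_cm, inv_one, one_zpow]

theorem not_range_of_expo {k : Fin 2} {i : Bool} {a : F2} (h : expo k a ≠ 1) :
    a ∉ (am i).range := by
  rintro ⟨n, rfl⟩
  exact h (expo_am k i n)

/-- The conjugate of the commutator by `x ^ j`. -/
def cj' (j : ℕ) : F2 := FreeGroup.of 0 ^ j * cm * (FreeGroup.of 0 ^ j)⁻¹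

theorem expo_cj' (k : Fin 2) (j : ℕ) : expo k (cj' j) = 1 := by
  unfold cj'
  rw [map_mul, map_mul, expo_cm, mul_one, ← map_mul, mul_inv_cancel, map_one]

/-- The subgroup of the first factor generated by the conjugates. -/
def PA (m : ℕ) : Subgroup F2 := Subgroup.closure (Set.range fun j : Fin m => cj' j)

theorem expo_PA {m : ℕ} {p : F2} (hp : p ∈ PA m) (k : Fin 2) : expo k p = 1 := by
  have h : PA m ≤ (expo k).ker := by
    unfold PA
    rw [Subgroup.closure_le]
    rintro _ ⟨j, rfl⟩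
    exact expo_cj' k j
  exact h hp

/-- The subgroup of the amalgamated product. -/
def PP (m : ℕ) : Subgroup Am := (PA m).map iA

theorem cj'_mem {m : ℕ} (j : Fin m) : iA (cj' j) ∈ PP m :=
  ⟨cj' j, Subgroup.subset_closure ⟨j, rfl⟩, rfl⟩

theorem closure_factors : Subgroup.closure ((iA.range : Set Am) ∪ (iB.range : Set Am)) = ⊤ := by
  rw [eq_top_iff]
  intro g _
  induction g using PushoutI.induction_on with
  | of i g =>
    cases i
    · exact Subgroup.subset_closure (Or.inl ⟨g, rfl⟩)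
    · exact Subgroup.subset_closure (Or.inr ⟨g, rfl⟩)
  | base h =>
    rw [← of_apply_eq_base am false]
    exact Subgroup.subset_closure (Or.inl ⟨_, rfl⟩)
  | mul a b iha ihb => exact mul_mem (iha trivial) (ihb trivial)

section Sets

variable (d : Transversal am)

/-- The half-space. -/
def ZZ : Set Am := {g | fst d g⁻¹ = some true}

/-- The image of a translate of the half-space. -/
def EE (m : ℕ) (j : ℕ) : Set (Am ⧸ PP m) :=
  {q | ∃ g ∈ ZZ d, q = ((g * (iA (FreeGroup.of 0 ^ j))⁻¹ : Am) : Am ⧸ PP m)}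

theorem base_eq_A (n : Multiplicative ℤ) : base am n = iA (cm ^ (Multiplicative.toAdd n)) := by
  rw [← of_apply_eq_base am false]
  rfl

/-- The cosets of the elements of the base collapse. -/
theorem coset_base {m : ℕ} (j : Fin m) (n : Multiplicative ℤ) (s : Am) :
    ((s * base am n * (iA (FreeGroup.of 0 ^ (j : ℕ)))⁻¹ : Am) : Am ⧸ PP m) =
      ((s * (iA (FreeGroup.of 0 ^ (j : ℕ)))⁻¹ : Am) : Am ⧸ PP m) := by
  rw [QuotientGroup.eq, base_eq_A]
  have h1 : iA (cj' j) ^ (Multiplicative.toAdd n) ∈ PP m := zpow_mem (cj'_mem j) _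
  have h2 : (s * iA (cm ^ (Multiplicative.toAdd n)) * (iA (FreeGroup.of 0 ^ (j : ℕ)))⁻¹)⁻¹ *
      (s * (iA (FreeGroup.of 0 ^ (j : ℕ)))⁻¹) = (iA (cj' j) ^ (Multiplicative.toAdd n))⁻¹ := by
    have h3 : iA (cj' j) ^ (Multiplicative.toAdd n) =
        iA (FreeGroup.of 0 ^ (j : ℕ)) * iA (cm ^ (Multiplicative.toAdd n)) *
          (iA (FreeGroup.of 0 ^ (j : ℕ)))⁻¹ := by
      rw [← map_zpow, cj', conj_zpow, map_mul, map_mul, map_inv]
    rw [h3]
    group
  rw [h2]
  exact inv_mem h1

theorem EE_AInv {m : ℕ} (j : Fin m) : AInv Am (EE d m j) := by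
  apply AInv.of_gen closure_factors
  -- `s EE ⊆ EE` up to a finite set, for `s` in a factor
  have key : ∀ (i : Bool) (s : F2), ((PushoutI.of (φ := am) i s • EE d m j) \ EE d m j) ⊆
      {((PushoutI.of (φ := am) i s * (iA (FreeGroup.of 0 ^ (j : ℕ)))⁻¹ : Am) : Am ⧸ PP m),
        (((1 : Am) * (iA (FreeGroup.of 0 ^ (j : ℕ)))⁻¹ : Am) : Am ⧸ PP m)} := by
    intro i s q hq
    obtain ⟨⟨_, ⟨g, hg, rfl⟩, rfl⟩, hq2⟩ := hq
    set σ : Am := PushoutI.of (φ := am) i s with hσ
    -- is `σ * g` in the half-space?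
    by_cases h1 : fst d (σ * g)⁻¹ = some true
    · exfalso
      apply hq2
      exact ⟨σ * g, h1, by rw [mul_assoc]; rfl⟩
    · have e : (σ * g)⁻¹ = g⁻¹ * PushoutI.of (φ := am) i s⁻¹ := by
        rw [mul_inv_rev, hσ, map_inv]
      rw [e] at h1
      have hg' : fst d g⁻¹ = some true := hg
      cases i with
      | false =>
        exact absurd ((fst_mul_of d g⁻¹ false true (by decide) s⁻¹).mpr hg') h1
      | true =>
        obtain ⟨n, hn⟩ := base_of_change d hg' h1
        right
        have e2 : σ * g = base am n⁻¹ := by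
          rw [map_inv, ← hn, ← e, inv_inv]
        have e3 : σ • ((g * (iA (FreeGroup.of 0 ^ (j : ℕ)))⁻¹ : Am) : Am ⧸ PP m) =
            ((1 * base am n⁻¹ * (iA (FreeGroup.of 0 ^ (j : ℕ)))⁻¹ : Am) : Am ⧸ PP m) := by
          rw [one_mul, ← e2, mul_assoc]
          rfl
        change σ • ((g * (iA (FreeGroup.of 0 ^ (j : ℕ)))⁻¹ : Am) : Am ⧸ PP m) = _
        rw [e3, coset_base]
  have key2 : ∀ (i : Bool) (s : F2), AE (PushoutI.of (φ := am) i s • EE d m j) (EE d m j) := by
    intro i s
    have h1 : ((PushoutI.of (φ := am) i s • EE d m j) \ EE d m j).Finite :=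
      (Set.toFinite _).subset (key i s)
    have h2 : ((PushoutI.of (φ := am) i s⁻¹ • EE d m j) \ EE d m j).Finite :=
      (Set.toFinite _).subset (key i s⁻¹)
    have h3 : (EE d m j \ (PushoutI.of (φ := am) i s • EE d m j)) =
        PushoutI.of (φ := am) i s • ((PushoutI.of (φ := am) i s⁻¹ • EE d m j) \ EE d m j) := by
      rw [map_inv, Set.smul_set_sdiff, smul_inv_smul]
    refine Set.Finite.subset (h1.union (h2.smul_set (a := PushoutI.of (φ := am) i s))) ?_
    rw [← h3]
    rintro q (hq | hq)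
    · exact Or.inl hq
    · exact Or.inr hq
  rintro s (⟨a, rfl⟩ | ⟨a, rfl⟩)
  · exact key2 false a
  · exact key2 true a

theorem EE_disjoint {m : ℕ} {j k : ℕ} (hjk : j ≠ k) : Disjoint (EE d m j) (EE d m k) := by
  rw [Set.disjoint_left]
  rintro q ⟨g, hg, rfl⟩ ⟨g', hg', h⟩
  rw [QuotientGroup.eq] at h
  obtain ⟨p, hp, hp'⟩ := h
  -- `g'⁻¹ = a g⁻¹` with `a` in the first factor
  set a : F2 := (FreeGroup.of 0 ^ k)⁻¹ * p⁻¹ * FreeGroup.of 0 ^ j with ha
  have h1 : g'⁻¹ = iA a * g⁻¹ := by
    rw [ha, map_mul, map_mul, map_inv, map_inv, hp']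
    group
  have h2 : expo 0 a ≠ 1 := by
    rw [ha, map_mul, map_mul, map_inv, map_inv, expo_PA hp, inv_one, mul_one, map_pow, map_pow,
      expo_of, if_pos rfl, ne_eq, inv_mul_eq_one]
    intro h3
    have h4 := congrArg Multiplicative.toAdd h3
    simp only [toAdd_pow, toAdd_ofAdd, nsmul_eq_mul, mul_one, Nat.cast_inj] at h4
    exact hjk h4.symm
  have h3 : fst d g⁻¹ ≠ some false := by
    rw [show fst d g⁻¹ = some true from hg]
    decide
  have h4 := fst_of_mul d (i := false) (not_range_of_expo (i := false) h2) h3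
  have h5 : fst d g'⁻¹ = some true := hg'
  rw [h1] at h5
  have h6 : fst d (iA a * g⁻¹) = some false := h4
  rw [h6] at h5
  exact absurd h5 (by decide)

theorem fst_A (a : F2) : fst d (iA a) ≠ some true := fst_of_ne d (by decide) a

theorem zpow_expo_ne {n : ℤ} (hn : n ≠ 0) (k : Fin 2) : expo k (FreeGroup.of k ^ n) ≠ 1 := by
  rw [map_zpow, expo_of, if_pos rfl]
  intro h
  have := congrArg Multiplicative.toAdd h
  simp only [toAdd_zpow, toAdd_ofAdd, smul_eq_mul, mul_one, toAdd_one] at this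
  exact hn this

theorem EE_infinite {m : ℕ} (j : ℕ) : (EE d m j).Infinite := by
  have hmem : ∀ n : ℕ, ((iB (FreeGroup.of 0 ^ (n + 1)) * (iA (FreeGroup.of 0 ^ j))⁻¹ : Am) :
      Am ⧸ PP m) ∈ EE d m j := by
    intro n
    refine ⟨_, ?_, rfl⟩
    change fst d (iB (FreeGroup.of 0 ^ (n + 1)))⁻¹ = some true
    rw [← map_inv]
    apply fst_of d
    apply not_range_of_expo (k := 0)
    have := zpow_expo_ne (n := -(n + 1 : ℤ)) (by omega) 0
    rw [zpow_neg] at this
    exact_mod_cast this
  have hinj : Function.Injective (fun n : ℕ =>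
      (⟨((iB (FreeGroup.of 0 ^ (n + 1)) * (iA (FreeGroup.of 0 ^ j))⁻¹ : Am) : Am ⧸ PP m), hmem n⟩ :
        EE d m j)) := by
    intro n n' h
    have h1 := congrArg Subtype.val h
    change ((iB (FreeGroup.of 0 ^ (n + 1)) * (iA (FreeGroup.of 0 ^ j))⁻¹ : Am) : Am ⧸ PP m) =
      ((iB (FreeGroup.of 0 ^ (n' + 1)) * (iA (FreeGroup.of 0 ^ j))⁻¹ : Am) : Am ⧸ PP m) at h1
    rw [QuotientGroup.eq] at h1
    obtain ⟨p, -, hp'⟩ := h1
    by_contra hne
    have h2 : iB (FreeGroup.of 0 ^ ((n' : ℤ) - n)) =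
        iA ((FreeGroup.of 0 ^ j)⁻¹ * p * FreeGroup.of 0 ^ j) := by
      rw [map_mul, map_mul, map_inv, hp']
      have e : (FreeGroup.of 0 ^ ((n' : ℤ) - n) : F2) =
          (FreeGroup.of 0 ^ (n + 1))⁻¹ * FreeGroup.of 0 ^ (n' + 1) := by
        rw [← zpow_natCast, ← zpow_natCast, ← zpow_neg, ← zpow_add]
        congr 1
        push_cast
        ring
      rw [e, map_mul, map_inv]
      group
    have h3 : fst d (iB (FreeGroup.of 0 ^ ((n' : ℤ) - n))) = some true := by
      apply fst_of d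
      apply not_range_of_expo (k := 0)
      apply zpow_expo_ne
      omega
    rw [h2] at h3
    exact fst_A d _ h3
  rw [← Set.infinite_coe_iff]
  exact Infinite.of_injective _ hinj

theorem rest_infinite (m : ℕ) : (⋃ j : Fin m, EE d m j)ᶜ.Infinite := by
  have hmem : ∀ n : ℕ, ((iA (FreeGroup.of 1 ^ n) : Am) : Am ⧸ PP m) ∈
      (⋃ j : Fin m, EE d m j)ᶜ := by
    intro n h
    obtain ⟨j, g, hg, h1⟩ := Set.mem_iUnion.mp h
    rw [QuotientGroup.eq] at h1
    obtain ⟨p, -, hp'⟩ := h1
    have h2 : g⁻¹ = iA ((FreeGroup.of 0 ^ (j : ℕ))⁻¹ * p⁻¹ * (FreeGroup.of 1 ^ n)⁻¹) := by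
      rw [map_mul, map_mul, map_inv, map_inv, map_inv, hp']
      group
    have h3 : fst d g⁻¹ = some true := hg
    rw [h2] at h3
    exact fst_A d _ h3
  have hinj : Function.Injective (fun n : ℕ =>
      (⟨((iA (FreeGroup.of 1 ^ n) : Am) : Am ⧸ PP m), hmem n⟩ :
        ((⋃ j : Fin m, EE d m j)ᶜ : Set (Am ⧸ PP m)))) := by
    intro n n' h
    have h1 := congrArg Subtype.val h
    change ((iA (FreeGroup.of 1 ^ n) : Am) : Am ⧸ PP m) =
      ((iA (FreeGroup.of 1 ^ n') : Am) : Am ⧸ PP m) at h1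
    rw [QuotientGroup.eq] at h1
    obtain ⟨p, hp, hp'⟩ := h1
    have h2 : p = (FreeGroup.of 1 ^ n)⁻¹ * FreeGroup.of 1 ^ n' := by
      apply PushoutI.of_injective am_injective false
      change iA p = iA _
      rw [hp', map_mul, map_inv]
    have h3 := expo_PA hp 1
    rw [h2, map_mul, map_inv, map_pow, map_pow, expo_of, if_pos rfl, inv_mul_eq_one] at h3
    have h4 := congrArg Multiplicative.toAdd h3
    simpa only [toAdd_pow, toAdd_ofAdd, nsmul_eq_mul, mul_one, Nat.cast_inj] using h4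
  rw [← Set.infinite_coe_iff]
  exact Infinite.of_injective _ hinj

end Sets

theorem AInv.iUnion {G X ι : Type*} [Group G] [MulAction G X] [Finite ι] {U : ι → Set X}
    (h : ∀ i, AInv G (U i)) : AInv G (⋃ i, U i) := by
  intro g
  have h1 : (⋃ i, symmDiff (g • U i) (U i)).Finite := Set.finite_iUnion fun i => h i g
  refine h1.subset ?_
  rw [Set.smul_set_iUnion]
  rintro x (⟨hx, hx'⟩ | ⟨hx, hx'⟩)
  · obtain ⟨i, hi⟩ := Set.mem_iUnion.mp hx
    exact Set.mem_iUnion.mpr ⟨i, Or.inl ⟨hi, fun h => hx' (Set.mem_iUnion.mpr ⟨i, h⟩)⟩⟩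
  · obtain ⟨i, hi⟩ := Set.mem_iUnion.mp hx
    exact Set.mem_iUnion.mpr ⟨i, Or.inr ⟨hi, fun h => hx' (Set.mem_iUnion.mpr ⟨i, h⟩)⟩⟩

/-- The family of sets. -/
def fam (d : Transversal am) (m : ℕ) (i : Fin (m + 1)) : Set (Am ⧸ PP m) :=
  if (i : ℕ) < m then EE d m i else (⋃ j : Fin m, EE d m j)ᶜ

theorem lowerAm (m : ℕ) : HasEnds Am (Am ⧸ PP m) (m + 1) := by
  obtain ⟨d⟩ := transversal_nonempty am am_injective
  refine ⟨fam d m, ?_, ?_⟩
  · intro i j hij
    have hv : (i : ℕ) ≠ j := fun h => hij (Fin.ext h)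
    unfold fam
    split_ifs with h1 h2 h2
    · exact EE_disjoint d hv
    · rw [Set.disjoint_left]
      intro x hx hx'
      exact hx' (Set.mem_iUnion.mpr ⟨⟨i, h1⟩, hx⟩)
    · rw [Set.disjoint_left]
      intro x hx hx'
      exact hx (Set.mem_iUnion.mpr ⟨⟨j, h2⟩, hx'⟩)
    · have := i.2
      have := j.2
      omega
  · intro i
    unfold fam
    split_ifs with h1
    · exact ⟨EE_infinite d _, EE_AInv d ⟨i, h1⟩⟩
    · exact ⟨rest_infinite d m, (AInv.iUnion fun j => EE_AInv d j).compl⟩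

/-! ### The isomorphism with the surface group -/

theorem am_rel : iA cm * iB cm = 1 := by
  have h1 : iA cm = base am (Multiplicative.ofAdd 1) := by
    rw [base_eq_A]
    simp
  have h2 : iB cm = (base am (Multiplicative.ofAdd 1))⁻¹ := by
    rw [← of_apply_eq_base am true, am_true]
    simp [iB]
  rw [h1, h2, mul_inv_cancel]

/-- The homomorphism from the surface group to the amalgamated product. -/
def toAm : Su →* Am := PresentedGroup.toGroup
  (f := ![iA (FreeGroup.of 0), iA (FreeGroup.of 1), iB (FreeGroup.of 0), iB (FreeGroup.of 1)]) (by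
    rintro r hr
    rw [Set.mem_singleton_iff] at hr
    subst hr
    unfold sRel
    simp only [map_mul, map_inv, FreeGroup.lift_apply_of]
    change iA (FreeGroup.of 0) * iA (FreeGroup.of 1) * (iA (FreeGroup.of 0))⁻¹ *
      (iA (FreeGroup.of 1))⁻¹ * (iB (FreeGroup.of 0) * iB (FreeGroup.of 1) *
      (iB (FreeGroup.of 0))⁻¹ * (iB (FreeGroup.of 1))⁻¹) = 1
    rw [← am_rel]
    simp only [cm, map_mul, map_inv])

theorem toAm_gen (i : Fin 4) : toAm (Su.gen i) =
    (![iA (FreeGroup.of 0), iA (FreeGroup.of 1), iB (FreeGroup.of 0), iB (FreeGroup.of 1)] :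
      Fin 4 → Am) i := PresentedGroup.toGroup.of _

/-- The homomorphisms from the factors to the surface group. -/
def facHom : Bool → F2 →* Su
  | false => FreeGroup.lift ![Su.x, Su.y]
  | true => FreeGroup.lift ![Su.z, Su.w]

theorem facHom_cm_false : facHom false cm = Su.x * Su.y * Su.x⁻¹ * Su.y⁻¹ := by
  simp [facHom, cm]

theorem facHom_cm_true : facHom true cm = Su.z * Su.w * Su.z⁻¹ * Su.w⁻¹ := by
  simp [facHom, cm]

/-- The homomorphism from the amalgamated product to the surface group. -/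
def ofAm : Am →* Su := PushoutI.lift facHom (zpowersHom Su (facHom false cm)) (by
  intro i
  apply MonoidHom.ext
  intro n
  cases i
  · rw [MonoidHom.comp_apply, am_false, map_zpow]
    rfl
  · rw [MonoidHom.comp_apply, am_true, map_zpow, map_inv]
    have h : (facHom true cm)⁻¹ = facHom false cm := by
      rw [facHom_cm_true, facHom_cm_false, inv_eq_iff_mul_eq_one]
      have := Su.rel
      rw [mul_eq_one_iff_eq_inv] at this
      rw [this, mul_inv_cancel]
    rw [h]
    rfl)

theorem ofAm_A (a : F2) : ofAm (iA a) = facHom false a := by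
  unfold ofAm iA
  rw [PushoutI.lift_of]

theorem ofAm_B (a : F2) : ofAm (iB a) = facHom true a := by
  unfold ofAm iB
  rw [PushoutI.lift_of]

/-- The isomorphism. -/
def amEquiv : Am ≃* Su := MonoidHom.toMulEquiv ofAm toAm (by
    apply PushoutI.hom_ext_nonempty
    intro i
    cases i
    · apply FreeGroup.ext_hom
      intro k
      change toAm (ofAm (iA (FreeGroup.of k))) = iA (FreeGroup.of k)
      rw [ofAm_A]
      fin_cases k
      · exact toAm_gen 0
      · exact toAm_gen 1
    · apply FreeGroup.ext_hom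
      intro k
      change toAm (ofAm (iB (FreeGroup.of k))) = iB (FreeGroup.of k)
      rw [ofAm_B]
      fin_cases k
      · exact toAm_gen 2
      · exact toAm_gen 3) (by
    apply PresentedGroup.ext
    intro i
    change ofAm (toAm (Su.gen i)) = Su.gen i
    rw [toAm_gen]
    fin_cases i
    · exact ofAm_A _
    · exact ofAm_A _
    · exact ofAm_B _
    · exact ofAm_B _)

/-- For every `n ≥ 1` there is a finitely generated subgroup of the surface group of genus 2 with
exactly `n` relative ends. -/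
theorem exists_ends (m : ℕ) : ∃ P : Subgroup Su, P.FG ∧ ∀ n, HasEnds Su (Su ⧸ P) n ↔ n ≤ m + 1 := by
  let P : Subgroup Su := (PP m).map (amEquiv : Am →* Su)
  have hP : P = Subgroup.closure (Set.range fun j : Fin m => amEquiv (iA (cj' j))) := by
    change ((PA m).map iA).map (amEquiv : Am →* Su) = _
    unfold PA
    rw [MonoidHom.map_closure, MonoidHom.map_closure, ← Set.range_comp, ← Set.range_comp]
    rfl
  refine ⟨P, (Subgroup.fg_iff _).mpr ⟨_, hP.symm, Set.finite_range _⟩, fun n => ⟨?_, ?_⟩⟩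
  · exact upper _ hP
  · intro hn
    have h1 : HasEnds Su (Su ⧸ P) (m + 1) := by
      have hinj : Function.Injective (amEquiv : Am →* Su) := amEquiv.injective
      have hfin : (amEquiv : Am →* Su).range.FiniteIndex := by
        have : (amEquiv : Am →* Su).range = ⊤ :=
          MonoidHom.range_eq_top.mpr (show Function.Surjective (amEquiv : Am →* Su) from
            amEquiv.surjective)
        rw [this]
        infer_instance
      exact (hasEnds_index hinj hfin (PP m)).mpr (lowerAm m)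
    obtain ⟨U, h2, h3⟩ := h1
    exact ⟨fun i => U (Fin.castLE hn i),
      fun i j hij => h2 _ _ fun h => hij (Fin.castLE_injective hn h), fun i => h3 _⟩

end Pool.Agent.H.MP_ee9c6f_al.E2
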