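import Pool.Agent.H.MP_ee9c6f_al.E2.DataI
import Pool.Agent.H.MP_ee9c6f_al.E2.Lower

/-!
MP_ee9c6f_al, genus 2 (helper40). The free group of rank 2 has infinitely many ends, and the arrow
from `Mod_2` to it.
-/

set_option autoImplicit false

namespace Pool.Agent.H.MP_ee9c6f_al.E2

open Pointwise

/-- The suffix `y x ^ k`. -/
def suf (k : ℕ) : List (Fin 2 × Bool) := (1, true) :: List.replicate k (0, true)

/-- The elements whose reduced word ends with `y x ^ k`. -/
def sufSet (k : ℕ) : Set F2 := {g | suf k <:+ g.toWord}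

theorem suf_unique {k k' : ℕ} {w : List (Fin 2 × Bool)} (h : suf k <:+ w) (h' : suf k' <:+ w)
    (hlt : k < k') : False := by
  obtain ⟨l, rfl⟩ := h
  obtain ⟨l', hl'⟩ := h'
  have h1 : (l ++ suf k).reverse[k]? = some (1, true) := by
    unfold suf
    rw [List.reverse_append, List.reverse_cons, List.reverse_replicate,
      List.append_assoc, List.getElem?_append_right (by simp)]
    simp
  rw [← hl'] at h1
  have h2 : (l' ++ suf k').reverse[k]? = some (0, true) := by
    unfold suf
    rw [List.reverse_append, List.reverse_cons, List.reverse_replicate,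
      List.append_assoc, List.getElem?_append_left (by simpa using hlt)]
    simp [hlt]
  rw [h1] at h2
  simp at h2

theorem suf_mul {k : ℕ} {g : F2} (hg : suf k <:+ g.toWord) (hne : g.toWord ≠ suf k)
    (x : Fin 2 × Bool) : suf k <:+ (FreeGroup.mk [x] * g).toWord := by
  obtain ⟨l, hl⟩ := hg
  have hl' : l ≠ [] := by
    rintro rfl
    exact hne hl.symm
  obtain ⟨z, l, rfl⟩ := List.exists_cons_of_ne_nil hl'
  have h1 : FreeGroup.reduce g.toWord = g.toWord := FreeGroup.reduce_toWord g
  have h2 : (FreeGroup.mk [x] * g).toWord = FreeGroup.reduce (x :: g.toWord) := by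
    conv_lhs => rw [← FreeGroup.mk_toWord (x := g)]
    rw [FreeGroup.mul_mk, FreeGroup.toWord_mk]
    rfl
  rw [h2, FreeGroup.reduce.cons, h1, ← hl]
  simp only [List.cons_append]
  split_ifs
  · exact ⟨l, rfl⟩
  · exact ⟨x :: z :: l, rfl⟩

theorem gen_smul_sub (k : ℕ) (x : Fin 2 × Bool) :
    FreeGroup.mk [x] • sufSet k \ sufSet k ⊆ {FreeGroup.mk [x] * FreeGroup.mk (suf k)} := by
  rintro _ ⟨⟨g, hg, rfl⟩, h2⟩
  by_contra h3
  apply h2
  apply suf_mul hg
  intro h4
  apply h3
  change FreeGroup.mk [x] * g = _
  rw [← FreeGroup.mk_toWord (x := g), h4]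

theorem sufSet_AInv (k : ℕ) : AInv F2 (sufSet k) := by
  have hS : Subgroup.closure (Set.range (FreeGroup.of : Fin 2 → F2)) = ⊤ :=
    FreeGroup.closure_range_of (Fin 2)
  apply AInv.of_gen hS
  rintro _ ⟨i, rfl⟩
  have h1 := gen_smul_sub k (i, true)
  have h2 := gen_smul_sub k (i, false)
  have e1 : (FreeGroup.mk [(i, true)] : F2) = FreeGroup.of i := rfl
  have e2 : (FreeGroup.mk [(i, false)] : F2) = (FreeGroup.of i)⁻¹ := rfl
  rw [e1] at h1
  rw [e2] at h2
  have h3 : sufSet k \ FreeGroup.of i • sufSet k ⊆ {FreeGroup.mk (suf k)} := by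
    rintro g ⟨hg, hg'⟩
    have h4 : (FreeGroup.of i)⁻¹ * g ∈ (FreeGroup.of i)⁻¹ • sufSet k \ sufSet k := by
      refine ⟨⟨g, hg, rfl⟩, ?_⟩
      intro h5
      apply hg'
      rw [Set.mem_smul_set_iff_inv_smul_mem]
      exact h5
    have h5 := h2 h4
    rw [Set.mem_singleton_iff] at h5 ⊢
    exact mul_left_cancel h5
  have h4 : (symmDiff (FreeGroup.of i • sufSet k) (sufSet k)).Finite :=
    Set.Finite.subset (Set.Finite.union (Set.finite_singleton _) (Set.finite_singleton _))
      (Set.union_subset_union h1 h3)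
  exact h4

theorem sufSet_infinite (k : ℕ) : (sufSet k).Infinite := by
  have h1 : ∀ j : ℕ, (FreeGroup.mk (List.replicate j (1, true) ++ suf k) : F2).toWord =
      List.replicate j (1, true) ++ suf k := by
    intro j
    rw [FreeGroup.toWord_mk]
    have h2 : List.replicate j ((1, true) : Fin 2 × Bool) ++ suf k =
        List.replicate (j + 1) (1, true) ++ List.replicate k (0, true) := by
      unfold suf
      rw [List.replicate_succ', List.append_assoc]
      rfl
    have h3 : ∀ j : ℕ, FreeGroup.reduce (List.replicate j ((1, true) : Fin 2 × Bool) ++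
        List.replicate k (0, true)) = List.replicate j (1, true) ++ List.replicate k (0, true) := by
      intro j
      induction j with
      | zero =>
        simp only [List.replicate_zero, List.nil_append]
        clear h2
        induction k with
        | zero => rfl
        | succ k ih =>
          rw [List.replicate_succ, FreeGroup.reduce.cons, ih]
          cases k <;> simp [List.replicate_succ]
      | succ j ih =>
        rw [List.replicate_succ, List.cons_append, FreeGroup.reduce.cons, ih]
        cases j with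
        | zero => cases k <;> simp [List.replicate_succ]
        | succ j => simp [List.replicate_succ]
    rw [h2, h3]
  have hinj : Function.Injective (fun j : ℕ =>
      (FreeGroup.mk (List.replicate j (1, true) ++ suf k) : F2)) := by
    intro i j hij
    have h2 := congrArg FreeGroup.toWord hij
    simp only [h1] at h2
    have h3 := congrArg List.length h2
    simpa using h3
  refine (Set.infinite_range_of_injective hinj).mono ?_
  rintro _ ⟨j, rfl⟩
  change suf k <:+ _
  rw [h1]
  exact List.suffix_append _ _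

theorem F2_ends (n : ℕ) : HasEnds F2 F2 n := by
  refine ⟨fun i => sufSet i, ?_, fun i => ⟨sufSet_infinite _, sufSet_AInv _⟩⟩
  intro i j hij
  rw [Set.disjoint_left]
  intro g h1 h2
  have hne : (i : ℕ) ≠ j := fun h => hij (Fin.ext h)
  rcases lt_or_gt_of_ne hne with h | h
  · exact suf_unique h1 h2 h
  · exact suf_unique h2 h1 h

theorem F2_ends' (n : ℕ) : HasEnds F2 (F2 ⧸ (⊥ : Subgroup F2)) n := by
  have e := HasEnds.of_equiv (f := MonoidHom.id F2) Function.surjective_id
    (QuotientGroup.quotientBot (G := F2)).symm.toEquiv (fun g x => rfl) (n := n)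
  exact e.mp (F2_ends n)

/-- The presented group without relators. -/
def freeEquiv : Chk.PG 2 [] ≃* F2 :=
  let φ : Chk.PG 2 [] →* F2 := Chk.homPG (Chk.fg 2) (by intro r hr; simp at hr)
  let ψ : F2 →* Chk.PG 2 [] := FreeGroup.lift PresentedGroup.of
  have hφ : ∀ i, φ (Chk.pg 2 [] i) = if i < 2 then Chk.fg 2 i else 1 := fun i =>
    Chk.homPG_pg (Chk.fg 2) _ i
  have hφ' : ∀ i : Fin 2, φ (PresentedGroup.of i) = FreeGroup.of i := by
    intro i
    have h1 : (PresentedGroup.of i : Chk.PG 2 []) = Chk.pg 2 [] i := by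
      unfold Chk.pg
      rw [dif_pos i.2]
    rw [h1, hφ, if_pos i.2]
    unfold Chk.fg
    rw [dif_pos i.2]
  MonoidHom.toMulEquiv φ ψ (by
    apply PresentedGroup.ext
    intro i
    rw [MonoidHom.comp_apply, hφ', MonoidHom.id_apply]
    exact FreeGroup.lift_apply_of) (by
    apply FreeGroup.ext_hom
    intro i
    rw [MonoidHom.comp_apply, MonoidHom.id_apply]
    have : ψ (FreeGroup.of i) = PresentedGroup.of i := FreeGroup.lift_apply_of
    rw [this, hφ'])

end Pool.Agent.H.MP_ee9c6f_al.E2
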