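import Pool.Agent.H.MP_ee9c6f_al.E2.Chain
import Pool.Agent.H.MP_ee9c6f_al.E2.Infty

/-!
MP_ee9c6f_al, genus 2 (helper40). The numbers of relative ends of the finitely generated subgroups of
the mapping class group of genus 2.
-/

set_option autoImplicit false

namespace Pool.Agent.H.MP_ee9c6f_al.E2

open Chk

/-! ### The presentation of Birman and Hilden -/

/-- The hyperelliptic involution `a₀a₁a₂a₃a₄a₄a₃a₂a₁a₀`. -/
def hyp : FreeGroup (Fin 5) :=
  FreeGroup.of 0 * FreeGroup.of 1 * FreeGroup.of 2 * FreeGroup.of 3 * FreeGroup.of 4 *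
    FreeGroup.of 4 * FreeGroup.of 3 * FreeGroup.of 2 * FreeGroup.of 1 * FreeGroup.of 0

/-- The relators of the presentation of Birman and Hilden of the mapping class group of genus 2. -/
def modRels : Set (FreeGroup (Fin 5)) :=
  {w | ∃ i j : Fin 5, (i : ℕ) + 1 = j ∧ w = FreeGroup.of i * FreeGroup.of j * FreeGroup.of i *
      (FreeGroup.of j * FreeGroup.of i * FreeGroup.of j)⁻¹} ∪
    {w | ∃ i j : Fin 5, (i : ℕ) + 1 < j ∧
      w = FreeGroup.of i * FreeGroup.of j * (FreeGroup.of j * FreeGroup.of i)⁻¹} ∪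
    {(FreeGroup.of 0 * FreeGroup.of 1 * FreeGroup.of 2 * FreeGroup.of 3 * FreeGroup.of 4) ^ 6,
      hyp ^ 2} ∪
    {w | ∃ i : Fin 5, w = hyp * FreeGroup.of i * (FreeGroup.of i * hyp)⁻¹}

/-- The mapping class group of genus 2, by the presentation of Birman and Hilden. -/
abbrev Mod2 : Type := PresentedGroup modRels

theorem relSet_eq : relSet 5 relM = modRels := by
  have f0 : fg 5 0 = FreeGroup.of 0 := rfl
  have f1 : fg 5 1 = FreeGroup.of 1 := rfl
  have f2 : fg 5 2 = FreeGroup.of 2 := rfl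
  have f3 : fg 5 3 = FreeGroup.of 3 := rfl
  have f4 : fg 5 4 = FreeGroup.of 4 := rfl
  apply Set.Subset.antisymm
  · rintro _ ⟨r, hr, rfl⟩
    fin_cases hr
    · left; left; left
      refine ⟨0, 1, rfl, ?_⟩
      simp [ev, val, f0, f1, mul_assoc]
    · left; left; left
      refine ⟨1, 2, rfl, ?_⟩
      simp [ev, val, f2, f1, mul_assoc]
    · left; left; left
      refine ⟨2, 3, rfl, ?_⟩
      simp [ev, val, f2, f3, mul_assoc]
    · left; left; left
      refine ⟨3, 4, rfl, ?_⟩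
      simp [ev, val, f4, f3, mul_assoc]
    · left; left; right
      refine ⟨0, 2, by decide, ?_⟩
      simp [ev, val, f0, f2, mul_assoc]
    · left; left; right
      refine ⟨0, 3, by decide, ?_⟩
      simp [ev, val, f0, f3, mul_assoc]
    · left; left; right
      refine ⟨0, 4, by decide, ?_⟩
      simp [ev, val, f0, f4, mul_assoc]
    · left; left; right
      refine ⟨1, 3, by decide, ?_⟩
      simp [ev, val, f1, f3, mul_assoc]
    · left; left; right
      refine ⟨1, 4, by decide, ?_⟩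
      simp [ev, val, f1, f4, mul_assoc]
    · left; left; right
      refine ⟨2, 4, by decide, ?_⟩
      simp [ev, val, f2, f4, mul_assoc]
    · left; right; left
      simp [ev, val, f0, f1, f2, f3, f4, mul_assoc, pow_succ]
    · left; right; right
      simp [ev, val, f0, f1, f2, f3, f4, mul_assoc, pow_succ, hyp]
    · right
      refine ⟨0, ?_⟩
      simp [ev, val, f0, f1, f2, f3, f4, mul_assoc, hyp]
    · right
      refine ⟨1, ?_⟩
      simp [ev, val, f0, f1, f2, f3, f4, mul_assoc, hyp]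
    · right
      refine ⟨2, ?_⟩
      simp [ev, val, f0, f1, f2, f3, f4, mul_assoc, hyp]
    · right
      refine ⟨3, ?_⟩
      simp [ev, val, f0, f1, f2, f3, f4, mul_assoc, hyp]
    · right
      refine ⟨4, ?_⟩
      simp [ev, val, f0, f1, f2, f3, f4, mul_assoc, hyp]
  · rintro _ (((⟨i, j, hij, rfl⟩ | ⟨i, j, hij, rfl⟩) | (rfl | rfl)) | ⟨i, rfl⟩)
    · have key : ∀ i j : Fin 5, (i : ℕ) + 1 = j → [2 * (i : ℕ), 2 * j, 2 * i, 2 * j + 1, 2 * i + 1,
          2 * j + 1] ∈ relM := by decide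
      refine ⟨_, key i j hij, ?_⟩
      have e : ∀ i : Fin 5, fg 5 i = FreeGroup.of i := fun i => by
        unfold fg
        rw [dif_pos i.2]
      have e1 : ∀ i : Fin 5, val (fg 5) (2 * (i : ℕ)) = FreeGroup.of i := fun i => by
        unfold val
        rw [if_pos (by omega), show 2 * (i : ℕ) / 2 = i by omega, e]
      have e2 : ∀ i : Fin 5, val (fg 5) (2 * (i : ℕ) + 1) = (FreeGroup.of i)⁻¹ := fun i => by
        unfold val
        rw [if_neg (by omega), show (2 * (i : ℕ) + 1) / 2 = i by omega, e]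
      simp only [ev, e1, e2]
      group
    · have key : ∀ i j : Fin 5, (i : ℕ) + 1 < j → [2 * (i : ℕ), 2 * j, 2 * i + 1, 2 * j + 1] ∈
          relM := by decide
      refine ⟨_, key i j hij, ?_⟩
      have e : ∀ i : Fin 5, fg 5 i = FreeGroup.of i := fun i => by
        unfold fg
        rw [dif_pos i.2]
      have e1 : ∀ i : Fin 5, val (fg 5) (2 * (i : ℕ)) = FreeGroup.of i := fun i => by
        unfold val
        rw [if_pos (by omega), show 2 * (i : ℕ) / 2 = i by omega, e]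
      have e2 : ∀ i : Fin 5, val (fg 5) (2 * (i : ℕ) + 1) = (FreeGroup.of i)⁻¹ := fun i => by
        unfold val
        rw [if_neg (by omega), show (2 * (i : ℕ) + 1) / 2 = i by omega, e]
      simp only [ev, e1, e2]
      group
    · refine ⟨[0, 2, 4, 6, 8, 0, 2, 4, 6, 8, 0, 2, 4, 6, 8, 0, 2, 4, 6, 8, 0, 2, 4, 6, 8, 0, 2, 4,
        6, 8], by decide, ?_⟩
      simp [ev, val, f0, f1, f2, f3, f4, mul_assoc, pow_succ]
    · refine ⟨[0, 2, 4, 6, 8, 8, 6, 4, 2, 0, 0, 2, 4, 6, 8, 8, 6, 4, 2, 0], by decide, ?_⟩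
      simp [ev, val, f0, f1, f2, f3, f4, mul_assoc, pow_succ, hyp]
    · refine ⟨[0, 2, 4, 6, 8, 8, 6, 4, 2, 0, 2 * (i : ℕ), 1, 3, 5, 7, 9, 9, 7, 5, 3, 1,
        2 * (i : ℕ) + 1], by revert i; decide, ?_⟩
      fin_cases i <;> simp [ev, val, f0, f1, f2, f3, f4, mul_assoc, hyp]

theorem arrow_mod2 : Arrow Mod2 (PG 5 relM) := by
  have h := Arrow.refl (PG 5 relM)
  unfold PG at h ⊢
  unfold Mod2
  rw [← relSet_eq]
  exact h

/-! ### The set of values -/

section Values

variable {Γ : Type} [Group Γ] {S : Set Γ}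

theorem relEnds_eq_of_forall (hfin : S.Finite) (hS : Subgroup.closure S = ⊤) (H : Subgroup Γ)
    (n : ℕ) (h : ∀ k, HasEnds Γ (Γ ⧸ H) k ↔ k ≤ n) : relEnds S H = n := by
  apply le_antisymm
  · by_contra hlt
    rw [not_le] at hlt
    have h1 : ((n + 1 : ℕ) : ℕ∞) ≤ relEnds S H := by
      have := Order.add_one_le_of_lt hlt
      exact_mod_cast this
    rw [le_relEnds_iff hfin hS, h] at h1
    omega
  · rw [le_relEnds_iff hfin hS, h]

theorem relEnds_eq_top (hfin : S.Finite) (hS : Subgroup.closure S = ⊤) (H : Subgroup Γ)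
    (h : ∀ k, HasEnds Γ (Γ ⧸ H) k) : relEnds S H = ⊤ := by
  rw [ENat.eq_top_iff_forall_ge]
  intro k
  rw [le_relEnds_iff hfin hS]
  exact h k

end Values

theorem exists_pos (n : ℕ) (hn : n ≠ 0) : ∃ H : Subgroup Mod2, H.FG ∧
    ∀ k, HasEnds Mod2 (Mod2 ⧸ H) k ↔ k ≤ n := by
  obtain ⟨m, rfl⟩ := Nat.exists_eq_succ_of_ne_zero hn
  obtain ⟨P, hP, h⟩ := exists_ends m
  obtain ⟨H, hH, h'⟩ := (arrow_mod2.trans arrow_M2_Su).ends hP
  exact ⟨H, hH, fun k => (h' k).trans (h k)⟩

theorem exists_infty : ∃ H : Subgroup Mod2, H.FG ∧ ∀ k, HasEnds Mod2 (Mod2 ⧸ H) k := by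
  have h1 : Arrow Mod2 F2 := (((arrow_mod2.trans arrowA).trans arrowB).trans arrowI).trans
    (arrow_of_equiv freeEquiv)
  obtain ⟨H, hH, h'⟩ := h1.ends (P := ⊥) Subgroup.FG.bot
  exact ⟨H, hH, fun k => (h' k).mpr (F2_ends' k)⟩

theorem exists_zero : ∃ H : Subgroup Mod2, H.FG ∧ ∀ k, HasEnds Mod2 (Mod2 ⧸ H) k ↔ k ≤ 0 := by
  refine ⟨⊤, ?_, fun k => ⟨?_, ?_⟩⟩
  · have : Group.FG Mod2 := by
      rw [Group.fg_iff]
      exact ⟨Set.range PresentedGroup.of, PresentedGroup.closure_range_of _,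
        Set.finite_range _⟩
    exact Group.fg_def.mp this
  · rintro ⟨U, -, hU⟩
    by_contra hk
    have hk' : 0 < k := by omega
    apply (hU ⟨0, hk'⟩).1
    have : Subsingleton (Mod2 ⧸ (⊤ : Subgroup Mod2)) := QuotientGroup.subsingleton_quotient_top
    exact Set.toFinite _
  · intro hk
    obtain rfl : k = 0 := by omega
    exact ⟨fun i => i.elim0, fun i => i.elim0, fun i => i.elim0⟩

/-- The set of values in genus 2. -/
theorem genus_two (S : Set Mod2) (hfin : S.Finite) (hS : Subgroup.closure S = ⊤) (v : ℕ∞) :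
    ∃ H : Subgroup Mod2, H.FG ∧ relEnds S H = v := by
  induction v using ENat.recTopCoe with
  | top =>
    obtain ⟨H, hH, h⟩ := exists_infty
    exact ⟨H, hH, relEnds_eq_top hfin hS H h⟩
  | coe n =>
    by_cases hn : n = 0
    · subst hn
      obtain ⟨H, hH, h⟩ := exists_zero
      exact ⟨H, hH, relEnds_eq_of_forall hfin hS H 0 h⟩
    · obtain ⟨H, hH, h⟩ := exists_pos n hn
      exact ⟨H, hH, relEnds_eq_of_forall hfin hS H n h⟩

end Pool.Agent.H.MP_ee9c6f_al.E2
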