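import Pool.Agent.H.MP_ee9c6f_al.E2.Dual

/-!
MP_ee9c6f_al, genus 2 (helper40). A subgroup of the surface group of genus 2 generated by `k`
elements has at most `k + 1` relative ends.
-/

set_option autoImplicit false

namespace Pool.Agent.H.MP_ee9c6f_al.E2

open Wr Su Pointwise

theorem la_mem {k : ℕ} {P : Subgroup Su} (c : Fin k → Su)
    (hP : P = Subgroup.closure (Set.range c)) {p : Su} (hp : p ∈ P) :
    la p (bp P) ∈ Submodule.span (ZMod 2) (Set.range fun i => la (c i) (bp P)) := by
  have h : ∀ q, q ∈ Subgroup.closure (Set.range c) → q ∈ P ∧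
      la q (bp P) ∈ Submodule.span (ZMod 2) (Set.range fun i => la (c i) (bp P)) := by
    intro q hq
    induction hq using Subgroup.closure_induction with
    | mem q hq =>
      refine ⟨by rw [hP]; exact Subgroup.subset_closure hq, ?_⟩
      obtain ⟨i, rfl⟩ := hq
      exact Submodule.subset_span ⟨i, rfl⟩
    | one =>
      refine ⟨one_mem _, ?_⟩
      rw [la_one]
      exact Submodule.zero_mem _
    | mul a b _ _ iha ihb =>
      refine ⟨mul_mem iha.1 ihb.1, ?_⟩
      rw [la_mul, (smul_bp_iff b).mpr ihb.1]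
      exact Submodule.add_mem _ iha.2 ihb.2
    | inv a _ ih =>
      refine ⟨inv_mem ih.1, ?_⟩
      rw [la_inv, (smul_bp_iff a⁻¹).mpr (inv_mem ih.1)]
      exact ih.2
  rw [hP] at hp
  exact (h p hp).2

theorem Lam_le {k : ℕ} {P : Subgroup Su} (c : Fin k → Su)
    (hP : P = Subgroup.closure (Set.range c)) :
    Lam P ≤ Submodule.span (ZMod 2) (Set.range fun i => la (c i) (bp P)) := by
  unfold Lam
  rw [Submodule.span_le]
  rintro _ ⟨p, hp, rfl⟩
  exact la_mem c hP hp

/-- A function with zero coboundary is constant. -/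
theorem const_of_cob {P : Subgroup Su} (χ : Su ⧸ P → ZMod 2) (h : cob χ = 0) (u v : Su ⧸ P) :
    χ u = χ v := by
  have h1 : ∀ (i : Fin 4) (a : Su ⧸ P), χ (gen i • a) = χ a := by
    intro i a
    have := congrFun h (a, i)
    rw [cob_apply, Pi.zero_apply, add_eq_zero_iff_eq_neg, ZMod.neg_eq_self_mod_two] at this
    exact this.symm
  have h2 : ∀ (s : Su) (a : Su ⧸ P), χ (s • a) = χ a := by
    intro s
    have hs : s ∈ Subgroup.closure (Set.range gen) := by rw [closure_gen]; trivial
    induction hs using Subgroup.closure_induction with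
    | mem s hs =>
      obtain ⟨i, rfl⟩ := hs
      exact h1 i
    | one => intro a; rw [one_smul]
    | mul a b _ _ iha ihb => intro t; rw [mul_smul, iha, ihb]
    | inv a _ ih =>
      intro t
      have := ih (a⁻¹ • t)
      rw [smul_inv_smul] at this
      exact this.symm
  obtain ⟨s, rfl⟩ := MulAction.exists_smul_eq Su v u
  exact h2 s v

theorem upper {k : ℕ} {P : Subgroup Su} (c : Fin k → Su)
    (hP : P = Subgroup.closure (Set.range c)) {n : ℕ} (h : HasEnds Su (Su ⧸ P) n) :
    n ≤ k + 1 := by
  classical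
  rcases Nat.eq_zero_or_pos n with rfl | hn
  · omega
  obtain ⟨m, rfl⟩ : ∃ m, n = m + 1 := ⟨n - 1, by omega⟩
  obtain ⟨U, hdis, hU⟩ := h
  let ind : Set (Su ⧸ P) → Su ⧸ P → ZMod 2 := fun V v => if v ∈ V then 1 else 0
  let φ : Fin m → Su ⧸ P → ZMod 2 := fun i => ind (U i.castSucc)
  have hφ : ∀ i, (Function.support (cob (φ i))).Finite := by
    intro i
    have h1 : (⋃ j : Fin 4, (fun v : Su ⧸ P => (v, j)) ''
        symmDiff ((gen j)⁻¹ • U i.castSucc) (U i.castSucc)).Finite :=
      Set.finite_iUnion fun j => ((hU i.castSucc).2 (gen j)⁻¹).image _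
    refine h1.subset ?_
    rintro ⟨v, j⟩ hv
    refine Set.mem_iUnion.mpr ⟨j, v, ?_, rfl⟩
    rw [Function.mem_support, cob_apply] at hv
    change (if v ∈ U i.castSucc then (1 : ZMod 2) else 0) +
      (if gen j • v ∈ U i.castSucc then (1 : ZMod 2) else 0) ≠ 0 at hv
    rw [Set.mem_symmDiff, Set.mem_inv_smul_set_iff]
    by_cases h2 : v ∈ U i.castSucc <;> by_cases h3 : gen j • v ∈ U i.castSucc
    · rw [if_pos h2, if_pos h3] at hv
      exact absurd (by decide) hv
    · exact Or.inr ⟨h2, h3⟩
    · exact Or.inl ⟨h3, h2⟩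
    · rw [if_neg h2, if_neg h3] at hv
      exact absurd (by decide) hv
  set vec : Fin m → Qt (Su ⧸ P) := fun i => mkQt (cob (φ i)) with hvec
  have hmem : ∀ i, vec i ∈ Submodule.span (ZMod 2) (Set.range fun i => la (c i) (bp P)) :=
    fun i => Lam_le c hP (cob_mem_Lam (φ i) (hφ i))
  have hli : LinearIndependent (ZMod 2) vec := by
    rw [Fintype.linearIndependent_iff]
    intro g hg
    -- the combination
    set Φ : Su ⧸ P → ZMod 2 := ∑ i, g i • φ i with hΦ
    have h1 : mkQt (cob Φ) = 0 := by
      rw [hΦ, map_sum, map_sum, ← hg]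
      apply Finset.sum_congr rfl
      intro i _
      rw [map_smul, map_smul]
    rw [mkQt_eq_zero] at h1
    obtain ⟨ψ, hψ, hψ'⟩ := h1
    have h2 : cob (Φ - ψ) = 0 := by rw [map_sub, hψ', sub_self]
    have hval : ∀ i, ∀ v ∈ U (Fin.castSucc i), Φ v = g i := by
      intro i v hv
      rw [hΦ, Finset.sum_apply, Finset.sum_eq_single i]
      · change g i • (if v ∈ U i.castSucc then (1 : ZMod 2) else 0) = g i
        rw [if_pos hv, smul_eq_mul, mul_one]
      · intro j _ hj
        change g j • (if v ∈ U j.castSucc then (1 : ZMod 2) else 0) = 0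
        rw [if_neg, smul_zero]
        intro hv'
        refine Set.disjoint_left.mp (hdis i.castSucc j.castSucc ?_) hv hv'
        intro e
        exact hj (Fin.castSucc_injective m e).symm
      · simp
    have hval' : ∀ v ∈ U (Fin.last m), Φ v = 0 := by
      intro v hv
      rw [hΦ, Finset.sum_apply]
      apply Finset.sum_eq_zero
      intro j _
      change g j • (if v ∈ U j.castSucc then (1 : ZMod 2) else 0) = 0
      rw [if_neg, smul_zero]
      intro hv'
      exact Set.disjoint_left.mp (hdis _ _ (Fin.castSucc_lt_last j).ne') hv hv'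
    have hex : ∀ i, ∃ v ∈ U i, ψ v = 0 := by
      intro i
      obtain ⟨v, hv, hv'⟩ := ((hU i).1.sdiff hψ).nonempty
      exact ⟨v, hv, Function.notMem_support.mp hv'⟩
    intro i
    obtain ⟨v, hv, hv'⟩ := hex i.castSucc
    obtain ⟨u, hu, hu'⟩ := hex (Fin.last m)
    have h3 := const_of_cob _ h2 v u
    rw [Pi.sub_apply, Pi.sub_apply, hval i v hv, hval' u hu, hv', hu', sub_zero, sub_zero] at h3
    exact h3
  have h1 : Submodule.span (ZMod 2) (Set.range vec) ≤
      Submodule.span (ZMod 2) (Set.range fun i => la (c i) (bp P)) := by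
    rw [Submodule.span_le]
    rintro _ ⟨i, rfl⟩
    exact hmem i
  have h2 := finrank_span_eq_card hli
  have h3 : Module.finrank (ZMod 2)
      (Submodule.span (ZMod 2) (Set.range fun i => la (c i) (bp P))) ≤ k := by
    have := finrank_range_le_card (R := ZMod 2) (fun i => la (c i) (bp P))
    rw [Fintype.card_fin] at this
    exact this
  have : FiniteDimensional (ZMod 2)
      (Submodule.span (ZMod 2) (Set.range fun i => la (c i) (bp P))) :=
    FiniteDimensional.span_of_finite _ (Set.finite_range _)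
  have h4 := Submodule.finrank_mono h1
  rw [h2, Fintype.card_fin] at h4
  omega

end Pool.Agent.H.MP_ee9c6f_al.E2
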