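import Pool.Agent.H.MP_ee9c6f_al.E2.Arrow

/-!
MP_ee9c6f_al, genus 2 (helper40). Permutations with labels (wreath products), and the criterion for
the kernel of the label homomorphism on a stabiliser to be finitely generated.
-/

set_option autoImplicit false

namespace Pool.Agent.H.MP_ee9c6f_al.E2

/-- A permutation of `X` together with a label in `Q` at each point. -/
@[ext]
structure Wr (Q X : Type*) where
  /-- the permutation -/
  perm : Equiv.Perm X
  /-- the labels -/
  lab : X → Q

namespace Wr

variable {Q X : Type*} [Group Q]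

instance : Mul (Wr Q X) := ⟨fun a b => ⟨a.perm * b.perm, fun x => a.lab (b.perm x) * b.lab x⟩⟩

instance : One (Wr Q X) := ⟨⟨1, fun _ => 1⟩⟩

instance : Inv (Wr Q X) := ⟨fun a => ⟨a.perm⁻¹, fun x => (a.lab (a.perm⁻¹ x))⁻¹⟩⟩

theorem mul_perm (a b : Wr Q X) : (a * b).perm = a.perm * b.perm := rfl

theorem mul_lab (a b : Wr Q X) (x : X) : (a * b).lab x = a.lab (b.perm x) * b.lab x := rfl

theorem one_perm : (1 : Wr Q X).perm = 1 := rfl

theorem one_lab (x : X) : (1 : Wr Q X).lab x = 1 := rfl

theorem inv_perm (a : Wr Q X) : (a⁻¹).perm = a.perm⁻¹ := rfl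

theorem inv_lab (a : Wr Q X) (x : X) : (a⁻¹).lab x = (a.lab (a.perm⁻¹ x))⁻¹ := rfl

instance : Group (Wr Q X) where
  mul_assoc a b c := by
    apply Wr.ext
    · rfl
    · funext x
      simp only [mul_lab, mul_perm, Equiv.Perm.coe_mul, Function.comp_apply, mul_assoc]
  one_mul a := by
    apply Wr.ext
    · rfl
    · funext x
      simp [mul_lab, one_lab]
  mul_one a := by
    apply Wr.ext
    · rfl
    · funext x
      simp [mul_lab, one_lab, one_perm]
  inv_mul_cancel a := by
    apply Wr.ext
    · exact inv_mul_cancel a.perm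
    · funext x
      simp [mul_lab, one_lab, inv_lab]

omit [Group Q] in
theorem ext_iff' {a b : Wr Q X} (h : ∀ x, a.perm x = b.perm x ∧ a.lab x = b.lab x) : a = b :=
  Wr.ext (Equiv.ext fun x => (h x).1) (funext fun x => (h x).2)

/-- The homomorphism to the permutations. -/
def toPerm : Wr Q X →* Equiv.Perm X where
  toFun := Wr.perm
  map_one' := rfl
  map_mul' _ _ := rfl

section Stab

variable {G : Type*} [Group G] (Φ : G →* Wr Q X) (x₀ : X)

/-- The stabiliser of a point. -/
def stab : Subgroup G where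
  carrier := {g | (Φ g).perm x₀ = x₀}
  one_mem' := by
    change (Φ 1).perm x₀ = x₀
    rw [map_one]
    rfl
  mul_mem' {a b} ha hb := by
    change (Φ (a * b)).perm x₀ = x₀
    rw [map_mul, mul_perm, Equiv.Perm.mul_apply, show (Φ b).perm x₀ = x₀ from hb]
    exact ha
  inv_mem' {a} ha := by
    change (Φ a⁻¹).perm x₀ = x₀
    rw [map_inv, inv_perm, Equiv.Perm.inv_eq_iff_eq]
    exact (show (Φ a).perm x₀ = x₀ from ha).symm

theorem mem_stab {g : G} : g ∈ stab Φ x₀ ↔ (Φ g).perm x₀ = x₀ := Iff.rfl

/-- The label homomorphism on the stabiliser. -/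
def label : stab Φ x₀ →* Q where
  toFun g := (Φ (g : G)).lab x₀
  map_one' := by
    change (Φ 1).lab x₀ = 1
    rw [map_one]
    rfl
  map_mul' a b := by
    change (Φ ((a : G) * b)).lab x₀ = _
    rw [map_mul, mul_lab, show (Φ (b : G)).perm x₀ = x₀ from b.2]

theorem stab_finiteIndex [Finite X] : (stab Φ x₀).FiniteIndex := by
  have hinj : Function.Injective (fun q : G ⧸ stab Φ x₀ => (Φ q.out).perm x₀) := by
    intro p q hpq
    change (Φ p.out).perm x₀ = (Φ q.out).perm x₀ at hpq
    rw [← p.out_eq', ← q.out_eq', QuotientGroup.eq, mem_stab, map_mul, map_inv, mul_perm,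
      inv_perm, Equiv.Perm.mul_apply, ← hpq]
    exact Equiv.symm_apply_apply _ _
  have : Finite (G ⧸ stab Φ x₀) := Finite.of_injective _ hinj
  exact Subgroup.finiteIndex_of_finite_quotient

end Stab

end Wr

open Wr

/-- If the Schreier generators with respect to the representatives `r` lie in `G₀`, then so does the
stabiliser. -/
theorem stab_le {G Q X : Type*} [Group G] [Group Q] (Φ : G →* Wr Q X) (x₀ : X) {S : Set G}
    (hS : Subgroup.closure S = ⊤) (G₀ : Subgroup G) (r : X → G) (hr : r x₀ = 1)
    (h : ∀ s ∈ S, ∀ x, r ((Φ s).perm x) * s * (r x)⁻¹ ∈ G₀) : stab Φ x₀ ≤ G₀ := by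
  have key : ∀ g : G, ∀ x, r ((Φ g).perm x) * g * (r x)⁻¹ ∈ G₀ := by
    intro g
    have hg : g ∈ Subgroup.closure S := by rw [hS]; trivial
    induction hg using Subgroup.closure_induction with
    | mem s hs => exact h s hs
    | one =>
      intro x
      rw [map_one, one_perm, Equiv.Perm.one_apply, mul_one, mul_inv_cancel]
      exact G₀.one_mem
    | mul a b _ _ iha ihb =>
      intro x
      rw [map_mul, mul_perm, Equiv.Perm.mul_apply]
      have := G₀.mul_mem (iha ((Φ b).perm x)) (ihb x)
      convert this using 1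
      group
    | inv a _ ih =>
      intro x
      have h1 := G₀.inv_mem (ih ((Φ a).perm⁻¹ x))
      rw [show (Φ a).perm ((Φ a).perm⁻¹ x) = x from Equiv.apply_symm_apply _ _] at h1
      rw [map_inv, inv_perm]
      convert h1 using 1
      group
  intro m hm
  have := key m x₀
  rw [(mem_stab Φ x₀).mp hm, hr] at this
  simpa using this

/-- A criterion for an arrow. The group `Q` is given by a presentation; `Φ` is a homomorphism to the
wreath product. -/
theorem arrow_of_wr {G X : Type} [Group G] [Finite X] {α : Type} {rels : Set (FreeGroup α)}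
    (Φ : G →* Wr (PresentedGroup rels) X) (x₀ : X) {S : Set G} (hS : Subgroup.closure S = ⊤)
    (y : α → G) (T : Set G) (hT : T.Finite) (r : X → G) (hr : r x₀ = 1)
    (hy1 : ∀ a, (Φ (y a)).perm x₀ = x₀) (hy2 : ∀ a, (Φ (y a)).lab x₀ = PresentedGroup.of a)
    (hT1 : ∀ t ∈ T, (Φ t).perm x₀ = x₀) (hT2 : ∀ t ∈ T, (Φ t).lab x₀ = 1)
    (hconj : ∀ a, ∀ t ∈ T, y a * t * (y a)⁻¹ ∈ Subgroup.closure T ∧
      (y a)⁻¹ * t * y a ∈ Subgroup.closure T)
    (hrel : ∀ w ∈ rels, FreeGroup.lift y w ∈ Subgroup.closure T)
    (hcos : ∀ s ∈ S, ∀ x, r ((Φ s).perm x) * s * (r x)⁻¹ ∈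
      Subgroup.closure (Set.range y ∪ T)) :
    Arrow G (PresentedGroup rels) := by
  classical
  set L := Subgroup.closure T with hL
  set G₀ := Subgroup.closure (Set.range y ∪ T) with hG₀
  have hyM : ∀ a, y a ∈ stab Φ x₀ := hy1
  have hLM : L ≤ stab Φ x₀ := (Subgroup.closure_le _).mpr hT1
  have hMG : stab Φ x₀ ≤ G₀ := stab_le Φ x₀ hS G₀ r hr hcos
  -- `G₀` normalises `L`
  have hnorm : G₀ ≤ Subgroup.normalizer (L : Set G) := by
    rw [hG₀, Subgroup.closure_le]
    rintro g (⟨a, rfl⟩ | hg)
    · have h1 : L ≤ L.comap (MulAut.conj (y a)).toMonoidHom := by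
        rw [hL, Subgroup.closure_le]
        intro t ht
        exact (hconj a t ht).1
      have h2 : L ≤ L.comap (MulAut.conj (y a)⁻¹).toMonoidHom := by
        rw [hL, Subgroup.closure_le]
        intro t ht
        have := (hconj a t ht).2
        change (y a)⁻¹ * t * (y a)⁻¹⁻¹ ∈ L
        rwa [inv_inv]
      change y a ∈ Subgroup.normalizer (L : Set G)
      rw [Subgroup.mem_normalizer_iff]
      intro x
      constructor
      · intro hx
        exact h1 hx
      · intro hx
        have h3 : (y a)⁻¹ * (y a * x * (y a)⁻¹) * (y a)⁻¹⁻¹ ∈ L := h2 hx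
        have e : (y a)⁻¹ * (y a * x * (y a)⁻¹) * (y a)⁻¹⁻¹ = x := by group
        rwa [e] at h3
    · exact Subgroup.le_normalizer (Subgroup.subset_closure hg)
  let f := label Φ x₀
  have hfy : ∀ a, f ⟨y a, hyM a⟩ = PresentedGroup.of a := hy2
  refine ⟨stab Φ x₀, inferInstance, (stab Φ x₀).subtype, f, Subtype.val_injective, ?_, ?_, ?_⟩
  · rw [Subgroup.range_subtype]
    exact stab_finiteIndex Φ x₀
  · -- surjective
    intro q
    have hq : q ∈ Subgroup.closure (Set.range (PresentedGroup.of (rels := rels))) := by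
      rw [PresentedGroup.closure_range_of]
      trivial
    have h1 : Subgroup.closure (Set.range (PresentedGroup.of (rels := rels))) ≤ f.range := by
      rw [Subgroup.closure_le]
      rintro _ ⟨a, rfl⟩
      exact ⟨⟨y a, hyM a⟩, hfy a⟩
    exact h1 hq
  · -- the kernel is `L`
    apply FG.of_map_injective (stab Φ x₀).subtype_injective
    have h1 : f.ker.map (stab Φ x₀).subtype = L := by
      apply le_antisymm
      · rintro _ ⟨⟨m, hm⟩, hm', rfl⟩
        change m ∈ L
        -- the subgroup `L` of `G₀`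
        let L' : Subgroup G₀ := L.subgroupOf G₀
        have hLG : L ≤ G₀ := Subgroup.closure_mono Set.subset_union_right
        have hN : L'.Normal := by
          constructor
          rintro ⟨n, hn⟩ hn' ⟨g, hg⟩
          have := (Subgroup.mem_normalizer_iff.mp (hnorm hg) n).mp hn'
          exact this
        have hyG : ∀ a, y a ∈ G₀ := fun a => Subgroup.subset_closure (Or.inl ⟨a, rfl⟩)
        let y' : α → G₀ := fun a => ⟨y a, hyG a⟩
        -- the homomorphism from the presented group to `G₀ / L`
        have hrel' : ∀ w ∈ rels, FreeGroup.lift (fun a => (y' a : G₀ ⧸ L')) w = 1 := by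
          intro w hw
          have h2 : FreeGroup.lift (fun a => (y' a : G₀ ⧸ L')) =
              (QuotientGroup.mk' L').comp (FreeGroup.lift y') := by
            apply FreeGroup.ext_hom
            intro a
            simp
          have h3 : G₀.subtype.comp (FreeGroup.lift y') = FreeGroup.lift y := by
            apply FreeGroup.ext_hom
            intro a
            simp [y']
          rw [h2, MonoidHom.comp_apply, QuotientGroup.mk'_apply, QuotientGroup.eq_one_iff]
          change ((FreeGroup.lift y' w : G₀) : G) ∈ L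
          have h4 := hrel w hw
          rw [← h3] at h4
          exact h4
        let θ : PresentedGroup rels →* G₀ ⧸ L' := PresentedGroup.toGroup hrel'
        have hθ : ∀ a, θ (PresentedGroup.of a) = (y' a : G₀ ⧸ L') := fun a =>
          PresentedGroup.toGroup.of hrel'
        -- `θ ∘ f` is the projection
        have hf' : ∀ (g : G) (hg : g ∈ G₀), ∃ hg' : g ∈ stab Φ x₀,
            θ (f ⟨g, hg'⟩) = ((⟨g, hg⟩ : G₀) : G₀ ⧸ L') := by
          intro g hg
          induction hg using Subgroup.closure_induction with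
          | mem z hz =>
            rcases hz with ⟨a, rfl⟩ | hz
            · refine ⟨hyM a, ?_⟩
              rw [hfy, hθ]
            · refine ⟨hT1 z hz, ?_⟩
              have h2 : f ⟨z, hT1 z hz⟩ = 1 := hT2 z hz
              rw [h2, map_one, eq_comm, QuotientGroup.eq_one_iff]
              exact Subgroup.subset_closure hz
          | one =>
            refine ⟨one_mem _, ?_⟩
            have h2 : (⟨1, one_mem _⟩ : stab Φ x₀) = 1 := rfl
            rw [h2, map_one, map_one]
            rfl
          | mul a b ha hb iha ihb =>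
            obtain ⟨ha', iha⟩ := iha
            obtain ⟨hb', ihb⟩ := ihb
            refine ⟨mul_mem ha' hb', ?_⟩
            have h2 : (⟨a * b, mul_mem ha' hb'⟩ : stab Φ x₀) = ⟨a, ha'⟩ * ⟨b, hb'⟩ := rfl
            rw [h2, map_mul, map_mul, iha, ihb]
            rfl
          | inv a ha iha =>
            obtain ⟨ha', iha⟩ := iha
            refine ⟨inv_mem ha', ?_⟩
            have h2 : (⟨a⁻¹, inv_mem ha'⟩ : stab Φ x₀) = (⟨a, ha'⟩)⁻¹ := rfl
            rw [h2, map_inv, map_inv, iha]
            rfl
        obtain ⟨hg', h5⟩ := hf' m (hMG hm)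
        have h6 : f ⟨m, hg'⟩ = 1 := hm'
        rw [h6, map_one, eq_comm, QuotientGroup.eq_one_iff] at h5
        exact h5
      · intro l hl
        refine ⟨⟨l, hLM hl⟩, ?_, rfl⟩
        have h2 : L ≤ f.ker.map (stab Φ x₀).subtype := by
          rw [hL, Subgroup.closure_le]
          intro t ht
          exact ⟨⟨t, hT1 t ht⟩, hT2 t ht, rfl⟩
        obtain ⟨⟨l', hl'⟩, hk, e⟩ := h2 hl
        change l' = l at e
        subst e
        exact hk
    rw [h1]
    exact (Subgroup.fg_iff _).mpr ⟨T, rfl, hT⟩

end Pool.Agent.H.MP_ee9c6f_al.E2
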